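import Mathlib

/-!
# The Piltz divisor problem: definitions used in the statements
-/

open MeasureTheory

namespace Pool.Agent.H592.Piltz

/-- `d_k(n)`, the number of ordered `k`-tuples of positive integers with product `n` -/
def dv (k n : ℕ) : ℕ := (ArithmeticFunction.zeta ^ k : ArithmeticFunction ℕ) n

/-- the sum of `d_k(n)` over `1 ≤ n ≤ x` -/
noncomputable def Dsum (k : ℕ) (x : ℝ) : ℝ := ∑ n ∈ Finset.Icc 1 ⌊x⌋₊, (dv k n : ℝ)

/-- `Δ_k(x)` for the main term `x P(log x)` -/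
noncomputable def Del (k : ℕ) (P : Polynomial ℝ) (x : ℝ) : ℝ := Dsum k x - x * P.eval (Real.log x)

/-- `x P(log x)` is the main term: the error is `O(x^a)` for some `a < 1` -/
def IsMain (k : ℕ) (P : Polynomial ℝ) : Prop := ∃ a C : ℝ, a < 1 ∧ ∀ x : ℝ, 1 ≤ x → |Del k P x| ≤ C * x ^ a

/-- the normalised error term `Δ_k(R^k) / R^((k-1)/2)`, which is `Δ_k(x) / x^((k-1)/(2k))` for `x = R^k` -/
noncomputable def E (k : ℕ) (P : Polynomial ℝ) (R : ℝ) : ℝ := Del k P (R ^ k) / R ^ (((k:ℝ) - 1) / 2)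

/-- the vector of the normalised error terms at the points `α i * r + t i` -/
noncomputable def Evec {d : ℕ} (k : Fin d → ℕ) (P : Fin d → Polynomial ℝ) (α t : Fin d → ℝ) (r : ℝ) : Fin d → ℝ :=
  fun i => E (k i) (P i) (α i * r + t i)

/-- the first `N` terms of the Voronoi series of `E k P` at `R`:
the sum over `m ≤ N` of `d_k(m) m^(-(k+1)/(2k)) cos(2 π k m^(1/k) R + (k-3) π / 4) / (π √k)` -/
noncomputable def VorSum (k N : ℕ) (R : ℝ) : ℝ :=
  ∑ m ∈ Finset.Icc 1 N, (dv k m : ℝ) * (m:ℝ) ^ (-(((k:ℝ) + 1) / (2 * k))) / (Real.pi * √(k:ℝ)) *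
    Real.cos (2 * Real.pi * k * (m:ℝ) ^ (1 / (k:ℝ)) * R + ((k:ℝ) - 3) * Real.pi / 4)

/-- the vector of the partial sums of the Voronoi series at the points `α i * r + t i` -/
noncomputable def Vvec {d : ℕ} (k : Fin d → ℕ) (α t : Fin d → ℝ) (N : ℕ) (r : ℝ) : Fin d → ℝ :=
  fun i => VorSum (k i) N (α i * r + t i)

/-- `μ` is the limit law of the Voronoi series: every continuous function of at most quadratic growth is `μ`-integrable, and
its mean values over the windows `[Y, Y+H]` along the `N`-th partial sums, taken uniformly in `Y` as `H → ∞` and then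
as `N → ∞`, tend to its `μ`-integral -/
def IsLaw {d : ℕ} (k : Fin d → ℕ) (α t : Fin d → ℝ) (μ : ProbabilityMeasure (Fin d → ℝ)) : Prop :=
  ∀ f : (Fin d → ℝ) → ℝ, Continuous f → (∃ C : ℝ, ∀ x, |f x| ≤ C * (1 + ∑ i, x i ^ 2)) →
    Integrable f (μ : Measure (Fin d → ℝ)) ∧ ∀ ε : ℝ, 0 < ε → ∃ N₀ : ℕ, ∀ N : ℕ, N₀ ≤ N → ∃ H₀ : ℝ, 0 < H₀ ∧
      ∀ Y H : ℝ, H₀ ≤ H → |(∫ r in Y..(Y+H), f (Vvec k α t N r)) - (∫ x, f x ∂(μ : Measure (Fin d → ℝ))) * H| ≤ ε * H

end Pool.Agent.H592.Piltz
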