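import Pool.Agent.H592.PD.B5
import Pool.Agent.H592.PD.Defs

/-!
# The Piltz divisor problem: the theorems in the notation of the statements
-/

open MeasureTheory Filter Topology Set
open Pool.Agent.H592.Piltz

namespace Pool.Agent.H592.PD

variable {d : ℕ}

lemma dv_cast (k n : ℕ) : Pool.Agent.H383.PZ.dk k n = (dv k n : ℝ) := rfl

lemma Dsum_eq (k : ℕ) (x : ℝ) : Dsum k x = Pool.Agent.H383.PZ.Dk k x := rfl

lemma isMain_iff (k : ℕ) (P : Polynomial ℝ) : IsMain k P ↔ Main k P := Iff.rfl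

lemma E_eq (k : ℕ) (P : Polynomial ℝ) {R : ℝ} (hR : 0 ≤ R) : E k P R = Pool.Agent.H383.PZ.Fk k P R := by
  unfold E Del Pool.Agent.H383.PZ.Fk Pool.Agent.H383.PZ.hk
  rw [Real.rpow_neg hR, ← div_eq_mul_inv, Dsum_eq]

lemma VorSum_eq (k N : ℕ) (α t r : ℝ) : VorSum k N (α * r + t) = ∑ m ∈ Finset.range (N+1), trm (cV k t N m) (fq k α m) r := by
  unfold VorSum
  have e : Finset.range (N+1) = insert 0 (Finset.Icc 1 N) := by
    ext m; simp; omega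
  rw [e, Finset.sum_insert (by simp), cV_zero, trm_zero, zero_add]
  apply Finset.sum_congr rfl
  intro m hm
  rw [Finset.mem_Icc] at hm
  unfold cV trm
  rw [if_pos hm.2]
  set y := (m:ℝ) ^ (1 / (k:ℝ)) with hy
  have e1 : Pool.Agent.H383.PZ.ok k * Pool.Agent.H387R2.Vor.ex (k * y * t) * Complex.exp (((fq k α m * r : ℝ) : ℂ) * Complex.I) =
      Complex.exp (((2 * Real.pi * k * y * (α * r + t) + ((k:ℝ) - 3) * Real.pi / 4 : ℝ) : ℂ) * Complex.I) := by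
    unfold Pool.Agent.H383.PZ.ok Pool.Agent.H387R2.Vor.ex fq
    rw [← Complex.exp_add, ← Complex.exp_add, ← hy]
    congr 1
    push_cast
    ring
  rw [mul_assoc (ak k m : ℂ), e1, Complex.re_ofReal_mul, Complex.exp_ofReal_mul_I_re]
  unfold ak
  rw [dv_cast]
  ring

lemma Vvec_eq (k : Fin d → ℕ) (α t : Fin d → ℝ) (N : ℕ) (r : ℝ) : Vvec k α t N r = fun i => VV k α t N i r := by
  funext i
  unfold Vvec
  rw [VorSum_eq, VV_part]

/-- the limit law -/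
lemma isLaw_of_isLim {k : Fin d → ℕ} (hk : ∀ i, 2 ≤ k i) {α t : Fin d → ℝ} (hα : ∀ i, 0 < α i) {μ : ProbabilityMeasure (Fin d → ℝ)}
    (hμ : IsLim (VV k α t) μ) : IsLaw k α t μ := by
  intro f hf ⟨C, hC⟩
  obtain ⟨h1, h2⟩ := limit_quad (VV_MSC hk hα) hμ hf (C := C) (fun x => hC x)
  refine ⟨h1, fun ε hε => ?_⟩
  obtain ⟨N₀, hN₀⟩ := (Metric.tendsto_atTop.1 h2) (ε/2) (by positivity)
  refine ⟨N₀, fun N hN => ?_⟩
  obtain ⟨H₀, hH₀, hw⟩ := AP_Mn (AP_comp (fun i => VV_AP k α t N i) hf) (ε/2) (by positivity)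
  refine ⟨H₀, hH₀, fun Y H hH => ?_⟩
  have hH0 : 0 < H := hH₀.trans_le hH
  have h3 := hw Y H hH
  have h4 := hN₀ N hN
  rw [Real.dist_eq] at h4
  simp_rw [Vvec_eq]
  have e : (∫ r in Y..(Y+H), f (fun i => VV k α t N i r)) - (∫ x, f x ∂(μ : Measure (Fin d → ℝ))) * H =
    ((∫ r in Y..(Y+H), f (fun i => VV k α t N i r)) - Mn (fun r => f (fun i => VV k α t N i r)) * H) +
    (Mn (fun r => f (fun i => VV k α t N i r)) - ∫ x, f x ∂(μ : Measure (Fin d → ℝ))) * H := by ring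
  rw [e]
  refine (abs_add_le _ _).trans ?_
  rw [abs_mul, abs_of_pos hH0]
  have := mul_le_mul_of_nonneg_right h4.le hH0.le
  linarith

/-- uniqueness of the law -/
lemma isLim_of_isLaw {k : Fin d → ℕ} {α t : Fin d → ℝ} {μ : ProbabilityMeasure (Fin d → ℝ)} (hμ : IsLaw k α t μ) :
    IsLim (VV k α t) μ := by
  intro f hf ⟨C, hC⟩
  obtain ⟨-, h2⟩ := hμ f hf ⟨|C|, fun x => by
    have h0 : 0 ≤ ∑ i, x i ^ 2 := Finset.sum_nonneg (fun i _ => sq_nonneg _)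
    have h1 := (hC x).trans (le_abs_self C)
    nlinarith [abs_nonneg C]⟩
  rw [Metric.tendsto_atTop]
  intro ε hε
  obtain ⟨N₀, hN₀⟩ := h2 (ε/4) (by positivity)
  refine ⟨N₀, fun N hN => ?_⟩
  obtain ⟨H₀, hH₀, hw⟩ := hN₀ N hN
  obtain ⟨H₁, hH₁, hw1⟩ := AP_Mn (AP_comp (fun i => VV_AP k α t N i) hf) (ε/4) (by positivity)
  set H := max H₀ H₁ with hH
  have hH0 : 0 < H := hH₀.trans_le (le_max_left _ _)
  have h3 := hw 0 H (le_max_left _ _)
  have h4 := hw1 0 H (le_max_right _ _)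
  simp_rw [Vvec_eq] at h3
  rw [Real.dist_eq]
  have e : (Mn (fun r => f (fun i => VV k α t N i r)) - ∫ x, f x ∂(μ : Measure (Fin d → ℝ))) * H =
    ((∫ r in (0:ℝ)..(0+H), f (fun i => VV k α t N i r)) - (∫ x, f x ∂(μ : Measure (Fin d → ℝ))) * H) -
    ((∫ r in (0:ℝ)..(0+H), f (fun i => VV k α t N i r)) - Mn (fun r => f (fun i => VV k α t N i r)) * H) := by ring
  have h5 : |(Mn (fun r => f (fun i => VV k α t N i r)) - ∫ x, f x ∂(μ : Measure (Fin d → ℝ))) * H| ≤ (ε/2) * H := by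
    rw [e]
    refine (abs_sub _ _).trans ?_
    linarith
  rw [abs_mul, abs_of_pos hH0] at h5
  have := le_of_mul_le_mul_right h5 hH0
  linarith

theorem law_exists {k : Fin d → ℕ} (hk : ∀ i, 2 ≤ k i) {α t : Fin d → ℝ} (hα : ∀ i, 0 < α i) : ∃ μ, IsLaw k α t μ := by
  obtain ⟨μ, hμ⟩ := exists_limit_law (VV_MSC (t := t) hk hα)
  exact ⟨μ, isLaw_of_isLim hk hα hμ⟩

theorem law_moments {k : Fin d → ℕ} (hk : ∀ i, 2 ≤ k i) {α t : Fin d → ℝ} (hα : ∀ i, 0 < α i) {μ : ProbabilityMeasure (Fin d → ℝ)}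
    (hμ : IsLaw k α t μ) (i : Fin d) : ∫ x, x i ∂(μ : Measure (Fin d → ℝ)) = 0 ∧
      ∫ x, x i ^ 2 ∂(μ : Measure (Fin d → ℝ)) =
        (∑' m : ℕ, (dv (k i) m : ℝ) ^ 2 * (m:ℝ) ^ (-(1 + 1 / (k i : ℝ)))) / (2 * Real.pi ^ 2 * k i) := by
  have hμ' := isLim_of_isLaw hμ
  refine ⟨law_mean hk hα hμ' i, ?_⟩
  rw [(law_var hk hα hμ' i).2]
  have hk' : (0:ℝ) < k i := by exact_mod_cast (by have := hk i; omega : 0 < k i)
  have e : ∀ m : ℕ, ak (k i) m ^ 2 = ((dv (k i) m : ℝ) ^ 2 * (m:ℝ) ^ (-(1 + 1 / (k i : ℝ)))) * (1 / (Real.pi ^ 2 * k i)) := by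
    intro m
    rw [ak_sq, dv_cast]
    have : -((↑(k i) + 1) / (k i : ℝ)) = -(1 + 1 / (k i : ℝ)) := by field_simp
    rw [this]
    ring
  simp_rw [e]
  rw [tsum_mul_right]
  have := Real.pi_pos
  field_simp

lemma Evec_eq {k : Fin d → ℕ} {P : Fin d → Polynomial ℝ} {α t : Fin d → ℝ} {R₁ : ℝ} (hR : ∀ i r, R₁ ≤ r → 1 ≤ α i * r + t i)
    {r : ℝ} (hr : R₁ ≤ r) : Evec k P α t r = fun i => FF k P α t i r := by
  funext i
  unfold Evec FF
  rw [E_eq _ _ (by linarith [hR i r hr])]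

lemma Evec_int {k : Fin d → ℕ} {P : Fin d → Polynomial ℝ} {α t : Fin d → ℝ} {R₁ : ℝ} (hR : ∀ i r, R₁ ≤ r → 1 ≤ α i * r + t i)
    (f : (Fin d → ℝ) → ℝ) {Y H : ℝ} (hY : R₁ ≤ Y) (hH : 0 ≤ H) :
    ∫ r in Y..(Y+H), f (Evec k P α t r) = ∫ r in Y..(Y+H), f (fun i => FF k P α t i r) := by
  apply intervalIntegral.integral_congr
  intro r hr
  rw [uIcc_of_le (by linarith)] at hr
  beta_reduce
  rw [Evec_eq hR (hY.trans hr.1)]

/-- **convex domination** -/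
theorem dom {k : Fin d → ℕ} (hk : ∀ i, 2 ≤ k i) {P : Fin d → Polynomial ℝ} (hP : ∀ i, IsMain (k i) (P i)) {α t : Fin d → ℝ}
    (hα : ∀ i, 0 < α i) {μ : ProbabilityMeasure (Fin d → ℝ)} (hμ : IsLaw k α t μ)
    {Φ : (Fin d → ℝ) → ℝ} (hΦ : ConvexOn ℝ univ Φ) {b : ℝ} (hb : ∀ x, b ≤ Φ x) {A : ℝ}
    (hA : Integrable Φ (μ : Measure (Fin d → ℝ)) → A < ∫ x, Φ x ∂(μ : Measure (Fin d → ℝ))) :
    ∃ Y₀ H₀ : ℝ, 0 < H₀ ∧ ∀ Y H, Y₀ ≤ Y → H₀ ≤ H → IntervalIntegrable (fun r => Φ (Evec k P α t r)) volume Y (Y+H) ∧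
      A * H ≤ ∫ r in Y..(Y+H), Φ (Evec k P α t r) := by
  have hV : ∀ i, Vor (k i) (P i) := fun i => vor_of_main (hk i) (hP i)
  obtain ⟨n, R₁, δ₁, hR, hM⟩ := the_mod (t := t) hk hV hα
  have hμ' := isLim_of_isLaw hμ
  have hc : Continuous Φ := hΦ.locallyLipschitz.continuous
  have hΦ1 : ConvexOn ℝ univ (fun x => Φ x + (-b)) := hΦ.add_const (-b)
  obtain ⟨Y₀, H₀, hY₀, hH₀, h⟩ := hM.dom0 hμ' hΦ1 (fun x => by have := hb x; linarith) (A := A - b) (fun hi => by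
    have hi2 : Integrable Φ (μ : Measure (Fin d → ℝ)) := by
      exact (hi.add (integrable_const b)).congr (Eventually.of_forall fun x => by simp)
    rw [integral_add hi2 (integrable_const _)]
    simp only [integral_const, probReal_univ, smul_eq_mul, one_mul]
    have := hA hi2
    linarith)
  refine ⟨Y₀, H₀, hH₀, fun Y H hY hH => ?_⟩
  have hH0 : 0 < H := hH₀.trans_le hH
  have hRY := hY₀.trans hY
  obtain ⟨B, hB0, hB⟩ := hM.comp_bdd hc (Y+H)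
  have hi : IntervalIntegrable (fun r => Φ (fun i => FF k P α t i r)) volume Y (Y+H) :=
    G_ii (hc.measurable.comp (vec_meas hM.meas)) (by linarith) (fun s h1 h2 => hB s (hRY.trans h1) h2)
  constructor
  · refine hi.congr ?_
    intro r hr
    rw [uIoc_of_le (by linarith)] at hr
    beta_reduce
    rw [Evec_eq hR (hRY.trans hr.1.le)]
  · have h1 := h Y H hY hH
    rw [intervalIntegral.integral_add hi intervalIntegrable_const, intervalIntegral.integral_const] at h1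
    rw [Evec_int hR Φ hRY hH0.le]
    simp only [smul_eq_mul] at h1
    linarith

/-- **rigidity** -/
theorem rigid {k : Fin d → ℕ} (hk : ∀ i, 2 ≤ k i) {P : Fin d → Polynomial ℝ} (hP : ∀ i, IsMain (k i) (P i)) {α t : Fin d → ℝ}
    (hα : ∀ i, 0 < α i) {μ : ProbabilityMeasure (Fin d → ℝ)} (hμ : IsLaw k α t μ)
    {Φ : (Fin d → ℝ) → ℝ} (hΦ : StrictConvexOn ℝ univ Φ) {b : ℝ} (hb : ∀ x, b ≤ Φ x)
    (hi : Integrable Φ (μ : Measure (Fin d → ℝ))) {f : (Fin d → ℝ) → ℝ} (hf : Continuous f) {C : ℝ} (hC : ∀ x, |f x| ≤ C)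
    {ε : ℝ} (hε : 0 < ε) :
    ∃ η Y₀ H₀ : ℝ, 0 < η ∧ 0 < H₀ ∧ ∀ Y H, Y₀ ≤ Y → H₀ ≤ H →
      ∫ r in Y..(Y+H), Φ (Evec k P α t r) ≤ ((∫ x, Φ x ∂(μ : Measure (Fin d → ℝ))) + η) * H →
      |(∫ r in Y..(Y+H), f (Evec k P α t r)) - (∫ x, f x ∂(μ : Measure (Fin d → ℝ))) * H| ≤ ε * H := by
  have hV : ∀ i, Vor (k i) (P i) := fun i => vor_of_main (hk i) (hP i)
  obtain ⟨n, R₁, δ₁, hR, hM⟩ := the_mod (t := t) hk hV hα
  have hμ' := isLim_of_isLaw hμ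
  have hc : Continuous Φ := hΦ.convexOn.locallyLipschitz.continuous
  have hΦ1 : StrictConvexOn ℝ univ (fun x => Φ x + (-b)) := hΦ.add_const (-b)
  obtain ⟨η, Y₀, H₀, hη, hY₀, hH₀, h⟩ := hM.rigid0 hμ' hΦ1 (fun x => by have := hb x; linarith) hf (C := |C| + 1) (by positivity)
    (fun x => (hC x).trans ((le_abs_self C).trans (by linarith))) hε
  refine ⟨η, Y₀, H₀, hη, hH₀, fun Y H hY hH hyp => ?_⟩
  have hH0 : 0 < H := hH₀.trans_le hH
  have hRY := hY₀.trans hY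
  obtain ⟨B, hB0, hB⟩ := hM.comp_bdd hc (Y+H)
  have hii : IntervalIntegrable (fun r => Φ (fun i => FF k P α t i r)) volume Y (Y+H) :=
    G_ii (hc.measurable.comp (vec_meas hM.meas)) (by linarith) (fun s h1 h2 => hB s (hRY.trans h1) h2)
  rw [Evec_int hR f hRY hH0.le]
  apply h Y H hY hH
  rw [Evec_int hR Φ hRY hH0.le] at hyp
  rw [intervalIntegral.integral_add hii intervalIntegrable_const, intervalIntegral.integral_const,
    integral_add hi (integrable_const _)]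
  simp only [integral_const, probReal_univ, smul_eq_mul, one_mul]
  linarith

end Pool.Agent.H592.PD
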