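import Pool.Agent.H592.PD.A4

/-!
# Absolutely convergent trigonometric series
-/

open MeasureTheory Filter Topology Set

namespace Pool.Agent.H592.PD

/-- a term of a trigonometric series -/
noncomputable def trm (c : ℂ) (θ r : ℝ) : ℝ := (c * Complex.exp (((θ * r : ℝ) : ℂ) * Complex.I)).re

lemma trm_eq (c : ℂ) (θ r : ℝ) : trm c θ r = ‖c‖ * Real.cos (θ * r + c.arg) := by
  unfold trm
  conv_lhs => rw [← Complex.norm_mul_exp_arg_mul_I c]
  rw [mul_assoc, ← Complex.exp_add, ← add_mul, ← Complex.ofReal_add, Complex.re_ofReal_mul, Complex.exp_ofReal_mul_I_re, add_comm]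

lemma trm_abs (c : ℂ) (θ r : ℝ) : |trm c θ r| ≤ ‖c‖ := by
  rw [trm_eq, abs_mul, abs_of_nonneg (norm_nonneg c)]
  calc ‖c‖ * |Real.cos (θ * r + c.arg)| ≤ ‖c‖ * 1 := by gcongr; exact Real.abs_cos_le_one _
    _ = _ := mul_one _

lemma trm_mem (c : ℂ) (θ : ℝ) : (fun r => trm c θ r) ∈ TP := by
  have : (fun r => trm c θ r) = ‖c‖ • (fun r : ℝ => Real.cos (θ * r + c.arg)) := by
    funext r; rw [trm_eq]; simp
  rw [this]
  exact TP.smul_mem _ (cos_mem _ _)

lemma trm_sub (c c' : ℂ) (θ r : ℝ) : trm (c - c') θ r = trm c θ r - trm c' θ r := by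
  unfold trm; rw [sub_mul, Complex.sub_re]

lemma trm_zero (θ r : ℝ) : trm 0 θ r = 0 := by unfold trm; simp

/-- the series -/
noncomputable def ser (c : ℕ → ℂ) (θ : ℕ → ℝ) (r : ℝ) : ℝ := ∑' m, trm (c m) (θ m) r

variable {c c' : ℕ → ℂ} {θ : ℕ → ℝ}

lemma trm_summable (hc : Summable fun m => ‖c m‖) (r : ℝ) : Summable fun m => trm (c m) (θ m) r :=
  Summable.of_norm_bounded hc (fun m => by rw [Real.norm_eq_abs]; exact trm_abs _ _ _)

lemma ser_close (hc : Summable fun m => ‖c m‖) (n : ℕ) (r : ℝ) :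
    |ser c θ r - ∑ m ∈ Finset.range n, trm (c m) (θ m) r| ≤ ∑' m, ‖c (m + n)‖ := by
  unfold ser
  have h := (trm_summable (θ := θ) hc r).sum_add_tsum_nat_add n
  have e : (∑' m, trm (c m) (θ m) r) - ∑ m ∈ Finset.range n, trm (c m) (θ m) r = ∑' m, trm (c (m + n)) (θ (m + n)) r := by
    rw [← h]; ring
  rw [e, ← Real.norm_eq_abs]
  have hs := (summable_nat_add_iff n).2 hc
  exact tsum_of_norm_bounded hs.hasSum (fun m => by rw [Real.norm_eq_abs]; exact trm_abs _ _ _)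

lemma part_mem (c : ℕ → ℂ) (θ : ℕ → ℝ) (n : ℕ) : (fun r => ∑ m ∈ Finset.range n, trm (c m) (θ m) r) ∈ TP := by
  have : (fun r => ∑ m ∈ Finset.range n, trm (c m) (θ m) r) = ∑ m ∈ Finset.range n, (fun r => trm (c m) (θ m) r) := by
    funext r; simp
  rw [this]
  exact Submodule.sum_mem _ (fun m _ => trm_mem _ _)

lemma ser_AP (hc : Summable fun m => ‖c m‖) : AP (ser c θ) := by
  intro ε hε
  have ht := tendsto_sum_nat_add (fun m => ‖c m‖)
  obtain ⟨n, hn⟩ := (Metric.tendsto_atTop.1 ht) ε hε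
  refine ⟨_, part_mem c θ n, fun r => (ser_close hc n r).trans ?_⟩
  have := hn n le_rfl
  rw [Real.dist_eq, sub_zero] at this
  exact (le_abs_self _).trans this.le

lemma ser_sub (hc : Summable fun m => ‖c m‖) (hc' : Summable fun m => ‖c' m‖) (r : ℝ) :
    ser c θ r - ser c' θ r = ser (fun m => c m - c' m) θ r := by
  unfold ser
  rw [← (trm_summable hc r).tsum_sub (trm_summable hc' r)]
  congr 1; funext m
  rw [trm_sub]

/-! ### orthogonality -/

lemma WM_congr {f g : ℝ → ℝ} {M N : ℝ} (h : WM f M) (e : ∀ r, f r = g r) (e' : M = N) : WM g N := by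
  have : f = g := funext e
  subst this; subst e'; exact h

lemma mean_mul {a b : ℂ} {θ θ' : ℝ} (h0 : 0 < θ) (h0' : 0 < θ') (hne : θ ≠ θ') : WM (fun r => trm a θ r * trm b θ' r) 0 := by
  have h1 := WM_smul (‖a‖ * ‖b‖ / 2) (WM_cos (θ := θ + θ') (by linarith) (a.arg + b.arg))
  have h2 := WM_smul (‖a‖ * ‖b‖ / 2) (WM_cos (θ := θ - θ') (sub_ne_zero.2 hne) (a.arg - b.arg))
  refine WM_congr (WM_add h1 h2 (by fun_prop) (by fun_prop)) (fun r => ?_) (by ring)
  rw [trm_eq, trm_eq]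
  have e1 : (θ + θ') * r + (a.arg + b.arg) = (θ * r + a.arg) + (θ' * r + b.arg) := by ring
  have e2 : (θ - θ') * r + (a.arg - b.arg) = (θ * r + a.arg) - (θ' * r + b.arg) := by ring
  rw [e1, e2, Real.cos_add (θ * r + a.arg), Real.cos_sub (θ * r + a.arg)]
  ring

lemma mean_sq {a : ℂ} {θ : ℝ} (h0 : 0 < θ) : WM (fun r => trm a θ r * trm a θ r) (‖a‖ ^ 2 / 2) := by
  have h1 := WM_smul (‖a‖ ^ 2 / 2) (WM_cos (θ := 2 * θ) (by linarith) (2 * a.arg))
  refine WM_congr (WM_add h1 (WM_const (‖a‖ ^ 2 / 2)) (by fun_prop) (by fun_prop)) (fun r => ?_) (by ring)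
  rw [trm_eq]
  have e1 : 2 * θ * r + 2 * a.arg = 2 * (θ * r + a.arg) := by ring
  rw [e1, Real.cos_two_mul]
  ring

lemma Mn_trm {a b : ℂ} {θ θ' : ℝ} (h0 : a = 0 ∨ 0 < θ) (h0' : b = 0 ∨ 0 < θ') (hne : θ ≠ θ') :
    Mn (fun r => trm a θ r * trm b θ' r) = 0 := by
  rcases h0 with rfl | h0
  · simp [trm_zero, Mn_const]
  rcases h0' with rfl | h0'
  · simp [trm_zero, Mn_const]
  exact Mn_eq (mean_mul h0 h0' hne)

lemma Mn_trm_sq {a : ℂ} {θ : ℝ} (h0 : a = 0 ∨ 0 < θ) : Mn (fun r => trm a θ r * trm a θ r) = ‖a‖ ^ 2 / 2 := by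
  rcases h0 with rfl | h0
  · simp [trm_zero, Mn_const]
  exact Mn_eq (mean_sq h0)

lemma AP_trm (a : ℂ) (θ : ℝ) : AP (fun r => trm a θ r) := AP_of_TP (trm_mem a θ)

lemma AP_sum {ι : Type*} (s : Finset ι) {f : ι → ℝ → ℝ} (h : ∀ i ∈ s, AP (f i)) : AP (fun r => ∑ i ∈ s, f i r) := by
  classical
  induction s using Finset.induction_on with
  | empty => simpa using AP_const 0
  | insert a s ha ih =>
    simp only [Finset.sum_insert ha]
    exact AP_add (h a (Finset.mem_insert_self a s)) (ih (fun i hi => h i (Finset.mem_insert_of_mem hi)))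

lemma Mn_sum {ι : Type*} (s : Finset ι) {f : ι → ℝ → ℝ} (h : ∀ i ∈ s, AP (f i)) : Mn (fun r => ∑ i ∈ s, f i r) = ∑ i ∈ s, Mn (f i) := by
  classical
  induction s using Finset.induction_on with
  | empty => simpa using Mn_const 0
  | insert a s ha ih =>
    simp only [Finset.sum_insert ha]
    have h1 := h a (Finset.mem_insert_self a s)
    have h2 : ∀ i ∈ s, AP (f i) := fun i hi => h i (Finset.mem_insert_of_mem hi)
    rw [Mn_add h1 (AP_sum s h2), ih h2]

/-- the frequencies with nonzero coefficients are positive and distinct -/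
def Good (c : ℕ → ℂ) (θ : ℕ → ℝ) : Prop := (∀ m, c m = 0 ∨ 0 < θ m) ∧ ∀ m m', m ≠ m' → c m = 0 ∨ c m' = 0 ∨ θ m ≠ θ m'

lemma Mn_part (hG : Good c θ) (n : ℕ) : Mn (fun r => (∑ m ∈ Finset.range n, trm (c m) (θ m) r) ^ 2) =
    (∑ m ∈ Finset.range n, ‖c m‖ ^ 2) / 2 := by
  have e : (fun r => (∑ m ∈ Finset.range n, trm (c m) (θ m) r) ^ 2) =
      fun r => ∑ m ∈ Finset.range n, ∑ m' ∈ Finset.range n, trm (c m) (θ m) r * trm (c m') (θ m') r := by
    funext r
    rw [sq, Finset.sum_mul_sum]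
  rw [e, Mn_sum _ (fun m _ => AP_sum _ (fun m' _ => AP_mul (AP_trm _ _) (AP_trm _ _))), Finset.sum_div]
  apply Finset.sum_congr rfl
  intro m hm
  rw [Mn_sum _ (fun m' _ => AP_mul (AP_trm _ _) (AP_trm _ _)), Finset.sum_eq_single m]
  · exact Mn_trm_sq (hG.1 m)
  · intro m' _ hne
    rcases hG.2 m m' (Ne.symm hne) with h | h | h
    · rw [h]; simp [trm_zero, Mn_const]
    · rw [h]; simp [trm_zero, Mn_const]
    · exact Mn_trm (hG.1 m) (hG.1 m') h
  · intro h; exact absurd hm h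

/-- the means of uniformly convergent sequences -/
lemma Mn_tendsto {f : ℝ → ℝ} {g : ℕ → ℝ → ℝ} (hf : AP f) (hg : ∀ n, AP (g n)) {e : ℕ → ℝ} (he : Tendsto e atTop (𝓝 0))
    (h : ∀ n r, |f r - g n r| ≤ e n) : Tendsto (fun n => Mn (g n)) atTop (𝓝 (Mn f)) := by
  rw [tendsto_iff_dist_tendsto_zero]
  apply squeeze_zero (fun n => dist_nonneg) _ he
  intro n
  rw [Real.dist_eq, abs_le]
  constructor
  · have h1 := Mn_mono hf (AP_add (hg n) (AP_const (e n))) (fun r => by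
      have := abs_le.1 (h n r); linarith [this.2])
    rw [Mn_add (hg n) (AP_const (e n)), Mn_const] at h1
    linarith
  · have h1 := Mn_mono (hg n) (AP_add hf (AP_const (e n))) (fun r => by
      have := abs_le.1 (h n r); linarith [this.1])
    rw [Mn_add hf (AP_const (e n)), Mn_const] at h1
    linarith

lemma ser_abs (hc : Summable fun m => ‖c m‖) (r : ℝ) : |ser c θ r| ≤ ∑' m, ‖c m‖ := by
  have := ser_close (θ := θ) hc 0 r
  simpa using this

theorem Mn_ser_sq (hc : Summable fun m => ‖c m‖) (hG : Good c θ) : Mn (fun r => (ser c θ r) ^ 2) = (∑' m, ‖c m‖ ^ 2) / 2 := by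
  set A := ∑' m, ‖c m‖ with hA
  have hA0 : 0 ≤ A := tsum_nonneg (fun _ => norm_nonneg _)
  have hser := ser_AP (θ := θ) hc
  have hsq : AP (fun r => (ser c θ r) ^ 2) := by
    have := AP_mul hser hser
    simpa [sq] using this
  have hpsq : ∀ n, AP (fun r => (∑ m ∈ Finset.range n, trm (c m) (θ m) r) ^ 2) := fun n => by
    have := AP_mul (AP_of_TP (part_mem c θ n)) (AP_of_TP (part_mem c θ n))
    simpa [sq] using this
  have hpb : ∀ n r, |∑ m ∈ Finset.range n, trm (c m) (θ m) r| ≤ A := by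
    intro n r
    refine (Finset.abs_sum_le_sum_abs _ _).trans ?_
    refine (Finset.sum_le_sum (fun m _ => trm_abs (c m) (θ m) r)).trans ?_
    exact hc.sum_le_tsum _ (fun m _ => norm_nonneg _)
  have h1 : Tendsto (fun n => Mn (fun r => (∑ m ∈ Finset.range n, trm (c m) (θ m) r) ^ 2)) atTop
      (𝓝 (Mn (fun r => (ser c θ r) ^ 2))) := by
    apply Mn_tendsto hsq hpsq (e := fun n => (∑' m, ‖c (m + n)‖) * (2 * A))
    · have := (tendsto_sum_nat_add (fun m => ‖c m‖)).mul_const (2 * A)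
      simpa using this
    · intro n r
      have e : (ser c θ r) ^ 2 - (∑ m ∈ Finset.range n, trm (c m) (θ m) r) ^ 2 =
        (ser c θ r - ∑ m ∈ Finset.range n, trm (c m) (θ m) r) * (ser c θ r + ∑ m ∈ Finset.range n, trm (c m) (θ m) r) := by ring
      rw [e, abs_mul]
      apply mul_le_mul (ser_close hc n r) _ (abs_nonneg _) (tsum_nonneg (fun _ => norm_nonneg _))
      refine (abs_add_le _ _).trans ?_
      linarith [ser_abs (θ := θ) hc r, hpb n r]
  have hs2 : Summable (fun m => ‖c m‖ ^ 2) := by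
    apply Summable.of_nonneg_of_le (fun m => by positivity) _ (hc.mul_left A)
    intro m
    rw [sq]
    exact mul_le_mul_of_nonneg_right (hc.le_tsum m (fun _ _ => norm_nonneg _)) (norm_nonneg _)
  have h2 : Tendsto (fun n => Mn (fun r => (∑ m ∈ Finset.range n, trm (c m) (θ m) r) ^ 2)) atTop
      (𝓝 ((∑' m, ‖c m‖ ^ 2) / 2)) := by
    simp_rw [Mn_part hG]
    exact (hs2.hasSum.tendsto_sum_nat).div_const 2
  exact tendsto_nhds_unique h1 h2

/-- the mean of a series is zero -/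
theorem Mn_ser (hc : Summable fun m => ‖c m‖) (hG : Good c θ) : Mn (ser c θ) = 0 := by
  have h1 : Tendsto (fun n => Mn (fun r => ∑ m ∈ Finset.range n, trm (c m) (θ m) r)) atTop (𝓝 (Mn (ser c θ))) :=
    Mn_tendsto (ser_AP hc) (fun n => AP_of_TP (part_mem c θ n)) (tendsto_sum_nat_add (fun m => ‖c m‖)) (fun n r => ser_close hc n r)
  have h2 : ∀ n, Mn (fun r => ∑ m ∈ Finset.range n, trm (c m) (θ m) r) = 0 := by
    intro n
    rw [Mn_sum _ (fun m _ => AP_trm _ _)]
    apply Finset.sum_eq_zero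
    intro m _
    rcases hG.1 m with h | h
    · rw [h]; simp [trm_zero, Mn_const]
    · apply Mn_eq
      have := WM_smul ‖c m‖ (WM_cos h.ne' (c m).arg)
      exact WM_congr this (fun r => (trm_eq _ _ _).symm) (by ring)
  simp_rw [h2] at h1
  exact tendsto_nhds_unique h1 tendsto_const_nhds

end Pool.Agent.H592.PD
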