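import Pool.Agent.H592.PD.B3

/-!
# The Piltz divisor problem: the vector of normalised error terms
-/

open MeasureTheory Filter Topology Set
open Pool.Agent.H387R2.Vor Pool.Agent.H383.PZ

namespace Pool.Agent.H592.PD

variable {d : ℕ}

/-- the partial sums of the Voronoi series -/
noncomputable def VV (k : Fin d → ℕ) (α t : Fin d → ℝ) (N : ℕ) (i : Fin d) : ℝ → ℝ := ser (cV (k i) (t i) N) (fq (k i) (α i))

/-- the smoothed Voronoi series -/
noncomputable def UU (k : Fin d → ℕ) (α t : Fin d → ℝ) (n : ℕ) (δ : ℝ) (i : Fin d) : ℝ → ℝ :=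
  ser (cS (k i) (α i) (t i) δ n) (fq (k i) (α i))

lemma VV_AP (k : Fin d → ℕ) (α t : Fin d → ℝ) (N : ℕ) (i : Fin d) : AP (VV k α t N i) := ser_AP (cV_summable _ _ _)

lemma UU_AP {k : Fin d → ℕ} (hk : ∀ i, 2 ≤ k i) {α t : Fin d → ℝ} (hα : ∀ i, 0 < α i) {n : ℕ} (hn : ∀ i, k i ≤ n) {δ : ℝ} (hδ : 0 < δ)
    (i : Fin d) : AP (UU k α t n δ i) := ser_AP (cS_summable (hk i) (hα i) hδ (hn i))

lemma Mn_qq {u : Fin d → ℝ → ℝ} (hu : ∀ i, AP (u i)) : Mn (fun r => qq (fun i => u i r)) = ∑ i, Mn (fun r => (u i r) ^ 2) := by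
  unfold qq
  apply Mn_sum
  intro i _
  have := AP_mul (hu i) (hu i)
  simpa [sq] using this

lemma Mn_ser_diff {c c' : ℕ → ℂ} {θ : ℕ → ℝ} (hc : Summable fun m => ‖c m‖) (hc' : Summable fun m => ‖c' m‖) 
    (hG : Good (fun m => c m - c' m) θ) : Mn (fun r => (ser c θ r - ser c' θ r) ^ 2) = (∑' m, ‖c m - c' m‖ ^ 2) / 2 := by
  have h1 : Summable fun m => ‖c m - c' m‖ := Summable.of_nonneg_of_le (fun m => norm_nonneg _) (fun m => norm_sub_le _ _) (hc.add hc')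
  have h2 := Mn_ser_sq h1 hG
  rw [← h2]
  congr 1
  funext r
  rw [ser_sub hc hc']

lemma VV_MSC {k : Fin d → ℕ} (hk : ∀ i, 2 ≤ k i) {α t : Fin d → ℝ} (hα : ∀ i, 0 < α i) : MSC (VV k α t) := by
  refine ⟨fun N i => VV_AP k α t N i, fun ε hε => ?_⟩
  choose N₀ hN₀ using fun i => partial_close (hk i) (t i) (ε := ε/(d+1)) (by positivity)
  refine ⟨∑ i, N₀ i, fun N M hN hM => ?_⟩
  have hi : ∀ i, N₀ i ≤ ∑ i, N₀ i := fun i => Finset.single_le_sum (f := N₀) (fun j _ => Nat.zero_le _) (Finset.mem_univ i)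
  rw [Mn_qq (u := fun i r => VV k α t N i r - VV k α t M i r) (fun i => AP_sub (VV_AP k α t N i) (VV_AP k α t M i))]
  have h1 : ∀ i, Mn (fun r => (VV k α t N i r - VV k α t M i r) ^ 2) ≤ ε/(d+1) := by
    intro i
    unfold VV
    rw [Mn_ser_diff (cV_summable _ _ _) (cV_summable _ _ _) (good_of (hk i) (hα i) (by rw [cV_zero, cV_zero, sub_zero]))]
    have := hN₀ i N M ((hi i).trans hN) ((hi i).trans hM)
    have h0 : 0 ≤ ∑' m, ‖cV (k i) (t i) N m - cV (k i) (t i) M m‖ ^ 2 := tsum_nonneg (fun _ => by positivity)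
    linarith
  calc ∑ i, Mn (fun r => (VV k α t N i r - VV k α t M i r) ^ 2) ≤ ∑ _i : Fin d, ε/(d+1) := Finset.sum_le_sum (fun i _ => h1 i)
    _ = d * (ε/(d+1)) := by simp
    _ ≤ ε := by
      rw [mul_div_assoc', div_le_iff₀ (by positivity)]
      nlinarith

lemma UV_ms {k : Fin d → ℕ} (hk : ∀ i, 2 ≤ k i) {α t : Fin d → ℝ} (hα : ∀ i, 0 < α i) {n : ℕ} (hn : ∀ i, k i ≤ n) {ε : ℝ} (hε : 0 < ε) :
    ∃ N₀ : ℕ, ∀ N, N₀ ≤ N → ∃ δ₀ : ℝ, 0 < δ₀ ∧ ∀ δ, 0 < δ → δ ≤ δ₀ →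
      Mn (fun r => qq (fun i => UU k α t n δ i r - VV k α t N i r)) ≤ ε := by
  choose N₀ hN₀ using fun i => smooth_close (hk i) (hα i) (t i) n (ε := ε/(d+1)) (by positivity)
  refine ⟨∑ i, N₀ i, fun N hN => ?_⟩
  have hi : ∀ i, N₀ i ≤ ∑ i, N₀ i := fun i => Finset.single_le_sum (f := N₀) (fun j _ => Nat.zero_le _) (Finset.mem_univ i)
  choose δ₀ hδ₀ hclose using fun i => hN₀ i N ((hi i).trans hN)
  have hmin : ∃ δ₁ : ℝ, 0 < δ₁ ∧ ∀ i, δ₁ ≤ δ₀ i := by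
    rcases isEmpty_or_nonempty (Fin d) with h | h
    · exact ⟨1, one_pos, fun i => (h.false i).elim⟩
    · obtain ⟨i₀, hi₀⟩ := Finite.exists_min δ₀
      exact ⟨δ₀ i₀, hδ₀ i₀, hi₀⟩
  obtain ⟨δ₁, hδ₁, hle⟩ := hmin
  refine ⟨δ₁, hδ₁, fun δ hδ hδδ => ?_⟩
  have hUA := fun i => UU_AP (t := t) hk hα hn hδ i
  rw [Mn_qq (u := fun i r => UU k α t n δ i r - VV k α t N i r) (fun i => AP_sub (hUA i) (VV_AP k α t N i))]
  have h1 : ∀ i, Mn (fun r => (UU k α t n δ i r - VV k α t N i r) ^ 2) ≤ ε/(d+1) := by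
    intro i
    unfold VV UU
    rw [Mn_ser_diff (cS_summable (hk i) (hα i) hδ (hn i)) (cV_summable _ _ _) (good_of (hk i) (hα i) (by rw [cV_zero, cS_zero, sub_zero]))]
    have := hclose i δ hδ (hδδ.trans (hle i))
    have h0 : 0 ≤ ∑' m, ‖cS (k i) (α i) (t i) δ n m - cV (k i) (t i) N m‖ ^ 2 := tsum_nonneg (fun _ => by positivity)
    linarith
  calc ∑ i, Mn (fun r => (UU k α t n δ i r - VV k α t N i r) ^ 2) ≤ ∑ _i : Fin d, ε/(d+1) := Finset.sum_le_sum (fun i _ => h1 i)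
    _ = d * (ε/(d+1)) := by simp
    _ ≤ ε := by
      rw [mul_div_assoc', div_le_iff₀ (by positivity)]
      nlinarith

/-- the hypothesis of the Voronoi formula -/
def Vor (k : ℕ) (P : Polynomial ℝ) : Prop := ∃ C : ℝ, 0 < C ∧ ∀ (n : ℕ) (R δ : ℝ), 2 * k + 2 ≤ n → 1 ≤ R → 0 < δ → δ ≤ 1/2 →
      |(∫ x, Fk k P (R + x) ∂(mu δ n)) - ∑' m : ℕ, tk k δ n R m| ≤ C * (R ^ (-(1/4) : ℝ) * δ ^ (-(k:ℝ)))

/-- the normalised error terms -/
noncomputable def FF (k : Fin d → ℕ) (P : Fin d → Polynomial ℝ) (α t : Fin d → ℝ) (i : Fin d) (r : ℝ) : ℝ :=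
  Fk (k i) (P i) (α i * r + t i)

theorem the_mod {k : Fin d → ℕ} (hk : ∀ i, 2 ≤ k i) {P : Fin d → Polynomial ℝ} (hP : ∀ i, Vor (k i) (P i)) {α t : Fin d → ℝ}
    (hα : ∀ i, 0 < α i) : ∃ n : ℕ, ∃ R₁ δ₁ : ℝ, (∀ i r, R₁ ≤ r → 1 ≤ α i * r + t i) ∧
      Mod (FF k P α t) (UU k α t n) (VV k α t) n R₁ δ₁ := by
  obtain ⟨n, hn⟩ : ∃ n : ℕ, ∀ i, 2 * k i + 2 ≤ n := ⟨∑ i, (2 * k i + 2), fun i =>
    Finset.single_le_sum (f := fun i => 2 * k i + 2) (fun j _ => Nat.zero_le _) (Finset.mem_univ i)⟩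
  have hA : 0 ≤ ∑ i, α i := Finset.sum_nonneg (fun i _ => (hα i).le)
  have hαle : ∀ i, α i ≤ ∑ i, α i := fun i => Finset.single_le_sum (f := α) (fun j _ => (hα j).le) (Finset.mem_univ i)
  set R₁ : ℝ := ∑ i, (1 + |t i|) / α i with hR₁
  have hR : ∀ i r, R₁ ≤ r → 1 ≤ α i * r + t i := by
    intro i r hr
    have h1 : (1 + |t i|) / α i ≤ R₁ := Finset.single_le_sum (f := fun i => (1 + |t i|) / α i)
      (fun j _ => by have := hα j; positivity) (Finset.mem_univ i)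
    have h2 := h1.trans hr
    rw [div_le_iff₀ (hα i)] at h2
    have h3 := neg_abs_le (t i)
    linarith
  refine ⟨n, R₁, 1 / (2 * (1 + ∑ i, α i)), hR, ?_⟩
  have hαδ : ∀ i δ, 0 < δ → δ ≤ 1 / (2 * (1 + ∑ i, α i)) → α i * δ ≤ 1/2 := by
    intro i δ hδ hδδ
    rw [le_div_iff₀ (by positivity)] at hδδ
    have := mul_le_mul_of_nonneg_right (hαle i) hδ.le
    linarith
  refine ⟨by positivity, ?_, ?_, ?_, ?_, VV_MSC hk hα, fun ε hε => UV_ms hk hα (fun i => by have := hn i; omega) hε⟩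
  · intro i
    exact (Fk_meas (k i) (P i)).comp (by fun_prop)
  · intro T
    choose B hB using fun i => Fk_bdd (k := k i) (by have := hk i; omega) (P i) (α i * T + t i)
    refine ⟨∑ i, |B i|, fun i s h1 h2 => ?_⟩
    have h3 := hB i (α i * s + t i) (hR i s h1) (by have := mul_le_mul_of_nonneg_left h2 (hα i).le; linarith)
    have h4 : |B i| ≤ ∑ i, |B i| := Finset.single_le_sum (f := fun i => |B i|) (fun j _ => abs_nonneg _) (Finset.mem_univ i)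
    exact h3.trans ((le_abs_self _).trans h4)
  · intro δ hδ hδδ i
    exact UU_AP hk hα (fun i => by have := hn i; omega) hδ i
  · intro δ hδ hδδ ε hε
    choose C hC hV using hP
    -- the error tends to zero
    have hex : ∀ i, ∃ R₀ : ℝ, ∀ r, R₀ ≤ r → C i * ((α i * r + t i) ^ (-(1/4) : ℝ) * (α i * δ) ^ (-(k i:ℝ))) ≤ ε := by
      intro i
      have h1 : Tendsto (fun r : ℝ => α i * r + t i) atTop atTop :=
        tendsto_atTop_add_const_right _ _ (tendsto_id.const_mul_atTop (hα i))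
      have h2 := (tendsto_rpow_neg_atTop (y := 1/4) (by norm_num)).comp h1
      have h3 : Tendsto (fun r : ℝ => C i * ((α i * r + t i) ^ (-(1/4) : ℝ) * (α i * δ) ^ (-(k i:ℝ)))) atTop (𝓝 0) := by
        have := (h2.mul_const ((α i * δ) ^ (-(k i:ℝ)))).const_mul (C i)
        simpa using this
      obtain ⟨R₀, hR₀⟩ := eventually_atTop.1 (h3.eventually (Iic_mem_nhds hε))
      exact ⟨R₀, fun r hr => hR₀ r hr⟩
    choose R₀ hR₀ using hex
    refine ⟨R₁ + ∑ i, |R₀ i|, by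
      have : 0 ≤ ∑ i, |R₀ i| := Finset.sum_nonneg (fun i _ => abs_nonneg _)
      linarith, fun r hr i => ?_⟩
    have hR10 : 0 ≤ R₁ := Finset.sum_nonneg (fun i _ => by have := hα i; positivity)
    have h4 : |R₀ i| ≤ ∑ i, |R₀ i| := Finset.single_le_sum (f := fun i => |R₀ i|) (fun j _ => abs_nonneg _) (Finset.mem_univ i)
    have h5 := le_abs_self (R₀ i)
    have h6 : 0 ≤ ∑ i, |R₀ i| := Finset.sum_nonneg (fun i _ => abs_nonneg _)
    have hr1 := hR i r (by linarith)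
    have h7 := hV i n (α i * r + t i) (α i * δ) (hn i) hr1 (mul_pos (hα i) hδ) (hαδ i δ hδ hδδ)
    have e1 : ∫ x, FF k P α t i (r + x) ∂(mu δ n) = ∫ x, Fk (k i) (P i) (α i * r + t i + x) ∂(mu (α i * δ) n) := by
      rw [← integral_mu_mul (hα i) hδ n (fun x => Fk (k i) (P i) (α i * r + t i + x))]
      congr 1
      funext x
      unfold FF
      congr 1
      ring
    have e2 : UU k α t n δ i r = ∑' m : ℕ, tk (k i) (α i * δ) n (α i * r + t i) m := by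
      unfold UU ser
      congr 1
      funext m
      rw [tk_eq]
    rw [e1, e2]
    exact h7.trans (hR₀ i r (by linarith))

end Pool.Agent.H592.PD
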