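import Pool.Agent.H592.PD.B4

/-!
# The Piltz divisor problem: moments of the limit law; the main term
-/

open MeasureTheory Filter Topology Set
open Pool.Agent.H387R2.Vor Pool.Agent.H383.PZ

namespace Pool.Agent.H592.PD

variable {d : ℕ}

lemma VV_part (k : Fin d → ℕ) (α t : Fin d → ℝ) (N : ℕ) (i : Fin d) (r : ℝ) :
    VV k α t N i r = ∑ m ∈ Finset.range (N+1), trm (cV (k i) (t i) N m) (fq (k i) (α i) m) r := by
  unfold VV ser
  apply tsum_eq_sum
  intro m hm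
  rw [Finset.mem_range, not_lt] at hm
  unfold cV
  rw [if_neg (by omega), trm_zero]

lemma Mn_VV {k : Fin d → ℕ} (hk : ∀ i, 2 ≤ k i) {α t : Fin d → ℝ} (hα : ∀ i, 0 < α i) (N : ℕ) (i : Fin d) :
    Mn (fun r => VV k α t N i r) = 0 := Mn_ser (cV_summable _ _ _) (good_of (hk i) (hα i) (cV_zero _ _ _))

lemma norm_cV (k : ℕ) (t : ℝ) (N m : ℕ) : ‖cV k t N m‖ = if m ≤ N then ak k m else 0 := by
  unfold cV
  split_ifs
  · rw [norm_mul, norm_mul, norm_ok, Pool.Agent.H383.OM.norm_ex, Complex.norm_real, Real.norm_of_nonneg (ak_nonneg k m)]; simp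
  · rw [norm_zero]

lemma Mn_VV_sq {k : Fin d → ℕ} (hk : ∀ i, 2 ≤ k i) {α t : Fin d → ℝ} (hα : ∀ i, 0 < α i) (N : ℕ) (i : Fin d) :
    Mn (fun r => (VV k α t N i r) ^ 2) = (∑ m ∈ Finset.range (N+1), ak (k i) m ^ 2) / 2 := by
  have h := Mn_ser_sq (θ := fq (k i) (α i)) (cV_summable (k i) (t i) N) (good_of (hk i) (hα i) (cV_zero _ _ _))
  unfold VV
  rw [h]
  congr 1
  rw [tsum_eq_sum (s := Finset.range (N+1))]
  · apply Finset.sum_congr rfl
    intro m hm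
    rw [Finset.mem_range] at hm
    rw [norm_cV, if_pos (by omega)]
  · intro m hm
    rw [Finset.mem_range, not_lt] at hm
    rw [norm_cV, if_neg (by omega)]; ring

lemma coord_quad (i : Fin d) (x : Fin d → ℝ) : |x i| ≤ 1 * (1 + qq x) := by
  have h1 : x i ^ 2 ≤ qq x := Finset.single_le_sum (f := fun i => x i ^ 2) (fun j _ => sq_nonneg _) (Finset.mem_univ i)
  have h2 : |x i| ≤ 1 + x i ^ 2 := by
    rw [← sq_abs]
    nlinarith [sq_nonneg (|x i| - 1), abs_nonneg (x i)]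
  linarith

lemma coord_sq_quad (i : Fin d) (x : Fin d → ℝ) : |x i ^ 2| ≤ 1 * (1 + qq x) := by
  have h1 : x i ^ 2 ≤ qq x := Finset.single_le_sum (f := fun i => x i ^ 2) (fun j _ => sq_nonneg _) (Finset.mem_univ i)
  rw [abs_of_nonneg (sq_nonneg _)]
  linarith

theorem law_mean {k : Fin d → ℕ} (hk : ∀ i, 2 ≤ k i) {α t : Fin d → ℝ} (hα : ∀ i, 0 < α i) {μ : ProbabilityMeasure (Fin d → ℝ)}
    (hμ : IsLim (VV k α t) μ) (i : Fin d) : ∫ x, x i ∂(μ : Measure (Fin d → ℝ)) = 0 := by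
  have h := (limit_quad (VV_MSC hk hα) hμ (f := fun x => x i) (by fun_prop) (C := 1) (coord_quad i)).2
  simp only [Mn_VV hk hα] at h
  exact tendsto_nhds_unique h tendsto_const_nhds

theorem law_var {k : Fin d → ℕ} (hk : ∀ i, 2 ≤ k i) {α t : Fin d → ℝ} (hα : ∀ i, 0 < α i) {μ : ProbabilityMeasure (Fin d → ℝ)}
    (hμ : IsLim (VV k α t) μ) (i : Fin d) : Integrable (fun x : Fin d → ℝ => x i ^ 2) (μ : Measure (Fin d → ℝ)) ∧
      ∫ x, x i ^ 2 ∂(μ : Measure (Fin d → ℝ)) = (∑' m, ak (k i) m ^ 2) / 2 := by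
  have h := limit_quad (VV_MSC hk hα) hμ (f := fun x => x i ^ 2) (by fun_prop) (C := 1) (coord_sq_quad i)
  refine ⟨h.1, ?_⟩
  have h2 := h.2
  simp only [Mn_VV_sq hk hα] at h2
  have h3 := (((ak_sq_summable (hk i)).hasSum.tendsto_sum_nat).comp (tendsto_add_atTop_nat 1)).div_const 2
  exact tendsto_nhds_unique h2 h3

lemma ak_sq (k : ℕ) (m : ℕ) : ak k m ^ 2 = dk k m ^ 2 * (m:ℝ) ^ (-(((k:ℝ) + 1) / k) : ℝ) / (Real.pi ^ 2 * k) := by
  unfold ak
  rcases Nat.eq_zero_or_pos m with h0 | h0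
  · subst h0; simp [dk_zero]
  rcases Nat.eq_zero_or_pos k with hk | hk
  · subst hk; simp
  have hm : (0:ℝ) < m := by exact_mod_cast h0
  have hk' : (0:ℝ) < k := by exact_mod_cast hk
  have hpi := Real.pi_pos
  rw [mul_pow, mul_pow, ← Real.rpow_natCast ((m:ℝ) ^ (-(((k:ℝ) + 1) / (2 * k)) : ℝ)) 2, ← Real.rpow_mul hm.le, one_div, inv_pow,
    mul_pow, Real.sq_sqrt hk'.le]
  have : -((↑k + 1) / (2 * (k:ℝ))) * ((2:ℕ):ℝ) = -((↑k + 1) / k) := by push_cast; field_simp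
  rw [this]
  field_simp

/-! ### the main term -/

lemma poly_zero {Q : Polynomial ℝ} {a C : ℝ} (ha : a < 1) (h : ∀ x : ℝ, 1 ≤ x → |x * Q.eval (Real.log x)| ≤ C * x ^ a) : Q = 0 := by
  have h1 : ∀ t : ℝ, 0 ≤ t → |Q.eval t| ≤ C * Real.exp (-(1 - a) * t) := by
    intro t ht
    have h2 := h (Real.exp t) (Real.one_le_exp ht)
    have h3 : Real.log (Real.exp t) = t := Real.log_exp t
    rw [h3, abs_mul, abs_of_pos (Real.exp_pos t), ← Real.exp_mul] at h2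
    have h4 : C * Real.exp (-(1 - a) * t) = (C * Real.exp (t * a)) * Real.exp (-t) := by
      rw [mul_assoc, ← Real.exp_add]; congr 2; ring
    rw [h4]
    have h5 : |Q.eval t| = (Real.exp t * |Q.eval t|) * Real.exp (-t) := by
      rw [mul_comm (Real.exp t), mul_assoc, ← Real.exp_add]; simp
    rw [h5]
    exact mul_le_mul_of_nonneg_right h2 (Real.exp_pos _).le
  have h6 : Tendsto (fun t : ℝ => Q.eval t) atTop (𝓝 0) := by
    apply squeeze_zero_norm' (a := fun t : ℝ => C * Real.exp (-(1 - a) * t))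
    · filter_upwards [eventually_ge_atTop (0:ℝ)] with t ht
      rw [Real.norm_eq_abs]; exact h1 t ht
    · have h7 : Tendsto (fun t : ℝ => -(1 - a) * t) atTop atBot := by
        apply Tendsto.const_mul_atTop_of_neg (by linarith) tendsto_id
      have := (Real.tendsto_exp_atBot.comp h7).const_mul C
      simpa using this
  rw [Polynomial.tendsto_nhds_iff] at h6
  exact Polynomial.leadingCoeff_eq_zero.1 h6.1

/-- `x P(log x)` approximates the summatory function with a power saving -/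
def Main (k : ℕ) (P : Polynomial ℝ) : Prop := ∃ a C : ℝ, a < 1 ∧ ∀ x : ℝ, 1 ≤ x → |Dk k x - x * P.eval (Real.log x)| ≤ C * x ^ a

lemma main_unique {k : ℕ} {P Q : Polynomial ℝ} (hP : Main k P) (hQ : Main k Q) : P = Q := by
  obtain ⟨a, C, ha, h⟩ := hP
  obtain ⟨b, D, hb, g⟩ := hQ
  rw [← sub_eq_zero]
  apply poly_zero (a := max a b) (C := |C| + |D|) (max_lt ha hb)
  intro x hx
  have h1 := h x hx
  have h2 := g x hx
  have h3 : x ^ a ≤ x ^ (max a b) := Real.rpow_le_rpow_of_exponent_le hx (le_max_left _ _)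
  have h4 : x ^ b ≤ x ^ (max a b) := Real.rpow_le_rpow_of_exponent_le hx (le_max_right _ _)
  have h5 : 0 ≤ x ^ a := by positivity
  have h6 : 0 ≤ x ^ b := by positivity
  have e : x * (P - Q).eval (Real.log x) = (Dk k x - x * Q.eval (Real.log x)) - (Dk k x - x * P.eval (Real.log x)) := by
    rw [Polynomial.eval_sub]; ring
  rw [e]
  refine (abs_sub _ _).trans ?_
  have h7 : C * x ^ a ≤ |C| * x ^ (max a b) :=
    (mul_le_mul_of_nonneg_right (le_abs_self C) h5).trans (mul_le_mul_of_nonneg_left h3 (abs_nonneg _))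
  have h8 : D * x ^ b ≤ |D| * x ^ (max a b) :=
    (mul_le_mul_of_nonneg_right (le_abs_self D) h6).trans (mul_le_mul_of_nonneg_left h4 (abs_nonneg _))
  linarith

lemma main_of_vor {k : ℕ} (hk : 2 ≤ k) {P : Polynomial ℝ} (hP : Vor k P) : Main k P := by
  obtain ⟨C₀, hC₀, h⟩ := Pool.Agent.H814R2.PZA4.crude k hk P hP
  have hk' : (2:ℝ) ≤ k := by exact_mod_cast hk
  set ε : ℝ := 1 / (2 * k ^ 2) with hε
  have hε0 : 0 < ε := by positivity
  refine ⟨1 - 1 / (2 * k), C₀ * (1 + 1/ε) ^ (k-1), by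
    have : 0 < 1 / (2 * (k:ℝ)) := by positivity
    linarith, fun x hx => (h x hx).trans ?_⟩
  have hx0 : 0 < x := by linarith
  have hl := Real.log_nonneg hx
  have h1 : Real.log x ≤ x ^ ε / ε := Real.log_le_rpow_div hx0.le hε0
  have h2 : 1 ≤ x ^ ε := Real.one_le_rpow hx hε0.le
  have h3 : 1 + Real.log x ≤ (1 + 1/ε) * x ^ ε := by
    have : (1 + 1/ε) * x ^ ε = x ^ ε + x ^ ε / ε := by ring
    linarith
  have h4 : (1 + Real.log x) ^ (k-1) ≤ (1 + 1/ε) ^ (k-1) * x ^ (1 / (2 * (k:ℝ))) := by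
    calc (1 + Real.log x) ^ (k-1) ≤ ((1 + 1/ε) * x ^ ε) ^ (k-1) := by gcongr
      _ = (1 + 1/ε) ^ (k-1) * (x ^ ε) ^ (k-1) := mul_pow _ _ _
      _ = (1 + 1/ε) ^ (k-1) * x ^ (ε * ((k-1 : ℕ):ℝ)) := by rw [← Real.rpow_natCast (x ^ ε), ← Real.rpow_mul hx0.le]
      _ ≤ _ := by
        apply mul_le_mul_of_nonneg_left _ (by positivity)
        apply Real.rpow_le_rpow_of_exponent_le hx
        have : ((k-1 : ℕ):ℝ) ≤ k := by exact_mod_cast Nat.sub_le k 1
        calc ε * ((k-1 : ℕ):ℝ) ≤ ε * k := by gcongr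
          _ = 1 / (2 * (k:ℝ)) := by rw [hε]; field_simp
  calc C₀ * x ^ (1 - 1 / (k:ℝ)) * (1 + Real.log x) ^ (k-1) ≤ C₀ * x ^ (1 - 1 / (k:ℝ)) * ((1 + 1/ε) ^ (k-1) * x ^ (1 / (2 * (k:ℝ)))) := by gcongr
    _ = C₀ * (1 + 1/ε) ^ (k-1) * (x ^ (1 - 1 / (k:ℝ)) * x ^ (1 / (2 * (k:ℝ)))) := by ring
    _ = C₀ * (1 + 1/ε) ^ (k-1) * x ^ (1 - 1 / (2 * (k:ℝ))) := by
      rw [← Real.rpow_add hx0]
      congr 2
      field_simp
      ring

theorem main_exists {k : ℕ} (hk : 2 ≤ k) : ∃ P, Main k P ∧ Vor k P := by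
  obtain ⟨P, -, -, h⟩ := voronoi_k k hk
  exact ⟨P, main_of_vor hk h, h⟩

theorem vor_of_main {k : ℕ} (hk : 2 ≤ k) {P : Polynomial ℝ} (hP : Main k P) : Vor k P := by
  obtain ⟨Q, h1, h2⟩ := main_exists hk
  rw [main_unique hP h1]
  exact h2

theorem main_eu {k : ℕ} (hk : 2 ≤ k) : ∃! P, Main k P := by
  obtain ⟨P, h1, -⟩ := main_exists hk
  exact ⟨P, h1, fun Q hQ => main_unique hQ h1⟩

end Pool.Agent.H592.PD
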