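import Mathlib

/-!
# Uniformly almost periodic functions and their means over windows
-/

open MeasureTheory Filter Topology Set

namespace Pool.Agent.H592.PD

/-- the mean of `g` over the windows `[Y, Y + H]` tends to `M`, uniformly in `Y` -/
def WM (g : ℝ → ℝ) (M : ℝ) : Prop :=
  ∀ ε : ℝ, 0 < ε → ∃ H₀ : ℝ, 0 < H₀ ∧ ∀ Y H : ℝ, H₀ ≤ H → |(∫ r in Y..(Y+H), g r) - M * H| ≤ ε * H

/-- trigonometric polynomials -/
def TP : Submodule ℝ (ℝ → ℝ) :=
  Submodule.span ℝ (Set.range fun p : ℝ × ℝ => fun r : ℝ => Real.cos (p.1 * r + p.2))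

/-- uniformly almost periodic functions -/
def AP (g : ℝ → ℝ) : Prop := ∀ ε : ℝ, 0 < ε → ∃ p ∈ TP, ∀ r, |g r - p r| ≤ ε

lemma cos_mem (θ φ : ℝ) : (fun r : ℝ => Real.cos (θ * r + φ)) ∈ TP :=
  Submodule.subset_span ⟨(θ, φ), rfl⟩

lemma const_mem (c : ℝ) : (fun _ : ℝ => c) ∈ TP := by
  have h := TP.smul_mem c (cos_mem 0 0)
  convert h using 1
  funext r
  simp

lemma TP_mul {f g : ℝ → ℝ} (hf : f ∈ TP) (hg : g ∈ TP) : f * g ∈ TP := by
  induction hf, hg using Submodule.span_induction₂ with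
  | mem_mem x y hx hy =>
    obtain ⟨⟨a, b⟩, rfl⟩ := hx
    obtain ⟨⟨c, d⟩, rfl⟩ := hy
    have h1 := TP.add_mem (TP.smul_mem (1/2) (cos_mem (a + c) (b + d))) (TP.smul_mem (1/2) (cos_mem (a - c) (b - d)))
    convert h1 using 1
    funext r
    simp only [Pi.mul_apply, Pi.add_apply, Pi.smul_apply, smul_eq_mul]
    have e1 : (a + c) * r + (b + d) = (a * r + b) + (c * r + d) := by ring
    have e2 : (a - c) * r + (b - d) = (a * r + b) - (c * r + d) := by ring
    rw [e1, e2, Real.cos_add (a * r + b) (c * r + d), Real.cos_sub (a * r + b) (c * r + d)]; ring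
  | zero_left y hy => simp [TP.zero_mem]
  | zero_right x hx => simp [TP.zero_mem]
  | add_left x y z hx hy hz h1 h2 => rw [add_mul]; exact TP.add_mem h1 h2
  | add_right x y z hx hy hz h1 h2 => rw [mul_add]; exact TP.add_mem h1 h2
  | smul_left r x y hx hy h => rw [smul_mul_assoc]; exact TP.smul_mem _ h
  | smul_right r x y hx hy h => rw [mul_smul_comm]; exact TP.smul_mem _ h

lemma TP_cont {f : ℝ → ℝ} (hf : f ∈ TP) : Continuous f ∧ ∃ B : ℝ, 0 ≤ B ∧ ∀ r, |f r| ≤ B := by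
  induction hf using Submodule.span_induction with
  | mem x h =>
    obtain ⟨⟨a, b⟩, rfl⟩ := h
    exact ⟨by fun_prop, 1, zero_le_one, fun r => Real.abs_cos_le_one _⟩
  | zero => exact ⟨continuous_const, 0, le_rfl, by simp⟩
  | add x y hx hy h1 h2 =>
    obtain ⟨c1, B1, hB1, b1⟩ := h1
    obtain ⟨c2, B2, hB2, b2⟩ := h2
    refine ⟨c1.add c2, B1 + B2, by positivity, fun r => (abs_add_le _ _).trans (add_le_add (b1 r) (b2 r))⟩
  | smul a x hx h =>
    obtain ⟨c1, B1, hB1, b1⟩ := h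
    refine ⟨c1.const_smul a, |a| * B1, by positivity, fun r => ?_⟩
    rw [Pi.smul_apply, smul_eq_mul, abs_mul]
    exact mul_le_mul_of_nonneg_left (b1 r) (abs_nonneg _)

lemma AP_cont {g : ℝ → ℝ} (hg : AP g) : Continuous g := by
  rw [continuous_iff_continuousAt]
  intro x
  rw [Metric.continuousAt_iff]
  intro ε hε
  obtain ⟨p, hp, h⟩ := hg (ε/3) (by positivity)
  obtain ⟨hc, -⟩ := TP_cont hp
  obtain ⟨δ, hδ, h2⟩ := Metric.continuousAt_iff.1 (hc.continuousAt (x := x)) (ε/3) (by positivity)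
  refine ⟨δ, hδ, fun {y} hy => ?_⟩
  have h3 := h2 hy
  rw [Real.dist_eq] at h3 ⊢
  have h4 := h x
  have h5 := h y
  rw [abs_le] at *
  rw [abs_lt] at *
  constructor <;> linarith [h3.1, h3.2, h4.1, h4.2, h5.1, h5.2]

lemma AP_bdd {g : ℝ → ℝ} (hg : AP g) : ∃ B : ℝ, 0 < B ∧ ∀ r, |g r| ≤ B := by
  obtain ⟨p, hp, h⟩ := hg 1 one_pos
  obtain ⟨-, B, hB, hb⟩ := TP_cont hp
  refine ⟨B + 1, by positivity, fun r => ?_⟩
  have h1 := h r
  have h2 := hb r
  have h3 : |g r| ≤ |p r| + |g r - p r| := by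
    have := abs_add_le (p r) (g r - p r)
    simpa using this
  linarith

lemma AP_of_TP {g : ℝ → ℝ} (hg : g ∈ TP) : AP g := fun ε hε => ⟨g, hg, fun r => by simpa using hε.le⟩

lemma AP_const (c : ℝ) : AP (fun _ => c) := AP_of_TP (const_mem c)

lemma AP_add {f g : ℝ → ℝ} (hf : AP f) (hg : AP g) : AP (fun r => f r + g r) := by
  intro ε hε
  obtain ⟨p, hp, h1⟩ := hf (ε/2) (by positivity)
  obtain ⟨q, hq, h2⟩ := hg (ε/2) (by positivity)
  refine ⟨p + q, TP.add_mem hp hq, fun r => ?_⟩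
  have e : f r + g r - (p + q) r = (f r - p r) + (g r - q r) := by simp; ring
  rw [e]
  exact (abs_add_le _ _).trans (by linarith [h1 r, h2 r])

lemma AP_smul {f : ℝ → ℝ} (c : ℝ) (hf : AP f) : AP (fun r => c * f r) := by
  intro ε hε
  obtain ⟨p, hp, h1⟩ := hf (ε/(|c|+1)) (by positivity)
  refine ⟨c • p, TP.smul_mem c hp, fun r => ?_⟩
  have e : c * f r - (c • p) r = c * (f r - p r) := by simp; ring
  rw [e, abs_mul]
  calc |c| * |f r - p r| ≤ (|c| + 1) * (ε/(|c|+1)) := by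
        apply mul_le_mul _ (h1 r) (abs_nonneg _) (by positivity)
        linarith
    _ = ε := by field_simp

lemma AP_mul {f g : ℝ → ℝ} (hf : AP f) (hg : AP g) : AP (fun r => f r * g r) := by
  intro ε hε
  obtain ⟨B, hB, hb⟩ := AP_bdd hf
  obtain ⟨q, hq, h2⟩ := hg (ε/(2*B)) (by positivity)
  obtain ⟨-, B', hB', hb'⟩ := TP_cont hq
  obtain ⟨p, hp, h1⟩ := hf (ε/(2*(B'+1))) (by positivity)
  refine ⟨p * q, TP_mul hp hq, fun r => ?_⟩
  have e : f r * g r - (p * q) r = f r * (g r - q r) + (f r - p r) * q r := by simp; ring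
  rw [e]
  refine (abs_add_le _ _).trans ?_
  rw [abs_mul, abs_mul]
  have i1 : |f r| * |g r - q r| ≤ B * (ε/(2*B)) := mul_le_mul (hb r) (h2 r) (abs_nonneg _) hB.le
  have i2 : |f r - p r| * |q r| ≤ (ε/(2*(B'+1))) * (B'+1) :=
    mul_le_mul (h1 r) ((hb' r).trans (by linarith)) (abs_nonneg _) (by positivity)
  have e1 : B * (ε/(2*B)) = ε/2 := by field_simp
  have e2 : (ε/(2*(B'+1))) * (B'+1) = ε/2 := by field_simp
  linarith

lemma AP_lim {f : ℝ → ℝ} (h : ∀ ε : ℝ, 0 < ε → ∃ g, AP g ∧ ∀ r, |f r - g r| ≤ ε) : AP f := by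
  intro ε hε
  obtain ⟨g, hg, h1⟩ := h (ε/2) (by positivity)
  obtain ⟨p, hp, h2⟩ := hg (ε/2) (by positivity)
  refine ⟨p, hp, fun r => ?_⟩
  have e : f r - p r = (f r - g r) + (g r - p r) := by ring
  rw [e]
  exact (abs_add_le _ _).trans (by linarith [h1 r, h2 r])

/-! ### means -/

lemma WM_unique {g : ℝ → ℝ} {M M' : ℝ} (h : WM g M) (h' : WM g M') : M = M' := by
  by_contra hne
  have hpos : 0 < |M - M'| := abs_pos.2 (sub_ne_zero.2 hne)
  obtain ⟨H₁, h1, a1⟩ := h (|M - M'|/4) (by positivity)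
  obtain ⟨H₂, h2, a2⟩ := h' (|M - M'|/4) (by positivity)
  set H := max H₁ H₂
  have hH : 0 < H := lt_of_lt_of_le h1 (le_max_left _ _)
  have b1 := a1 0 H (le_max_left _ _)
  have b2 := a2 0 H (le_max_right _ _)
  set I := ∫ r in (0:ℝ)..(0+H), g r
  have : |M - M'| * H ≤ |M - M'|/4 * H + |M - M'|/4 * H := by
    have e : |M - M'| * H = |(I - M' * H) - (I - M * H)| := by
      rw [← abs_of_pos hH, ← abs_mul, abs_of_pos hH]; congr 1; ring
    rw [e]
    refine (abs_sub _ _).trans ?_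
    linarith
  nlinarith

lemma WM_add {f g : ℝ → ℝ} {M N : ℝ} (hf : WM f M) (hg : WM g N) (cf : Continuous f) (cg : Continuous g) :
    WM (fun r => f r + g r) (M + N) := by
  intro ε hε
  obtain ⟨H₁, h1, a1⟩ := hf (ε/2) (by positivity)
  obtain ⟨H₂, h2, a2⟩ := hg (ε/2) (by positivity)
  refine ⟨max H₁ H₂, lt_of_lt_of_le h1 (le_max_left _ _), fun Y H hH => ?_⟩
  rw [intervalIntegral.integral_add (cf.intervalIntegrable _ _) (cg.intervalIntegrable _ _)]
  have b1 := a1 Y H ((le_max_left _ _).trans hH)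
  have b2 := a2 Y H ((le_max_right _ _).trans hH)
  have e : ((∫ r in Y..(Y+H), f r) + ∫ r in Y..(Y+H), g r) - (M + N) * H =
      ((∫ r in Y..(Y+H), f r) - M * H) + ((∫ r in Y..(Y+H), g r) - N * H) := by ring
  rw [e]
  exact (abs_add_le _ _).trans (by linarith)

lemma WM_smul {f : ℝ → ℝ} {M : ℝ} (c : ℝ) (hf : WM f M) : WM (fun r => c * f r) (c * M) := by
  intro ε hε
  obtain ⟨H₁, h1, a1⟩ := hf (ε/(|c|+1)) (by positivity)
  refine ⟨H₁, h1, fun Y H hH => ?_⟩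
  have hH0 : 0 < H := lt_of_lt_of_le h1 hH
  rw [intervalIntegral.integral_const_mul]
  have e : c * (∫ r in Y..(Y+H), f r) - c * M * H = c * ((∫ r in Y..(Y+H), f r) - M * H) := by ring
  rw [e, abs_mul]
  calc |c| * |(∫ r in Y..(Y+H), f r) - M * H| ≤ (|c| + 1) * (ε/(|c|+1) * H) := by
        apply mul_le_mul _ (a1 Y H hH) (abs_nonneg _) (by positivity)
        linarith
    _ = ε * H := by field_simp

lemma WM_cos {θ : ℝ} (hθ : θ ≠ 0) (φ : ℝ) : WM (fun r => Real.cos (θ * r + φ)) 0 := by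
  intro ε hε
  refine ⟨2/(|θ| * ε), by positivity, fun Y H hH => ?_⟩
  have hθ' : 0 < |θ| := abs_pos.2 hθ
  have e : ∫ r in Y..(Y+H), Real.cos (θ * r + φ) = (Real.sin (θ * (Y+H) + φ) - Real.sin (θ * Y + φ)) / θ := by
    have h := intervalIntegral.integral_comp_mul_add (fun x => Real.cos x) hθ φ (a := Y) (b := Y + H)
    rw [h, integral_cos, smul_eq_mul]; field_simp
  rw [e, zero_mul, sub_zero, abs_div]
  have h1 : |Real.sin (θ * (Y+H) + φ) - Real.sin (θ * Y + φ)| ≤ 2 := by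
    refine (abs_sub _ _).trans ?_
    linarith [Real.abs_sin_le_one (θ * (Y+H) + φ), Real.abs_sin_le_one (θ * Y + φ)]
  rw [div_le_iff₀ hθ']
  have h2 : 2 ≤ ε * |θ| * H := by
    have := mul_le_mul_of_nonneg_left hH (by positivity : 0 ≤ |θ| * ε)
    have e2 : |θ| * ε * (2 / (|θ| * ε)) = 2 := by field_simp
    rw [e2] at this
    linarith
  linarith

lemma WM_const (c : ℝ) : WM (fun _ => c) c := by
  intro ε hε
  refine ⟨1, one_pos, fun Y H hH => ?_⟩
  simp only [intervalIntegral.integral_const, smul_eq_mul]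
  have : (Y + H - Y) * c - c * H = 0 := by ring
  rw [this, abs_zero]; positivity

lemma TP_WM {f : ℝ → ℝ} (hf : f ∈ TP) : ∃ M, WM f M := by
  induction hf using Submodule.span_induction with
  | mem x h =>
    obtain ⟨⟨a, b⟩, rfl⟩ := h
    by_cases ha : a = 0
    · subst ha
      exact ⟨Real.cos b, by simpa using WM_const (Real.cos b)⟩
    · exact ⟨0, WM_cos ha b⟩
  | zero => exact ⟨0, WM_const 0⟩
  | add x y hx hy h1 h2 =>
    obtain ⟨M, hM⟩ := h1
    obtain ⟨N, hN⟩ := h2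
    exact ⟨M + N, WM_add hM hN (TP_cont hx).1 (TP_cont hy).1⟩
  | smul a x hx h =>
    obtain ⟨M, hM⟩ := h
    exact ⟨a * M, WM_smul a hM⟩

/-- comparison of window integrals -/
lemma int_close {f g : ℝ → ℝ} (cf : Continuous f) (cg : Continuous g) {ε : ℝ} (h : ∀ r, |f r - g r| ≤ ε) (Y : ℝ) {H : ℝ}
    (hH : 0 ≤ H) : |(∫ r in Y..(Y+H), f r) - ∫ r in Y..(Y+H), g r| ≤ ε * H := by
  rw [← intervalIntegral.integral_sub (cf.intervalIntegrable _ _) (cg.intervalIntegrable _ _)]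
  have := intervalIntegral.norm_integral_le_of_norm_le_const (a := Y) (b := Y + H) (f := fun r => f r - g r) (C := ε)
    (fun x _ => by rw [Real.norm_eq_abs]; exact h x)
  rw [Real.norm_eq_abs] at this
  refine this.trans ?_
  rw [add_sub_cancel_left, abs_of_nonneg hH]

lemma WM_mono {f g : ℝ → ℝ} (cf : Continuous f) (cg : Continuous g) (h : ∀ r, f r ≤ g r) {M N : ℝ} (hf : WM f M)
    (hg : WM g N) : M ≤ N := by
  by_contra hlt
  rw [not_le] at hlt
  obtain ⟨H₁, h1, a1⟩ := hf ((M - N)/4) (by linarith)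
  obtain ⟨H₂, h2, a2⟩ := hg ((M - N)/4) (by linarith)
  set H := max H₁ H₂
  have hH : 0 < H := lt_of_lt_of_le h1 (le_max_left _ _)
  have b1 := a1 0 H (le_max_left _ _)
  have b2 := a2 0 H (le_max_right _ _)
  have hle : (∫ r in (0:ℝ)..(0+H), f r) ≤ ∫ r in (0:ℝ)..(0+H), g r :=
    intervalIntegral.integral_mono_on (by linarith) (cf.intervalIntegrable _ _) (cg.intervalIntegrable _ _) (fun r _ => h r)
  rw [abs_le] at b1 b2
  nlinarith

lemma WM_lim {f : ℝ → ℝ} (cf : Continuous f)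
    (h : ∀ ε : ℝ, 0 < ε → ∃ g, Continuous g ∧ (∃ M, WM g M) ∧ ∀ r, |f r - g r| ≤ ε) : ∃ M, WM f M := by
  choose! g cg hM hg using h
  choose! M hM using hM
  -- the means are Cauchy
  have key : ∀ ε δ : ℝ, 0 < ε → 0 < δ → |M ε - M δ| ≤ ε + δ := by
    intro ε δ hε hδ
    have hclose : ∀ r, |g ε r - g δ r| ≤ ε + δ := by
      intro r
      have e : g ε r - g δ r = (f r - g δ r) - (f r - g ε r) := by ring
      rw [e]
      exact (abs_sub _ _).trans (by linarith [hg ε hε r, hg δ hδ r])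
    rw [abs_le]
    constructor
    · have h1 : WM (fun r => g δ r + (-(ε+δ))) (M δ + (-(ε + δ))) := WM_add (hM δ hδ) (WM_const _) (cg δ hδ) continuous_const
      have := WM_mono (f := fun r => g δ r + (-(ε+δ))) ((cg δ hδ).add continuous_const) (cg ε hε) (fun r => by
        have := abs_le.1 (hclose r); linarith [this.1]) h1 (hM ε hε)
      linarith
    · have h1 : WM (fun r => g δ r + (ε+δ)) (M δ + (ε + δ)) := WM_add (hM δ hδ) (WM_const _) (cg δ hδ) continuous_const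
      have := WM_mono (g := fun r => g δ r + (ε+δ)) (cg ε hε) ((cg δ hδ).add continuous_const) (fun r => by
        have := abs_le.1 (hclose r); linarith [this.2]) (hM ε hε) h1
      linarith
  have hcs : CauchySeq (fun n : ℕ => M (1/((n:ℝ)+1))) := by
    rw [Metric.cauchySeq_iff]
    intro ε hε
    obtain ⟨N, hN⟩ := exists_nat_gt (2/ε)
    refine ⟨N, fun m hm n hn => ?_⟩
    rw [Real.dist_eq]
    have hm0 : (0:ℝ) < (m:ℝ)+1 := by positivity
    have hn0 : (0:ℝ) < (n:ℝ)+1 := by positivity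
    have h1 := key (1/((m:ℝ)+1)) (1/((n:ℝ)+1)) (by positivity) (by positivity)
    have hN0 : 0 < 2/ε := by positivity
    have h2 : 1/((m:ℝ)+1) < ε/2 := by
      rw [div_lt_iff₀ hm0]
      have : (N:ℝ) ≤ m := by exact_mod_cast hm
      have h3 : 2/ε < (m:ℝ)+1 := by linarith
      rw [div_lt_iff₀ hε] at h3
      nlinarith
    have h2' : 1/((n:ℝ)+1) < ε/2 := by
      rw [div_lt_iff₀ hn0]
      have : (N:ℝ) ≤ n := by exact_mod_cast hn
      have h3 : 2/ε < (n:ℝ)+1 := by linarith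
      rw [div_lt_iff₀ hε] at h3
      nlinarith
    linarith
  obtain ⟨M0, hM0⟩ := cauchySeq_tendsto_of_complete hcs
  refine ⟨M0, fun ε hε => ?_⟩
  -- choose n
  have hev := (Metric.tendsto_atTop.1 hM0) (ε/4) (by positivity)
  obtain ⟨N1, hN1⟩ := hev
  obtain ⟨N2, hN2⟩ := exists_nat_gt (4/ε)
  set n := max N1 N2
  have hn0 : (0:ℝ) < (n:ℝ)+1 := by positivity
  set η := 1/((n:ℝ)+1) with hη
  have hη0 : 0 < η := by positivity
  have hη1 : η < ε/4 := by
    rw [hη, div_lt_iff₀ hn0]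
    have h4 : 4/ε < (n:ℝ)+1 := by
      have : (N2:ℝ) ≤ n := by exact_mod_cast le_max_right N1 N2
      linarith
    rw [div_lt_iff₀ hε] at h4
    nlinarith
  have hMn : |M η - M0| < ε/4 := by
    have := hN1 n (le_max_left _ _)
    rwa [Real.dist_eq] at this
  obtain ⟨H₁, h1, a1⟩ := hM η hη0 (ε/4) (by positivity)
  refine ⟨H₁, h1, fun Y H hH => ?_⟩
  have hH0 : 0 < H := lt_of_lt_of_le h1 hH
  have b1 := a1 Y H hH
  have b2 := int_close cf (cg η hη0) (hg η hη0) Y hH0.le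
  have e : (∫ r in Y..(Y+H), f r) - M0 * H = ((∫ r in Y..(Y+H), f r) - ∫ r in Y..(Y+H), g η r) +
      (((∫ r in Y..(Y+H), g η r) - M η * H) + (M η - M0) * H) := by ring
  rw [e]
  refine (abs_add_le _ _).trans ?_
  have b3 := abs_add_le ((∫ r in Y..(Y+H), g η r) - M η * H) ((M η - M0) * H)
  rw [abs_mul, abs_of_pos hH0] at b3
  nlinarith

theorem AP_WM {f : ℝ → ℝ} (hf : AP f) : ∃ M, WM f M := by
  apply WM_lim (AP_cont hf)
  intro ε hε
  obtain ⟨p, hp, h⟩ := hf ε hε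
  exact ⟨p, (TP_cont hp).1, TP_WM hp, h⟩

open Classical in
/-- the mean of an almost periodic function -/
noncomputable def Mn (g : ℝ → ℝ) : ℝ := if h : ∃ M, WM g M then h.choose else 0

lemma Mn_WM {g : ℝ → ℝ} (h : ∃ M, WM g M) : WM g (Mn g) := by
  unfold Mn
  rw [dif_pos h]
  exact h.choose_spec

lemma AP_Mn {f : ℝ → ℝ} (hf : AP f) : WM f (Mn f) := Mn_WM (AP_WM hf)

lemma Mn_eq {g : ℝ → ℝ} {M : ℝ} (h : WM g M) : Mn g = M := WM_unique (Mn_WM ⟨M, h⟩) h

lemma Mn_mono {f g : ℝ → ℝ} (hf : AP f) (hg : AP g) (h : ∀ r, f r ≤ g r) : Mn f ≤ Mn g :=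
  WM_mono (AP_cont hf) (AP_cont hg) h (AP_Mn hf) (AP_Mn hg)

lemma Mn_add {f g : ℝ → ℝ} (hf : AP f) (hg : AP g) : Mn (fun r => f r + g r) = Mn f + Mn g :=
  Mn_eq (WM_add (AP_Mn hf) (AP_Mn hg) (AP_cont hf) (AP_cont hg))

lemma Mn_smul {f : ℝ → ℝ} (c : ℝ) (hf : AP f) : Mn (fun r => c * f r) = c * Mn f :=
  Mn_eq (WM_smul c (AP_Mn hf))

lemma Mn_const (c : ℝ) : Mn (fun _ => c) = c := Mn_eq (WM_const c)

lemma Mn_nonneg {f : ℝ → ℝ} (hf : AP f) (h : ∀ r, 0 ≤ f r) : 0 ≤ Mn f := by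
  have := Mn_mono (AP_const 0) hf h
  rwa [Mn_const] at this

end Pool.Agent.H592.PD
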