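import Pool.Agent.H592.PD.A1

/-!
# Continuous functions of almost periodic vectors, and their laws
-/

open MeasureTheory Filter Topology Set

namespace Pool.Agent.H592.PD

variable {d : ℕ}

lemma exists_box {u : Fin d → ℝ → ℝ} (hu : ∀ i, AP (u i)) : ∃ B : ℝ, 0 < B ∧ ∀ r, (fun i => u i r) ∈ Metric.closedBall (0 : Fin d → ℝ) B := by
  choose B hB hb using fun i => AP_bdd (hu i)
  refine ⟨1 + ∑ i, B i, by
    have : 0 ≤ ∑ i, B i := Finset.sum_nonneg (fun i _ => (hB i).le)
    linarith, fun r => ?_⟩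
  rw [mem_closedBall_zero_iff, pi_norm_le_iff_of_nonneg (by
    have : 0 ≤ ∑ i, B i := Finset.sum_nonneg (fun i _ => (hB i).le)
    linarith)]
  intro i
  rw [Real.norm_eq_abs]
  have h1 := hb i r
  have h2 : B i ≤ ∑ i, B i := Finset.single_le_sum (fun j _ => (hB j).le) (Finset.mem_univ i)
  linarith

/-- the subalgebra of the continuous functions on the box whose composition with `u` is almost periodic -/
def Asub {u : Fin d → ℝ → ℝ} (_hu : ∀ i, AP (u i)) {B : ℝ}
    (hB : ∀ r, (fun i => u i r) ∈ Metric.closedBall (0 : Fin d → ℝ) B) :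
    Subalgebra ℝ C(Metric.closedBall (0 : Fin d → ℝ) B, ℝ) where
  carrier := {h | AP (fun r => h ⟨fun i => u i r, hB r⟩)}
  mul_mem' := fun ha hb => AP_mul ha hb
  add_mem' := fun ha hb => AP_add ha hb
  algebraMap_mem' := fun c => AP_const c

theorem AP_comp {u : Fin d → ℝ → ℝ} (hu : ∀ i, AP (u i)) {f : (Fin d → ℝ) → ℝ} (hf : Continuous f) :
    AP (fun r => f (fun i => u i r)) := by
  obtain ⟨B, hB0, hB⟩ := exists_box hu
  set A := Asub hu hB with hA
  have hsep : A.SeparatesPoints := by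
    intro x y hxy
    have hne : (x : Fin d → ℝ) ≠ y := fun h => hxy (Subtype.ext h)
    obtain ⟨i, hi⟩ := Function.ne_iff.1 hne
    refine ⟨_, ⟨⟨fun z : Metric.closedBall (0 : Fin d → ℝ) B => (z : Fin d → ℝ) i,
      (continuous_apply i).comp continuous_subtype_val⟩, ?_, rfl⟩, hi⟩
    change AP (fun r => u i r)
    exact hu i
  have htop := ContinuousMap.subalgebra_topologicalClosure_eq_top_of_separatesPoints A hsep
  set g : C(Metric.closedBall (0 : Fin d → ℝ) B, ℝ) := ⟨fun z => f z, by fun_prop⟩ with hg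
  have hmem : g ∈ A.topologicalClosure := by rw [htop]; trivial
  have hmem' : g ∈ closure (A : Set C(Metric.closedBall (0 : Fin d → ℝ) B, ℝ)) := hmem
  apply AP_lim
  intro ε hε
  obtain ⟨h, hhA, hh⟩ := Metric.mem_closure_iff.1 hmem' ε hε
  refine ⟨fun r => h ⟨fun i => u i r, hB r⟩, hhA, fun r => ?_⟩
  have h1 := ContinuousMap.dist_apply_le_dist (f := g) (g := h) ⟨fun i => u i r, hB r⟩
  rw [Real.dist_eq] at h1
  exact h1.trans hh.le

/-- the law of an almost periodic vector over windows starting at `0` -/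
theorem exists_law {u : Fin d → ℝ → ℝ} (hu : ∀ i, AP (u i)) :
    ∃ μ : ProbabilityMeasure (Fin d → ℝ), ∀ f : (Fin d → ℝ) → ℝ, Continuous f →
      Integrable f (μ : Measure (Fin d → ℝ)) ∧ Mn (fun r => f (fun i => u i r)) = ∫ x, f x ∂(μ : Measure (Fin d → ℝ)) := by
  obtain ⟨B, hB0, hB⟩ := exists_box hu
  set K := Metric.closedBall (0 : Fin d → ℝ) B with hK
  have : CompactSpace K := isCompact_iff_compactSpace.1 (isCompact_closedBall _ _)
  have hUc : Continuous (fun r : ℝ => (⟨fun i => u i r, hB r⟩ : K)) := by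
    apply Continuous.subtype_mk
    exact continuous_pi (fun i => AP_cont (hu i))
  -- the empirical measures
  have hprob : ∀ n : ℕ, IsProbabilityMeasure ((ENNReal.ofReal ((n:ℝ)+1))⁻¹ • (volume.restrict (Icc (0:ℝ) ((n:ℝ)+1)))) := by
    intro n
    constructor
    rw [Measure.smul_apply, Measure.restrict_apply_univ, Real.volume_Icc, sub_zero, smul_eq_mul]
    exact ENNReal.inv_mul_cancel (by simp; positivity) ENNReal.ofReal_ne_top
  set P : ℕ → ProbabilityMeasure K := fun n =>
    ⟨((ENNReal.ofReal ((n:ℝ)+1))⁻¹ • (volume.restrict (Icc (0:ℝ) ((n:ℝ)+1)))).map (fun r : ℝ => (⟨fun i => u i r, hB r⟩ : K)),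
      (Measure.isProbabilityMeasure_map_iff hUc.measurable.aemeasurable).2 (hprob n)⟩ with hP
  have hint : ∀ (n : ℕ) (g : C(K, ℝ)), ∫ x, g x ∂(P n : Measure K) =
      (1/((n:ℝ)+1)) * ∫ r in (0:ℝ)..(0 + ((n:ℝ)+1)), g ⟨fun i => u i r, hB r⟩ := by
    intro n g
    have hn : (0:ℝ) < (n:ℝ)+1 := by positivity
    have e1 : (P n : Measure K) = ((ENNReal.ofReal ((n:ℝ)+1))⁻¹ • (volume.restrict (Icc (0:ℝ) ((n:ℝ)+1)))).map
      (fun r : ℝ => (⟨fun i => u i r, hB r⟩ : K)) := rfl
    rw [e1, integral_map hUc.measurable.aemeasurable g.continuous.aestronglyMeasurable, integral_smul_measure,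
      ENNReal.toReal_inv, ENNReal.toReal_ofReal hn.le, integral_Icc_eq_integral_Ioc,
      ← intervalIntegral.integral_of_le hn.le, smul_eq_mul, one_div, zero_add]
  have hAPg : ∀ g : C(K, ℝ), AP (fun r => g ⟨fun i => u i r, hB r⟩) := by
    intro g
    obtain ⟨G, hG⟩ := ContinuousMap.exists_restrict_eq (Metric.isClosed_closedBall (x := (0 : Fin d → ℝ)) (ε := B)) g
    have := AP_comp hu G.continuous
    convert this using 2 with r
    rw [← hG]; rfl
  have htend : ∀ g : C(K, ℝ), Tendsto (fun n => ∫ x, g x ∂(P n : Measure K)) atTop (𝓝 (Mn (fun r => g ⟨fun i => u i r, hB r⟩))) := by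
    intro g
    rw [Metric.tendsto_atTop]
    intro ε hε
    obtain ⟨H₀, hH₀, h⟩ := AP_Mn (hAPg g) (ε/2) (by positivity)
    obtain ⟨N, hN⟩ := exists_nat_gt H₀
    refine ⟨N, fun n hn => ?_⟩
    have hn0 : (0:ℝ) < (n:ℝ)+1 := by positivity
    have hnN : (N:ℝ) ≤ n := by exact_mod_cast hn
    have h1 := h 0 ((n:ℝ)+1) (by linarith)
    rw [hint, Real.dist_eq]
    set I := ∫ r in (0:ℝ)..(0 + ((n:ℝ)+1)), g ⟨fun i => u i r, hB r⟩
    set M := Mn (fun r => g ⟨fun i => u i r, hB r⟩)
    have e : 1/((n:ℝ)+1) * I - M = (I - M * ((n:ℝ)+1)) / ((n:ℝ)+1) := by field_simp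
    rw [e, abs_div, abs_of_pos hn0, div_lt_iff₀ hn0]
    nlinarith
  -- a limit along an ultrafilter
  obtain ⟨ν, -, hν⟩ := isCompact_univ.ultrafilter_le_nhds ((Ultrafilter.of (atTop : Filter ℕ)).map P) (by simp)
  have hν' : Tendsto P (Ultrafilter.of (atTop : Filter ℕ)) (𝓝 ν) := by
    rw [Tendsto]; exact_mod_cast hν
  have hνint : ∀ g : C(K, ℝ), ∫ x, g x ∂(ν : Measure K) = Mn (fun r => g ⟨fun i => u i r, hB r⟩) := by
    intro g
    have h1 := (ProbabilityMeasure.tendsto_iff_forall_integral_tendsto.1 hν') (BoundedContinuousFunction.mkOfCompact g)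
    have h2 := (htend g).mono_left (Ultrafilter.of_le (atTop : Filter ℕ))
    exact tendsto_nhds_unique h1 h2
  refine ⟨⟨(ν : Measure K).map Subtype.val, (Measure.isProbabilityMeasure_map_iff (by fun_prop)).2 inferInstance⟩, fun f hf => ?_⟩
  change Integrable f ((ν : Measure K).map Subtype.val) ∧
    Mn (fun r => f (fun i => u i r)) = ∫ x, f x ∂((ν : Measure K).map Subtype.val)
  set g : C(K, ℝ) := ⟨fun z => f z, by fun_prop⟩ with hg
  constructor
  · rw [integrable_map_measure hf.aestronglyMeasurable (by fun_prop)]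
    exact (BoundedContinuousFunction.mkOfCompact g).integrable _
  · rw [integral_map (by fun_prop) hf.aestronglyMeasurable]
    exact (hνint g).symm

end Pool.Agent.H592.PD
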