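import Pool.Agent.H592.PD.A2

/-!
# The limit law of a sequence of almost periodic vectors which converges in mean square
-/

open MeasureTheory Filter Topology Set

namespace Pool.Agent.H592.PD

variable {d : ℕ}

/-- the square of the Euclidean norm -/
def qq (x : Fin d → ℝ) : ℝ := ∑ i, x i ^ 2

lemma qq_nonneg (x : Fin d → ℝ) : 0 ≤ qq x := Finset.sum_nonneg (fun i _ => sq_nonneg _)

lemma qq_cont : Continuous (qq : (Fin d → ℝ) → ℝ) := by unfold qq; fun_prop

lemma norm_sq_le (x : Fin d → ℝ) : ‖x‖ ^ 2 ≤ qq x := by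
  have h : ‖x‖ ≤ √(qq x) := by
    rw [pi_norm_le_iff_of_nonneg (Real.sqrt_nonneg _)]
    intro i
    rw [Real.norm_eq_abs, ← Real.sqrt_sq_eq_abs]
    apply Real.sqrt_le_sqrt
    exact Finset.single_le_sum (f := fun i => x i ^ 2) (fun j _ => sq_nonneg _) (Finset.mem_univ i)
  calc ‖x‖ ^ 2 ≤ (√(qq x)) ^ 2 := by gcongr
    _ = qq x := Real.sq_sqrt (qq_nonneg x)

lemma qq_le_norm (x : Fin d → ℝ) : qq x ≤ d * ‖x‖ ^ 2 := by
  unfold qq
  calc ∑ i, x i ^ 2 ≤ ∑ _i : Fin d, ‖x‖ ^ 2 := by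
        apply Finset.sum_le_sum
        intro i _
        have := norm_le_pi_norm x i
        rw [Real.norm_eq_abs] at this
        rw [← sq_abs]
        gcongr
    _ = _ := by simp

lemma qq_sub_le (x y : Fin d → ℝ) : qq x ≤ 2 * qq (x - y) + 2 * qq y := by
  unfold qq
  rw [Finset.mul_sum, Finset.mul_sum, ← Finset.sum_add_distrib]
  apply Finset.sum_le_sum
  intro i _
  simp only [Pi.sub_apply]
  nlinarith [sq_nonneg (x i - 2 * y i)]

/-- a quantitative form of uniform continuity on balls -/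
lemma bdd_close {f : (Fin d → ℝ) → ℝ} (hf : Continuous f) {C : ℝ} (hC : 0 < C) (hb : ∀ x, |f x| ≤ C) {S ε : ℝ} (hS : 0 ≤ S)
    (hε : 0 < ε) : ∃ K : ℝ, 0 < K ∧ ∀ x y, |f x - f y| ≤ ε + K * qq (x - y) + (ε / (S + 1)) * qq y := by
  -- the radius
  set L : ℝ := √(2 * C * (S + 1) / ε) with hL
  have hL2 : L ^ 2 = 2 * C * (S + 1) / ε := Real.sq_sqrt (by positivity)
  have hL0 : 0 < L := Real.sqrt_pos.2 (by positivity)
  have hcomp : IsCompact (Metric.closedBall (0 : Fin d → ℝ) (L + 1)) := isCompact_closedBall _ _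
  have huc := hcomp.uniformContinuousOn_of_continuous hf.continuousOn
  rw [Metric.uniformContinuousOn_iff] at huc
  obtain ⟨r, hr, h⟩ := huc ε hε
  set r' := min r 1 with hr'
  have hr'0 : 0 < r' := lt_min hr one_pos
  refine ⟨2 * C / r' ^ 2, by positivity, fun x y => ?_⟩
  have hq1 := qq_nonneg (x - y)
  have hq2 := qq_nonneg y
  have h2C : |f x - f y| ≤ 2 * C := (abs_sub _ _).trans (by linarith [hb x, hb y])
  by_cases h1 : L < ‖y‖
  · -- `y` is large
    have h2 : 2 * C ≤ (ε / (S + 1)) * qq y := by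
      have h3 : L ^ 2 ≤ qq y := by
        calc L ^ 2 ≤ ‖y‖ ^ 2 := by gcongr
          _ ≤ _ := norm_sq_le y
      rw [hL2] at h3
      calc 2 * C = (ε / (S + 1)) * (2 * C * (S + 1) / ε) := by field_simp
        _ ≤ _ := by gcongr
    have : 0 ≤ 2 * C / r' ^ 2 * qq (x - y) := by positivity
    linarith
  rw [not_lt] at h1
  by_cases h2 : r' ≤ ‖x - y‖
  · have h3 : 2 * C ≤ 2 * C / r' ^ 2 * qq (x - y) := by
      have h4 : r' ^ 2 ≤ qq (x - y) := by
        calc r' ^ 2 ≤ ‖x - y‖ ^ 2 := by gcongr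
          _ ≤ _ := norm_sq_le _
      calc 2 * C = 2 * C / r' ^ 2 * r' ^ 2 := by field_simp
        _ ≤ _ := by gcongr
    have : 0 ≤ (ε / (S + 1)) * qq y := by positivity
    linarith
  rw [not_le] at h2
  have h3 : ‖x‖ ≤ L + 1 := by
    have : ‖x‖ ≤ ‖y‖ + ‖x - y‖ := by
      have := norm_add_le y (x - y)
      simpa using this
    have h4 : r' ≤ 1 := min_le_right _ _
    linarith
  have h5 := h x (by simpa using h3) y (by simp; linarith) (by
    rw [dist_eq_norm]; exact h2.trans_le (min_le_left _ _))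
  rw [Real.dist_eq] at h5
  have i1 : 0 ≤ (ε / (S + 1)) * qq y := by positivity
  have i2 : 0 ≤ 2 * C / r' ^ 2 * qq (x - y) := by positivity
  linarith

lemma AP_sub {f g : ℝ → ℝ} (hf : AP f) (hg : AP g) : AP (fun r => f r - g r) := by
  have := AP_add hf (AP_smul (-1) hg)
  convert this using 2
  ring

lemma AP_vec_sub {u v : Fin d → ℝ → ℝ} (hu : ∀ i, AP (u i)) (hv : ∀ i, AP (v i)) :
    AP (fun r => qq (fun i => u i r - v i r)) := by
  have h : ∀ i, AP ((fun i r => u i r - v i r) i) := fun i => AP_sub (hu i) (hv i)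
  exact AP_comp (u := fun i r => u i r - v i r) h qq_cont

lemma AP_vec {u : Fin d → ℝ → ℝ} (hu : ∀ i, AP (u i)) : AP (fun r => qq (fun i => u i r)) := AP_comp hu qq_cont

/-- comparison of the means of a bounded continuous function -/
lemma mean_close {f : (Fin d → ℝ) → ℝ} (hf : Continuous f) {C : ℝ} (hC : 0 < C) (hb : ∀ x, |f x| ≤ C) {S ε : ℝ} (hS : 0 ≤ S)
    (hε : 0 < ε) : ∃ ρ : ℝ, 0 < ρ ∧ ∀ u v : Fin d → ℝ → ℝ, (∀ i, AP (u i)) → (∀ i, AP (v i)) →
      Mn (fun r => qq (fun i => v i r)) ≤ S → Mn (fun r => qq (fun i => u i r - v i r)) ≤ ρ →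
      |Mn (fun r => f (fun i => u i r)) - Mn (fun r => f (fun i => v i r))| ≤ ε := by
  obtain ⟨K, hK, h⟩ := bdd_close hf hC hb hS (ε := ε/3) (by positivity)
  refine ⟨ε/(3*K), by positivity, fun u v hu hv hS' hρ => ?_⟩
  have a1 := AP_comp hu hf
  have a2 := AP_comp hv hf
  have a3 := AP_vec_sub hu hv
  have a4 := AP_vec hv
  set E : ℝ → ℝ := fun r => ε/3 + (K * qq (fun i => u i r - v i r) + (ε/3 / (S + 1)) * qq (fun i => v i r)) with hE
  have aE : AP E := AP_add (AP_const _) (AP_add (AP_smul _ a3) (AP_smul _ a4))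
  have hEM : Mn E ≤ ε := by
    rw [hE, Mn_add (AP_const _) (AP_add (AP_smul _ a3) (AP_smul _ a4)), Mn_add (AP_smul _ a3) (AP_smul _ a4), Mn_smul _ a3,
      Mn_smul _ a4, Mn_const]
    have e1 : K * Mn (fun r => qq (fun i => u i r - v i r)) ≤ K * (ε/(3*K)) := mul_le_mul_of_nonneg_left hρ hK.le
    have e2 : K * (ε/(3*K)) = ε/3 := by field_simp
    have e3 : ε/3 / (S + 1) * Mn (fun r => qq (fun i => v i r)) ≤ ε/3 / (S + 1) * (S + 1) := by
      apply mul_le_mul_of_nonneg_left (by linarith) (by positivity)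
    have e4 : ε/3 / (S + 1) * (S + 1) = ε/3 := by field_simp
    linarith
  have hpt : ∀ r, |f (fun i => u i r) - f (fun i => v i r)| ≤ E r := by
    intro r
    have := h (fun i => u i r) (fun i => v i r)
    have e : (fun i => u i r) - (fun i => v i r) = fun i => u i r - v i r := rfl
    rw [e] at this
    simp only [hE]
    linarith
  rw [abs_le]
  constructor
  · have h1 := Mn_mono a2 (AP_add a1 aE) (fun r => by
      have := abs_le.1 (hpt r); linarith [this.1])
    rw [Mn_add a1 aE] at h1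
    linarith
  · have h1 := Mn_mono a1 (AP_add a2 aE) (fun r => by
      have := abs_le.1 (hpt r); linarith [this.2])
    rw [Mn_add a2 aE] at h1
    linarith

/-- sequences which converge in mean square -/
def MSC (u : ℕ → Fin d → ℝ → ℝ) : Prop :=
  (∀ N i, AP (u N i)) ∧ ∀ ε : ℝ, 0 < ε → ∃ N₀ : ℕ, ∀ N M : ℕ, N₀ ≤ N → N₀ ≤ M → Mn (fun r => qq (fun i => u N i r - u M i r)) ≤ ε

lemma MSC_bdd {u : ℕ → Fin d → ℝ → ℝ} (h : MSC u) : ∃ S : ℝ, 0 ≤ S ∧ ∀ N, Mn (fun r => qq (fun i => u N i r)) ≤ S := by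
  obtain ⟨hA, hC⟩ := h
  obtain ⟨N₀, hN⟩ := hC 1 one_pos
  have h0 : ∀ N, 0 ≤ Mn (fun r => qq (fun i => u N i r)) := fun N => Mn_nonneg (AP_vec (hA N)) (fun r => qq_nonneg _)
  refine ⟨2 + ∑ N ∈ Finset.range (N₀+1), 2 * Mn (fun r => qq (fun i => u N i r)), by
    have : 0 ≤ ∑ N ∈ Finset.range (N₀+1), 2 * Mn (fun r => qq (fun i => u N i r)) :=
      Finset.sum_nonneg (fun N _ => by have := h0 N; positivity)
    linarith, fun N => ?_⟩
  have hs : ∀ n ≤ N₀, 2 * Mn (fun r => qq (fun i => u n i r)) ≤ ∑ N ∈ Finset.range (N₀+1), 2 * Mn (fun r => qq (fun i => u N i r)) :=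
    fun n hn => Finset.single_le_sum (f := fun N => 2 * Mn (fun r => qq (fun i => u N i r)))
      (fun N _ => by have := h0 N; positivity) (Finset.mem_range.2 (by omega))
  rcases le_total N N₀ with hle | hle
  · have := hs N hle
    have := h0 N
    linarith
  · have h1 := hN N N₀ hle le_rfl
    have h2 := hs N₀ le_rfl
    have h3 := Mn_mono (AP_vec (hA N)) (AP_add (AP_smul 2 (AP_vec_sub (hA N) (hA N₀))) (AP_smul 2 (AP_vec (hA N₀))))
      (fun r => qq_sub_le (fun i => u N i r) (fun i => u N₀ i r))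
    rw [Mn_add (AP_smul 2 (AP_vec_sub (hA N) (hA N₀))) (AP_smul 2 (AP_vec (hA N₀))), Mn_smul _ (AP_vec_sub (hA N) (hA N₀)),
      Mn_smul _ (AP_vec (hA N₀))] at h3
    linarith

/-- the limit law -/
theorem exists_limit_law {u : ℕ → Fin d → ℝ → ℝ} (h : MSC u) : ∃ μ : ProbabilityMeasure (Fin d → ℝ),
    ∀ f : (Fin d → ℝ) → ℝ, Continuous f → (∃ C : ℝ, ∀ x, |f x| ≤ C) →
      Tendsto (fun N => Mn (fun r => f (fun i => u N i r))) atTop (𝓝 (∫ x, f x ∂(μ : Measure (Fin d → ℝ)))) := by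
  have hAP := h.1
  obtain ⟨S, hS0, hS⟩ := MSC_bdd h
  choose ν hν using fun N => exists_law (h.1 N)
  -- Cauchy
  have hcau : ∀ f : (Fin d → ℝ) → ℝ, Continuous f → (∃ C : ℝ, ∀ x, |f x| ≤ C) →
      ∃ l : ℝ, Tendsto (fun N => Mn (fun r => f (fun i => u N i r))) atTop (𝓝 l) := by
    intro f hf ⟨C, hC⟩
    apply cauchySeq_tendsto_of_complete
    rw [Metric.cauchySeq_iff]
    intro ε hε
    obtain ⟨ρ, hρ, hclose⟩ := mean_close hf (C := |C| + 1) (by positivity)
      (fun x => (hC x).trans ((le_abs_self C).trans (by linarith))) hS0 (ε := ε/2) (by positivity)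
    obtain ⟨N₀, hN⟩ := h.2 ρ hρ
    refine ⟨N₀, fun m hm n hn => ?_⟩
    rw [Real.dist_eq]
    have := hclose (u m) (u n) (hAP m) (hAP n) (hS n) (hN m n hm hn)
    linarith
  -- tightness
  have htight : IsTightMeasureSet {((μ : ProbabilityMeasure (Fin d → ℝ)) : Measure (Fin d → ℝ)) | μ ∈ Set.range ν} := by
    rw [isTightMeasureSet_iff_exists_isCompact_measure_compl_le]
    intro ε hε
    by_cases hεt : ε = ⊤
    · exact ⟨∅, isCompact_empty, fun μ _ => by rw [hεt]; exact le_top⟩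
    set e := ε.toReal with he
    have he0 : 0 < e := ENNReal.toReal_pos hε.ne' hεt
    set R := √((S + 1)/e) with hR
    have hR0 : 0 < R := Real.sqrt_pos.2 (by positivity)
    have hR2 : R ^ 2 = (S + 1)/e := Real.sq_sqrt (by positivity)
    refine ⟨Metric.closedBall 0 R, isCompact_closedBall _ _, ?_⟩
    rintro μ ⟨μ', ⟨N, rfl⟩, rfl⟩
    have hint := (hν N qq qq_cont).1
    have hval := (hν N qq qq_cont).2
    have hmark := mul_meas_ge_le_integral_of_nonneg (μ := (ν N : Measure (Fin d → ℝ))) (f := qq)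
      (Eventually.of_forall fun x => qq_nonneg x) hint (R ^ 2)
    rw [← hval] at hmark
    have hsub : (Metric.closedBall (0 : Fin d → ℝ) R)ᶜ ⊆ {x | R ^ 2 ≤ qq x} := by
      intro x hx
      simp only [mem_compl_iff, mem_closedBall_zero_iff, not_le] at hx
      simp only [mem_setOf_eq]
      calc R ^ 2 ≤ ‖x‖ ^ 2 := by gcongr
        _ ≤ _ := norm_sq_le x
    have h1 : (ν N : Measure (Fin d → ℝ)).real {x | R ^ 2 ≤ qq x} ≤ e := by
      have h2 : R ^ 2 * (ν N : Measure (Fin d → ℝ)).real {x | R ^ 2 ≤ qq x} ≤ S := hmark.trans (hS N)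
      rw [hR2] at h2 ⊢
      have h3 : (ν N : Measure (Fin d → ℝ)).real {x | (S + 1)/e ≤ qq x} ≤ S / ((S+1)/e) := by
        rw [le_div_iff₀ (by positivity)]; linarith
      refine h3.trans ?_
      rw [div_le_iff₀ (by positivity)]
      have : e * ((S + 1)/e) = S + 1 := by field_simp
      linarith
    have h4 : (ν N : Measure (Fin d → ℝ)) {x | R ^ 2 ≤ qq x} ≤ ε := by
      rw [← ENNReal.ofReal_toReal (measure_ne_top (ν N : Measure (Fin d → ℝ)) {x | R ^ 2 ≤ qq x}),
        ← ENNReal.ofReal_toReal hεt]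
      exact ENNReal.ofReal_le_ofReal h1
    exact (measure_mono hsub).trans h4
  have hcomp := isCompact_closure_of_isTightMeasureSet htight
  obtain ⟨μ, -, hμ⟩ := hcomp.ultrafilter_le_nhds ((Ultrafilter.of (atTop : Filter ℕ)).map ν) (by
    rw [le_principal_iff]
    apply mem_of_superset (x := Set.range ν) _ subset_closure
    rw [Ultrafilter.coe_map]
    exact mem_map.2 (univ_mem' fun n => ⟨n, rfl⟩))
  have hμ' : Tendsto ν (Ultrafilter.of (atTop : Filter ℕ)) (𝓝 μ) := by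
    rw [Tendsto]; exact_mod_cast hμ
  refine ⟨μ, fun f hf hfb => ?_⟩
  obtain ⟨l, hl⟩ := hcau f hf hfb
  obtain ⟨C, hC⟩ := hfb
  have h1 := (ProbabilityMeasure.tendsto_iff_forall_integral_tendsto.1 hμ')
    (BoundedContinuousFunction.ofNormedAddCommGroup f hf C (fun x => by rw [Real.norm_eq_abs]; exact hC x))
  have h2 : Tendsto (fun N => ∫ x, f x ∂(ν N : Measure (Fin d → ℝ))) (Ultrafilter.of (atTop : Filter ℕ)) (𝓝 l) := by
    have := hl.mono_left (Ultrafilter.of_le (atTop : Filter ℕ))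
    convert this using 2 with N
    exact ((hν N f hf).2).symm
  have h3 : l = ∫ x, f x ∂(μ : Measure (Fin d → ℝ)) := tendsto_nhds_unique h2 h1
  rw [← h3]; exact hl

end Pool.Agent.H592.PD
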