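import Pool.Agent.H592.PD.A3

/-!
# Test functions of quadratic growth
-/

open MeasureTheory Filter Topology Set

namespace Pool.Agent.H592.PD

variable {d : ℕ}

/-- the cut-off -/
noncomputable def cu (L : ℝ) (x : Fin d → ℝ) : ℝ := max 0 (min 1 (L + 1 - qq x))

lemma cu_cont (L : ℝ) : Continuous (cu L : (Fin d → ℝ) → ℝ) := by
  unfold cu
  exact continuous_const.max (continuous_const.min (continuous_const.sub qq_cont))

lemma cu_mem (L : ℝ) (x : Fin d → ℝ) : 0 ≤ cu L x ∧ cu L x ≤ 1 := by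
  unfold cu
  exact ⟨le_max_left _ _, max_le zero_le_one (min_le_left _ _)⟩

lemma cu_one {L : ℝ} {x : Fin d → ℝ} (h : qq x ≤ L) : cu L x = 1 := by
  unfold cu
  rw [min_eq_left (by linarith), max_eq_right zero_le_one]

lemma cu_zero {L : ℝ} {x : Fin d → ℝ} (h : L + 1 ≤ qq x) : cu L x = 0 := by
  unfold cu
  apply max_eq_left
  exact (min_le_right _ _).trans (by linarith)

/-- the tail weight -/
noncomputable def wl (L : ℝ) (x : Fin d → ℝ) : ℝ := (1 + qq x) * (1 - cu L x)

lemma wl_cont (L : ℝ) : Continuous (wl L : (Fin d → ℝ) → ℝ) := by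
  unfold wl
  exact (continuous_const.add qq_cont).mul (continuous_const.sub (cu_cont L))

lemma wl_nonneg (L : ℝ) (x : Fin d → ℝ) : 0 ≤ wl L x := by
  unfold wl
  have := qq_nonneg x
  have := (cu_mem L x).2
  apply mul_nonneg <;> linarith

lemma wl_le (L : ℝ) (x : Fin d → ℝ) : wl L x ≤ 1 + qq x := by
  unfold wl
  have := qq_nonneg x
  have := (cu_mem L x).1
  nlinarith

lemma wl_bound {L B : ℝ} (hL : 1 ≤ L) {x y : Fin d → ℝ} (hy : qq y ≤ B) : wl L x ≤ 4 * qq (x - y) + (4 * B / L) * qq x := by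
  have hB : 0 ≤ B := (qq_nonneg y).trans hy
  have h0 := qq_nonneg (x - y)
  have h1 := qq_nonneg x
  by_cases h : qq x ≤ L
  · unfold wl
    rw [cu_one h]
    have : 0 ≤ (4 * B / L) * qq x := by positivity
    linarith
  rw [not_le] at h
  have h2 := wl_le L x
  have h3 := qq_sub_le x y
  have h4 : B ≤ (B / L) * qq x := by
    calc B = (B / L) * L := by field_simp
      _ ≤ _ := by gcongr
  have e : 4 * B / L * qq x = 4 * (B / L * qq x) := by ring
  rw [e]
  linarith

/-- small tails, uniformly in the sequence -/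
lemma tail_small {u : ℕ → Fin d → ℝ → ℝ} (h : MSC u) {ε : ℝ} (hε : 0 < ε) : ∃ N₀ : ℕ, ∃ L₀ : ℝ, 1 ≤ L₀ ∧ ∀ L, L₀ ≤ L → ∀ N, N₀ ≤ N →
    Mn (fun r => wl L (fun i => u N i r)) ≤ ε := by
  obtain ⟨S, hS0, hS⟩ := MSC_bdd h
  obtain ⟨N₀, hN⟩ := h.2 (ε/8) (by positivity)
  -- the bound for `u N₀`
  obtain ⟨B', hB', hb⟩ := exists_box (h.1 N₀)
  set B : ℝ := d * B' ^ 2 + 1 with hBd
  have hB0 : 0 < B := by positivity
  have hB : ∀ r, qq (fun i => u N₀ i r) ≤ B := by
    intro r
    refine (qq_le_norm _).trans ?_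
    have := hb r
    rw [mem_closedBall_zero_iff] at this
    have h2 : (d:ℝ) * ‖fun i => u N₀ i r‖ ^ 2 ≤ d * B' ^ 2 := by gcongr
    linarith
  refine ⟨N₀, max 1 (8 * B * (S + 1) / ε), le_max_left _ _, fun L hL N hNN => ?_⟩
  have hL1 : 1 ≤ L := (le_max_left _ _).trans hL
  have hL2 : 8 * B * (S + 1) / ε ≤ L := (le_max_right _ _).trans hL
  have a1 := AP_vec_sub (h.1 N) (h.1 N₀)
  have a2 := AP_vec (h.1 N)
  have h1 := Mn_mono (AP_comp (h.1 N) (wl_cont L)) (AP_add (AP_smul 4 a1) (AP_smul (4 * B / L) a2)) (fun r =>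
    wl_bound hL1 (x := fun i => u N i r) (y := fun i => u N₀ i r) (hB r))
  rw [Mn_add (AP_smul 4 a1) (AP_smul (4 * B / L) a2), Mn_smul _ a1, Mn_smul _ a2] at h1
  have h2 := hN N N₀ hNN le_rfl
  have h3 := hS N
  have h4 : 4 * B / L * Mn (fun r => qq (fun i => u N i r)) ≤ 4 * B / L * (S + 1) := by
    apply mul_le_mul_of_nonneg_left (by linarith) (by positivity)
  have h5 : 4 * B / L * (S + 1) ≤ ε / 2 := by
    rw [div_le_iff₀ hε] at hL2
    rw [div_mul_eq_mul_div, div_le_iff₀ (by linarith)]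
    nlinarith
  linarith

/-- the statement that `μ` is the limit law -/
def IsLim (u : ℕ → Fin d → ℝ → ℝ) (μ : ProbabilityMeasure (Fin d → ℝ)) : Prop :=
  ∀ f : (Fin d → ℝ) → ℝ, Continuous f → (∃ C : ℝ, ∀ x, |f x| ≤ C) →
      Tendsto (fun N => Mn (fun r => f (fun i => u N i r))) atTop (𝓝 (∫ x, f x ∂(μ : Measure (Fin d → ℝ))))

lemma int_qq {u : ℕ → Fin d → ℝ → ℝ} (h : MSC u) {μ : ProbabilityMeasure (Fin d → ℝ)} (hμ : IsLim u μ) :
    Integrable qq (μ : Measure (Fin d → ℝ)) := by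
  obtain ⟨S, hS0, hS⟩ := MSC_bdd h
  have hmin : ∀ n : ℕ, ∫ x, min (qq x) (n:ℝ) ∂(μ : Measure (Fin d → ℝ)) ≤ S := by
    intro n
    have hc : Continuous (fun x : Fin d → ℝ => min (qq x) (n:ℝ)) := qq_cont.min continuous_const
    have hb : ∀ x : Fin d → ℝ, |min (qq x) (n:ℝ)| ≤ n := by
      intro x
      rw [abs_of_nonneg (le_min (qq_nonneg x) (Nat.cast_nonneg n))]
      exact min_le_right _ _
    have ht := hμ _ hc ⟨n, hb⟩
    apply le_of_tendsto' ht
    intro N
    exact (Mn_mono (AP_comp (h.1 N) hc) (AP_vec (h.1 N)) (fun r => min_le_left _ _)).trans (hS N)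
  refine ⟨qq_cont.aestronglyMeasurable, ?_⟩
  rw [hasFiniteIntegral_iff_ofReal (Eventually.of_forall qq_nonneg)]
  refine lt_of_le_of_lt (b := ENNReal.ofReal S) ?_ ENNReal.ofReal_lt_top
  have htend := lintegral_tendsto_of_tendsto_of_monotone (μ := (μ : Measure (Fin d → ℝ)))
    (f := fun n : ℕ => fun x => ENNReal.ofReal (min (qq x) (n:ℝ))) (F := fun x => ENNReal.ofReal (qq x))
    (fun n => (qq_cont.min continuous_const).measurable.ennreal_ofReal.aemeasurable)
    (Eventually.of_forall fun x => by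
      intro m n hmn
      apply ENNReal.ofReal_le_ofReal
      have : (m:ℝ) ≤ n := by exact_mod_cast hmn
      gcongr)
    (Eventually.of_forall fun x => by
      apply ENNReal.tendsto_ofReal
      obtain ⟨n, hn⟩ := exists_nat_ge (qq x)
      apply tendsto_atTop_of_eventually_const (i₀ := n)
      intro m hm
      apply min_eq_left
      have : (n:ℝ) ≤ m := by exact_mod_cast hm
      linarith)
  apply le_of_tendsto' htend
  intro n
  have hc : Continuous (fun x : Fin d → ℝ => min (qq x) (n:ℝ)) := qq_cont.min continuous_const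
  rw [← ofReal_integral_eq_lintegral_ofReal]
  · exact ENNReal.ofReal_le_ofReal (hmin n)
  · refine Integrable.of_bound hc.aestronglyMeasurable (n:ℝ) (Eventually.of_forall fun x => ?_)
    rw [Real.norm_eq_abs, abs_of_nonneg (le_min (qq_nonneg x) (Nat.cast_nonneg n))]
    exact min_le_right _ _
  · exact Eventually.of_forall fun x => le_min (qq_nonneg x) (Nat.cast_nonneg n)

theorem limit_quad {u : ℕ → Fin d → ℝ → ℝ} (h : MSC u) {μ : ProbabilityMeasure (Fin d → ℝ)} (hμ : IsLim u μ)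
    {f : (Fin d → ℝ) → ℝ} (hf : Continuous f) {C : ℝ} (hC : ∀ x, |f x| ≤ C * (1 + qq x)) :
    Integrable f (μ : Measure (Fin d → ℝ)) ∧
      Tendsto (fun N => Mn (fun r => f (fun i => u N i r))) atTop (𝓝 (∫ x, f x ∂(μ : Measure (Fin d → ℝ)))) := by
  have hq := int_qq h hμ
  have h1q : Integrable (fun x : Fin d → ℝ => 1 + qq x) (μ : Measure (Fin d → ℝ)) := (integrable_const _).add hq
  have hC0 : 0 ≤ C := by
    have := (abs_nonneg _).trans (hC 0)
    have h2 := qq_nonneg (0 : Fin d → ℝ)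
    by_contra hneg
    rw [not_le] at hneg
    nlinarith
  have hfi : Integrable f (μ : Measure (Fin d → ℝ)) := by
    apply Integrable.mono' (h1q.const_mul C) hf.aestronglyMeasurable
    exact Eventually.of_forall fun x => by rw [Real.norm_eq_abs]; exact hC x
  refine ⟨hfi, ?_⟩
  rw [Metric.tendsto_atTop]
  intro ε hε
  set C' := C + 1 with hC'
  have hC'0 : 0 < C' := by positivity
  obtain ⟨N₁, L₁, hL₁, htail⟩ := tail_small h (ε := ε/(4*C')) (by positivity)
  -- the tail of the limit law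
  have hwt : Tendsto (fun n : ℕ => ∫ x, wl (n:ℝ) x ∂(μ : Measure (Fin d → ℝ))) atTop (𝓝 (∫ x, (0:ℝ) ∂(μ : Measure (Fin d → ℝ)))) := by
    apply tendsto_integral_of_dominated_convergence (fun x => 1 + qq x)
    · intro n; exact (wl_cont _).aestronglyMeasurable
    · exact h1q
    · intro n
      exact Eventually.of_forall fun x => by
        rw [Real.norm_eq_abs, abs_of_nonneg (wl_nonneg _ _)]; exact wl_le _ _
    · exact Eventually.of_forall fun x => by
        obtain ⟨n, hn⟩ := exists_nat_ge (qq x)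
        apply tendsto_atTop_of_eventually_const (i₀ := n)
        intro m hm
        have : (n:ℝ) ≤ m := by exact_mod_cast hm
        unfold wl
        rw [cu_one (by linarith)]; ring
  rw [integral_zero] at hwt
  obtain ⟨n₁, hn₁⟩ := (Metric.tendsto_atTop.1 hwt) (ε/(4*C')) (by positivity)
  obtain ⟨n₂, hn₂⟩ := exists_nat_ge L₁
  set n := max n₁ n₂
  set L : ℝ := (n:ℝ) with hL
  have hLL : L₁ ≤ L := hn₂.trans (by rw [hL]; exact_mod_cast le_max_right n₁ n₂)
  have hw1 : ∫ x, wl L x ∂(μ : Measure (Fin d → ℝ)) < ε/(4*C') := by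
    have := hn₁ n (le_max_left _ _)
    rw [Real.dist_eq, sub_zero] at this
    exact (le_abs_self _).trans_lt this
  -- the truncated function
  set g : (Fin d → ℝ) → ℝ := fun x => f x * cu L x with hg
  have hgc : Continuous g := hf.mul (cu_cont L)
  have hgb : ∀ x, |g x| ≤ C * (L + 2) := by
    intro x
    have h1 := cu_mem L x
    have hq0 := qq_nonneg x
    have hL0 : 0 ≤ L := Nat.cast_nonneg n
    by_cases hx : L + 1 ≤ qq x
    · simp only [hg]; rw [cu_zero hx, mul_zero, abs_zero]; positivity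
    · rw [not_le] at hx
      simp only [hg]; rw [abs_mul, abs_of_nonneg h1.1]
      calc |f x| * cu L x ≤ |f x| * 1 := by gcongr; exact h1.2
        _ ≤ C * (1 + qq x) := by rw [mul_one]; exact hC x
        _ ≤ C * (L + 2) := mul_le_mul_of_nonneg_left (by linarith) hC0
  have hdiff : ∀ x, |f x - g x| ≤ C' * wl L x := by
    intro x
    have h1 := cu_mem L x
    have hw := wl_nonneg L x
    have e : f x - g x = f x * (1 - cu L x) := by simp only [hg]; ring
    rw [e, abs_mul, abs_of_nonneg (by linarith : 0 ≤ 1 - cu L x)]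
    calc |f x| * (1 - cu L x) ≤ (C * (1 + qq x)) * (1 - cu L x) := by
          apply mul_le_mul_of_nonneg_right (hC x); linarith
      _ = C * wl L x := by unfold wl; ring
      _ ≤ C' * wl L x := by gcongr; linarith
  obtain ⟨N₂, hN₂⟩ := (Metric.tendsto_atTop.1 (hμ g hgc ⟨_, hgb⟩)) (ε/4) (by positivity)
  refine ⟨max N₁ N₂, fun N hN => ?_⟩
  have hNN1 : N₁ ≤ N := (le_max_left _ _).trans hN
  have hNN2 : N₂ ≤ N := (le_max_right _ _).trans hN
  have b1 := htail L hLL N hNN1
  have b2 := hN₂ N hNN2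
  rw [Real.dist_eq] at b2 ⊢
  have af := AP_comp (h.1 N) hf
  have ag := AP_comp (h.1 N) hgc
  have aw := AP_comp (h.1 N) (wl_cont (d := d) L)
  have hCw : C' * Mn (fun r => wl L (fun i => u N i r)) ≤ ε/4 := by
    have := mul_le_mul_of_nonneg_left b1 hC'0.le
    have e : C' * (ε/(4*C')) = ε/4 := by field_simp
    linarith
  have b3 : |Mn (fun r => f (fun i => u N i r)) - Mn (fun r => g (fun i => u N i r))| ≤ ε/4 := by
    rw [abs_le]
    constructor
    · have h1 := Mn_mono ag (AP_add af (AP_smul C' aw)) (fun r => by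
        have := abs_le.1 (hdiff (fun i => u N i r)); linarith [this.1])
      rw [Mn_add af (AP_smul C' aw), Mn_smul _ aw] at h1
      linarith
    · have h1 := Mn_mono af (AP_add ag (AP_smul C' aw)) (fun r => by
        have := abs_le.1 (hdiff (fun i => u N i r)); linarith [this.2])
      rw [Mn_add ag (AP_smul C' aw), Mn_smul _ aw] at h1
      linarith
  have hgi : Integrable g (μ : Measure (Fin d → ℝ)) :=
    Integrable.of_bound hgc.aestronglyMeasurable (C * (L + 2)) (Eventually.of_forall fun x => by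
      rw [Real.norm_eq_abs]; exact hgb x)
  have hwi : Integrable (wl L) (μ : Measure (Fin d → ℝ)) := by
    apply Integrable.mono' h1q (wl_cont L).aestronglyMeasurable
    exact Eventually.of_forall fun x => by rw [Real.norm_eq_abs, abs_of_nonneg (wl_nonneg _ _)]; exact wl_le _ _
  have b4 : |(∫ x, g x ∂(μ : Measure (Fin d → ℝ))) - ∫ x, f x ∂(μ : Measure (Fin d → ℝ))| ≤ ε/4 := by
    rw [← integral_sub hgi hfi]
    have h1 : |∫ x, (g x - f x) ∂(μ : Measure (Fin d → ℝ))| ≤ ∫ x, C' * wl L x ∂(μ : Measure (Fin d → ℝ)) := by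
      rw [← Real.norm_eq_abs]
      refine norm_integral_le_of_norm_le (hwi.const_mul C') (Eventually.of_forall fun x => ?_)
      rw [Real.norm_eq_abs, abs_sub_comm]; exact hdiff x
    rw [integral_const_mul] at h1
    have := mul_le_mul_of_nonneg_left hw1.le hC'0.le
    have e : C' * (ε/(4*C')) = ε/4 := by field_simp
    linarith
  have e : Mn (fun r => f (fun i => u N i r)) - ∫ x, f x ∂(μ : Measure (Fin d → ℝ)) =
      (Mn (fun r => f (fun i => u N i r)) - Mn (fun r => g (fun i => u N i r))) +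
      ((Mn (fun r => g (fun i => u N i r)) - ∫ x, g x ∂(μ : Measure (Fin d → ℝ))) +
      ((∫ x, g x ∂(μ : Measure (Fin d → ℝ))) - ∫ x, f x ∂(μ : Measure (Fin d → ℝ)))) := by ring
  rw [e]
  have c1 := abs_add_le (Mn (fun r => f (fun i => u N i r)) - Mn (fun r => g (fun i => u N i r)))
    ((Mn (fun r => g (fun i => u N i r)) - ∫ x, g x ∂(μ : Measure (Fin d → ℝ))) +
      ((∫ x, g x ∂(μ : Measure (Fin d → ℝ))) - ∫ x, f x ∂(μ : Measure (Fin d → ℝ))))
  have c2 := abs_add_le (Mn (fun r => g (fun i => u N i r)) - ∫ x, g x ∂(μ : Measure (Fin d → ℝ)))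
      ((∫ x, g x ∂(μ : Measure (Fin d → ℝ))) - ∫ x, f x ∂(μ : Measure (Fin d → ℝ)))
  linarith

/-- almost periodic vectors close to the sequence have almost the limit law -/
theorem near_law {u : ℕ → Fin d → ℝ → ℝ} (h : MSC u) {μ : ProbabilityMeasure (Fin d → ℝ)} (hμ : IsLim u μ)
    {f : (Fin d → ℝ) → ℝ} (hf : Continuous f) {C : ℝ} (hC : 0 < C) (hb : ∀ x, |f x| ≤ C) {ε : ℝ} (hε : 0 < ε) :
    ∃ ρ : ℝ, 0 < ρ ∧ ∃ N₀ : ℕ, ∀ (v : Fin d → ℝ → ℝ), (∀ i, AP (v i)) → ∀ N, N₀ ≤ N →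
      Mn (fun r => qq (fun i => v i r - u N i r)) ≤ ρ →
      |Mn (fun r => f (fun i => v i r)) - ∫ x, f x ∂(μ : Measure (Fin d → ℝ))| ≤ ε := by
  obtain ⟨S, hS0, hS⟩ := MSC_bdd h
  obtain ⟨ρ, hρ, hclose⟩ := mean_close hf hC hb hS0 (ε := ε/2) (by positivity)
  obtain ⟨N₀, hN₀⟩ := (Metric.tendsto_atTop.1 (hμ f hf ⟨C, hb⟩)) (ε/2) (by positivity)
  refine ⟨ρ, hρ, N₀, fun v hv N hN hd => ?_⟩
  have h1 := hclose v (u N) hv (h.1 N) (hS N) hd
  have h2 := hN₀ N hN
  rw [Real.dist_eq] at h2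
  have e : Mn (fun r => f (fun i => v i r)) - ∫ x, f x ∂(μ : Measure (Fin d → ℝ)) =
    (Mn (fun r => f (fun i => v i r)) - Mn (fun r => f (fun i => u N i r))) +
    (Mn (fun r => f (fun i => u N i r)) - ∫ x, f x ∂(μ : Measure (Fin d → ℝ))) := by ring
  rw [e]
  exact (abs_add_le _ _).trans (by linarith)

end Pool.Agent.H592.PD
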