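import Pool.Agent.H592.PD.A5
import Pool.Graph.R_pool_sql_team_seeded_f0cf7b00.H383.PZ.V4
import Pool.Graph.R_pool_sql_team_seeded_f0cf7b00.H814R2.PZA4
import Pool.Graph.R_pool_sql_team_seeded_f0cf7b00.H452R2.PO.DK

/-!
# The Voronoi series of the Piltz divisor problem, smoothed and truncated
-/

open MeasureTheory Filter Topology Set
open Pool.Agent.H387R2.Vor Pool.Agent.H383.PZ
open Pool.Agent.H383.OM (norm_ex cf_le_one cf_le ex_cont ex_add cf_int)

namespace Pool.Agent.H592.PD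

/-- the amplitude -/
noncomputable def ak (k m : ℕ) : ℝ := dk k m * (m : ℝ) ^ (-(((k:ℝ) + 1) / (2 * k)) : ℝ) * (1 / (Real.pi * √(k:ℝ)))

lemma ak_nonneg (k m : ℕ) : 0 ≤ ak k m := by
  unfold ak
  have := dk_nonneg k m
  positivity

lemma ak_zero (k : ℕ) : ak k 0 = 0 := by unfold ak; rw [dk_zero]; ring

lemma ak_sq_summable {k : ℕ} (hk : 2 ≤ k) : Summable (fun m => ak k m ^ 2) := by
  have hk' : (2:ℝ) ≤ k := by exact_mod_cast hk
  have h := (Pool.Agent.H452R2.PO.dk_sq_summable k (σ := ((k:ℝ) + 1) / k) (by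
    rw [lt_div_iff₀ (by linarith)]; linarith)).mul_right ((1 / (Real.pi * √(k:ℝ))) ^ 2)
  refine (summable_congr (fun m => ?_)).2 h
  unfold ak
  rcases Nat.eq_zero_or_pos m with h0 | h0
  · subst h0; simp [dk_zero]
  · have hm : (0:ℝ) < m := by exact_mod_cast h0
    rw [mul_pow, mul_pow, ← Real.rpow_natCast ((m:ℝ) ^ (-(((k:ℝ) + 1) / (2 * k)) : ℝ)) 2, ← Real.rpow_mul hm.le]
    congr 3
    push_cast
    field_simp

/-- the frequency -/
noncomputable def fq (k : ℕ) (α : ℝ) (m : ℕ) : ℝ := 2 * Real.pi * (k * (m:ℝ) ^ (1 / (k:ℝ))) * α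

/-- the coefficients of the smoothed series -/
noncomputable def cS (k : ℕ) (α t δ : ℝ) (n m : ℕ) : ℂ :=
  (ak k m : ℂ) * (ok k * ex (k * (m:ℝ) ^ (1 / (k:ℝ)) * t) * cf (k * (m:ℝ) ^ (1 / (k:ℝ)) * (α * δ)) ^ n)

/-- the coefficients of the partial sums -/
noncomputable def cV (k : ℕ) (t : ℝ) (N m : ℕ) : ℂ :=
  if m ≤ N then (ak k m : ℂ) * (ok k * ex (k * (m:ℝ) ^ (1 / (k:ℝ)) * t)) else 0

lemma ex_exp (x r : ℝ) : ex (x * r) = Complex.exp (((2 * Real.pi * x * r : ℝ) : ℂ) * Complex.I) := by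
  unfold ex
  congr 3
  ring

/-- the terms of the smoothed Voronoi series are the terms of the trigonometric series -/
lemma tk_eq (k : ℕ) (α t δ : ℝ) (n m : ℕ) (r : ℝ) :
    tk k (α * δ) n (α * r + t) m = trm (cS k α t δ n m) (fq k α m) r := by
  unfold tk ck trm cS
  set y := (m:ℝ) ^ (1 / (k:ℝ)) with hy
  have e1 : ex (k * y * (α * r + t)) = ex (k * y * t) * Complex.exp (((fq k α m * r : ℝ) : ℂ) * Complex.I) := by
    have : k * y * (α * r + t) = k * y * t + (k * y * α) * r := by ring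
    rw [this, ex_add]
    congr 1
    rw [ex_exp]
    congr 3
    unfold fq
    rw [← hy]; ring
  rw [e1]
  have e2 : (ak k m : ℂ) * (ok k * ex (k * y * t) * cf (k * y * (α * δ)) ^ n) * Complex.exp (((fq k α m * r : ℝ) : ℂ) * Complex.I) =
      ((ak k m : ℝ) : ℂ) * (ok k * (ex (k * y * t) * Complex.exp (((fq k α m * r : ℝ) : ℂ) * Complex.I)) * cf (k * y * (α * δ)) ^ n) := by
    ring
  rw [e2, Complex.re_ofReal_mul]
  unfold ak
  rfl

lemma norm_cS (k : ℕ) (α t δ : ℝ) (n m : ℕ) : ‖cS k α t δ n m‖ = ak k m * ‖cf (k * (m:ℝ) ^ (1 / (k:ℝ)) * (α * δ))‖ ^ n := by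
  unfold cS
  rw [norm_mul, norm_mul, norm_mul, norm_ok, norm_ex, norm_pow, Complex.norm_real, Real.norm_of_nonneg (ak_nonneg k m)]
  ring

lemma ak_le {k : ℕ} (hk : 2 ≤ k) (m : ℕ) : ak k m ≤ dk k m * (m : ℝ) ^ (-(((k:ℝ) + 1) / (2 * k)) : ℝ) := by
  unfold ak
  have hd := dk_nonneg k m
  have hk' : (2:ℝ) ≤ k := by exact_mod_cast hk
  have hpi := Real.pi_gt_three
  have h2 : 1 ≤ √(k:ℝ) := Real.one_le_sqrt.mpr (by linarith)
  have h3 : 1 / (Real.pi * √(k:ℝ)) ≤ 1 := by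
    rw [div_le_one (by positivity)]; nlinarith
  calc _ ≤ dk k m * (m : ℝ) ^ (-(((k:ℝ) + 1) / (2 * k)) : ℝ) * 1 := by gcongr
    _ = _ := mul_one _

lemma cS_summable {k : ℕ} (hk : 2 ≤ k) {α t δ : ℝ} (hα : 0 < α) (hδ : 0 < δ) {n : ℕ} (hn : k ≤ n) :
    Summable (fun m => ‖cS k α t δ n m‖) := by
  have hαδ : 0 < α * δ := by positivity
  apply Summable.of_nonneg_of_le (fun m => norm_nonneg _) _ (mj_summable k (α * δ))
  intro m
  rw [norm_cS]
  unfold mj
  rcases Nat.eq_zero_or_pos m with h0 | h0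
  · subst h0; simp [ak_zero, dk_zero]
  · have hd := dk_nonneg k m
    have hk' : (2:ℝ) ≤ k := by exact_mod_cast hk
    have hm' : (1:ℝ) ≤ m := by exact_mod_cast h0
    have hm0 : (0:ℝ) < m := by linarith
    have h1 : ‖cf (k * (m : ℝ) ^ (1 / (k:ℝ)) * (α * δ))‖ ^ n ≤ (m:ℝ) ^ (-1:ℝ) * (1 / (α * δ) ^ k) :=
      (pow_le_pow_of_le_one (norm_nonneg _) (cf_le_one _) hn).trans (cf_pow_k hk hαδ h0)
    calc ak k m * ‖cf (k * (m : ℝ) ^ (1 / (k:ℝ)) * (α * δ))‖ ^ n ≤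
        (dk k m * (m : ℝ) ^ (-(((k:ℝ) + 1) / (2 * k)) : ℝ)) * ((m:ℝ) ^ (-1:ℝ) * (1 / (α * δ) ^ k)) := by
          gcongr
          exact ak_le hk m
      _ = dk k m * ((m : ℝ) ^ (-(((k:ℝ) + 1) / (2 * k)) : ℝ) * (m:ℝ) ^ (-1:ℝ)) * (1 / (α * δ) ^ k) := by ring
      _ = dk k m * (m : ℝ) ^ (-(((k:ℝ) + 1) / (2 * k)) + -1 : ℝ) * (1 / (α * δ) ^ k) := by rw [← Real.rpow_add hm0]
      _ ≤ _ := by
        have : (m : ℝ) ^ (-(((k:ℝ) + 1) / (2 * k)) + -1 : ℝ) ≤ (m : ℝ) ^ (-(3 / 2) : ℝ) := by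
          apply Real.rpow_le_rpow_of_exponent_le hm'
          have : 1/2 ≤ ((k:ℝ) + 1) / (2 * k) := by
            rw [le_div_iff₀ (by positivity)]; linarith
          linarith
        gcongr

lemma cV_summable (k : ℕ) (t : ℝ) (N : ℕ) : Summable (fun m => ‖cV k t N m‖) := by
  apply summable_of_ne_finset_zero (s := Finset.range (N+1))
  intro m hm
  rw [Finset.mem_range, not_lt] at hm
  unfold cV
  rw [if_neg (by omega), norm_zero]

lemma fq_pos {k : ℕ} (hk : 2 ≤ k) {α : ℝ} (hα : 0 < α) {m : ℕ} (hm : 1 ≤ m) : 0 < fq k α m := by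
  unfold fq
  have h1 : (0:ℝ) < k := by exact_mod_cast (by omega : 0 < k)
  have h2 : (0:ℝ) < m := by exact_mod_cast hm
  have := Real.pi_pos
  positivity

lemma fq_inj {k : ℕ} (hk : 2 ≤ k) {α : ℝ} (hα : 0 < α) {m m' : ℕ} (h : fq k α m = fq k α m') : m = m' := by
  unfold fq at h
  have h1 : (0:ℝ) < k := by exact_mod_cast (by omega : 0 < k)
  have hpi := Real.pi_pos
  have h2 : (m:ℝ) ^ (1 / (k:ℝ)) = (m':ℝ) ^ (1 / (k:ℝ)) := by
    have h3 : (2 * Real.pi * k * α) * (m:ℝ) ^ (1 / (k:ℝ)) = (2 * Real.pi * k * α) * (m':ℝ) ^ (1 / (k:ℝ)) := by linarith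
    exact mul_left_cancel₀ (by positivity) h3
  have h4 := (Real.rpow_left_inj (Nat.cast_nonneg m) (Nat.cast_nonneg m') (by positivity : (1 / (k:ℝ)) ≠ 0)).1 h2
  exact_mod_cast h4

lemma good_of {k : ℕ} (hk : 2 ≤ k) {α : ℝ} (hα : 0 < α) {c : ℕ → ℂ} (h0 : c 0 = 0) : Good c (fq k α) := by
  constructor
  · intro m
    rcases Nat.eq_zero_or_pos m with h | h
    · left; rw [h]; exact h0
    · right; exact fq_pos hk hα h
  · intro m m' hne
    right; right
    exact fun h => hne (fq_inj hk hα h)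

lemma cS_zero (k : ℕ) (α t δ : ℝ) (n : ℕ) : cS k α t δ n 0 = 0 := by unfold cS; rw [ak_zero]; simp

lemma cV_zero (k : ℕ) (t : ℝ) (N : ℕ) : cV k t N 0 = 0 := by unfold cV; rw [ak_zero]; simp

/-- `c(x) → 1` -/
lemma cf_tendsto : Tendsto cf (𝓝[≠] 0) (𝓝 1) := by
  have hd : HasDerivAt ex (2 * Real.pi * Complex.I) 0 := by
    unfold ex
    have h1 : HasDerivAt (fun y : ℝ => (((2 * Real.pi * y : ℝ) : ℂ) * Complex.I)) (2 * Real.pi * Complex.I) 0 := by
      have h2 : HasDerivAt (fun y : ℝ => ((2 * Real.pi * y : ℝ) : ℂ)) ((2 * Real.pi * 1 : ℝ) : ℂ) 0 :=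
        ((hasDerivAt_id (0:ℝ)).const_mul (2 * Real.pi)).ofReal_comp
      have h3 := h2.mul_const Complex.I
      have e : ((2 * Real.pi * 1 : ℝ) : ℂ) * Complex.I = 2 * Real.pi * Complex.I := by push_cast; ring
      rw [← e]
      exact h3
    have h4 := h1.cexp
    convert h4 using 1
    simp
  have h := hasDerivAt_iff_tendsto_slope.1 hd
  have h2 := h.div_const (2 * Real.pi * Complex.I)
  have hne : (2 * Real.pi * Complex.I : ℂ) ≠ 0 := by
    have := Real.pi_ne_zero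
    simp [this]
  rw [div_self hne] at h2
  refine h2.congr' ?_
  filter_upwards [self_mem_nhdsWithin] with y hy
  rw [slope_def_module]
  unfold cf
  have e0 : ex 0 = 1 := by unfold ex; simp
  rw [e0, sub_zero]
  have hy0 : (y : ℂ) ≠ 0 := by exact_mod_cast hy
  rw [Complex.real_smul]
  push_cast
  field_simp

lemma cf_small {x : ℝ} (hx : 0 < x) : Tendsto (fun δ : ℝ => cf (x * δ)) (𝓝[>] 0) (𝓝 1) := by
  apply cf_tendsto.comp
  rw [tendsto_nhdsWithin_iff]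
  constructor
  · have : Tendsto (fun δ : ℝ => x * δ) (𝓝 0) (𝓝 (x * 0)) := (continuous_const.mul continuous_id).tendsto 0
    rw [mul_zero] at this
    exact this.mono_left nhdsWithin_le_nhds
  · filter_upwards [self_mem_nhdsWithin] with δ hδ
    have : 0 < x * δ := mul_pos hx hδ
    exact this.ne'

/-- the smoothed series is close to the partial sums in mean square -/
lemma smooth_close {k : ℕ} (hk : 2 ≤ k) {α : ℝ} (hα : 0 < α) (t : ℝ) (n : ℕ) {ε : ℝ} (hε : 0 < ε) :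
    ∃ N₀ : ℕ, ∀ N, N₀ ≤ N → ∃ δ₀ : ℝ, 0 < δ₀ ∧ ∀ δ, 0 < δ → δ ≤ δ₀ →
      (∑' m, ‖cS k α t δ n m - cV k t N m‖ ^ 2) ≤ ε := by
  have hs := ak_sq_summable hk
  -- the tail
  have ht := tendsto_sum_nat_add (fun m => ak k m ^ 2)
  obtain ⟨N₀, hN₀⟩ := (Metric.tendsto_atTop.1 ht) (ε/2) (by positivity)
  refine ⟨N₀, fun N hN => ?_⟩
  -- the differences
  have hb : ∀ (δ : ℝ) (m : ℕ), ‖cS k α t δ n m - cV k t N m‖ ^ 2 ≤ ak k m ^ 2 * 4 := by
    intro δ m
    have h1 : ‖cS k α t δ n m‖ ≤ ak k m := by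
      rw [norm_cS]
      calc _ ≤ ak k m * 1 := by
            apply mul_le_mul_of_nonneg_left _ (ak_nonneg k m)
            exact pow_le_one₀ (norm_nonneg _) (cf_le_one _)
        _ = _ := mul_one _
    have h2 : ‖cV k t N m‖ ≤ ak k m := by
      unfold cV
      split_ifs
      · rw [norm_mul, norm_mul, norm_ok, norm_ex, Complex.norm_real, Real.norm_of_nonneg (ak_nonneg k m)]; simp
      · rw [norm_zero]; exact ak_nonneg k m
    have h3 : ‖cS k α t δ n m - cV k t N m‖ ≤ 2 * ak k m := (norm_sub_le _ _).trans (by linarith)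
    calc _ ≤ (2 * ak k m) ^ 2 := by gcongr
      _ = _ := by ring
  have hsum : ∀ δ : ℝ, Summable (fun m => ‖cS k α t δ n m - cV k t N m‖ ^ 2) := fun δ =>
    Summable.of_nonneg_of_le (fun m => by positivity) (hb δ) (hs.mul_right 4)
  have htail : ∀ δ : ℝ, ∑' m, ‖cS k α t δ n (m + (N+1)) - cV k t N (m + (N+1))‖ ^ 2 ≤ ε/2 := by
    intro δ
    have h1 : ∀ m, ‖cS k α t δ n (m + (N+1)) - cV k t N (m + (N+1))‖ ^ 2 ≤ ak k (m + (N+1)) ^ 2 := by
      intro m
      have e : cV k t N (m + (N+1)) = 0 := by unfold cV; rw [if_neg (by omega)]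
      rw [e, sub_zero, norm_cS, mul_pow]
      have h2 : (‖cf (k * ((m + (N+1) : ℕ):ℝ) ^ (1 / (k:ℝ)) * (α * δ))‖ ^ n) ^ 2 ≤ 1 :=
        pow_le_one₀ (by positivity) (pow_le_one₀ (norm_nonneg _) (cf_le_one _))
      calc _ ≤ ak k (m + (N+1)) ^ 2 * 1 := by gcongr
        _ = _ := mul_one _
    have h2 := ((summable_nat_add_iff (N+1)).2 (hsum δ)).tsum_le_tsum h1 ((summable_nat_add_iff (N+1)).2 hs)
    have h3 := hN₀ (N+1) (by omega)
    rw [Real.dist_eq, sub_zero] at h3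
    exact h2.trans ((le_abs_self _).trans h3.le)
  -- the head tends to zero
  have hhead : Tendsto (fun δ : ℝ => ∑ m ∈ Finset.range (N+1), ‖cS k α t δ n m - cV k t N m‖ ^ 2) (𝓝[>] 0) (𝓝 0) := by
    have : (0:ℝ) = ∑ m ∈ Finset.range (N+1), (0:ℝ) := by simp
    rw [this]
    apply tendsto_finsetSum
    intro m hm
    rw [Finset.mem_range] at hm
    rcases Nat.eq_zero_or_pos m with h0 | h0
    · subst h0
      simp [cS_zero, cV_zero]
    · have hx : 0 < k * (m:ℝ) ^ (1 / (k:ℝ)) * α := by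
        have h1 : (0:ℝ) < k := by exact_mod_cast (by omega : 0 < k)
        have h2 : (0:ℝ) < m := by exact_mod_cast h0
        positivity
      have h1 : Tendsto (fun δ : ℝ => cS k α t δ n m) (𝓝[>] 0) (𝓝 (cV k t N m)) := by
        unfold cS cV
        rw [if_pos (by omega)]
        have h2 := ((cf_small hx).pow n).const_mul (ok k * ex (k * (m:ℝ) ^ (1 / (k:ℝ)) * t))
        have h3 := h2.const_mul (ak k m : ℂ)
        rw [one_pow, mul_one] at h3
        refine h3.congr (fun δ => ?_)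
        have e : k * (m:ℝ) ^ (1 / (k:ℝ)) * α * δ = k * (m:ℝ) ^ (1 / (k:ℝ)) * (α * δ) := by ring
        rw [e]
      have h2 := ((h1.sub_const (cV k t N m)).norm).pow 2
      simpa using h2
  have hev := (Metric.tendsto_nhds.1 hhead) (ε/2) (by positivity)
  obtain ⟨u, hu, hsub⟩ := (mem_nhdsGT_iff_exists_Ioc_subset).1 hev
  refine ⟨u, hu, fun δ hδ hδu => ?_⟩
  have h1 : dist (∑ m ∈ Finset.range (N+1), ‖cS k α t δ n m - cV k t N m‖ ^ 2) 0 < ε/2 := hsub ⟨hδ, hδu⟩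
  rw [Real.dist_eq, sub_zero] at h1
  have h2 := (hsum δ).sum_add_tsum_nat_add (N+1)
  rw [← h2]
  have h3 := htail δ
  have h4 := le_abs_self (∑ m ∈ Finset.range (N+1), ‖cS k α t δ n m - cV k t N m‖ ^ 2)
  linarith

/-- the partial sums are Cauchy in mean square -/
lemma partial_close {k : ℕ} (hk : 2 ≤ k) (t : ℝ) {ε : ℝ} (hε : 0 < ε) :
    ∃ N₀ : ℕ, ∀ N M, N₀ ≤ N → N₀ ≤ M → (∑' m, ‖cV k t N m - cV k t M m‖ ^ 2) ≤ ε := by
  have hs := ak_sq_summable hk
  have ht := tendsto_sum_nat_add (fun m => ak k m ^ 2)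
  obtain ⟨N₀, hN₀⟩ := (Metric.tendsto_atTop.1 ht) ε hε
  refine ⟨N₀, fun N M hN hM => ?_⟩
  have hb : ∀ (N m : ℕ), ‖cV k t N m‖ ≤ ak k m := by
    intro N m
    unfold cV
    split_ifs
    · rw [norm_mul, norm_mul, norm_ok, norm_ex, Complex.norm_real, Real.norm_of_nonneg (ak_nonneg k m)]; simp
    · rw [norm_zero]; exact ak_nonneg k m
  have h1 : ∀ m, ‖cV k t N m - cV k t M m‖ ^ 2 ≤ ak k m ^ 2 := by
    intro m
    have : ‖cV k t N m - cV k t M m‖ ≤ ak k m := by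
      by_cases h1 : m ≤ N
      · by_cases h2 : m ≤ M
        · unfold cV; rw [if_pos h1, if_pos h2, sub_self, norm_zero]; exact ak_nonneg k m
        · have : cV k t M m = 0 := by unfold cV; rw [if_neg h2]
          rw [this, sub_zero]; exact hb N m
      · have : cV k t N m = 0 := by unfold cV; rw [if_neg h1]
        rw [this, zero_sub, norm_neg]; exact hb M m
    gcongr
  have hsum : Summable (fun m => ‖cV k t N m - cV k t M m‖ ^ 2) :=
    Summable.of_nonneg_of_le (fun m => by positivity) h1 hs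
  have h0 : ∀ m ∈ Finset.range N₀, ‖cV k t N m - cV k t M m‖ ^ 2 = 0 := by
    intro m hm
    rw [Finset.mem_range] at hm
    unfold cV
    rw [if_pos (by omega), if_pos (by omega), sub_self, norm_zero]; simp
  rw [← hsum.sum_add_tsum_nat_add N₀, Finset.sum_eq_zero h0, zero_add]
  have h2 := ((summable_nat_add_iff N₀).2 hsum).tsum_le_tsum (fun m => h1 (m + N₀)) ((summable_nat_add_iff N₀).2 hs)
  have h3 := hN₀ N₀ le_rfl
  rw [Real.dist_eq, sub_zero] at h3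
  exact h2.trans ((le_abs_self _).trans h3.le)

end Pool.Agent.H592.PD
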