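import Pool.Agent.H592.PD.A6

/-!
# Smoothing and windows
-/

open MeasureTheory Filter Topology Set
open Pool.Agent.H383.PZ

namespace Pool.Agent.H592.PD

/-- the product function is integrable -/
lemma prod_int {G : ℝ → ℝ} (hG : Measurable G) {Y H δ B : ℝ} {n : ℕ} (hδ : 0 < δ)
    (hb : ∀ s, Y ≤ s → s ≤ Y + H + n * δ → |G s| ≤ B) :
    Integrable (fun p : ℝ × ℝ => G (p.1 + p.2)) ((volume.restrict (Ioc Y (Y+H))).prod (mu δ n)) := by
  have := mu_prob hδ n
  have hm : Measurable (fun p : ℝ × ℝ => G (p.1 + p.2)) := hG.comp (by fun_prop)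
  refine Integrable.of_bound hm.aestronglyMeasurable B ?_
  have h1 : ∀ᵐ r ∂(volume.restrict (Ioc Y (Y+H))), r ∈ Ioc Y (Y+H) := ae_restrict_mem measurableSet_Ioc
  have e1 := (Measure.quasiMeasurePreserving_fst (μ := volume.restrict (Ioc Y (Y+H))) (ν := mu δ n)).ae h1
  have e2 := (Measure.quasiMeasurePreserving_snd (μ := volume.restrict (Ioc Y (Y+H))) (ν := mu δ n)).ae (mu_supp hδ n)
  filter_upwards [e1, e2] with p hp1 hp2
  rw [Real.norm_eq_abs]
  exact hb _ (by linarith [hp1.1, hp2.1]) (by linarith [hp1.2, hp2.2])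

lemma swap {G : ℝ → ℝ} (hG : Measurable G) {Y H δ B : ℝ} {n : ℕ} (hδ : 0 < δ) (hH : 0 ≤ H)
    (hb : ∀ s, Y ≤ s → s ≤ Y + H + n * δ → |G s| ≤ B) :
    IntervalIntegrable (fun r => ∫ x, G (r + x) ∂(mu δ n)) volume Y (Y + H) ∧
    Integrable (fun x => ∫ r in (Y+x)..(Y+x+H), G r) (mu δ n) ∧
    ∫ r in Y..(Y+H), (∫ x, G (r + x) ∂(mu δ n)) = ∫ x, (∫ r in (Y+x)..(Y+x+H), G r) ∂(mu δ n) := by
  have := mu_prob hδ n
  have hp := prod_int hG hδ hb
  have e : ∀ x : ℝ, ∫ r in (Y+x)..(Y+x+H), G r = ∫ r in Ioc Y (Y+H), G (r + x) := by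
    intro x
    rw [← intervalIntegral.integral_of_le (by linarith), intervalIntegral.integral_comp_add_right]
    congr 1; ring
  refine ⟨?_, ?_, ?_⟩
  · rw [intervalIntegrable_iff_integrableOn_Ioc_of_le (by linarith)]
    exact hp.integral_prod_left
  · simp_rw [e]
    exact hp.integral_prod_right
  · rw [intervalIntegral.integral_of_le (by linarith)]
    simp_rw [e]
    exact integral_integral_swap hp

lemma G_ii {G : ℝ → ℝ} (hG : Measurable G) {a b B : ℝ} (hab : a ≤ b) (hb : ∀ s, a ≤ s → s ≤ b → |G s| ≤ B) :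
    IntervalIntegrable G volume a b := by
  rw [intervalIntegrable_iff_integrableOn_Ioc_of_le hab]
  refine Integrable.of_bound hG.aestronglyMeasurable B ?_
  rw [ae_restrict_iff' measurableSet_Ioc]
  exact Eventually.of_forall fun s hs => by rw [Real.norm_eq_abs]; exact hb s hs.1.le hs.2

/-- nonnegative functions: the mean of the smoothed function is at most the mean over the longer window -/
lemma swap_le {G : ℝ → ℝ} (hG : Measurable G) {Y H δ B : ℝ} {n : ℕ} (hδ : 0 < δ) (hH : 0 ≤ H)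
    (hb : ∀ s, Y ≤ s → s ≤ Y + H + n * δ → |G s| ≤ B) (h0 : ∀ s, 0 ≤ G s) :
    ∫ r in Y..(Y+H), (∫ x, G (r + x) ∂(mu δ n)) ≤ ∫ r in Y..(Y + H + n * δ), G r := by
  have hnδ : 0 ≤ n * δ := by positivity
  have := mu_prob hδ n
  obtain ⟨-, h2, h3⟩ := swap hG hδ hH hb
  rw [h3]
  have hc : ∫ _x, (∫ r in Y..(Y + H + n * δ), G r) ∂(mu δ n) = ∫ r in Y..(Y + H + n * δ), G r := by
    rw [integral_const]; simp
  rw [← hc]
  apply integral_mono_ae h2 (integrable_const _)
  filter_upwards [mu_supp hδ n] with x hx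
  have hI : IntervalIntegrable G volume Y (Y + H + n * δ) := G_ii hG (by linarith) hb
  rw [intervalIntegral.integral_of_le (by linarith), intervalIntegral.integral_of_le (by linarith)]
  apply setIntegral_mono_set
  · rw [← intervalIntegrable_iff_integrableOn_Ioc_of_le (by linarith)]; exact hI
  · exact Eventually.of_forall fun s => h0 s
  · apply HasSubset.Subset.eventuallyLE
    intro s hs
    exact ⟨by linarith [hs.1, hx.1], by linarith [hs.2, hx.2]⟩

/-- bounded functions: the mean of the smoothed function is close to the mean -/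
lemma swap_close {G : ℝ → ℝ} (hG : Measurable G) {Y H δ B : ℝ} {n : ℕ} (hδ : 0 < δ) (hH : 0 ≤ H)
    (hb : ∀ s, |G s| ≤ B) :
    |(∫ r in Y..(Y+H), (∫ x, G (r + x) ∂(mu δ n))) - ∫ r in Y..(Y + H), G r| ≤ 2 * B * (n * δ) := by
  have hnδ : 0 ≤ n * δ := by positivity
  have hB : 0 ≤ B := (abs_nonneg _).trans (hb 0)
  have := mu_prob hδ n
  obtain ⟨-, h2, h3⟩ := swap hG (Y := Y) (H := H) (n := n) hδ hH (fun s _ _ => hb s)
  rw [h3]
  have hc : ∫ _x, (∫ r in Y..(Y + H), G r) ∂(mu δ n) = ∫ r in Y..(Y + H), G r := by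
    rw [integral_const]; simp
  rw [← hc, ← integral_sub h2 (integrable_const _), ← Real.norm_eq_abs]
  have hle : ∀ᵐ x ∂(mu δ n), ‖(∫ r in (Y+x)..(Y+x+H), G r) - ∫ r in Y..(Y + H), G r‖ ≤ 2 * B * (n * δ) := by
    filter_upwards [mu_supp hδ n] with x hx
    have hI : ∀ a b : ℝ, IntervalIntegrable G volume a b := by
      intro a b
      rcases le_total a b with h | h
      · exact G_ii hG h (fun s _ _ => hb s)
      · exact (G_ii hG h (fun s _ _ => hb s)).symm
    have e : (∫ r in (Y+x)..(Y+x+H), G r) - ∫ r in Y..(Y + H), G r =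
        (∫ r in (Y+H)..(Y+x+H), G r) - ∫ r in Y..(Y+x), G r := by
      have i1 := intervalIntegral.integral_add_adjacent_intervals (hI Y (Y+x)) (hI (Y+x) (Y+x+H))
      have i2 := intervalIntegral.integral_add_adjacent_intervals (hI Y (Y+H)) (hI (Y+H) (Y+x+H))
      linarith
    rw [e]
    refine (norm_sub_le _ _).trans ?_
    have j1 := intervalIntegral.norm_integral_le_of_norm_le_const (a := Y+H) (b := Y+x+H) (f := G) (C := B)
      (fun s _ => by rw [Real.norm_eq_abs]; exact hb s)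
    have j2 := intervalIntegral.norm_integral_le_of_norm_le_const (a := Y) (b := Y+x) (f := G) (C := B)
      (fun s _ => by rw [Real.norm_eq_abs]; exact hb s)
    have k1 : |Y + x + H - (Y + H)| = x := by rw [show Y + x + H - (Y + H) = x by ring]; exact abs_of_nonneg hx.1
    have k2 : |Y + x - Y| = x := by rw [show Y + x - Y = x by ring]; exact abs_of_nonneg hx.1
    rw [k1] at j1
    rw [k2] at j2
    have : B * x ≤ B * (n * δ) := by gcongr; exact hx.2
    linarith
  refine (norm_integral_le_of_norm_le_const hle).trans ?_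
  simp

/-! ### scaling of the smoothing measure -/

lemma un_map {α δ : ℝ} (hα : 0 < α) (hδ : 0 < δ) : (un δ).map (fun x => α * x) = un (α * δ) := by
  unfold un
  rw [Measure.map_smul]
  have h1 : (volume.restrict (Icc 0 δ)).map (fun x : ℝ => α * x) = ENNReal.ofReal α⁻¹ • volume.restrict (Icc 0 (α * δ)) := by
    have e : Icc 0 δ = (fun x : ℝ => α * x) ⁻¹' (Icc 0 (α * δ)) := by
      ext x
      simp only [mem_Icc, mem_preimage]
      constructor
      · rintro ⟨h1, h2⟩
        exact ⟨by positivity, by gcongr⟩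
      · rintro ⟨h1, h2⟩
        exact ⟨by by_contra h; rw [not_le] at h; nlinarith, le_of_mul_le_mul_left h2 hα⟩
    rw [e, ← Measure.restrict_map (by fun_prop) measurableSet_Icc, Real.map_volume_mul_left hα.ne', Measure.restrict_smul,
      abs_of_pos (inv_pos.2 hα)]
  rw [h1, smul_smul]
  congr 1
  rw [ENNReal.ofReal_mul hα.le, ENNReal.ofReal_inv_of_pos hα, ENNReal.mul_inv (by simp [hα]) (by simp), mul_comm]

lemma mu_map {α δ : ℝ} (hα : 0 < α) (hδ : 0 < δ) (n : ℕ) : (mu δ n).map (fun x => α * x) = mu (α * δ) n := by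
  induction n with
  | zero =>
    unfold mu
    rw [Measure.map_dirac' (by fun_prop), mul_zero]
  | succ n ih =>
    have := un_prob hδ
    have := mu_prob hδ n
    have hαδ : 0 < α * δ := by positivity
    have := un_prob hαδ
    have := mu_prob hαδ n
    change ((un δ).conv (mu δ n)).map (fun x => α * x) = (un (α * δ)).conv (mu (α * δ) n)
    rw [← un_map hα hδ, ← ih]
    unfold Measure.conv
    rw [Measure.map_map (by fun_prop) (by fun_prop), Measure.map_prod_map _ _ (by fun_prop) (by fun_prop),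
      Measure.map_map (by fun_prop) (by fun_prop)]
    congr 1
    funext p
    simp only [Function.comp, Prod.map]
    ring

lemma integral_mu_mul {α δ : ℝ} (hα : 0 < α) (hδ : 0 < δ) (n : ℕ) (g : ℝ → ℝ) :
    ∫ x, g (α * x) ∂(mu δ n) = ∫ x, g x ∂(mu (α * δ) n) := by
  rw [← mu_map hα hδ n]
  exact (integral_map_equiv (MeasurableEquiv.mulLeft₀ α hα.ne') g).symm

end Pool.Agent.H592.PD
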