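import Pool.Agent.H592.PD.B1

/-!
# Convex domination and rigidity: the abstract statements
-/

open MeasureTheory Filter Topology Set
open Pool.Agent.H383.PZ

namespace Pool.Agent.H592.PD

variable {d : ℕ}

/-- a vector of functions whose smoothings are asymptotically almost periodic -/
structure Mod (F : Fin d → ℝ → ℝ) (U : ℝ → Fin d → ℝ → ℝ) (V : ℕ → Fin d → ℝ → ℝ) (n : ℕ) (R₁ δ₁ : ℝ) : Prop where
  d1 : 0 < δ₁
  meas : ∀ i, Measurable (F i)
  bdd : ∀ T, ∃ B : ℝ, ∀ i s, R₁ ≤ s → s ≤ T → |F i s| ≤ B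
  ap : ∀ δ, 0 < δ → δ ≤ δ₁ → ∀ i, AP (U δ i)
  close : ∀ δ, 0 < δ → δ ≤ δ₁ → ∀ ε : ℝ, 0 < ε → ∃ R₀, R₁ ≤ R₀ ∧ ∀ r, R₀ ≤ r → ∀ i, |(∫ x, F i (r + x) ∂(mu δ n)) - U δ i r| ≤ ε
  msc : MSC V
  ms : ∀ ε : ℝ, 0 < ε → ∃ N₀ : ℕ, ∀ N, N₀ ≤ N → ∃ δ₀ : ℝ, 0 < δ₀ ∧ ∀ δ, 0 < δ → δ ≤ δ₀ →
    Mn (fun r => qq (fun i => U δ i r - V N i r)) ≤ ε

variable {F : Fin d → ℝ → ℝ} {U : ℝ → Fin d → ℝ → ℝ} {V : ℕ → Fin d → ℝ → ℝ} {n : ℕ} {R₁ δ₁ : ℝ}

/-- the smoothed vector -/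
noncomputable def sm (F : Fin d → ℝ → ℝ) (n : ℕ) (δ : ℝ) (r : ℝ) : Fin d → ℝ := fun i => ∫ x, F i (r + x) ∂(mu δ n)

lemma sm_meas (hF : ∀ i, Measurable (F i)) {δ : ℝ} (hδ : 0 < δ) : Measurable (sm F n δ) := by
  have := mu_prob hδ n
  unfold sm
  apply measurable_pi_lambda
  intro i
  have hm : Measurable (fun p : ℝ × ℝ => F i (p.1 + p.2)) := (hF i).comp (by fun_prop)
  exact (hm.stronglyMeasurable.integral_prod_right').measurable

lemma vec_meas (hF : ∀ i, Measurable (F i)) : Measurable (fun s : ℝ => (fun i => F i s : Fin d → ℝ)) :=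
  measurable_pi_lambda _ (fun i => hF i)

/-- a continuous function of `F` is bounded on bounded sets -/
lemma Mod.comp_bdd (h : Mod F U V n R₁ δ₁) {Φ : (Fin d → ℝ) → ℝ} (hΦ : Continuous Φ) (T : ℝ) :
    ∃ B : ℝ, 0 ≤ B ∧ ∀ s, R₁ ≤ s → s ≤ T → |Φ (fun i => F i s)| ≤ B := by
  obtain ⟨B, hB⟩ := h.bdd T
  obtain ⟨C, hC⟩ := (isCompact_closedBall (0 : Fin d → ℝ) |B|).exists_bound_of_continuousOn hΦ.continuousOn
  refine ⟨|C|, abs_nonneg _, fun s h1 h2 => ?_⟩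
  rw [← Real.norm_eq_abs]
  refine (hC _ ?_).trans (le_abs_self _)
  rw [mem_closedBall_zero_iff, pi_norm_le_iff_of_nonneg (abs_nonneg _)]
  intro i
  rw [Real.norm_eq_abs]
  exact (hB i s h1 h2).trans (le_abs_self _)

lemma Mod.int_mu (h : Mod F U V n R₁ δ₁) {δ : ℝ} (hδ : 0 < δ) {r : ℝ} (hr : R₁ ≤ r) {Φ : (Fin d → ℝ) → ℝ} (hΦ : Continuous Φ) :
    Integrable (fun x => Φ (fun i => F i (r + x))) (mu δ n) := by
  have := mu_prob hδ n
  obtain ⟨B, hB0, hB⟩ := h.comp_bdd hΦ (r + n * δ)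
  refine Integrable.of_bound ((hΦ.measurable.comp ((vec_meas h.meas).comp (measurable_const_add r))).aestronglyMeasurable) B ?_
  filter_upwards [mu_supp hδ n] with x hx
  rw [Real.norm_eq_abs]
  exact hB _ (by linarith [hx.1]) (by linarith [hx.2])

/-- Jensen's inequality -/
lemma Mod.jens (h : Mod F U V n R₁ δ₁) {δ : ℝ} (hδ : 0 < δ) {r : ℝ} (hr : R₁ ≤ r) {Φ : (Fin d → ℝ) → ℝ}
    (hΦ : ConvexOn ℝ univ Φ) : Φ (sm F n δ r) ≤ ∫ x, Φ (fun i => F i (r + x)) ∂(mu δ n) := by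
  have := mu_prob hδ n
  have hc : Continuous Φ := hΦ.locallyLipschitz.continuous
  have hi : ∀ i, Integrable (fun x => F i (r + x)) (mu δ n) := fun i => h.int_mu hδ hr (Φ := fun z => z i) (continuous_apply i)
  have hI : Integrable (fun x => (fun i => F i (r + x) : Fin d → ℝ)) (mu δ n) := Integrable.of_eval hi
  have h1 := hΦ.map_integral_le hc.continuousOn isClosed_univ (Eventually.of_forall fun x => mem_univ _) hI
    (h.int_mu hδ hr hc)
  have e : ∫ x, (fun i => F i (r + x) : Fin d → ℝ) ∂(mu δ n) = sm F n δ r := by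
    funext i
    rw [eval_integral hi]
    rfl
  rw [e] at h1
  exact h1

/-- the law of the smoothed vector over windows -/
theorem Mod.low (h : Mod F U V n R₁ δ₁) {μ : ProbabilityMeasure (Fin d → ℝ)} (hμ : IsLim V μ)
    {g : (Fin d → ℝ) → ℝ} (hg : Continuous g) {C : ℝ} (hC : 0 < C) (hb : ∀ x, |g x| ≤ C) {η : ℝ} (hη : 0 < η) :
    ∃ δ₀ : ℝ, 0 < δ₀ ∧ δ₀ ≤ δ₁ ∧ ∀ δ, 0 < δ → δ ≤ δ₀ → ∃ Y₀ H₀ : ℝ, R₁ ≤ Y₀ ∧ 0 < H₀ ∧ ∀ Y H, Y₀ ≤ Y → H₀ ≤ H →
      |(∫ r in Y..(Y+H), g (sm F n δ r)) - (∫ x, g x ∂(μ : Measure (Fin d → ℝ))) * H| ≤ η * H := by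
  obtain ⟨ρ, hρ, N₁, hN₁⟩ := near_law h.msc hμ hg hC hb (ε := η/3) (by positivity)
  obtain ⟨N₂, hN₂⟩ := h.ms ρ hρ
  obtain ⟨δ₀, hδ₀, hms⟩ := hN₂ (max N₁ N₂) (le_max_right _ _)
  refine ⟨min δ₀ δ₁, lt_min hδ₀ h.d1, min_le_right _ _, fun δ hδ hδδ => ?_⟩
  have hδ1 : δ ≤ δ₁ := hδδ.trans (min_le_right _ _)
  have hAP := h.ap δ hδ hδ1
  have hnear := hN₁ (U δ) hAP (max N₁ N₂) (le_max_left _ _) (hms δ hδ (hδδ.trans (min_le_left _ _)))
  obtain ⟨H₀, hH₀, hwin⟩ := AP_Mn (AP_comp hAP hg) (η/3) (by positivity)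
  -- uniform continuity
  obtain ⟨B, hB0, hB⟩ := exists_box hAP
  have huc := (isCompact_closedBall (0 : Fin d → ℝ) (B + 1)).uniformContinuousOn_of_continuous hg.continuousOn
  rw [Metric.uniformContinuousOn_iff] at huc
  obtain ⟨κ, hκ, hκ2⟩ := huc (η/3) (by positivity)
  obtain ⟨R₀, hR₀, hclose⟩ := h.close δ hδ hδ1 (min (κ/2) 1) (by positivity)
  refine ⟨R₀, H₀, hR₀, hH₀, fun Y H hY hH => ?_⟩
  have hH0 : 0 < H := hH₀.trans_le hH
  have hpt : ∀ r, R₀ ≤ r → |g (sm F n δ r) - g (fun i => U δ i r)| ≤ η/3 := by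
    intro r hr
    have h1 : ‖sm F n δ r - fun i => U δ i r‖ ≤ min (κ/2) 1 := by
      rw [pi_norm_le_iff_of_nonneg (by positivity)]
      intro i
      rw [Real.norm_eq_abs]
      exact hclose r hr i
    have h2 : ‖(fun i => U δ i r : Fin d → ℝ)‖ ≤ B := by
      have := hB r
      rwa [mem_closedBall_zero_iff] at this
    have h3 : ‖sm F n δ r‖ ≤ B + 1 := by
      have := norm_add_le (sm F n δ r - fun i => U δ i r) (fun i => U δ i r)
      rw [sub_add_cancel] at this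
      have h4 := min_le_right (κ/2) 1
      linarith
    have h5 := hκ2 (sm F n δ r) (by rwa [mem_closedBall_zero_iff]) (fun i => U δ i r) (by
      rw [mem_closedBall_zero_iff]; linarith) (by
      rw [dist_eq_norm]
      have := min_le_left (κ/2) 1
      linarith)
    rw [Real.dist_eq] at h5
    exact h5.le
  have hi1 : IntervalIntegrable (fun r => g (sm F n δ r)) volume Y (Y+H) :=
    G_ii (hg.measurable.comp (sm_meas h.meas hδ)) (by linarith) (B := C) (fun s _ _ => hb _)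
  have hi2 : IntervalIntegrable (fun r => g (fun i => U δ i r)) volume Y (Y+H) :=
    (AP_cont (AP_comp hAP hg)).intervalIntegrable _ _
  have h6 : |(∫ r in Y..(Y+H), g (sm F n δ r)) - ∫ r in Y..(Y+H), g (fun i => U δ i r)| ≤ η/3 * H := by
    rw [← intervalIntegral.integral_sub hi1 hi2, ← Real.norm_eq_abs]
    have := intervalIntegral.norm_integral_le_of_norm_le_const (a := Y) (b := Y+H)
      (f := fun r => g (sm F n δ r) - g (fun i => U δ i r)) (C := η/3) (fun s hs => by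
        rw [Real.norm_eq_abs]
        apply hpt
        rw [uIoc_of_le (by linarith)] at hs
        linarith [hs.1])
    rw [show |Y + H - Y| = H by rw [show Y + H - Y = H by ring]; exact abs_of_pos hH0] at this
    exact this
  have h7 := hwin Y H hH
  have h8 : |Mn (fun r => g (fun i => U δ i r)) * H - (∫ x, g x ∂(μ : Measure (Fin d → ℝ))) * H| ≤ η/3 * H := by
    rw [← sub_mul, abs_mul, abs_of_pos hH0]
    exact mul_le_mul_of_nonneg_right hnear hH0.le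
  have e : (∫ r in Y..(Y+H), g (sm F n δ r)) - (∫ x, g x ∂(μ : Measure (Fin d → ℝ))) * H =
    ((∫ r in Y..(Y+H), g (sm F n δ r)) - ∫ r in Y..(Y+H), g (fun i => U δ i r)) +
    (((∫ r in Y..(Y+H), g (fun i => U δ i r)) - Mn (fun r => g (fun i => U δ i r)) * H) +
    (Mn (fun r => g (fun i => U δ i r)) * H - (∫ x, g x ∂(μ : Measure (Fin d → ℝ))) * H)) := by ring
  rw [e]
  refine (abs_add_le _ _).trans ?_
  have := abs_add_le ((∫ r in Y..(Y+H), g (fun i => U δ i r)) - Mn (fun r => g (fun i => U δ i r)) * H)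
    (Mn (fun r => g (fun i => U δ i r)) * H - (∫ x, g x ∂(μ : Measure (Fin d → ℝ))) * H)
  linarith

/-- the truncations of a nonnegative function exhaust its integral -/
lemma trunc {μ : ProbabilityMeasure (Fin d → ℝ)} {Φ : (Fin d → ℝ) → ℝ} (hc : Continuous Φ) (h0 : ∀ x, 0 ≤ Φ x) {A : ℝ}
    (hA : Integrable Φ (μ : Measure (Fin d → ℝ)) → A < ∫ x, Φ x ∂(μ : Measure (Fin d → ℝ))) :
    ∃ L : ℕ, A < ∫ x, min (Φ x) (L:ℝ) ∂(μ : Measure (Fin d → ℝ)) := by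
  by_contra hcon
  push Not at hcon
  have hmi : ∀ L : ℕ, Integrable (fun x => min (Φ x) (L:ℝ)) (μ : Measure (Fin d → ℝ)) := fun L => by
    refine Integrable.of_bound (hc.min continuous_const).aestronglyMeasurable (L:ℝ) (Eventually.of_forall fun x => ?_)
    rw [Real.norm_eq_abs, abs_of_nonneg (le_min (h0 x) (Nat.cast_nonneg L))]
    exact min_le_right _ _
  have htend := lintegral_tendsto_of_tendsto_of_monotone (μ := (μ : Measure (Fin d → ℝ)))
    (f := fun n : ℕ => fun x => ENNReal.ofReal (min (Φ x) (n:ℝ))) (F := fun x => ENNReal.ofReal (Φ x))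
    (fun n => (hc.min continuous_const).measurable.ennreal_ofReal.aemeasurable)
    (Eventually.of_forall fun x => by
      intro m n hmn
      apply ENNReal.ofReal_le_ofReal
      have : (m:ℝ) ≤ n := by exact_mod_cast hmn
      gcongr)
    (Eventually.of_forall fun x => by
      apply ENNReal.tendsto_ofReal
      obtain ⟨n, hn⟩ := exists_nat_ge (Φ x)
      apply tendsto_atTop_of_eventually_const (i₀ := n)
      intro m hm
      apply min_eq_left
      have : (n:ℝ) ≤ m := by exact_mod_cast hm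
      linarith)
  have hle : ∫⁻ x, ENNReal.ofReal (Φ x) ∂(μ : Measure (Fin d → ℝ)) ≤ ENNReal.ofReal A := by
    apply le_of_tendsto' htend
    intro L
    rw [← ofReal_integral_eq_lintegral_ofReal (hmi L) (Eventually.of_forall fun x => le_min (h0 x) (Nat.cast_nonneg L))]
    exact ENNReal.ofReal_le_ofReal (hcon L)
  have hint : Integrable Φ (μ : Measure (Fin d → ℝ)) := by
    refine ⟨hc.aestronglyMeasurable, ?_⟩
    rw [hasFiniteIntegral_iff_ofReal (Eventually.of_forall h0)]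
    exact hle.trans_lt ENNReal.ofReal_lt_top
  have h1 := hA hint
  rw [← ofReal_integral_eq_lintegral_ofReal hint (Eventually.of_forall h0)] at hle
  have hA0 : 0 ≤ A := by
    have := hcon 0
    simp only [Nat.cast_zero] at this
    have h2 : ∫ x, min (Φ x) (0:ℝ) ∂(μ : Measure (Fin d → ℝ)) = 0 := by
      have : (fun x => min (Φ x) (0:ℝ)) = fun _ => 0 := by
        funext x; exact min_eq_right (h0 x)
      rw [this]; simp
    linarith
  have := (ENNReal.ofReal_le_ofReal_iff hA0).1 hle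
  linarith

/-- **convex domination**, nonnegative functions -/
theorem Mod.dom0 (h : Mod F U V n R₁ δ₁) {μ : ProbabilityMeasure (Fin d → ℝ)} (hμ : IsLim V μ)
    {Φ : (Fin d → ℝ) → ℝ} (hΦ : ConvexOn ℝ univ Φ) (h0 : ∀ x, 0 ≤ Φ x) {A : ℝ}
    (hA : Integrable Φ (μ : Measure (Fin d → ℝ)) → A < ∫ x, Φ x ∂(μ : Measure (Fin d → ℝ))) :
    ∃ Y₀ H₀ : ℝ, R₁ ≤ Y₀ ∧ 0 < H₀ ∧ ∀ Y H, Y₀ ≤ Y → H₀ ≤ H → A * H ≤ ∫ r in Y..(Y+H), Φ (fun i => F i r) := by
  have hc : Continuous Φ := hΦ.locallyLipschitz.continuous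
  obtain ⟨L, hL⟩ := trunc hc h0 hA
  set I := ∫ x, min (Φ x) (L:ℝ) ∂(μ : Measure (Fin d → ℝ)) with hI
  have hgc : Continuous (fun x => min (Φ x) (L:ℝ)) := hc.min continuous_const
  have hgb : ∀ x, |min (Φ x) (L:ℝ)| ≤ L + 1 := by
    intro x
    rw [abs_of_nonneg (le_min (h0 x) (Nat.cast_nonneg L))]
    exact (min_le_right _ _).trans (by linarith)
  have hI0 : 0 ≤ I := integral_nonneg (fun x => le_min (h0 x) (Nat.cast_nonneg L))
  obtain ⟨δ₀, hδ₀, hδ₁, hlow⟩ := h.low hμ hgc (C := (L:ℝ) + 1) (by positivity) hgb (η := (I - A)/3) (by linarith)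
  obtain ⟨Y₀, H₀, hY₀, hH₀, hwin⟩ := hlow δ₀ hδ₀ le_rfl
  have hnδ : 0 ≤ n * δ₀ := by positivity
  -- the choice of the length
  set H₁ := max (H₀ + n * δ₀) (3 * (I + 1) * (n * δ₀) / (I - A)) with hH₁
  have hIA : 0 < I - A := by linarith
  refine ⟨Y₀, H₁, hY₀, lt_of_lt_of_le (by linarith) (le_max_left _ _), fun Y H hY hH => ?_⟩
  have hH1 : H₀ ≤ H - n * δ₀ := by have := (le_max_left _ _).trans hH; linarith
  have hH2 : 3 * (I + 1) * (n * δ₀) / (I - A) ≤ H := (le_max_right _ _).trans hH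
  have hw := hwin Y (H - n * δ₀) hY hH1
  rw [abs_le] at hw
  have hHp : 0 < H - n * δ₀ := hH₀.trans_le hH1
  have hR1Y : R₁ ≤ Y := hY₀.trans hY
  obtain ⟨B, hB0, hB⟩ := h.comp_bdd hc (Y + H)
  have hm : Measurable (fun s => Φ (fun i => F i s)) := hc.measurable.comp (vec_meas h.meas)
  have hbb : ∀ s, Y ≤ s → s ≤ Y + (H - n * δ₀) + n * δ₀ → |Φ (fun i => F i s)| ≤ B :=
    fun s h1 h2 => hB s (hR1Y.trans h1) (by linarith)
  have hsw := swap_le hm (Y := Y) (H := H - n * δ₀) (n := n) hδ₀ hHp.le hbb (fun s => h0 _)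
  have e : Y + (H - n * δ₀) + n * δ₀ = Y + H := by ring
  rw [e] at hsw
  refine le_trans ?_ hsw
  have hmono : ∫ r in Y..(Y + (H - n * δ₀)), min (Φ (sm F n δ₀ r)) (L:ℝ) ≤
      ∫ r in Y..(Y + (H - n * δ₀)), (∫ x, Φ (fun i => F i (r + x)) ∂(mu δ₀ n)) := by
    apply intervalIntegral.integral_mono_on (by linarith)
    · exact G_ii (hgc.measurable.comp (sm_meas h.meas hδ₀)) (by linarith) (fun s _ _ => hgb _)
    · exact (swap hm (Y := Y) (H := H - n * δ₀) (n := n) hδ₀ hHp.le hbb).1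
    · intro r hr
      exact (min_le_left _ _).trans (h.jens hδ₀ (hR1Y.trans hr.1) hΦ)
  refine le_trans ?_ hmono
  rw [div_le_iff₀ hIA] at hH2
  nlinarith [hw.1]

end Pool.Agent.H592.PD
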