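import Pool.Agent.H592.PD.B2

/-!
# Rigidity: equality in the convex domination forces the limit law
-/

open MeasureTheory Filter Topology Set
open Pool.Agent.H383.PZ

namespace Pool.Agent.H592.PD

variable {d : ℕ}

/-- the midpoint defect -/
noncomputable def Df (Φ : (Fin d → ℝ) → ℝ) (z m : Fin d → ℝ) : ℝ := (Φ z + Φ m) / 2 - Φ ((1/2:ℝ) • (z + m))

lemma cvx_apply {Φ : (Fin d → ℝ) → ℝ} (hΦ : ConvexOn ℝ univ Φ) (x y : Fin d → ℝ) (a b : ℝ) (ha : 0 ≤ a) (hb : 0 ≤ b) (hab : a + b = 1) :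
    Φ (a • x + b • y) ≤ a * Φ x + b * Φ y := hΦ.2 (mem_univ x) (mem_univ y) ha hb hab

lemma scvx_apply {Φ : (Fin d → ℝ) → ℝ} (hΦ : StrictConvexOn ℝ univ Φ) (x y : Fin d → ℝ) (hne : x ≠ y) (a b : ℝ) (ha : 0 < a)
    (hb : 0 < b) (hab : a + b = 1) : Φ (a • x + b • y) < a * Φ x + b * Φ y := hΦ.2 (mem_univ x) (mem_univ y) hne ha hb hab

lemma Df_nonneg {Φ : (Fin d → ℝ) → ℝ} (hΦ : ConvexOn ℝ univ Φ) (z m : Fin d → ℝ) : 0 ≤ Df Φ z m := by
  have h := cvx_apply hΦ z m (1/2) (1/2) (by norm_num) (by norm_num) (by norm_num)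
  unfold Df
  rw [smul_add]
  linarith

lemma Df_mono {Φ : (Fin d → ℝ) → ℝ} (hΦ : ConvexOn ℝ univ Φ) (m e : Fin d → ℝ) {s : ℝ} (hs : 1 ≤ s) :
    Df Φ (m + e) m ≤ Df Φ (m + s • e) m := by
  have h2s : 0 < 2 * s - 1 := by linarith
  obtain ⟨t, ht0, ht⟩ : ∃ t : ℝ, 0 < t ∧ t * (2 * s - 1) = 1 := ⟨(2 * s - 1)⁻¹, by positivity, inv_mul_cancel₀ h2s.ne'⟩
  have hs1 : 0 ≤ s - 1 := by linarith
  have h1 := cvx_apply hΦ (m + (1/2:ℝ) • e) (m + s • e) (s * t) ((s-1) * t)
    (by positivity) (by positivity) (by linear_combination ht)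
  have h2 := cvx_apply hΦ (m + (1/2:ℝ) • e) (m + s • e) (2 * (s-1) * t) t
    (by positivity) (by positivity) (by linear_combination ht)
  have e1 : (s * t) • (m + (1/2:ℝ) • e) + ((s-1) * t) • (m + s • e) = m + (s/2) • e := by
    ext i
    simp only [Pi.add_apply, Pi.smul_apply, smul_eq_mul]
    linear_combination (m i + s * e i / 2) * ht
  have e2 : (2 * (s-1) * t) • (m + (1/2:ℝ) • e) + t • (m + s • e) = m + e := by
    ext i
    simp only [Pi.add_apply, Pi.smul_apply, smul_eq_mul]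
    linear_combination (m i + e i) * ht
  rw [e1] at h1
  rw [e2] at h2
  unfold Df
  have e3 : (1/2:ℝ) • (m + e + m) = m + (1/2:ℝ) • e := by
    ext i
    simp only [Pi.add_apply, Pi.smul_apply, smul_eq_mul]
    ring
  have e4 : (1/2:ℝ) • (m + s • e + m) = m + (s/2) • e := by
    ext i
    simp only [Pi.add_apply, Pi.smul_apply, smul_eq_mul]
    ring
  rw [e3, e4]
  set X := Φ (m + (1/2:ℝ) • e)
  set Z := Φ (m + s • e)
  have e5 : s * t * X + (s-1) * t * Z + (2 * (s-1) * t * X + t * Z) / 2 = X + Z / 2 := by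
    linear_combination (X + Z/2) * ht
  linarith

lemma Df_pos {Φ : (Fin d → ℝ) → ℝ} (hΦ : StrictConvexOn ℝ univ Φ) {z m : Fin d → ℝ} (hne : z ≠ m) : 0 < Df Φ z m := by
  have h := scvx_apply hΦ z m hne (1/2) (1/2) (by norm_num) (by norm_num) (by norm_num)
  unfold Df
  rw [smul_add]
  linarith

lemma Df_unif {Φ : (Fin d → ℝ) → ℝ} (hΦ : StrictConvexOn ℝ univ Φ) (L : ℝ) {r₀ : ℝ} (hr₀ : 0 < r₀) :
    ∃ κ : ℝ, 0 < κ ∧ ∀ m z : Fin d → ℝ, qq m ≤ L → r₀ ≤ ‖z - m‖ → κ ≤ Df Φ z m := by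
  have hc : Continuous Φ := hΦ.convexOn.locallyLipschitz.continuous
  set K : Set ((Fin d → ℝ) × (Fin d → ℝ)) := {p | qq p.1 ≤ L ∧ ‖p.2‖ = r₀} with hK
  have hKc : IsCompact K := by
    apply IsCompact.of_isClosed_subset (isCompact_closedBall (0 : (Fin d → ℝ) × (Fin d → ℝ)) (max (|L| + 1) r₀))
    · apply IsClosed.inter
      · exact isClosed_le (qq_cont.comp continuous_fst) continuous_const
      · exact isClosed_eq (continuous_norm.comp continuous_snd) continuous_const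
    · rintro ⟨p, e⟩ ⟨h1, h2⟩
      rw [mem_closedBall_zero_iff, Prod.norm_def]
      simp only at h1 h2
      apply max_le_max _ h2.le
      simp only
      have h3 := norm_sq_le p
      have h4 := norm_nonneg p
      have h5 := le_abs_self L
      nlinarith [abs_nonneg L]
  have hcont : Continuous (fun p : (Fin d → ℝ) × (Fin d → ℝ) => Df Φ (p.1 + p.2) p.1) := by
    unfold Df
    fun_prop
  have key : ∃ κ : ℝ, 0 < κ ∧ ∀ p ∈ K, κ ≤ Df Φ (p.1 + p.2) p.1 := by
    rcases K.eq_empty_or_nonempty with h | h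
    · exact ⟨1, one_pos, by rw [h]; simp⟩
    · obtain ⟨p₀, hp₀, hmin⟩ := hKc.exists_isMinOn h hcont.continuousOn
      refine ⟨Df Φ (p₀.1 + p₀.2) p₀.1, ?_, fun p hp => hmin hp⟩
      apply Df_pos hΦ
      intro heq
      have : p₀.2 = 0 := by simpa using heq
      have h2 := hp₀.2
      rw [this, norm_zero] at h2
      linarith
  obtain ⟨κ, hκ, hmin⟩ := key
  refine ⟨κ, hκ, fun m z hm hz => ?_⟩
  set s := ‖z - m‖ / r₀ with hs
  have hs1 : 1 ≤ s := (one_le_div hr₀).2 hz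
  have hs0 : 0 < s := by linarith
  have h1 := hmin (m, s⁻¹ • (z - m)) ⟨hm, by
    simp only
    rw [norm_smul, norm_inv, Real.norm_of_nonneg hs0.le, hs]
    have : 0 < ‖z - m‖ := hr₀.trans_le hz
    field_simp⟩
  have h2 := Df_mono hΦ.convexOn m (s⁻¹ • (z - m)) hs1
  rw [smul_smul, mul_inv_cancel₀ hs0.ne', one_smul, add_sub_cancel] at h2
  exact h1.trans h2

/-- the pointwise inequality -/
lemma Df_point {Φ : (Fin d → ℝ) → ℝ} (hΦ : StrictConvexOn ℝ univ Φ) {f : (Fin d → ℝ) → ℝ} (hf : Continuous f) {C : ℝ} (hC : 0 < C)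
    (hb : ∀ x, |f x| ≤ C) {L : ℝ} (hL : 0 ≤ L) {ε : ℝ} (hε : 0 < ε) :
    ∃ K : ℝ, 0 < K ∧ ∀ z m, |f z - f m| ≤ ε + 2 * C * (1 - cu L m) + K * Df Φ z m := by
  have huc := (isCompact_closedBall (0 : Fin d → ℝ) (L + 2)).uniformContinuousOn_of_continuous hf.continuousOn
  rw [Metric.uniformContinuousOn_iff] at huc
  obtain ⟨r, hr, h⟩ := huc ε hε
  have hr0 : 0 < min r 1 := lt_min hr one_pos
  obtain ⟨κ, hκ, hκ2⟩ := Df_unif hΦ (L + 1) hr0
  refine ⟨2 * C / κ, by positivity, fun z m => ?_⟩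
  have h2C : |f z - f m| ≤ 2 * C := (abs_sub _ _).trans (by linarith [hb z, hb m])
  have hD := Df_nonneg hΦ.convexOn z m
  have hcu := cu_mem L m
  have hKD : 0 ≤ 2 * C / κ * Df Φ z m := by positivity
  have hcu2 : 0 ≤ 2 * C * (1 - cu L m) := mul_nonneg (by positivity) (by linarith [hcu.2])
  by_cases h1 : L + 1 ≤ qq m
  · rw [cu_zero h1]
    linarith
  rw [not_le] at h1
  by_cases h2 : min r 1 ≤ ‖z - m‖
  · have h3 := hκ2 m z h1.le h2
    have h4 : 2 * C ≤ 2 * C / κ * Df Φ z m := by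
      calc 2 * C = 2 * C / κ * κ := by field_simp
        _ ≤ _ := by gcongr
    linarith
  · rw [not_le] at h2
    have hm : ‖m‖ ≤ L + 1 := by
      have h3 := norm_sq_le m
      have h4 := norm_nonneg m
      nlinarith
    have hz : ‖z‖ ≤ L + 2 := by
      have := norm_add_le m (z - m)
      rw [add_sub_cancel] at this
      have h4 := min_le_right r 1
      linarith
    have h5 := h z (by rwa [mem_closedBall_zero_iff]) m (by rw [mem_closedBall_zero_iff]; linarith) (by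
      rw [dist_eq_norm]; exact h2.trans_le (min_le_left _ _))
    rw [Real.dist_eq] at h5
    linarith

variable {F : Fin d → ℝ → ℝ} {U : ℝ → Fin d → ℝ → ℝ} {V : ℕ → Fin d → ℝ → ℝ} {n : ℕ} {R₁ δ₁ : ℝ}

/-- the integrated defect -/
lemma Mod.defect (h : Mod F U V n R₁ δ₁) {δ : ℝ} (hδ : 0 < δ) {r : ℝ} (hr : R₁ ≤ r) {Φ : (Fin d → ℝ) → ℝ}
    (hΦ : ConvexOn ℝ univ Φ) : ∫ x, Df Φ (fun i => F i (r + x)) (sm F n δ r) ∂(mu δ n) ≤
      (∫ x, Φ (fun i => F i (r + x)) ∂(mu δ n)) / 2 - Φ (sm F n δ r) / 2 := by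
  have := mu_prob hδ n
  have hc : Continuous Φ := hΦ.locallyLipschitz.continuous
  set m := sm F n δ r with hm
  have hΦ' : ConvexOn ℝ univ (fun z : Fin d → ℝ => Φ ((1/2:ℝ) • (z + m))) := by
    refine ⟨convex_univ, fun x _ y _ a b ha hb hab => ?_⟩
    have h1 := hΦ.2 (mem_univ ((1/2:ℝ) • (x + m))) (mem_univ ((1/2:ℝ) • (y + m))) ha hb hab
    have e : (1/2:ℝ) • (a • x + b • y + m) = a • ((1/2:ℝ) • (x + m)) + b • ((1/2:ℝ) • (y + m)) := by
      ext i
      simp only [Pi.add_apply, Pi.smul_apply, smul_eq_mul]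
      have : m i = (a + b) * m i := by rw [hab, one_mul]
      linear_combination (1/2 : ℝ) * this
    simp only [e]
    exact h1
  have h1 := h.jens hδ hr hΦ'
  have e1 : Φ ((1/2:ℝ) • (sm F n δ r + m)) = Φ m := by
    congr 1
    rw [← hm]
    ext i
    simp only [Pi.add_apply, Pi.smul_apply, smul_eq_mul]
    ring
  rw [e1] at h1
  have hi1 : Integrable (fun x => Φ (fun i => F i (r + x))) (mu δ n) := h.int_mu hδ hr hc
  have hi2 : Integrable (fun x => Φ ((1/2:ℝ) • ((fun i => F i (r + x)) + m))) (mu δ n) :=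
    h.int_mu hδ hr (Φ := fun z => Φ ((1/2:ℝ) • (z + m))) (by fun_prop)
  unfold Df
  have hi3 : Integrable (fun x => (Φ (fun i => F i (r + x)) + Φ m) / 2) (mu δ n) := (hi1.add (integrable_const _)).div_const 2
  rw [integral_sub hi3 hi2, integral_div, integral_add hi1 (integrable_const _)]
  simp only [integral_const, probReal_univ, smul_eq_mul, one_mul]
  linarith

lemma tail_mu (μ : ProbabilityMeasure (Fin d → ℝ)) {ε : ℝ} (hε : 0 < ε) :
    ∃ L : ℕ, ∫ x, (1 - cu (L:ℝ) x) ∂(μ : Measure (Fin d → ℝ)) ≤ ε := by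
  have ht : Tendsto (fun n : ℕ => ∫ x, (1 - cu (n:ℝ) x) ∂(μ : Measure (Fin d → ℝ))) atTop (𝓝 (∫ x, (0:ℝ) ∂(μ : Measure (Fin d → ℝ)))) := by
    apply tendsto_integral_of_dominated_convergence (fun x => 1)
    · intro n; exact (continuous_const.sub (cu_cont _)).aestronglyMeasurable
    · exact integrable_const _
    · intro n
      exact Eventually.of_forall fun x => by
        have := cu_mem (n:ℝ) x
        rw [Real.norm_eq_abs, abs_of_nonneg (by linarith)]; linarith
    · exact Eventually.of_forall fun x => by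
        obtain ⟨n, hn⟩ := exists_nat_ge (qq x)
        apply tendsto_atTop_of_eventually_const (i₀ := n)
        intro m hm
        have : (n:ℝ) ≤ m := by exact_mod_cast hm
        rw [cu_one (by linarith)]; ring
  rw [integral_zero] at ht
  obtain ⟨n, hn⟩ := (Metric.tendsto_atTop.1 ht) ε hε
  refine ⟨n, ?_⟩
  have := hn n le_rfl
  rw [Real.dist_eq, sub_zero] at this
  exact (le_abs_self _).trans this.le

/-- **rigidity** -/
theorem Mod.rigid0 (h : Mod F U V n R₁ δ₁) {μ : ProbabilityMeasure (Fin d → ℝ)} (hμ : IsLim V μ)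
    {Φ : (Fin d → ℝ) → ℝ} (hΦ : StrictConvexOn ℝ univ Φ) (h0 : ∀ x, 0 ≤ Φ x)
    {f : (Fin d → ℝ) → ℝ} (hf : Continuous f) {C : ℝ} (hC : 0 < C)
    (hb : ∀ x, |f x| ≤ C) {ε : ℝ} (hε : 0 < ε) :
    ∃ η Y₀ H₀ : ℝ, 0 < η ∧ R₁ ≤ Y₀ ∧ 0 < H₀ ∧ ∀ Y H, Y₀ ≤ Y → H₀ ≤ H →
      ∫ r in Y..(Y+H), Φ (fun i => F i r) ≤ ((∫ x, Φ x ∂(μ : Measure (Fin d → ℝ))) + η) * H →
      |(∫ r in Y..(Y+H), f (fun i => F i r)) - (∫ x, f x ∂(μ : Measure (Fin d → ℝ))) * H| ≤ ε * H := by
  have hc : Continuous Φ := hΦ.convexOn.locallyLipschitz.continuous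
  set e' := ε/10 with he'
  have he'0 : 0 < e' := by positivity
  obtain ⟨L, hL⟩ := tail_mu μ (ε := e'/(2*C)) (by positivity)
  obtain ⟨K, hK, hpt⟩ := Df_point hΦ hf hC hb (L := (L:ℝ)) (Nat.cast_nonneg L) he'0
  set η := e'/K with hη
  have hη0 : 0 < η := by positivity
  set I := ∫ x, Φ x ∂(μ : Measure (Fin d → ℝ)) with hI
  have hI0 : 0 ≤ I := integral_nonneg h0
  obtain ⟨L', hL'⟩ := trunc hc h0 (μ := μ) (A := I - η) (fun _ => by linarith)
  set I' := ∫ x, min (Φ x) (L':ℝ) ∂(μ : Measure (Fin d → ℝ)) with hI'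
  have hgc : Continuous (fun x => min (Φ x) (L':ℝ)) := hc.min continuous_const
  have hgb : ∀ x, |min (Φ x) (L':ℝ)| ≤ L' + 1 := by
    intro x
    rw [abs_of_nonneg (le_min (h0 x) (Nat.cast_nonneg L'))]
    exact (min_le_right _ _).trans (by linarith)
  have hcc : Continuous (fun x : Fin d → ℝ => 1 - cu (L:ℝ) x) := continuous_const.sub (cu_cont _)
  have hcb : ∀ x : Fin d → ℝ, |1 - cu (L:ℝ) x| ≤ 1 := by
    intro x
    have := cu_mem (L:ℝ) x
    rw [abs_of_nonneg (by linarith)]; linarith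
  obtain ⟨δa, hδa, hδa1, lowa⟩ := h.low hμ hf hC hb (η := e') he'0
  obtain ⟨δb, hδb, hδb1, lowb⟩ := h.low hμ hcc one_pos hcb (η := e'/(2*C)) (by positivity)
  obtain ⟨δc, hδc, hδc1, lowc⟩ := h.low hμ hgc (C := (L':ℝ) + 1) (by positivity) hgb (η := η) hη0
  set δ := min δa (min δb δc) with hδd
  have hδ : 0 < δ := lt_min hδa (lt_min hδb hδc)
  obtain ⟨Ya, Ha, hYa, hHa, wa⟩ := lowa δ hδ (min_le_left _ _)
  obtain ⟨Yb, Hb, hYb, hHb, wb⟩ := lowb δ hδ ((min_le_right _ _).trans (min_le_left _ _))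
  obtain ⟨Yc, Hc, hYc, hHc, wc⟩ := lowc δ hδ ((min_le_right _ _).trans (min_le_right _ _))
  have hnδ : 0 ≤ n * δ := by positivity
  set T := (4 * C + K * I / 2) * (n * δ) with hT
  have hT0 : 0 ≤ T := by positivity
  refine ⟨η, max Ya (max Yb Yc), max (max Ha (max Hb Hc) + n * δ) (T / e'), hη0, hYa.trans (le_max_left _ _),
    lt_of_lt_of_le (by have := le_max_left Ha (max Hb Hc); linarith) (le_max_left _ _), fun Y H hY hH hhyp => ?_⟩
  have hY1 : Ya ≤ Y := (le_max_left _ _).trans hY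
  have hY2 : Yb ≤ Y := ((le_max_left _ _).trans (le_max_right _ _)).trans hY
  have hY3 : Yc ≤ Y := ((le_max_right _ _).trans (le_max_right _ _)).trans hY
  have hRY : R₁ ≤ Y := hYa.trans hY1
  have hHmax : max Ha (max Hb Hc) ≤ H - n * δ := by have := (le_max_left _ _).trans hH; linarith
  have hH1 : Ha ≤ H - n * δ := (le_max_left _ _).trans hHmax
  have hH2 : Hb ≤ H - n * δ := ((le_max_left _ _).trans (le_max_right _ _)).trans hHmax
  have hH3 : Hc ≤ H - n * δ := ((le_max_right _ _).trans (le_max_right _ _)).trans hHmax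
  have hTH : T ≤ e' * H := by
    have := (le_max_right _ _).trans hH
    rw [div_le_iff₀ he'0] at this
    linarith
  set H' := H - n * δ with hH'
  have hH'0 : 0 < H' := hHa.trans_le hH1
  have hH'H : H' ≤ H := by rw [hH']; linarith
  have a1 := wa Y H' hY1 hH1
  have b1 := wb Y H' hY2 hH2
  have c1 := wc Y H' hY3 hH3
  obtain ⟨B, hB0, hB⟩ := h.comp_bdd hc (Y + H)
  have hm : Measurable (fun s => Φ (fun i => F i s)) := hc.measurable.comp (vec_meas h.meas)
  have hmf : Measurable (fun s => f (fun i => F i s)) := hf.measurable.comp (vec_meas h.meas)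
  have hbb : ∀ s, Y ≤ s → s ≤ Y + H' + n * δ → |Φ (fun i => F i s)| ≤ B :=
    fun s h1 h2 => hB s (hRY.trans h1) (by rw [hH'] at h2; linarith)
  have hsw := swap_le hm (Y := Y) (H := H') (n := n) hδ hH'0.le hbb (fun s => h0 _)
  have eH : Y + H' + n * δ = Y + H := by rw [hH']; ring
  rw [eH] at hsw
  have hswf := swap_close hmf (Y := Y) (H := H') (n := n) hδ hH'0.le (B := C) (fun s => hb _)
  -- the pointwise inequality in `r`
  have hpr : ∀ r ∈ Icc Y (Y+H'), |(∫ x, f (fun i => F i (r + x)) ∂(mu δ n)) - f (sm F n δ r)| ≤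
      e' + 2 * C * (1 - cu (L:ℝ) (sm F n δ r)) + K * ((∫ x, Φ (fun i => F i (r + x)) ∂(mu δ n)) / 2 - min (Φ (sm F n δ r)) (L':ℝ) / 2) := by
    intro r hr
    have hr1 : R₁ ≤ r := hRY.trans hr.1
    have := mu_prob hδ n
    have hdef := h.defect hδ hr1 hΦ.convexOn
    have hcst : ∫ _x, f (sm F n δ r) ∂(mu δ n) = f (sm F n δ r) := by rw [integral_const]; simp
    have hDi : Integrable (fun x => Df Φ (fun i => F i (r + x)) (sm F n δ r)) (mu δ n) :=
      h.int_mu hδ hr1 (Φ := fun z => Df Φ z (sm F n δ r)) (by unfold Df; fun_prop)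
    have h1 : |(∫ x, f (fun i => F i (r + x)) ∂(mu δ n)) - f (sm F n δ r)| ≤
        ∫ x, (e' + 2 * C * (1 - cu (L:ℝ) (sm F n δ r)) + K * Df Φ (fun i => F i (r + x)) (sm F n δ r)) ∂(mu δ n) := by
      conv_lhs => rw [← hcst, ← integral_sub (h.int_mu hδ hr1 hf) (integrable_const _)]
      rw [← Real.norm_eq_abs]
      refine norm_integral_le_of_norm_le ((integrable_const _).add (hDi.const_mul K)) (Eventually.of_forall fun x => ?_)
      rw [Real.norm_eq_abs]
      exact hpt _ _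
    rw [integral_add (integrable_const _) (hDi.const_mul K), integral_const_mul, integral_const] at h1
    simp only [probReal_univ, smul_eq_mul, one_mul] at h1
    have h2 : min (Φ (sm F n δ r)) (L':ℝ) ≤ Φ (sm F n δ r) := min_le_left _ _
    have h3 : K * (∫ x, Df Φ (fun i => F i (r + x)) (sm F n δ r) ∂(mu δ n)) ≤
      K * ((∫ x, Φ (fun i => F i (r + x)) ∂(mu δ n)) / 2 - min (Φ (sm F n δ r)) (L':ℝ) / 2) :=
      mul_le_mul_of_nonneg_left (by linarith) hK.le
    linarith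
  -- integrability on the window
  have i1 : IntervalIntegrable (fun r => ∫ x, f (fun i => F i (r + x)) ∂(mu δ n)) volume Y (Y+H') :=
    (swap hmf (Y := Y) (H := H') (n := n) hδ hH'0.le (B := C) (fun s _ _ => hb _)).1
  have i2 : IntervalIntegrable (fun r => f (sm F n δ r)) volume Y (Y+H') :=
    G_ii (hf.measurable.comp (sm_meas h.meas hδ)) (by linarith) (B := C) (fun s _ _ => hb _)
  have i3 : IntervalIntegrable (fun r => 1 - cu (L:ℝ) (sm F n δ r)) volume Y (Y+H') :=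
    G_ii (hcc.measurable.comp (sm_meas h.meas hδ)) (by linarith) (B := 1) (fun s _ _ => hcb _)
  have i4 : IntervalIntegrable (fun r => ∫ x, Φ (fun i => F i (r + x)) ∂(mu δ n)) volume Y (Y+H') :=
    (swap hm (Y := Y) (H := H') (n := n) hδ hH'0.le hbb).1
  have i5 : IntervalIntegrable (fun r => min (Φ (sm F n δ r)) (L':ℝ)) volume Y (Y+H') :=
    G_ii (hgc.measurable.comp (sm_meas h.meas hδ)) (by linarith) (fun s _ _ => hgb _)
  have hint1 : |(∫ r in Y..(Y+H'), (∫ x, f (fun i => F i (r + x)) ∂(mu δ n))) - ∫ r in Y..(Y+H'), f (sm F n δ r)| ≤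
      e' * H' + 2 * C * (∫ r in Y..(Y+H'), (1 - cu (L:ℝ) (sm F n δ r))) +
      K * ((∫ r in Y..(Y+H'), (∫ x, Φ (fun i => F i (r + x)) ∂(mu δ n))) / 2 - (∫ r in Y..(Y+H'), min (Φ (sm F n δ r)) (L':ℝ)) / 2) := by
    rw [← intervalIntegral.integral_sub i1 i2]
    have h1 := intervalIntegral.abs_integral_le_integral_abs (μ := volume) (a := Y) (b := Y+H') (by linarith)
      (f := fun r => (∫ x, f (fun i => F i (r + x)) ∂(mu δ n)) - f (sm F n δ r))
    refine h1.trans ?_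
    have h2 := intervalIntegral.integral_mono_on (a := Y) (b := Y+H') (by linarith) (i1.sub i2).abs
      (((intervalIntegrable_const (c := e')).add (i3.const_mul (2*C))).add (((i4.div_const 2).sub (i5.div_const 2)).const_mul K)) hpr
    refine h2.trans (le_of_eq ?_)
    rw [intervalIntegral.integral_add ((intervalIntegrable_const (c := e')).add (i3.const_mul (2*C))) (((i4.div_const 2).sub (i5.div_const 2)).const_mul K),
      intervalIntegral.integral_add (intervalIntegrable_const (c := e')) (i3.const_mul (2*C)),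
      intervalIntegral.integral_const, intervalIntegral.integral_const_mul, intervalIntegral.integral_const_mul,
      intervalIntegral.integral_sub (i4.div_const 2) (i5.div_const 2), intervalIntegral.integral_div, intervalIntegral.integral_div]
    simp only [smul_eq_mul]
    ring
  -- the last piece of the window
  have j : ∀ a b : ℝ, IntervalIntegrable (fun s => f (fun i => F i s)) volume a b := by
    intro a b
    rcases le_total a b with hh | hh
    · exact G_ii hmf hh (fun s _ _ => hb _)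
    · exact (G_ii hmf hh (fun s _ _ => hb _)).symm
  have hlast : |(∫ r in Y..(Y+H), f (fun i => F i r)) - ∫ r in Y..(Y+H'), f (fun i => F i r)| ≤ C * (n * δ) := by
    have h1 := intervalIntegral.integral_add_adjacent_intervals (j Y (Y+H')) (j (Y+H') (Y+H))
    have h2 : (∫ r in Y..(Y+H), f (fun i => F i r)) - ∫ r in Y..(Y+H'), f (fun i => F i r) = ∫ r in (Y+H')..(Y+H), f (fun i => F i r) := by
      linarith
    rw [h2, ← Real.norm_eq_abs]
    have h3 := intervalIntegral.norm_integral_le_of_norm_le_const (a := Y+H') (b := Y+H) (f := fun r => f (fun i => F i r)) (C := C)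
      (fun s _ => by rw [Real.norm_eq_abs]; exact hb _)
    rw [show |Y + H - (Y + H')| = n * δ by
      rw [show Y + H - (Y + H') = n * δ by rw [hH']; ring]; exact abs_of_nonneg hnδ] at h3
    exact h3
  set J := ∫ x, f x ∂(μ : Measure (Fin d → ℝ)) with hJ
  have hJC : |J| ≤ C := by
    rw [← Real.norm_eq_abs]
    have := norm_integral_le_of_norm_le_const (μ := (μ : Measure (Fin d → ℝ))) (f := f) (C := C)
      (Eventually.of_forall fun x => by rw [Real.norm_eq_abs]; exact hb x)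
    simpa using this
  have hJH : |J * H' - J * H| ≤ C * (n * δ) := by
    have : J * H' - J * H = - (J * (n * δ)) := by rw [hH']; ring
    rw [this, abs_neg, abs_mul, abs_of_nonneg hnδ]
    gcongr
  -- the pieces
  have hcu1 : 2 * C * (∫ r in Y..(Y+H'), (1 - cu (L:ℝ) (sm F n δ r))) ≤ 2 * e' * H' := by
    have h1 : ∫ r in Y..(Y+H'), (1 - cu (L:ℝ) (sm F n δ r)) ≤ (e'/(2*C) + e'/(2*C)) * H' := by
      have h2 := (abs_le.1 b1).2
      have h3 : (∫ x, (1 - cu (L:ℝ) x) ∂(μ : Measure (Fin d → ℝ))) * H' ≤ e'/(2*C) * H' :=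
        mul_le_mul_of_nonneg_right hL hH'0.le
      linarith
    calc 2 * C * (∫ r in Y..(Y+H'), (1 - cu (L:ℝ) (sm F n δ r))) ≤ 2 * C * ((e'/(2*C) + e'/(2*C)) * H') := by gcongr
      _ = _ := by field_simp; ring
  have hΦ1 : (∫ r in Y..(Y+H'), (∫ x, Φ (fun i => F i (r + x)) ∂(mu δ n))) - (∫ r in Y..(Y+H'), min (Φ (sm F n δ r)) (L':ℝ)) ≤
      3 * η * H + I * (n * δ) := by
    have h2 := (abs_le.1 c1).1
    have h3 : (I - η) * H' ≤ I' * H' := mul_le_mul_of_nonneg_right hL'.le hH'0.le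
    have h4 : η * H' ≤ η * H := mul_le_mul_of_nonneg_left hH'H hη0.le
    have h5 : I * H' = I * H - I * (n * δ) := by rw [hH']; ring
    linarith
  have hKη : K * η = e' := by rw [hη]; field_simp
  have hΦ2 : K * ((∫ r in Y..(Y+H'), (∫ x, Φ (fun i => F i (r + x)) ∂(mu δ n))) / 2 - (∫ r in Y..(Y+H'), min (Φ (sm F n δ r)) (L':ℝ)) / 2) ≤
      3/2 * e' * H + K * I / 2 * (n * δ) := by
    have := mul_le_mul_of_nonneg_left hΦ1 hK.le
    calc _ = (K * ((∫ r in Y..(Y+H'), (∫ x, Φ (fun i => F i (r + x)) ∂(mu δ n))) - (∫ r in Y..(Y+H'), min (Φ (sm F n δ r)) (L':ℝ)))) / 2 := by ring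
      _ ≤ (K * (3 * η * H + I * (n * δ))) / 2 := by linarith
      _ = 3/2 * (K * η) * H + K * I / 2 * (n * δ) := by ring
      _ = _ := by rw [hKη]
  have e'H : e' * H' ≤ e' * H := mul_le_mul_of_nonneg_left hH'H he'0.le
  have hTT : C * (n * δ) + 2 * C * (n * δ) + C * (n * δ) + K * I / 2 * (n * δ) = T := by rw [hT]; ring
  have hεH : ε * H = 10 * e' * H := by rw [he']; ring
  rw [abs_le] at *
  have he'H0 : 0 ≤ e' * H := by have : 0 ≤ H := by linarith
                                positivity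
  rw [hεH]
  constructor <;> linarith [a1.1, a1.2, hswf.1, hswf.2, hint1.1, hint1.2, hlast.1, hlast.2, hJH.1, hJH.2]

end Pool.Agent.H592.PD
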