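import Mathlib

/-!
# Roots of natural numbers: linear independence and lower bounds for integer combinations
-/

open Module IntermediateField Polynomial

namespace Pool.Agent.H592.PD

/-- the real `k`-th root -/
noncomputable def rt (k n : ℕ) : ℝ := (n:ℝ) ^ (1 / (k:ℝ))

lemma rt_nonneg (k n : ℕ) : 0 ≤ rt k n := by unfold rt; positivity

lemma rt_pos (k : ℕ) {n : ℕ} (hn : 1 ≤ n) : 0 < rt k n := by
  unfold rt
  have : (0:ℝ) < n := by exact_mod_cast hn
  positivity

lemma rt_pow {k : ℕ} (hk : 1 ≤ k) (n : ℕ) : rt k n ^ k = n := by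
  unfold rt
  have hk' : (k:ℝ) ≠ 0 := by exact_mod_cast (by omega : k ≠ 0)
  rw [← Real.rpow_natCast, ← Real.rpow_mul (Nat.cast_nonneg n), one_div, inv_mul_cancel₀ hk', Real.rpow_one]

lemma rt_mul (k m n : ℕ) : rt k (m * n) = rt k m * rt k n := by
  unfold rt
  rw [Nat.cast_mul, Real.mul_rpow (Nat.cast_nonneg m) (Nat.cast_nonneg n)]

lemma rt_pow_self {k : ℕ} (hk : 1 ≤ k) (r : ℕ) : rt k (r ^ k) = r := by
  unfold rt
  have hk' : (k:ℝ) ≠ 0 := by exact_mod_cast (by omega : k ≠ 0)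
  rw [Nat.cast_pow, ← Real.rpow_natCast, ← Real.rpow_mul (Nat.cast_nonneg r), one_div, mul_inv_cancel₀ hk', Real.rpow_one]

lemma rt_integral {k : ℕ} (hk : 1 ≤ k) (n : ℕ) : IsIntegral ℤ (rt k n) := by
  refine ⟨X ^ k - C (n:ℤ), monic_X_pow_sub_C _ (by omega), ?_⟩
  simp [rt_pow hk n]

/-- the trace of an irrational positive real root of a rational number is zero -/
theorem trace_root_zero {K : IntermediateField ℚ ℝ} [FiniteDimensional ℚ K] (x : K) (hx : 0 < (x:ℝ)) {k : ℕ} (hk : 1 ≤ k)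
    (c : ℚ) (h : (x:ℝ) ^ k = c) (hirr : ∀ r : ℚ, (x:ℝ) ≠ r) : Algebra.trace ℚ K x = 0 := by
  rw [trace_eq_finrank_mul_minpoly_nextCoeff]
  have hint : IsIntegral ℚ x := IsIntegral.of_finite ℚ x
  set p := minpoly ℚ x with hp
  have hpm : p.Monic := minpoly.monic hint
  set e := p.natDegree with he
  have hxk : x ^ k = algebraMap ℚ K c := by
    apply Subtype.ext
    push_cast
    rw [h]
    rfl
  have hdvd : p ∣ X ^ k - C c := by
    apply minpoly.dvd
    rw [aeval_sub, aeval_X_pow, aeval_C, hxk, sub_self]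
  -- the complex roots
  have hsplit : (p.map (algebraMap ℚ ℂ)).Splits := IsAlgClosed.splits _
  have hmon : (p.map (algebraMap ℚ ℂ)).Monic := hpm.map _
  have hprod := hsplit.coeff_zero_eq_prod_roots_of_monic hmon
  have hroots : ∀ z ∈ (p.map (algebraMap ℚ ℂ)).roots, ‖z‖ = (x:ℝ) := by
    intro z hz
    rw [mem_roots hmon.ne_zero, IsRoot.def, eval_map] at hz
    have h1 : eval₂ (algebraMap ℚ ℂ) z (X ^ k - C c) = 0 := eval₂_eq_zero_of_dvd_of_eval₂_eq_zero _ _ hdvd hz
    rw [eval₂_sub, eval₂_X_pow, eval₂_C, sub_eq_zero] at h1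
    have h2 : ‖z‖ ^ k = (x:ℝ) ^ k := by
      rw [← norm_pow, h1, h]
      have hc : 0 ≤ (c:ℝ) := by rw [← h]; positivity
      simp only [eq_ratCast]
      rw [← Complex.ofReal_ratCast, Complex.norm_real, Real.norm_of_nonneg hc]
    exact (pow_left_inj₀ (norm_nonneg z) hx.le (by omega)).1 h2
  have hprodnorm : ‖((p.map (algebraMap ℚ ℂ)).roots).prod‖ = (x:ℝ) ^ e := by
    have h1 : ‖((p.map (algebraMap ℚ ℂ)).roots).prod‖ = (((p.map (algebraMap ℚ ℂ)).roots).map (fun z => ‖z‖)).prod := by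
      exact map_multiset_prod (normHom : ℂ →*₀ ℝ) _
    rw [h1, Multiset.map_congr rfl hroots, Multiset.map_const', Multiset.prod_replicate]
    congr 1
    rw [splits_iff_card_roots.1 hsplit, natDegree_map_eq_of_injective (algebraMap ℚ ℂ).injective]
  have hxe : ((|p.coeff 0| : ℚ) : ℝ) = (x:ℝ) ^ e := by
    rw [← hprodnorm]
    have h2 : ‖(p.map (algebraMap ℚ ℂ)).coeff 0‖ = ‖((p.map (algebraMap ℚ ℂ)).roots).prod‖ := by
      rw [hprod, norm_mul, norm_pow, norm_neg, norm_one, one_pow, one_mul]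
    rw [← h2, coeff_map]
    simp only [eq_ratCast]
    rw [← Complex.ofReal_ratCast, Complex.norm_real, Real.norm_eq_abs]
    push_cast
    rfl
  have he1 : 1 ≤ e := (minpoly.natDegree_pos hint)
  have he2 : 2 ≤ e := by
    by_contra hcon
    have h1 : e = 1 := by omega
    rw [h1, pow_one] at hxe
    exact hirr _ hxe.symm
  have hq : p = X ^ e - C |p.coeff 0| := by
    symm
    apply minpoly.unique
    · exact monic_X_pow_sub_C _ (by omega)
    · rw [aeval_sub, aeval_X_pow, aeval_C, sub_eq_zero]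
      apply Subtype.ext
      change (x:ℝ) ^ e = algebraMap ℚ ℝ |p.coeff 0|
      rw [← hxe, eq_ratCast]
    · intro q hq1 hq2
      rw [degree_X_pow_sub_C (by omega)]
      have := minpoly.min ℚ x hq1 hq2
      rwa [degree_eq_natDegree hpm.ne_zero] at this
  have hnc : p.nextCoeff = 0 := by
    rw [nextCoeff_of_natDegree_pos (by omega), ← he, hq, coeff_sub, coeff_X_pow, coeff_C, if_neg (by omega), if_neg (by omega), sub_zero]
  rw [hnc]
  simp

/-- `k`-free -/
def KF (k n : ℕ) : Prop := 1 ≤ n ∧ ∀ p : ℕ, p.Prime → ¬ p ^ k ∣ n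

lemma KF_fact {k n : ℕ} (h : KF k n) {p : ℕ} (hp : p.Prime) : n.factorization p < k := by
  by_contra hcon
  rw [not_lt] at hcon
  exact h.2 p hp ((hp.pow_dvd_iff_le_factorization (by have := h.1; omega)).2 hcon)

lemma KF_eq {k : ℕ} {q q' a b : ℕ} (hq : KF k q) (hq' : KF k q') (ha : 1 ≤ a) (hb : 1 ≤ b) (h : q * b ^ k = q' * a ^ k) : q = q' := by
  have h1 : q ≠ 0 := by have := hq.1; omega
  have h2 : q' ≠ 0 := by have := hq'.1; omega
  have h3 : b ^ k ≠ 0 := pow_ne_zero _ (by omega)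
  have h4 : a ^ k ≠ 0 := pow_ne_zero _ (by omega)
  apply Nat.eq_of_factorization_eq h1 h2
  intro p
  by_cases hp : p.Prime
  · have h5 := congrArg (fun n => n.factorization p) h
    simp only [Nat.factorization_mul h1 h3, Nat.factorization_mul h2 h4, Nat.factorization_pow, Finsupp.add_apply, Finsupp.smul_apply,
      smul_eq_mul] at h5
    have h6 := KF_fact hq hp
    have h7 := KF_fact hq' hp
    have h8 : (q.factorization p + k * b.factorization p) % k = (q'.factorization p + k * a.factorization p) % k := by rw [h5]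
    rw [Nat.add_mul_mod_self_left, Nat.add_mul_mod_self_left, Nat.mod_eq_of_lt h6, Nat.mod_eq_of_lt h7] at h8
    exact h8
  · rw [Nat.factorization_eq_zero_of_not_prime _ hp, Nat.factorization_eq_zero_of_not_prime _ hp]

/-- **linear independence** of the `k`-th roots of `k`-free numbers -/
theorem roots_indep {k : ℕ} (hk : 1 ≤ k) (s : Finset ℕ) (hs : ∀ q ∈ s, KF k q) (c : ℕ → ℚ) (h : ∑ q ∈ s, (c q : ℝ) * rt k q = 0) :
    ∀ q ∈ s, c q = 0 := by
  intro q₀ hq₀
  set K : IntermediateField ℚ ℝ := adjoin ℚ ((fun q => rt k q) '' (s : Set ℕ)) with hK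
  have hmem : ∀ q ∈ s, rt k q ∈ K := fun q hq => subset_adjoin ℚ _ ⟨q, hq, rfl⟩
  have hfin : FiniteDimensional ℚ K := by
    have : Finite ((fun q => rt k q) '' (s : Set ℕ)) := (s.finite_toSet.image _).to_subtype
    apply finiteDimensional_adjoin
    rintro x ⟨q, -, rfl⟩
    exact (rt_integral hk q).tower_top
  have hpos : ∀ q ∈ s, 0 < rt k q := fun q hq => rt_pos k (hs q hq).1
  -- the quotients
  set y : ℕ → K := fun q => if hq : q ∈ s then ⟨rt k q / rt k q₀, div_mem (hmem q hq) (hmem q₀ hq₀)⟩ else 0 with hy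
  have hyv : ∀ q ∈ s, ((y q : K) : ℝ) = rt k q / rt k q₀ := by
    intro q hq
    simp only [hy]
    rw [dif_pos hq]
  have hsum : ∑ q ∈ s, (c q) • y q = 0 := by
    apply Subtype.ext
    push_cast
    have h1 : ∑ q ∈ s, c q • ((y q : K) : ℝ) = (∑ q ∈ s, (c q : ℝ) * rt k q) / rt k q₀ := by
      rw [Finset.sum_div]
      apply Finset.sum_congr rfl
      intro q hq
      rw [hyv q hq, Rat.smul_def]
      ring
    rw [h1, h, zero_div]
  have htr := congrArg (Algebra.trace ℚ K) hsum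
  rw [map_sum, map_zero] at htr
  have hone : y q₀ = 1 := by
    apply Subtype.ext
    rw [hyv q₀ hq₀, div_self (hpos q₀ hq₀).ne']
    rfl
  have hzero : ∀ q ∈ s, q ≠ q₀ → Algebra.trace ℚ K (c q • y q) = 0 := by
    intro q hq hne
    rw [map_smul]
    have hyp : 0 < ((y q : K) : ℝ) := by rw [hyv q hq]; exact div_pos (hpos q hq) (hpos q₀ hq₀)
    rw [trace_root_zero (y q) hyp hk ((q:ℚ)/(q₀:ℚ)), smul_zero]
    · rw [hyv q hq, div_pow, rt_pow hk, rt_pow hk]; push_cast; rfl
    · intro r hr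
      apply hne
      have hr0 : 0 < (r:ℝ) := by rw [← hr]; exact hyp
      have hr0' : 0 < r := by exact_mod_cast hr0
      have hrnum : 0 < r.num := Rat.num_pos.2 hr0'
      have h1 : (r:ℝ) ^ k = (q:ℝ) / q₀ := by rw [← hr, hyv q hq, div_pow, rt_pow hk, rt_pow hk]
      have h2 : (r:ℝ) = (r.num : ℝ) / (r.den : ℝ) := by exact_mod_cast (Rat.num_div_den r).symm
      have hq00 : (q₀:ℝ) ≠ 0 := by have := (hs q₀ hq₀).1; exact_mod_cast (by omega : q₀ ≠ 0)
      have hden : (r.den:ℝ) ≠ 0 := by exact_mod_cast r.den_ne_zero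
      rw [h2, div_pow, div_eq_div_iff (pow_ne_zero _ hden) hq00] at h1
      obtain ⟨a, ha⟩ : ∃ a : ℕ, r.num = a := ⟨r.num.toNat, (Int.toNat_of_nonneg hrnum.le).symm⟩
      rw [ha] at h1
      push_cast at h1
      have h3 : q * r.den ^ k = q₀ * a ^ k := by
        have : ((q * r.den ^ k : ℕ) : ℝ) = ((q₀ * a ^ k : ℕ) : ℝ) := by push_cast; linarith
        exact_mod_cast this
      exact KF_eq (hs q hq) (hs q₀ hq₀) (by omega) r.den_pos h3
  rw [Finset.sum_eq_single q₀ hzero (fun h => absurd hq₀ h), map_smul, hone] at htr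
  rw [smul_eq_mul, mul_eq_zero] at htr
  rcases htr with h1 | h1
  · exact h1
  · exfalso
    have h2 : Algebra.trace ℚ K (algebraMap ℚ K 1) = finrank ℚ K • (1:ℚ) := Algebra.trace_algebraMap 1
    rw [map_one, h1] at h2
    have h3 : 0 < finrank ℚ K := finrank_pos
    simp only [nsmul_eq_mul, mul_one] at h2
    have : (finrank ℚ K : ℚ) ≠ 0 := by exact_mod_cast h3.ne'
    exact this h2.symm

end Pool.Agent.H592.PD
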