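import Pool.Agent.H592.PD.C1

/-!
# Lower bounds for integer combinations of roots
-/

open Module IntermediateField Polynomial

namespace Pool.Agent.H592.PD

/-- the field generated by the `k`-th roots of the elements of `G` -/
noncomputable def FG (k : ℕ) (G : Finset ℕ) : IntermediateField ℚ ℝ := adjoin ℚ ((fun q => rt k q) '' (G : Set ℕ))

lemma mem_FG (k : ℕ) {G : Finset ℕ} {q : ℕ} (hq : q ∈ G) : rt k q ∈ FG k G := subset_adjoin ℚ _ ⟨q, hq, rfl⟩

lemma FG_fin {k : ℕ} (hk : 1 ≤ k) (G : Finset ℕ) : FiniteDimensional ℚ (FG k G) := by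
  unfold FG
  have : Finite ((fun q => rt k q) '' (G : Set ℕ)) := (G.finite_toSet.image _).to_subtype
  apply finiteDimensional_adjoin
  rintro x ⟨q, -, rfl⟩
  exact (rt_integral hk q).tower_top

lemma finrank_simple {k : ℕ} (hk : 1 ≤ k) (a : ℕ) : finrank ℚ (adjoin ℚ {rt k a}) ≤ k := by
  have hi : IsIntegral ℚ (rt k a) := (rt_integral hk a).tower_top
  rw [adjoin.finrank hi]
  have hdvd : minpoly ℚ (rt k a) ∣ X ^ k - C (a:ℚ) := by
    apply minpoly.dvd
    rw [aeval_sub, aeval_X_pow, aeval_C, rt_pow hk]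
    simp
  have := natDegree_le_of_dvd hdvd (monic_X_pow_sub_C _ (by omega)).ne_zero
  rwa [natDegree_X_pow_sub_C] at this

theorem FG_finrank {k : ℕ} (hk : 1 ≤ k) (G : Finset ℕ) : finrank ℚ (FG k G) ≤ k ^ G.card := by
  classical
  induction G using Finset.induction_on with
  | empty =>
    unfold FG
    rw [Finset.coe_empty, Set.image_empty, adjoin_empty, IntermediateField.finrank_bot]
    simp
  | insert a G ha ih =>
    have e : FG k (insert a G) = adjoin ℚ {rt k a} ⊔ FG k G := by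
      unfold FG
      rw [← adjoin_union]
      congr 1
      rw [Finset.coe_insert, Set.image_insert_eq]
      rfl
    rw [e, Finset.card_insert_of_notMem ha, pow_succ, mul_comm (k ^ G.card)]
    refine (finrank_sup_le _ _).trans ?_
    exact Nat.mul_le_mul (finrank_simple hk a) ih

/-- **lower bound** for nonzero algebraic integers with bounded conjugates -/
theorem norm_lower {K : IntermediateField ℚ ℝ} [FiniteDimensional ℚ K] (x : K) (hx0 : x ≠ 0) (hxi : IsIntegral ℤ (x:ℝ))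
    {B : ℝ} (hB : 1 ≤ B) (hσ : ∀ σ : K →ₐ[ℚ] ℂ, ‖σ x‖ ≤ B) : 1 ≤ |(x:ℝ)| * B ^ (finrank ℚ K) := by
  classical
  have hi : IsIntegral ℤ x := by
    rw [← isIntegral_algebraMap_iff (algebraMap K ℝ).injective]
    exact hxi
  have hn : IsIntegral ℤ (Algebra.norm ℚ x) := Algebra.isIntegral_norm ℚ hi
  obtain ⟨z, hz⟩ := IsIntegrallyClosed.isIntegral_iff.1 hn
  have hn0 : Algebra.norm ℚ x ≠ 0 := Algebra.norm_ne_zero_iff.2 hx0
  have hz0 : z ≠ 0 := by
    rintro rfl
    rw [map_zero] at hz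
    exact hn0 hz.symm
  have hprod := Algebra.norm_eq_prod_embeddings ℚ ℂ x
  have habs : 1 ≤ ∏ σ : K →ₐ[ℚ] ℂ, ‖σ x‖ := by
    rw [← norm_prod, ← hprod, ← hz]
    simp only [algebraMap_int_eq, eq_intCast, map_intCast]
    rw [Complex.norm_intCast]
    exact_mod_cast Int.one_le_abs hz0
  -- the inclusion
  set σ₀ : K →ₐ[ℚ] ℂ := (IsScalarTower.toAlgHom ℚ ℝ ℂ).comp K.val with hσ₀
  have hσ₀x : ‖σ₀ x‖ = |(x:ℝ)| := by
    rw [← Real.norm_eq_abs, ← Complex.norm_real]
    rfl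
  rw [← Finset.mul_prod_erase Finset.univ (fun σ : K →ₐ[ℚ] ℂ => ‖σ x‖) (Finset.mem_univ σ₀), hσ₀x] at habs
  have h1 : ∏ σ ∈ Finset.univ.erase σ₀, ‖σ x‖ ≤ B ^ (finrank ℚ K) := by
    calc ∏ σ ∈ Finset.univ.erase σ₀, ‖σ x‖ ≤ ∏ _σ ∈ Finset.univ.erase σ₀, B :=
          Finset.prod_le_prod (fun σ _ => norm_nonneg _) (fun σ _ => hσ σ)
      _ = B ^ (Finset.univ.erase σ₀).card := by rw [Finset.prod_const]
      _ ≤ B ^ (finrank ℚ K) := by
        apply pow_le_pow_right₀ hB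
        rw [← AlgHom.card ℚ K ℂ, Fintype.card]
        exact Finset.card_erase_le
  calc (1:ℝ) ≤ |(x:ℝ)| * ∏ σ ∈ Finset.univ.erase σ₀, ‖σ x‖ := habs
    _ ≤ _ := by gcongr

/-- conjugates of roots -/
lemma conj_root {K : IntermediateField ℚ ℝ} {k : ℕ} (hk : 1 ≤ k) (n : ℕ) (h : rt k n ∈ K) (σ : K →ₐ[ℚ] ℂ) : ‖σ ⟨rt k n, h⟩‖ = rt k n := by
  have h1 : (⟨rt k n, h⟩ : K) ^ k = algebraMap ℚ K n := by
    apply Subtype.ext
    push_cast
    change rt k n ^ k = algebraMap ℚ ℝ (n:ℚ)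
    rw [rt_pow hk]
    simp
  have h2 : ‖σ ⟨rt k n, h⟩‖ ^ k = rt k n ^ k := by
    rw [← norm_pow, ← map_pow, h1, AlgHom.commutes, rt_pow hk]
    simp
  exact (pow_left_inj₀ (norm_nonneg _) (rt_nonneg k n) (by omega)).1 h2

/-- **lower bound** for integer combinations of roots -/
theorem comb_lower {k : ℕ} (hk : 1 ≤ k) (G : Finset ℕ) {ι : Type*} (s : Finset ι) (c : ι → ℤ) (n : ι → ℕ)
    (hn : ∀ i ∈ s, rt k (n i) ∈ FG k G) {B : ℝ} (hB : 1 ≤ B) (hsum : ∑ i ∈ s, |(c i : ℝ)| * rt k (n i) ≤ B)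
    (h0 : ∑ i ∈ s, (c i : ℝ) * rt k (n i) ≠ 0) : 1 ≤ |∑ i ∈ s, (c i : ℝ) * rt k (n i)| * B ^ (k ^ G.card) := by
  classical
  have := FG_fin hk G
  set z : ι → FG k G := fun i => if hi : i ∈ s then ⟨rt k (n i), hn i hi⟩ else 0 with hz
  have hzv : ∀ i (hi : i ∈ s), z i = ⟨rt k (n i), hn i hi⟩ := by
    intro i hi
    simp only [hz]
    rw [dif_pos hi]
  set x : FG k G := ∑ i ∈ s, (c i) • z i with hx
  have hxv : (x:ℝ) = ∑ i ∈ s, (c i : ℝ) * rt k (n i) := by
    rw [hx]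
    push_cast
    apply Finset.sum_congr rfl
    intro i hi
    rw [hzv i hi]
    simp
  have h1 := norm_lower x (by
      intro h
      apply h0
      rw [← hxv, h]
      rfl) (by
      rw [hxv]
      apply IsIntegral.sum
      intro i _
      exact (isIntegral_algebraMap (x := c i)).mul (rt_integral hk _)) hB (fun σ => by
      rw [hx, map_sum]
      refine (norm_sum_le _ _).trans (le_trans (le_of_eq ?_) hsum)
      apply Finset.sum_congr rfl
      intro i hi
      rw [map_zsmul, hzv i hi, zsmul_eq_mul, norm_mul, conj_root hk, Complex.norm_intCast])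
  rw [hxv] at h1
  refine h1.trans ?_
  apply mul_le_mul_of_nonneg_left _ (abs_nonneg _)
  exact pow_le_pow_right₀ hB (FG_finrank hk G)

end Pool.Agent.H592.PD
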