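import Pool.Agent.H592.PD.C2
import Pool.Agent.H592.PD.B5

/-!
# Riesz products with frequencies which are roots
-/

open MeasureTheory Filter Topology Set

namespace Pool.Agent.H592.PD

/-! ### frequencies -/

lemma exists_kf {k : ℕ} (hk : 2 ≤ k) : ∀ m : ℕ, 1 ≤ m → ∃ r q : ℕ, 1 ≤ r ∧ KF k q ∧ m = r ^ k * q := by
  intro m
  induction m using Nat.strong_induction_on with
  | _ m ih =>
    intro hm
    by_cases h : KF k m
    · exact ⟨1, m, le_rfl, h, by simp⟩
    · unfold KF at h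
      push Not at h
      obtain ⟨p, hp, m', rfl⟩ := h hm
      have hp2 := hp.two_le
      have hm' : 1 ≤ m' := by
        by_contra hcon
        have : m' = 0 := by omega
        subst this
        simp at hm
      have hlt : m' < p ^ k * m' := by
        have : 1 < p ^ k := Nat.one_lt_pow (by omega) (by omega)
        nlinarith
      obtain ⟨r, q, hr, hq, e⟩ := ih m' hlt hm'
      refine ⟨p * r, q, ?_, hq, ?_⟩
      · exact Nat.mul_pos (by omega) hr
      · rw [mul_pow, mul_assoc, ← e]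

/-- the integer combination of the frequencies of `Q` -/
noncomputable def Lc (k : ℕ) {Q : Finset ℕ} (p : Q → ℤ) : ℝ := ∑ q : Q, (p q : ℝ) * rt k q

lemma Lc_zero {k : ℕ} (hk : 2 ≤ k) {Q : Finset ℕ} (hQ : ∀ q ∈ Q, KF k q) (p : Q → ℤ) (h : Lc k p = 0) : ∀ q, p q = 0 := by
  classical
  set c : ℕ → ℚ := fun j => if hj : j ∈ Q then (p ⟨j, hj⟩ : ℚ) else 0 with hc
  have h1 : ∑ q ∈ Q, (c q : ℝ) * rt k q = 0 := by
    rw [← h]
    unfold Lc
    rw [← Finset.sum_attach]
    apply Finset.sum_congr rfl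
    intro q _
    simp only [hc]
    rw [dif_pos q.2]
    push_cast
    rfl
  intro q
  have h2 := roots_indep (by omega) Q hQ c h1 q q.2
  simp only [hc] at h2
  rw [dif_pos q.2] at h2
  exact_mod_cast h2

lemma Lc_m_zero {k : ℕ} (hk : 2 ≤ k) {Q : Finset ℕ} (hQ : ∀ q ∈ Q, KF k q) (p : Q → ℤ) (hp : ∀ q, p q = -1 ∨ p q = 0 ∨ p q = 1)
    {m : ℕ} (hm : 1 ≤ m) (h : rt k m + Lc k p = 0) : ∃ hmQ : m ∈ Q, ∀ q, p q = if q = ⟨m, hmQ⟩ then -1 else 0 := by
  classical
  obtain ⟨r, q₀, hr, hq₀, rfl⟩ := exists_kf hk m hm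
  rw [rt_mul, rt_pow_self (by omega)] at h
  set c : ℕ → ℚ := fun j => (if j = q₀ then (r:ℚ) else 0) + (if hj : j ∈ Q then (p ⟨j, hj⟩ : ℚ) else 0) with hc
  have hins : ∀ q ∈ insert q₀ Q, KF k q := by
    intro q hq
    rcases Finset.mem_insert.1 hq with rfl | hq
    · exact hq₀
    · exact hQ q hq
  have hs1 : ∑ q ∈ insert q₀ Q, ((if q = q₀ then (r:ℝ) else 0)) * rt k q = r * rt k q₀ := by
    rw [Finset.sum_eq_single q₀]
    · rw [if_pos rfl]
    · intro q _ hne
      rw [if_neg hne, zero_mul]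
    · intro h; exact absurd (Finset.mem_insert_self _ _) h
  have hs2 : ∑ q ∈ insert q₀ Q, (if hj : q ∈ Q then (p ⟨q, hj⟩ : ℝ) else 0) * rt k q = Lc k p := by
    have h3 : ∑ q ∈ Q, (if hj : q ∈ Q then (p ⟨q, hj⟩ : ℝ) else 0) * rt k q = Lc k p := by
      unfold Lc
      rw [← Finset.sum_attach]
      apply Finset.sum_congr rfl
      intro q _
      rw [dif_pos q.2]
    rw [← h3]
    symm
    apply Finset.sum_subset (Finset.subset_insert _ _)
    intro q _ hq
    rw [dif_neg hq, zero_mul]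
  have h1 : ∑ q ∈ insert q₀ Q, (c q : ℝ) * rt k q = 0 := by
    rw [← h, ← hs1, ← hs2, ← Finset.sum_add_distrib]
    apply Finset.sum_congr rfl
    intro q _
    simp only [hc]
    push_cast
    rw [add_mul]
    have e1 : ((if q = q₀ then (r:ℚ) else 0 : ℚ) : ℝ) = (if q = q₀ then (r:ℝ) else 0) := by split_ifs <;> simp
    have e2 : ((if hj : q ∈ Q then (p ⟨q, hj⟩ : ℚ) else 0 : ℚ) : ℝ) = (if hj : q ∈ Q then (p ⟨q, hj⟩ : ℝ) else 0) := by
      by_cases hj : q ∈ Q
      · rw [dif_pos hj, dif_pos hj]; push_cast; rfl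
      · rw [dif_neg hj, dif_neg hj]; simp
    rw [e1, e2]
  have h2 := roots_indep (by omega) (insert q₀ Q) hins c h1
  have h3 := h2 q₀ (Finset.mem_insert_self _ _)
  simp only [hc, if_true] at h3
  by_cases hqQ : q₀ ∈ Q
  · rw [dif_pos hqQ] at h3
    have h4 : (r:ℤ) + p ⟨q₀, hqQ⟩ = 0 := by exact_mod_cast h3
    have h5 : r = 1 := by
      rcases hp ⟨q₀, hqQ⟩ with h6 | h6 | h6 <;> rw [h6] at h4 <;> omega
    subst h5
    have e : 1 ^ k * q₀ = q₀ := by simp
    refine ⟨by rw [e]; exact hqQ, fun q => ?_⟩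
    by_cases hq : (q:ℕ) = q₀
    · rw [if_pos (Subtype.ext (hq.trans e.symm))]
      have : q = ⟨q₀, hqQ⟩ := Subtype.ext hq
      rw [this]
      push_cast at h4
      omega
    · rw [if_neg (fun h => hq (by rw [h]; simp))]
      have h6 := h2 q (Finset.mem_insert_of_mem q.2)
      simp only [hc] at h6
      rw [if_neg hq, zero_add, dif_pos q.2] at h6
      exact_mod_cast h6
  · rw [dif_neg hqQ, add_zero] at h3
    exfalso
    have : (r:ℚ) ≠ 0 := by exact_mod_cast (by omega : r ≠ 0)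
    exact this h3

/-- the gap -/
theorem gap {k : ℕ} (hk : 2 ≤ k) {Q G : Finset ℕ} (hQ : ∀ q ∈ Q, KF k q ∧ rt k q ∈ FG k G) {B : ℝ} (hB : 3 ≤ B)
    (hBQ : 3 * ∑ q : Q, rt k q ≤ B) (p : Q → ℤ) (hp : ∀ q, p q = -1 ∨ p q = 0 ∨ p q = 1) {m : ℕ} (hm : 1 ≤ m) (h0 : rt k m + Lc k p ≠ 0) :
    1 ≤ |rt k m + Lc k p| * B ^ (k ^ (G.card + 1)) := by
  classical
  have habs : ∀ q, |(p q : ℝ)| ≤ 1 := by
    intro q
    rcases hp q with h | h | h <;> rw [h] <;> norm_num
  have hL : |Lc k p| ≤ ∑ q : Q, rt k q := by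
    unfold Lc
    refine (Finset.abs_sum_le_sum_abs _ _).trans (Finset.sum_le_sum (fun q _ => ?_))
    rw [abs_mul, abs_of_nonneg (rt_nonneg _ _)]
    calc |(p q : ℝ)| * rt k q ≤ 1 * rt k q := mul_le_mul_of_nonneg_right (habs q) (rt_nonneg _ _)
      _ = _ := one_mul _
  by_cases hbig : 2 * B ≤ 3 * rt k m
  · have h1 : 1 ≤ |rt k m + Lc k p| := by
      have h2 := le_abs_self (rt k m + Lc k p)
      have h3 := (abs_le.1 hL).1
      linarith
    have h2 : 1 ≤ B ^ (k ^ (G.card + 1)) := one_le_pow₀ (by linarith)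
    calc (1:ℝ) = 1 * 1 := by ring
      _ ≤ _ := by gcongr
  rw [not_le] at hbig
  set G' := insert m G with hG'
  have hmono : FG k G ≤ FG k G' := by
    unfold FG
    apply IntermediateField.adjoin.mono
    apply Set.image_mono
    intro x hx
    exact Finset.mem_insert_of_mem hx
  have h1 := comb_lower (k := k) (by omega) G' (Finset.univ : Finset (Option Q)) (fun o => o.elim 1 (fun q => p q))
    (fun o => o.elim m (fun q => (q:ℕ))) (by
      intro o _
      cases o with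
      | none => exact mem_FG k (Finset.mem_insert_self _ _)
      | some q => exact hmono (hQ q q.2).2) (B := B) (by linarith) (by
      rw [Fintype.sum_option]
      simp only [Option.elim]
      have h3 : ∑ q : Q, |(p q : ℝ)| * rt k q ≤ ∑ q : Q, rt k q := by
        apply Finset.sum_le_sum
        intro q _
        calc |(p q : ℝ)| * rt k q ≤ 1 * rt k q := mul_le_mul_of_nonneg_right (habs q) (rt_nonneg _ _)
          _ = _ := one_mul _
      simp only [Int.cast_one, abs_one, one_mul]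
      linarith) (by
      rw [Fintype.sum_option]
      simp only [Option.elim, Int.cast_one, one_mul]
      exact h0)
  rw [Fintype.sum_option] at h1
  simp only [Option.elim, Int.cast_one, one_mul] at h1
  refine h1.trans ?_
  apply mul_le_mul_of_nonneg_left _ (abs_nonneg _)
  apply pow_le_pow_right₀ (by linarith)
  apply Nat.pow_le_pow_right (by omega)
  rw [hG']
  exact Finset.card_insert_le _ _

theorem gap0 {k : ℕ} (hk : 2 ≤ k) {Q G : Finset ℕ} (hQ : ∀ q ∈ Q, KF k q ∧ rt k q ∈ FG k G) {B : ℝ} (hB : 3 ≤ B)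
    (hBQ : 3 * ∑ q : Q, rt k q ≤ B) (p : Q → ℤ) (hp : ∀ q, p q = -1 ∨ p q = 0 ∨ p q = 1) (h0 : Lc k p ≠ 0) :
    1 ≤ |Lc k p| * B ^ (k ^ (G.card + 1)) := by
  classical
  have habs : ∀ q, |(p q : ℝ)| ≤ 1 := by
    intro q
    rcases hp q with h | h | h <;> rw [h] <;> norm_num
  have h1 := comb_lower (k := k) (by omega) G (Finset.univ : Finset Q) (fun q => p q)
    (fun q => (q:ℕ)) (by
      intro q _
      exact (hQ q q.2).2) (B := B) (by linarith) (by
      have h3 : ∑ q : Q, |(p q : ℝ)| * rt k q ≤ ∑ q : Q, rt k q := by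
        apply Finset.sum_le_sum
        intro q _
        calc |(p q : ℝ)| * rt k q ≤ 1 * rt k q := mul_le_mul_of_nonneg_right (habs q) (rt_nonneg _ _)
          _ = _ := one_mul _
      have h4 : 0 ≤ ∑ q : Q, rt k q := Finset.sum_nonneg (fun q _ => rt_nonneg _ _)
      linarith) h0
  refine h1.trans ?_
  apply mul_le_mul_of_nonneg_left _ (abs_nonneg _)
  apply pow_le_pow_right₀ (by linarith)
  exact Nat.pow_le_pow_right (by omega) (by omega)

end Pool.Agent.H592.PD
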