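import Pool.Agent.H592.PD.C3

/-!
# Riesz products: expansion and pairings over windows
-/

open MeasureTheory Filter Topology Set

namespace Pool.Agent.H592.PD

/-- the Riesz product -/
noncomputable def Rz (k : ℕ) (Q : Finset ℕ) (φ s r : ℝ) : ℝ := ∏ q : Q, (1 + s * Real.cos (fq k 1 q * r + φ))

noncomputable def wt (s : ℝ) (e : ℤ) : ℝ := if e = 0 then 1 else s / 2

noncomputable def Wt (s : ℝ) {Q : Finset ℕ} (p : Q → ℤ) : ℝ := ∏ q, wt s (p q)

/-- the exponents -/
def PQ (Q : Finset ℕ) : Finset (Q → ℤ) := Fintype.piFinset (fun _ => ({-1, 0, 1} : Finset ℤ))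

noncomputable def Om (k : ℕ) {Q : Finset ℕ} (p : Q → ℤ) : ℝ := ∑ q : Q, (p q : ℝ) * fq k 1 q

noncomputable def Sp {Q : Finset ℕ} (p : Q → ℤ) : ℝ := ∑ q : Q, (p q : ℝ)

lemma mem_PQ {Q : Finset ℕ} {p : Q → ℤ} (h : p ∈ PQ Q) (q : Q) : p q = -1 ∨ p q = 0 ∨ p q = 1 := by
  have := (Fintype.mem_piFinset.1 h) q
  simpa using this

lemma fq_rt (k m : ℕ) : fq k 1 m = 2 * Real.pi * k * rt k m := by
  unfold fq rt; ring

lemma Om_eq (k : ℕ) {Q : Finset ℕ} (p : Q → ℤ) : Om k p = 2 * Real.pi * k * Lc k p := by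
  unfold Om Lc
  rw [Finset.mul_sum]
  apply Finset.sum_congr rfl
  intro q _
  rw [fq_rt]; ring

lemma factor (s x : ℝ) : ((1 + s * Real.cos x : ℝ) : ℂ) = ∑ e ∈ ({-1, 0, 1} : Finset ℤ), (wt s e : ℂ) * Complex.exp (((e * x : ℝ) : ℂ) * Complex.I) := by
  rw [Finset.sum_insert (by decide), Finset.sum_insert (by decide), Finset.sum_singleton]
  have e1 : wt s (-1) = s / 2 := by unfold wt; rw [if_neg (by decide)]
  have e2 : wt s 0 = 1 := by unfold wt; rw [if_pos rfl]
  have e3 : wt s 1 = s / 2 := by unfold wt; rw [if_neg (by decide)]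
  rw [e1, e2, e3]
  push_cast
  rw [Complex.cos]
  have e4 : ((-1:ℂ) * x * Complex.I) = -(x:ℂ) * Complex.I := by ring
  have e5 : ((0:ℂ) * x * Complex.I) = 0 := by ring
  have e6 : ((1:ℂ) * x * Complex.I) = (x:ℂ) * Complex.I := by ring
  rw [e4, e5, e6, Complex.exp_zero]
  ring

lemma Rz_expand (k : ℕ) (Q : Finset ℕ) (φ s r : ℝ) : ((Rz k Q φ s r : ℝ) : ℂ) =
    ∑ p ∈ PQ Q, (Wt s p : ℂ) * Complex.exp (((Om k p * r + φ * Sp p : ℝ) : ℂ) * Complex.I) := by
  classical
  unfold Rz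
  rw [Complex.ofReal_prod]
  simp_rw [factor]
  rw [Finset.prod_univ_sum]
  apply Finset.sum_congr rfl
  intro p _
  rw [Finset.prod_mul_distrib, ← Complex.exp_sum]
  unfold Wt
  rw [Complex.ofReal_prod]
  congr 2
  rw [← Finset.sum_mul]
  congr 1
  rw [← Complex.ofReal_sum]
  congr 1
  unfold Om Sp
  rw [Finset.sum_mul, Finset.mul_sum, ← Finset.sum_add_distrib]
  apply Finset.sum_congr rfl
  intro q _
  ring

lemma Rz_nonneg (k : ℕ) (Q : Finset ℕ) (φ : ℝ) {s : ℝ} (hs : |s| ≤ 1) (r : ℝ) : 0 ≤ Rz k Q φ s r := by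
  unfold Rz
  apply Finset.prod_nonneg
  intro q _
  have h1 : |s * Real.cos (fq k 1 q * r + φ)| ≤ 1 := by
    rw [abs_mul]
    calc |s| * |Real.cos (fq k 1 q * r + φ)| ≤ 1 * 1 := by
          gcongr
          exact Real.abs_cos_le_one _
      _ = 1 := one_mul 1
  have := (abs_le.1 h1).1
  linarith

lemma Rz_cont (k : ℕ) (Q : Finset ℕ) (φ s : ℝ) : Continuous (Rz k Q φ s) := by
  unfold Rz
  fun_prop

lemma trm_mul_Rz (k : ℕ) (Q : Finset ℕ) (φ s : ℝ) (c : ℂ) (θ r : ℝ) : trm c θ r * Rz k Q φ s r =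
    ∑ p ∈ PQ Q, Wt s p * trm (c * Complex.exp (((φ * Sp p : ℝ) : ℂ) * Complex.I)) (θ + Om k p) r := by
  have h1 : trm c θ r * Rz k Q φ s r = ((c * Complex.exp (((θ * r : ℝ) : ℂ) * Complex.I)) * ((Rz k Q φ s r : ℝ) : ℂ)).re := by
    unfold trm
    rw [Complex.re_mul_ofReal]
  rw [h1, Rz_expand, Finset.mul_sum, Complex.re_sum]
  apply Finset.sum_congr rfl
  intro p _
  unfold trm
  rw [← Complex.re_ofReal_mul]
  congr 1
  have e : Complex.exp (((Om k p * r + φ * Sp p : ℝ) : ℂ) * Complex.I) * Complex.exp (((θ * r : ℝ) : ℂ) * Complex.I) =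
    Complex.exp (((φ * Sp p : ℝ) : ℂ) * Complex.I) * Complex.exp ((((θ + Om k p) * r : ℝ) : ℂ) * Complex.I) := by
    rw [← Complex.exp_add, ← Complex.exp_add]
    congr 1
    push_cast
    ring
  calc c * Complex.exp (((θ * r : ℝ) : ℂ) * Complex.I) * ((Wt s p : ℂ) * Complex.exp (((Om k p * r + φ * Sp p : ℝ) : ℂ) * Complex.I)) =
        (Wt s p : ℂ) * c * (Complex.exp (((Om k p * r + φ * Sp p : ℝ) : ℂ) * Complex.I) * Complex.exp (((θ * r : ℝ) : ℂ) * Complex.I)) := by ring
    _ = _ := by rw [e]; ring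

/-! ### integrals over windows -/

lemma int_trm_zero (c : ℂ) (R H : ℝ) : ∫ r in R..(R+H), trm c 0 r = H * c.re := by
  have : ∀ r, trm c 0 r = c.re := by intro r; unfold trm; simp
  simp_rw [this]
  rw [intervalIntegral.integral_const]
  simp

lemma int_trm (c : ℂ) {θ : ℝ} (hθ : θ ≠ 0) (R H : ℝ) : |∫ r in R..(R+H), trm c θ r| ≤ 2 * ‖c‖ / |θ| := by
  have h1 : ∀ r, trm c θ r = ‖c‖ * Real.cos (θ * r + c.arg) := fun r => trm_eq c θ r
  simp_rw [h1]
  have h2 : ∫ r in R..(R+H), ‖c‖ * Real.cos (θ * r + c.arg) = ‖c‖ * (Real.sin (θ * (R+H) + c.arg) - Real.sin (θ * R + c.arg)) / θ := by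
    rw [intervalIntegral.integral_const_mul, intervalIntegral.integral_comp_mul_add (fun x => Real.cos x) hθ, integral_cos, smul_eq_mul]
    field_simp
  rw [h2, abs_div, abs_mul, abs_of_nonneg (norm_nonneg c)]
  have h3 : |Real.sin (θ * (R+H) + c.arg) - Real.sin (θ * R + c.arg)| ≤ 2 := by
    refine (abs_sub _ _).trans ?_
    have := Real.abs_sin_le_one (θ * (R+H) + c.arg)
    have := Real.abs_sin_le_one (θ * R + c.arg)
    linarith
  have h4 : 0 < |θ| := abs_pos.2 hθ
  rw [div_le_div_iff_of_pos_right h4]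
  calc ‖c‖ * |Real.sin (θ * (R+H) + c.arg) - Real.sin (θ * R + c.arg)| ≤ ‖c‖ * 2 := by gcongr
    _ = _ := by ring

lemma sum_Wt {s : ℝ} (hs : |s| = 1) (Q : Finset ℕ) : ∑ p ∈ PQ Q, |Wt s p| = 2 ^ Q.card := by
  classical
  unfold PQ Wt
  have h1 : ∀ p : Q → ℤ, |∏ q, wt s (p q)| = ∏ q, |wt s (p q)| := fun p => Finset.abs_prod _ _
  simp_rw [h1]
  rw [← Finset.prod_univ_sum (fun _ : Q => ({-1, 0, 1} : Finset ℤ)) (fun _ e => |wt s e|)]
  have h2 : ∑ e ∈ ({-1, 0, 1} : Finset ℤ), |wt s e| = 2 := by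
    rw [Finset.sum_insert (by decide), Finset.sum_insert (by decide), Finset.sum_singleton]
    have e1 : wt s (-1) = s / 2 := by unfold wt; rw [if_neg (by decide)]
    have e2 : wt s 0 = 1 := by unfold wt; rw [if_pos rfl]
    have e3 : wt s 1 = s / 2 := by unfold wt; rw [if_neg (by decide)]
    rw [e1, e2, e3, abs_div, hs]
    norm_num
  rw [Finset.prod_congr rfl (fun _ _ => h2), Finset.prod_const]
  simp

/-- pairing of a term with the Riesz product -/
theorem pair_term {k : ℕ} (hk : 2 ≤ k) {Q G : Finset ℕ} (hQ : ∀ q ∈ Q, KF k q ∧ rt k q ∈ FG k G) {B : ℝ} (hB : 3 ≤ B)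
    (hBQ : 3 * ∑ q : Q, rt k q ≤ B) {s : ℝ} (hs : |s| = 1) (φ : ℝ) (c : ℂ) {m : ℕ} (hm : 1 ≤ m) (R H : ℝ) :
    |(∫ r in R..(R+H), trm c (fq k 1 m) r * Rz k Q φ s r) -
      (if m ∈ Q then H * (s / 2) * (c * Complex.exp (((-φ : ℝ) : ℂ) * Complex.I)).re else 0)| ≤ ‖c‖ * (2 ^ Q.card * B ^ (k ^ (G.card + 1))) := by
  classical
  have hk' : (2:ℝ) ≤ k := by exact_mod_cast hk
  have hpi := Real.pi_gt_three
  set N := k ^ (G.card + 1) with hN
  have hBN : 0 < B ^ N := by positivity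
  simp_rw [trm_mul_Rz]
  rw [intervalIntegral.integral_finsetSum (fun p _ => by
    apply Continuous.intervalIntegrable
    exact continuous_const.mul (AP_cont (AP_trm _ _)))]
  simp_rw [intervalIntegral.integral_const_mul]
  set T : (Q → ℤ) → ℝ := fun p => Wt s p * ∫ r in R..(R+H), trm (c * Complex.exp (((φ * Sp p : ℝ) : ℂ) * Complex.I)) (fq k 1 m + Om k p) r with hT
  set M : (Q → ℤ) → ℝ := fun p => if fq k 1 m + Om k p = 0 then T p else 0 with hM
  have hdiff : ∀ p ∈ PQ Q, |T p - M p| ≤ |Wt s p| * (‖c‖ * B ^ N) := by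
    intro p hp
    simp only [hM]
    split_ifs with h
    · rw [sub_self, abs_zero]; positivity
    · rw [sub_zero]
      simp only [hT]
      rw [abs_mul]
      apply mul_le_mul_of_nonneg_left _ (abs_nonneg _)
      refine (int_trm _ h R H).trans ?_
      rw [norm_mul, Complex.norm_exp_ofReal_mul_I, mul_one]
      have hne : rt k m + Lc k p ≠ 0 := by
        intro h0
        apply h
        rw [fq_rt, Om_eq, ← mul_add, h0, mul_zero]
      have hg := gap hk hQ hB hBQ p (mem_PQ hp) hm hne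
      rw [fq_rt, Om_eq, ← mul_add, abs_mul]
      have h1 : 6 ≤ |2 * Real.pi * k| := by
        rw [abs_of_pos (by positivity)]
        nlinarith
      have h2 : 0 < |rt k m + Lc k p| := abs_pos.2 hne
      rw [div_le_iff₀ (by positivity)]
      have h3 : 6 * 1 ≤ |2 * Real.pi * k| * (|rt k m + Lc k p| * B ^ N) := mul_le_mul h1 hg zero_le_one (by positivity)
      have h4 : 0 ≤ ‖c‖ := norm_nonneg c
      calc 2 * ‖c‖ ≤ ‖c‖ * (6 * 1) := by linarith
        _ ≤ ‖c‖ * (|2 * Real.pi * k| * (|rt k m + Lc k p| * B ^ N)) := mul_le_mul_of_nonneg_left h3 h4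
        _ = _ := by ring
  have hMsum : ∑ p ∈ PQ Q, M p = if m ∈ Q then H * (s / 2) * (c * Complex.exp (((-φ : ℝ) : ℂ) * Complex.I)).re else 0 := by
    have hzero : ∀ p ∈ PQ Q, fq k 1 m + Om k p = 0 → ∃ hmQ : m ∈ Q, ∀ q, p q = if q = ⟨m, hmQ⟩ then -1 else 0 := by
      intro p hp h
      apply Lc_m_zero hk (fun q hq => (hQ q hq).1) p (mem_PQ hp) hm
      rw [fq_rt, Om_eq, ← mul_add] at h
      rcases mul_eq_zero.1 h with h1 | h1
      · exfalso
        have : (0:ℝ) < 2 * Real.pi * k := by positivity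
        linarith
      · exact h1
    split_ifs with hmQ
    · set p₀ : Q → ℤ := fun q => if q = ⟨m, hmQ⟩ then -1 else 0 with hp₀
      have hmem : p₀ ∈ PQ Q := by
        unfold PQ
        rw [Fintype.mem_piFinset]
        intro q
        simp only [hp₀]
        split_ifs <;> simp
      have hOm : fq k 1 m + Om k p₀ = 0 := by
        unfold Om
        rw [Finset.sum_eq_single ⟨m, hmQ⟩]
        · simp [hp₀]
        · intro q _ hne
          simp [hp₀, hne]
        · intro h; exact absurd (Finset.mem_univ _) h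
      have hSp : Sp p₀ = -1 := by
        unfold Sp
        rw [Finset.sum_eq_single ⟨m, hmQ⟩]
        · simp [hp₀]
        · intro q _ hne
          simp [hp₀, hne]
        · intro h; exact absurd (Finset.mem_univ _) h
      have hWt : Wt s p₀ = s / 2 := by
        unfold Wt
        rw [Finset.prod_eq_single ⟨m, hmQ⟩]
        · simp [hp₀, wt]
        · intro q _ hne
          simp [hp₀, hne, wt]
        · intro h; exact absurd (Finset.mem_univ _) h
      rw [Finset.sum_eq_single p₀]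
      · simp only [hM]
        rw [if_pos hOm]
        simp only [hT]
        rw [hOm, int_trm_zero, hWt, hSp]
        have : φ * (-1) = -φ := by ring
        rw [this]
        ring
      · intro p hp hne
        simp only [hM]
        rw [if_neg]
        intro h
        obtain ⟨hmQ', hp'⟩ := hzero p hp h
        exact hne (funext hp')
      · intro h; exact absurd hmem h
    · apply Finset.sum_eq_zero
      intro p hp
      simp only [hM]
      rw [if_neg]
      intro h
      exact hmQ (hzero p hp h).1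
  rw [← hMsum, ← Finset.sum_sub_distrib]
  refine (Finset.abs_sum_le_sum_abs _ _).trans ((Finset.sum_le_sum hdiff).trans (le_of_eq ?_))
  rw [← Finset.sum_mul, sum_Wt hs]
  ring

/-- the mean of the Riesz product -/
theorem mean_Rz {k : ℕ} (hk : 2 ≤ k) {Q G : Finset ℕ} (hQ : ∀ q ∈ Q, KF k q ∧ rt k q ∈ FG k G) {B : ℝ} (hB : 3 ≤ B)
    (hBQ : 3 * ∑ q : Q, rt k q ≤ B) {s : ℝ} (hs : |s| = 1) (φ : ℝ) (R H : ℝ) :
    |(∫ r in R..(R+H), Rz k Q φ s r) - H| ≤ 2 ^ Q.card * B ^ (k ^ (G.card + 1)) := by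
  classical
  have hk' : (2:ℝ) ≤ k := by exact_mod_cast hk
  have hpi := Real.pi_gt_three
  set N := k ^ (G.card + 1) with hN
  have hBN : 0 < B ^ N := by positivity
  have e1 : ∀ r, Rz k Q φ s r = ∑ p ∈ PQ Q, Wt s p * trm (1 * Complex.exp (((φ * Sp p : ℝ) : ℂ) * Complex.I)) (0 + Om k p) r := by
    intro r
    rw [← trm_mul_Rz]
    have : trm 1 0 r = 1 := by unfold trm; simp
    rw [this, one_mul]
  simp_rw [e1]
  rw [intervalIntegral.integral_finsetSum (fun p _ => by
    apply Continuous.intervalIntegrable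
    exact continuous_const.mul (AP_cont (AP_trm _ _)))]
  simp_rw [intervalIntegral.integral_const_mul]
  set T : (Q → ℤ) → ℝ := fun p => Wt s p * ∫ r in R..(R+H), trm (1 * Complex.exp (((φ * Sp p : ℝ) : ℂ) * Complex.I)) (0 + Om k p) r with hT
  set M : (Q → ℤ) → ℝ := fun p => if 0 + Om k p = 0 then T p else 0 with hM
  have hdiff : ∀ p ∈ PQ Q, |T p - M p| ≤ |Wt s p| * (B ^ N) := by
    intro p hp
    simp only [hM]
    split_ifs with h
    · rw [sub_self, abs_zero]; positivity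
    · rw [sub_zero]
      simp only [hT]
      rw [abs_mul]
      apply mul_le_mul_of_nonneg_left _ (abs_nonneg _)
      refine (int_trm _ h R H).trans ?_
      rw [norm_mul, Complex.norm_exp_ofReal_mul_I, norm_one, mul_one]
      have hne : Lc k p ≠ 0 := by
        intro h0
        apply h
        rw [Om_eq, h0, mul_zero, add_zero]
      have hg := gap0 hk hQ hB hBQ p (mem_PQ hp) hne
      rw [zero_add, Om_eq, abs_mul]
      have h1 : 6 ≤ |2 * Real.pi * k| := by
        rw [abs_of_pos (by positivity)]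
        nlinarith
      have h2 : 0 < |Lc k p| := abs_pos.2 hne
      rw [div_le_iff₀ (by positivity)]
      have h3 : 6 * 1 ≤ |2 * Real.pi * k| * (|Lc k p| * B ^ N) := mul_le_mul h1 hg zero_le_one (by positivity)
      calc 2 * 1 ≤ (6 * 1 : ℝ) := by norm_num
        _ ≤ (|2 * Real.pi * k| * (|Lc k p| * B ^ N)) := h3
        _ = _ := by ring
  have hMsum : ∑ p ∈ PQ Q, M p = H := by
    have hzero : ∀ p ∈ PQ Q, 0 + Om k p = 0 → p = 0 := by
      intro p hp h
      rw [zero_add, Om_eq] at h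
      rcases mul_eq_zero.1 h with h1 | h1
      · exfalso
        have : (0:ℝ) < 2 * Real.pi * k := by positivity
        linarith
      · funext q
        exact Lc_zero hk (fun q hq => (hQ q hq).1) p h1 q
    have hmem : (0 : Q → ℤ) ∈ PQ Q := by
      unfold PQ
      rw [Fintype.mem_piFinset]
      intro q
      simp
    have hOm : 0 + Om k (0 : Q → ℤ) = 0 := by
      unfold Om; simp
    rw [Finset.sum_eq_single (0 : Q → ℤ)]
    · simp only [hM]
      rw [if_pos hOm]
      simp only [hT]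
      rw [hOm, int_trm_zero]
      have h1 : Sp (0 : Q → ℤ) = 0 := by unfold Sp; simp
      have h2 : Wt s (0 : Q → ℤ) = 1 := by unfold Wt wt; simp
      rw [h1, h2]
      simp
    · intro p hp hne
      simp only [hM]
      rw [if_neg]
      intro h
      exact hne (hzero p hp h)
    · intro h; exact absurd hmem h
  rw [← hMsum, ← Finset.sum_sub_distrib]
  refine (Finset.abs_sum_le_sum_abs _ _).trans ((Finset.sum_le_sum hdiff).trans (le_of_eq ?_))
  rw [← Finset.sum_mul, sum_Wt hs]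

end Pool.Agent.H592.PD
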