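import Pool.Agent.H592.PD.C4

/-!
# Large values in every window: the basic inequality
-/

open MeasureTheory Filter Topology Set
open Pool.Agent.H387R2.Vor Pool.Agent.H383.PZ
open Pool.Agent.H383.OM (norm_ex cf_le_one cf_le ex_cont ex_add cf_int)

namespace Pool.Agent.H592.PD

/-- pairing of a series with the Riesz product -/
theorem pair_ser {k : ℕ} (hk : 2 ≤ k) {Q G : Finset ℕ} (hQ : ∀ q ∈ Q, KF k q ∧ rt k q ∈ FG k G) {B : ℝ} (hB : 3 ≤ B)
    (hBQ : 3 * ∑ q : Q, rt k q ≤ B) {s : ℝ} (hs : |s| = 1) (φ : ℝ) {c : ℕ → ℂ} (hc : Summable fun m => ‖c m‖) (hc0 : c 0 = 0)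
    (R : ℝ) {H : ℝ} (hH : 0 ≤ H) :
    |(∫ r in R..(R+H), ser c (fq k 1) r * Rz k Q φ s r) -
      ∑ m ∈ Q, H * (s / 2) * (c m * Complex.exp (((-φ : ℝ) : ℂ) * Complex.I)).re| ≤ (∑' m, ‖c m‖) * (2 ^ Q.card * B ^ (k ^ (G.card + 1))) := by
  classical
  set E := 2 ^ Q.card * B ^ (k ^ (G.card + 1)) with hE
  have hE0 : 0 ≤ E := by positivity
  set I := ∫ r in R..(R+H), ser c (fq k 1) r * Rz k Q φ s r with hI
  set M := ∑ m ∈ Q, H * (s / 2) * (c m * Complex.exp (((-φ : ℝ) : ℂ) * Complex.I)).re with hM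
  -- a bound for the Riesz product on the window
  obtain ⟨C, hC⟩ := (isCompact_Icc (a := R) (b := R+H)).exists_bound_of_continuousOn (Rz_cont k Q φ s).continuousOn
  have hC0 : 0 ≤ C := (norm_nonneg _).trans (hC R ⟨le_rfl, by linarith⟩)
  set f : ℕ → ℝ := fun n => ∫ r in R..(R+H), (∑ m ∈ Finset.range n, trm (c m) (fq k 1 m) r) * Rz k Q φ s r with hf
  have hfI : Tendsto f atTop (𝓝 I) := by
    rw [tendsto_iff_dist_tendsto_zero]
    have ht := (tendsto_sum_nat_add (fun m => ‖c m‖)).mul_const (C * H)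
    rw [zero_mul] at ht
    apply squeeze_zero (fun n => dist_nonneg) _ ht
    intro n
    rw [Real.dist_eq, abs_sub_comm, hI, hf]
    have i1 : IntervalIntegrable (fun r => ser c (fq k 1) r * Rz k Q φ s r) volume R (R+H) :=
      ((AP_cont (ser_AP hc)).mul (Rz_cont k Q φ s)).intervalIntegrable _ _
    have i2 : IntervalIntegrable (fun r => (∑ m ∈ Finset.range n, trm (c m) (fq k 1 m) r) * Rz k Q φ s r) volume R (R+H) :=
      ((TP_cont (part_mem c (fq k 1) n)).1.mul (Rz_cont k Q φ s)).intervalIntegrable _ _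
    rw [← intervalIntegral.integral_sub i1 i2, ← Real.norm_eq_abs]
    have h1 := intervalIntegral.norm_integral_le_of_norm_le_const (a := R) (b := R+H)
      (f := fun r => ser c (fq k 1) r * Rz k Q φ s r - (∑ m ∈ Finset.range n, trm (c m) (fq k 1 m) r) * Rz k Q φ s r)
      (C := (∑' m, ‖c (m + n)‖) * C) (fun r hr => by
        rw [uIoc_of_le (by linarith)] at hr
        rw [← sub_mul, norm_mul]
        apply mul_le_mul _ (hC r ⟨hr.1.le, hr.2⟩) (norm_nonneg _) (tsum_nonneg (fun _ => norm_nonneg _))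
        rw [Real.norm_eq_abs]
        exact ser_close hc n r)
    refine h1.trans (le_of_eq ?_)
    rw [show |R + H - R| = H by rw [show R + H - R = H by ring]; exact abs_of_nonneg hH]
    ring
  have hfM : ∀ᶠ n in atTop, |f n - M| ≤ (∑' m, ‖c m‖) * E := by
    filter_upwards [eventually_ge_atTop (Q.sup id + 1)] with n hn
    have hsub : Q ⊆ Finset.range n := by
      intro q hq
      rw [Finset.mem_range]
      have : q ≤ Q.sup id := Finset.le_sup (f := id) hq
      omega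
    have h1 : f n = ∑ m ∈ Finset.range n, ∫ r in R..(R+H), trm (c m) (fq k 1 m) r * Rz k Q φ s r := by
      simp only [hf]
      simp_rw [Finset.sum_mul]
      rw [intervalIntegral.integral_finsetSum]
      intro m _
      exact ((AP_cont (AP_trm _ _)).mul (Rz_cont k Q φ s)).intervalIntegrable _ _
    have h2 : M = ∑ m ∈ Finset.range n, if m ∈ Q then H * (s / 2) * (c m * Complex.exp (((-φ : ℝ) : ℂ) * Complex.I)).re else 0 := by
      rw [hM, ← Finset.sum_filter]
      apply Finset.sum_congr _ (fun _ _ => rfl)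
      ext m
      simp only [Finset.mem_filter]
      exact ⟨fun h => ⟨hsub h, h⟩, fun h => h.2⟩
    rw [h1, h2, ← Finset.sum_sub_distrib]
    refine (Finset.abs_sum_le_sum_abs _ _).trans ?_
    have h3 : ∀ m ∈ Finset.range n, |(∫ r in R..(R+H), trm (c m) (fq k 1 m) r * Rz k Q φ s r) -
        (if m ∈ Q then H * (s / 2) * (c m * Complex.exp (((-φ : ℝ) : ℂ) * Complex.I)).re else 0)| ≤ ‖c m‖ * E := by
      intro m _
      rcases Nat.eq_zero_or_pos m with h0 | h0
      · subst h0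
        rw [hc0]
        simp [trm_zero]
      · exact pair_term hk hQ hB hBQ hs φ (c m) h0 R H
    refine (Finset.sum_le_sum h3).trans ?_
    rw [← Finset.sum_mul]
    exact mul_le_mul_of_nonneg_right (hc.sum_le_tsum _ (fun m _ => norm_nonneg _)) hE0
  exact le_of_tendsto ((hfI.sub_const M).abs) hfM

lemma cf_near {x : ℝ} (hx : 0 < x) (hx1 : 2 * Real.pi * x ≤ 1) : ‖cf x - 1‖ ≤ 2 * Real.pi * x := by
  have hpi := Real.pi_pos
  have h2 : 0 < 2 * Real.pi * x := by positivity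
  set z : ℂ := ((2 * Real.pi * x : ℝ) : ℂ) * Complex.I with hz
  have hzn : ‖z‖ = 2 * Real.pi * x := by
    rw [hz, norm_mul, Complex.norm_I, mul_one, Complex.norm_real, Real.norm_of_nonneg h2.le]
  have hz0 : z ≠ 0 := by
    rw [← norm_pos_iff, hzn]; exact h2
  have h3 := Complex.norm_exp_sub_one_sub_id_le (x := z) (by rw [hzn]; exact hx1)
  have e : cf x - 1 = (Complex.exp z - 1 - z) / z := by
    unfold cf ex
    rw [← hz]
    field_simp
  rw [e, norm_div, div_le_iff₀ (by rw [hzn]; exact h2), hzn]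
  rw [hzn] at h3
  nlinarith

lemma pow_near {z : ℂ} (hz : ‖z‖ ≤ 1) (n : ℕ) : ‖z ^ n - 1‖ ≤ n * ‖z - 1‖ := by
  induction n with
  | zero => simp
  | succ n ih =>
    have e : z ^ (n+1) - 1 = z * (z ^ n - 1) + (z - 1) := by ring
    rw [e]
    refine (norm_add_le _ _).trans ?_
    rw [norm_mul]
    have h1 : ‖z‖ * ‖z ^ n - 1‖ ≤ 1 * (n * ‖z - 1‖) := mul_le_mul hz ih (norm_nonneg _) zero_le_one
    push_cast
    linarith

/-- the phase -/
noncomputable def phk (k : ℕ) : ℝ := ((k:ℝ) - 3) * Real.pi / 4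

lemma cS_phase (k : ℕ) (δ : ℝ) (n m : ℕ) : cS k 1 0 δ n m * Complex.exp (((-phk k : ℝ) : ℂ) * Complex.I) =
    (ak k m : ℂ) * cf (k * rt k m * δ) ^ n := by
  unfold cS
  have h1 : ex (k * (m:ℝ) ^ (1 / (k:ℝ)) * 0) = 1 := by unfold ex; simp
  have h2 : ok k * Complex.exp (((-phk k : ℝ) : ℂ) * Complex.I) = 1 := by
    unfold ok phk
    rw [← Complex.exp_add]
    push_cast
    rw [show (((k:ℂ) - 3) * Real.pi / 4 * Complex.I + -(((k:ℂ) - 3) * Real.pi / 4) * Complex.I) = 0 by ring, Complex.exp_zero]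
  rw [h1, one_mul]
  unfold rt
  calc _ = (ak k m : ℂ) * (ok k * Complex.exp (((-phk k : ℝ) : ℂ) * Complex.I)) * cf (k * (m:ℝ) ^ (1 / (k:ℝ)) * δ) ^ n := by ring
    _ = _ := by rw [h2, mul_one]

lemma cS_norm_le {k : ℕ} (hk : 2 ≤ k) : ∃ C : ℝ, 0 < C ∧ ∀ (δ : ℝ) (n : ℕ), 0 < δ → k ≤ n →
    ∑' m, ‖cS k 1 0 δ n m‖ ≤ C * (1 / δ ^ k) := by
  have hs := summable_dk k (σ := 3/2) (by norm_num)
  refine ⟨∑' m : ℕ, dk k m * (m : ℝ) ^ (-(3/2) : ℝ) + 1, by
    have : 0 ≤ ∑' m : ℕ, dk k m * (m : ℝ) ^ (-(3/2) : ℝ) := tsum_nonneg (fun m => by have := dk_nonneg k m; positivity)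
    linarith, fun δ n hδ hn => ?_⟩
  have h1 : ∀ m, ‖cS k 1 0 δ n m‖ ≤ dk k m * (m : ℝ) ^ (-(3/2) : ℝ) * (1 / δ ^ k) := by
    intro m
    rw [norm_cS]
    rcases Nat.eq_zero_or_pos m with h0 | h0
    · subst h0; simp [ak_zero, dk_zero]
    · have hd := dk_nonneg k m
      have hk' : (2:ℝ) ≤ k := by exact_mod_cast hk
      have hm' : (1:ℝ) ≤ m := by exact_mod_cast h0
      have hm0 : (0:ℝ) < m := by linarith
      rw [one_mul]
      have h1 : ‖cf (k * (m : ℝ) ^ (1 / (k:ℝ)) * δ)‖ ^ n ≤ (m:ℝ) ^ (-1:ℝ) * (1 / δ ^ k) :=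
        (pow_le_pow_of_le_one (norm_nonneg _) (cf_le_one _) hn).trans (cf_pow_k hk hδ h0)
      calc ak k m * ‖cf (k * (m : ℝ) ^ (1 / (k:ℝ)) * δ)‖ ^ n ≤
          (dk k m * (m : ℝ) ^ (-(((k:ℝ) + 1) / (2 * k)) : ℝ)) * ((m:ℝ) ^ (-1:ℝ) * (1 / δ ^ k)) := by
            gcongr
            exact ak_le hk m
        _ = dk k m * ((m : ℝ) ^ (-(((k:ℝ) + 1) / (2 * k)) : ℝ) * (m:ℝ) ^ (-1:ℝ)) * (1 / δ ^ k) := by ring
        _ = dk k m * (m : ℝ) ^ (-(((k:ℝ) + 1) / (2 * k)) + -1 : ℝ) * (1 / δ ^ k) := by rw [← Real.rpow_add hm0]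
        _ ≤ _ := by
          have : (m : ℝ) ^ (-(((k:ℝ) + 1) / (2 * k)) + -1 : ℝ) ≤ (m : ℝ) ^ (-(3 / 2) : ℝ) := by
            apply Real.rpow_le_rpow_of_exponent_le hm'
            have : 1/2 ≤ ((k:ℝ) + 1) / (2 * k) := by
              rw [le_div_iff₀ (by positivity)]; linarith
            linarith
          gcongr
  have h2 := (cS_summable hk one_pos hδ hn (t := 0)).tsum_le_tsum h1 (hs.mul_right _)
  refine h2.trans ?_
  rw [tsum_mul_right]
  have : 0 < 1 / δ ^ k := by positivity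
  nlinarith

/-- **large values in windows**, general form -/
theorem window {k : ℕ} (hk : 2 ≤ k) {P : Polynomial ℝ} (hP : Vor k P) : ∃ C₁ : ℝ, 1 ≤ C₁ ∧ ∀ (G Q : Finset ℕ) (B : ℝ),
    (∀ q ∈ Q, KF k q ∧ rt k q ∈ FG k G) → 3 ≤ B → 3 * ∑ q : Q, rt k q ≤ B → Q.card ≤ k ^ (G.card + 1) →
    8 ≤ ∑ q ∈ Q, ak k q → ∀ R H : ℝ, C₁ * (2 * B) ^ (8 * k ^ (G.card + 1)) ≤ H → H ≤ R → ∀ s : ℝ, |s| = 1 →
      ∃ r : ℝ, R ≤ r ∧ r ≤ R + H ∧ (∑ q ∈ Q, ak k q) / 8 - 1 ≤ s * Fk k P r := by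
  obtain ⟨C, hC, hV⟩ := hP
  obtain ⟨C₂, hC₂, hcS⟩ := cS_norm_le hk
  have hk' : (2:ℝ) ≤ k := by exact_mod_cast hk
  have hpi := Real.pi_gt_three
  have hpi4 := Real.pi_le_four
  set n := 2 * k + 2 with hn
  have hn0 : (0:ℝ) < n := by exact_mod_cast (by omega : 0 < n)
  set A : ℝ := (16 * n * k) ^ k with hA
  have hA1 : 1 ≤ A := by
    apply one_le_pow₀
    have : (1:ℝ) ≤ n := by exact_mod_cast (by omega : 1 ≤ n)
    nlinarith
  refine ⟨(4 * C₂ * A + 4 * C * A + 4) ^ 4, by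
    apply one_le_pow₀
    have : 0 < 4 * C₂ * A := by positivity
    have : 0 < 4 * C * A := by positivity
    linarith, ?_⟩
  intro G Q B hQ hB hBQ hcard hS R H hH hHR s hs
  set N := k ^ (G.card + 1) with hN
  have hNk : k ≤ N := by
    rw [hN, pow_succ]
    exact Nat.le_mul_of_pos_left _ (pow_pos (by omega) _)
  have hN1 : 1 ≤ N := by omega
  have hB0 : 0 < B := by linarith
  set S := ∑ q ∈ Q, ak k q with hSd
  by_contra hcon
  push Not at hcon
  -- parameters
  set δ : ℝ := 1 / (16 * n * k * B) with hδ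
  have hδ0 : 0 < δ := by positivity
  have hn1 : (1:ℝ) ≤ n := by exact_mod_cast (by omega : 1 ≤ n)
  have h16 : 96 ≤ 16 * n * k * B := by
    have h1 : (16:ℝ) ≤ 16 * n := by linarith
    have h2 : (32:ℝ) ≤ 16 * n * k := by nlinarith
    nlinarith
  have hδ2 : δ ≤ 1/2 := by
    rw [hδ, div_le_div_iff₀ (by positivity) (by norm_num)]; linarith
  have hnδ : n * δ ≤ 1 := by
    rw [hδ, mul_one_div, div_le_one (by positivity)]
    have : (1:ℝ) ≤ 16 * k * B := by nlinarith
    nlinarith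
  have hδk : 1 / δ ^ k = A * B ^ k := by
    rw [hδ, hA, one_div_pow, one_div_one_div, ← mul_pow]
  -- the size of the window
  set D := 4 * C₂ * A + 4 * C * A + 4 with hD
  have hD4 : 4 ≤ D := by
    have : 0 < 4 * C₂ * A := by positivity
    have : 0 < 4 * C * A := by positivity
    linarith
  have h2B : (6:ℝ) ≤ 2 * B := by linarith
  set Y := (2 * B) ^ (2 * N) with hY
  have hY1 : 1 ≤ Y := one_le_pow₀ (by linarith)
  have hYY : (2 * B) ^ (8 * N) = Y ^ 4 := by rw [hY, ← pow_mul]; congr 1; ring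
  rw [hYY, ← mul_pow] at hH
  have hDY4 : 4 ≤ D * Y := by nlinarith
  have hDY : D * Y ≤ H := by
    refine le_trans ?_ hH
    calc D * Y = (D * Y) ^ 1 := (pow_one _).symm
      _ ≤ (D * Y) ^ 4 := pow_le_pow_right₀ (by linarith) (by norm_num)
  set H' := H - 1 with hH'
  have hH'1 : 1 ≤ H' := by linarith
  have hDY' : D * Y ≤ 4/3 * H' := by
    have : H ≤ 4/3 * H' := by rw [hH']; linarith
    linarith
  have hR1 : 1 ≤ R := by linarith
  -- the three error terms
  have hBk : B ^ k ≤ Y := by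
    calc B ^ k ≤ (2 * B) ^ k := by gcongr; linarith
      _ ≤ (2 * B) ^ (2 * N) := pow_le_pow_right₀ (by linarith) (by omega)
  set E := 2 ^ Q.card * B ^ N with hE
  have hE2 : E ≤ (2 * B) ^ N := by
    rw [mul_pow, hE]
    gcongr
    · norm_num
  have hEY : E * B ^ k ≤ Y := by
    calc E * B ^ k ≤ (2 * B) ^ N * (2 * B) ^ N := by
          apply mul_le_mul hE2 _ (by positivity) (by positivity)
          calc B ^ k ≤ (2 * B) ^ k := by gcongr; linarith
            _ ≤ (2 * B) ^ N := pow_le_pow_right₀ (by linarith) hNk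
      _ = Y := by rw [hY, ← pow_add]; congr 1; ring
  have hE0 : 0 ≤ E := by positivity
  have hEH : E ≤ H' := by
    have h1 : E ≤ Y := hE2.trans (pow_le_pow_right₀ (by linarith) (by omega))
    have h2 : 4 * Y ≤ D * Y := by gcongr
    linarith
  have hCe : C * (R ^ (-(1/4) : ℝ) * δ ^ (-(k:ℝ))) ≤ 1/4 := by
    have hR0 : 0 < R := by linarith
    rw [Real.rpow_neg hδ0.le, Real.rpow_natCast, ← one_div, hδk]
    have h1 : D * Y ≤ R ^ (1/4 : ℝ) := by
      have h2 : (D * Y) ^ 4 ≤ R := hH.trans hHR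
      calc D * Y = ((D * Y) ^ 4) ^ (1/4 : ℝ) := by
            rw [← Real.rpow_natCast, ← Real.rpow_mul (by positivity)]; norm_num
        _ ≤ R ^ (1/4 : ℝ) := Real.rpow_le_rpow (by positivity) h2 (by norm_num)
    rw [Real.rpow_neg hR0.le]
    have hR4 : 0 < R ^ (1/4 : ℝ) := by positivity
    have h3 : 4 * (C * A * B ^ k) ≤ R ^ (1/4 : ℝ) := by
      refine le_trans ?_ h1
      calc 4 * (C * A * B ^ k) = (4 * C * A) * B ^ k := by ring
        _ ≤ D * Y := by
          apply mul_le_mul _ hBk (by positivity) (by linarith)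
          have : 0 < 4 * C₂ * A := by positivity
          linarith
    calc C * ((R ^ (1/4 : ℝ))⁻¹ * (A * B ^ k)) = (C * A * B ^ k) / R ^ (1/4 : ℝ) := by field_simp
      _ ≤ 1/4 := by rw [div_le_div_iff₀ hR4 (by norm_num)]; linarith
  -- the coefficients
  set c : ℕ → ℂ := cS k 1 0 δ n with hc
  have hcs : Summable (fun m => ‖c m‖) := cS_summable hk one_pos hδ0 (by omega)
  have hc0 : c 0 = 0 := cS_zero _ _ _ _ _
  have hcsum : (∑' m, ‖c m‖) * E ≤ H' / 2 := by
    have h1 := hcS δ n hδ0 (by omega)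
    rw [hδk] at h1
    calc (∑' m, ‖c m‖) * E ≤ (C₂ * (A * B ^ k)) * E := mul_le_mul_of_nonneg_right h1 hE0
      _ = (C₂ * A) * (E * B ^ k) := by ring
      _ ≤ (C₂ * A) * Y := by gcongr
      _ ≤ (D / 4) * Y := by
        apply mul_le_mul_of_nonneg_right _ (by positivity)
        have : 0 < 4 * C * A := by positivity
        linarith
      _ ≤ H' / 2 := by linarith
  have hpair := pair_ser hk hQ hB hBQ hs (phk k) hcs hc0 R (H := H') (by linarith)
  have hmean := mean_Rz hk hQ hB hBQ hs (phk k) R H'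
  -- the main term
  have hre : ∀ q ∈ Q, ak k q / 2 ≤ (c q * Complex.exp (((-phk k : ℝ) : ℂ) * Complex.I)).re := by
    intro q hq
    rw [hc, cS_phase, Complex.re_ofReal_mul]
    have hq1 := (hQ q hq).1.1
    have hrt := rt_pos k hq1
    have hrtB : rt k q ≤ B / 3 := by
      have : rt k q ≤ ∑ q : Q, rt k q := Finset.single_le_sum (f := fun q : Q => rt k q) (fun _ _ => rt_nonneg _ _) (Finset.mem_univ (⟨q, hq⟩ : Q))
      linarith
    have hx0 : 0 < k * rt k q * δ := by positivity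
    have hx : n * (2 * Real.pi * (k * rt k q * δ)) ≤ 1/2 := by
      have h1 : n * (2 * Real.pi * (k * rt k q * δ)) = (2 * Real.pi * rt k q) / (16 * B) := by
        rw [hδ]; field_simp
      rw [h1, div_le_div_iff₀ (by positivity) (by norm_num)]
      nlinarith
    have hx1 : 2 * Real.pi * (k * rt k q * δ) ≤ 1 := by
      have h2 : 2 * Real.pi * (k * rt k q * δ) ≤ n * (2 * Real.pi * (k * rt k q * δ)) := by
        have : 0 ≤ 2 * Real.pi * (k * rt k q * δ) := by positivity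
        nlinarith
      linarith
    have h3 := (pow_near (cf_le_one (k * rt k q * δ)) n).trans (mul_le_mul_of_nonneg_left (cf_near hx0 hx1) hn0.le)
    have h4 := (Complex.abs_re_le_norm (cf (k * rt k q * δ) ^ n - 1)).trans h3
    rw [Complex.sub_re, Complex.one_re] at h4
    have h5 : 1/2 ≤ (cf (k * rt k q * δ) ^ n).re := by
      have := (abs_le.1 h4).1
      linarith
    have := ak_nonneg k q
    nlinarith
  have hmain : H' * S / 4 ≤ s * ∑ m ∈ Q, H' * (s / 2) * (c m * Complex.exp (((-phk k : ℝ) : ℂ) * Complex.I)).re := by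
    have hss : s * s = 1 := by rw [← abs_mul_abs_self, hs]; norm_num
    have h1 : s * ∑ m ∈ Q, H' * (s / 2) * (c m * Complex.exp (((-phk k : ℝ) : ℂ) * Complex.I)).re =
        (H' / 2) * ∑ m ∈ Q, (c m * Complex.exp (((-phk k : ℝ) : ℂ) * Complex.I)).re := by
      rw [Finset.mul_sum, Finset.mul_sum]
      apply Finset.sum_congr rfl
      intro m _
      linear_combination (H' / 2 * (c m * Complex.exp (((-phk k : ℝ) : ℂ) * Complex.I)).re) * hss
    rw [h1, hSd]
    have h2 : (∑ q ∈ Q, ak k q) / 2 ≤ ∑ m ∈ Q, (c m * Complex.exp (((-phk k : ℝ) : ℂ) * Complex.I)).re := by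
      rw [Finset.sum_div]
      exact Finset.sum_le_sum hre
    nlinarith
  -- the upper bound
  set V := S / 8 - 1 with hVd
  have hV0 : 0 ≤ V := by linarith
  have hser : ∀ r, R ≤ r → r ≤ R + H' → s * ser c (fq k 1) r ≤ V + 1/4 := by
    intro r hr1 hr2
    have hr0 : 1 ≤ r := by linarith
    have hprob := mu_prob hδ0 n
    have h1 := hV n r δ le_rfl hr0 hδ0 hδ2
    have e2 : ser c (fq k 1) r = ∑' m : ℕ, tk k δ n r m := by
      unfold ser
      congr 1
      funext m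
      have := tk_eq k 1 0 δ n m r
      rw [one_mul, one_mul, add_zero] at this
      rw [this]
    rw [← e2] at h1
    have hmonoR : r ^ (-(1/4) : ℝ) ≤ R ^ (-(1/4) : ℝ) := Real.rpow_le_rpow_of_nonpos (by linarith) hr1 (by norm_num)
    have h2 : C * (r ^ (-(1/4) : ℝ) * δ ^ (-(k:ℝ))) ≤ 1/4 := by
      refine le_trans ?_ hCe
      have : 0 ≤ δ ^ (-(k:ℝ)) := by positivity
      gcongr
    have h3 : |s * (∫ x, Fk k P (r + x) ∂(mu δ n)) - s * ser c (fq k 1) r| ≤ 1/4 := by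
      rw [← mul_sub, abs_mul, hs, one_mul]
      exact h1.trans h2
    have h4 : s * (∫ x, Fk k P (r + x) ∂(mu δ n)) ≤ V := by
      rw [← integral_const_mul]
      have h5 : ∫ x, s * Fk k P (r + x) ∂(mu δ n) ≤ ∫ _x, V ∂(mu δ n) := by
        apply integral_mono_ae ((Fk_int (by omega) P hδ0 n hr0).const_mul s) (integrable_const _)
        filter_upwards [mu_supp hδ0 n] with x hx
        have := hcon (r + x) (by linarith [hx.1]) (by linarith [hx.2])
        exact this.le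
      refine h5.trans (le_of_eq ?_)
      rw [integral_const]; simp
    have := (abs_le.1 h3).1
    linarith
  have hRz0 : ∀ r, 0 ≤ Rz k Q (phk k) s r := fun r => Rz_nonneg k Q (phk k) hs.le r
  have hup : s * (∫ r in R..(R+H'), ser c (fq k 1) r * Rz k Q (phk k) s r) ≤ (V + 1/4) * ∫ r in R..(R+H'), Rz k Q (phk k) s r := by
    rw [← intervalIntegral.integral_const_mul, ← intervalIntegral.integral_const_mul]
    apply intervalIntegral.integral_mono_on (by linarith)
    · exact ((continuous_const.mul ((AP_cont (ser_AP hcs)).mul (Rz_cont k Q (phk k) s)))).intervalIntegrable _ _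
    · exact (continuous_const.mul (Rz_cont k Q (phk k) s)).intervalIntegrable _ _
    · intro r hr
      rw [← mul_assoc]
      exact mul_le_mul_of_nonneg_right (hser r hr.1 hr.2) (hRz0 r)
  have hmean' : ∫ r in R..(R+H'), Rz k Q (phk k) s r ≤ 2 * H' := by
    have := (abs_le.1 hmean).2
    linarith
  have hlow : H' * S / 4 - H' / 2 ≤ s * (∫ r in R..(R+H'), ser c (fq k 1) r * Rz k Q (phk k) s r) := by
    have h1 : |s * (∫ r in R..(R+H'), ser c (fq k 1) r * Rz k Q (phk k) s r) -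
        s * ∑ m ∈ Q, H' * (s / 2) * (c m * Complex.exp (((-phk k : ℝ) : ℂ) * Complex.I)).re| ≤ H' / 2 := by
      rw [← mul_sub, abs_mul, hs, one_mul]
      exact hpair.trans hcsum
    have := (abs_le.1 h1).1
    linarith
  have h8 : (V + 1/4) * ∫ r in R..(R+H'), Rz k Q (phk k) s r ≤ (V + 1/4) * (2 * H') :=
    mul_le_mul_of_nonneg_left hmean' (by linarith)
  have h9 : H' * S / 4 - H' / 2 ≤ (V + 1/4) * (2 * H') := by linarith
  rw [hVd] at h9
  nlinarith

end Pool.Agent.H592.PD
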