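import Pool.Agent.H592.PD.C5

/-!
# Squarefree products of small primes
-/

open MeasureTheory Filter Topology Finset

namespace Pool.Agent.H592.PD

open Pool.Agent.H383.PZ

/-- squarefree products of primes up to `y` -/
def SQ (y : ℕ) : Finset ℕ := (Nat.primesLE y).powerset.image (fun t => ∏ p ∈ t, p)

lemma prm {y : ℕ} {t : Finset ℕ} (ht : t ∈ (Nat.primesLE y).powerset) : ∀ p ∈ t, p.Prime :=
  fun _ hp => Nat.prime_of_mem_primesLE (Finset.mem_powerset.1 ht hp)

lemma SQ_inj (y : ℕ) : Set.InjOn (fun t : Finset ℕ => ∏ p ∈ t, p) ((Nat.primesLE y).powerset : Finset (Finset ℕ)) := by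
  intro s hs t ht h
  have h1 := Nat.primeFactors_prod (prm (Finset.mem_coe.1 hs))
  have h2 := Nat.primeFactors_prod (prm (Finset.mem_coe.1 ht))
  simp only at h
  rw [← h1, ← h2, h]

lemma SQ_KF {k : ℕ} (hk : 2 ≤ k) {y q : ℕ} (hq : q ∈ SQ y) : KF k q := by
  obtain ⟨t, ht, rfl⟩ := Finset.mem_image.1 hq
  have hp := prm ht
  have hpos : 0 < ∏ p ∈ t, p := Finset.prod_pos (fun p hpt => (hp p hpt).pos)
  refine ⟨hpos, fun p hpp hdvd => ?_⟩
  have hsq : Squarefree (∏ p ∈ t, p) := by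
    refine Finset.squarefree_prod_of_pairwise_isCoprime (fun a ha b hb hab => ?_) (fun p hpt => (hp p hpt).squarefree)
    simp only [Function.onFun, ← Nat.coprime_iff_isRelPrime]
    exact (Nat.coprime_primes (hp a ha) (hp b hb)).2 hab
  have h2 : p * p ∣ ∏ p ∈ t, p := by
    rw [← pow_two]
    exact (pow_dvd_pow p hk).trans hdvd
  exact hpp.not_isUnit (hsq p h2)

lemma SQ_FG (k : ℕ) {y q : ℕ} (hq : q ∈ SQ y) : rt k q ∈ FG k (Nat.primesLE y) := by
  obtain ⟨t, ht, rfl⟩ := Finset.mem_image.1 hq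
  have ht' := Finset.mem_powerset.1 ht
  clear hq ht
  induction t using Finset.induction_on with
  | empty =>
    rw [Finset.prod_empty]
    have : rt k 1 = 1 := by unfold rt; simp
    rw [this]
    exact one_mem _
  | insert a s ha ih =>
    rw [Finset.prod_insert ha, rt_mul]
    exact mul_mem (mem_FG k (ht' (Finset.mem_insert_self a s))) (ih (fun x hx => ht' (Finset.mem_insert_of_mem hx)))

lemma SQ_card (y : ℕ) : (SQ y).card ≤ 2 ^ (Nat.primesLE y).card := by
  unfold SQ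
  refine Finset.card_image_le.trans ?_
  rw [Finset.card_powerset]

lemma SQ_le {y q : ℕ} (hq : q ∈ SQ y) : q ≤ 4 ^ y := by
  obtain ⟨t, ht, rfl⟩ := Finset.mem_image.1 hq
  have h1 : ∏ p ∈ t, p ≤ ∏ p ∈ Nat.primesLE y, p := by
    apply Nat.le_of_dvd
    · exact Finset.prod_pos (fun p hp => (Nat.prime_of_mem_primesLE hp).pos)
    · exact Finset.prod_dvd_prod_of_subset _ _ _ (Finset.mem_powerset.1 ht)
  refine h1.trans ?_
  have := primorial_le_four_pow y
  unfold primorial at this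
  rwa [← Nat.primesLE_eq_filter_range] at this

lemma rt_le {k : ℕ} (hk : 1 ≤ k) {n : ℕ} (hn : 1 ≤ n) : rt k n ≤ n := by
  unfold rt
  have h1 : (1:ℝ) ≤ n := by exact_mod_cast hn
  have h2 : (1:ℝ) / k ≤ 1 := by
    rw [div_le_one (by positivity)]
    exact_mod_cast hk
  calc (n:ℝ) ^ (1 / (k:ℝ)) ≤ (n:ℝ) ^ (1:ℝ) := Real.rpow_le_rpow_of_exponent_le h1 h2
    _ = n := Real.rpow_one _

lemma card_primesLE_le (y : ℕ) : (Nat.primesLE y).card ≤ y := by
  have h : Nat.primesLE y ⊆ Finset.Icc 1 y := by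
    intro p hp
    rw [Finset.mem_Icc]
    exact ⟨(Nat.prime_of_mem_primesLE hp).one_le, Nat.le_of_mem_primesLE hp⟩
  have := Finset.card_le_card h
  simpa using this

lemma SQ_sum {k : ℕ} (hk : 2 ≤ k) (y : ℕ) : 3 * ∑ q : SQ y, rt k q ≤ 3 * 8 ^ y := by
  have h1 : ∑ q : SQ y, rt k q ≤ ∑ _q : SQ y, (4:ℝ) ^ y := by
    apply Finset.sum_le_sum
    intro q _
    have h2 := rt_le (by omega : 1 ≤ k) (SQ_KF hk q.2).1
    have h3 := SQ_le q.2
    have h4 : ((q:ℕ):ℝ) ≤ (4:ℝ) ^ y := by exact_mod_cast h3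
    exact h2.trans h4
  rw [Finset.sum_const, Finset.card_univ, Fintype.card_coe, nsmul_eq_mul] at h1
  have h5 : ((SQ y).card : ℝ) ≤ 2 ^ y := by
    have : (SQ y).card ≤ 2 ^ y := (SQ_card y).trans (Nat.pow_le_pow_right (by norm_num) (card_primesLE_le y))
    exact_mod_cast this
  have h6 : (2:ℝ) ^ y * 4 ^ y = 8 ^ y := by rw [← mul_pow]; norm_num
  have h7 : ((SQ y).card : ℝ) * 4 ^ y ≤ 2 ^ y * 4 ^ y := mul_le_mul_of_nonneg_right h5 (by positivity)
  linarith

lemma dk_prime (k : ℕ) {p : ℕ} (hp : p.Prime) : dk k p = k := by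
  unfold dk
  have : (ArithmeticFunction.zeta ^ k : ArithmeticFunction ℕ) p = k := by
    induction k with
    | zero =>
      rw [pow_zero, ArithmeticFunction.one_apply_ne hp.one_lt.ne']
    | succ k ih =>
      rw [pow_succ, ArithmeticFunction.mul_zeta_apply, hp.sum_divisors, ih]
      have h1 : (ArithmeticFunction.zeta ^ k : ArithmeticFunction ℕ) 1 = 1 :=
        (ArithmeticFunction.isMultiplicative_zeta.pow).map_one
      rw [h1]
  rw [this]

lemma SQ_ak (k : ℕ) (y : ℕ) : ∑ q ∈ SQ y, ak k q =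
    (1 / (Real.pi * √(k:ℝ))) * ∏ p ∈ Nat.primesLE y, (1 + k * (p:ℝ) ^ (-(((k:ℝ) + 1) / (2 * k)))) := by
  unfold SQ
  rw [Finset.sum_image (SQ_inj y), Finset.prod_one_add, Finset.mul_sum]
  apply Finset.sum_congr rfl
  intro t ht
  have hp := prm ht
  have hmul : (ArithmeticFunction.zeta ^ k : ArithmeticFunction ℕ).IsMultiplicative :=
    ArithmeticFunction.isMultiplicative_zeta.pow
  have h1 : dk k (∏ p ∈ t, p) = ∏ p ∈ t, (k:ℝ) := by
    have : dk k (∏ p ∈ t, p) = ∏ p ∈ t, dk k p := by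
      unfold dk
      rw [hmul.map_prod_of_prime t hp]
      push_cast
      rfl
    rw [this]
    exact Finset.prod_congr rfl (fun p hpt => dk_prime k (hp p hpt))
  unfold ak
  rw [h1]
  push_cast
  rw [← Real.finsetProd_rpow t (fun p => (p:ℝ)) (fun p _ => Nat.cast_nonneg p), mul_comm, Finset.prod_mul_distrib]

end Pool.Agent.H592.PD
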