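import Pool.Agent.H592.PD.C6

/-!
# Extreme values of both signs in every window
-/

open MeasureTheory Filter Topology Finset

namespace Pool.Agent.H592.PD

open Pool.Agent.H383.PZ

lemma pi_bounds : ∀ᶠ n : ℕ in atTop, ((Nat.primesLE n).card : ℝ) ≤ 4 * n / Real.log n ∧ n / (2 * Real.log n) ≤ ((Nat.primesLE n).card : ℝ) := by
  have h1 : ∀ᶠ x : ℝ in atTop, Real.log x ≤ 1 * x ^ (1/2 : ℝ) := by
    have := (isLittleO_log_rpow_atTop (by norm_num : (0:ℝ) < 1/2)).bound (by norm_num : (0:ℝ) < 1)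
    filter_upwards [this, eventually_ge_atTop 1] with x hx hx1
    rwa [Real.norm_of_nonneg (Real.log_nonneg hx1), Real.norm_of_nonneg (by positivity)] at hx
  have h2 : ∀ᶠ x : ℝ in atTop, Real.log x ≤ (1/100) * x := by
    have := (Real.isLittleO_log_id_atTop).bound (by norm_num : (0:ℝ) < 1/100)
    filter_upwards [this, eventually_ge_atTop 1] with x hx hx1
    rwa [Real.norm_of_nonneg (Real.log_nonneg hx1), id, Real.norm_of_nonneg (by linarith)] at hx
  have hc : Tendsto (fun n : ℕ => (n:ℝ)) atTop atTop := tendsto_natCast_atTop_atTop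
  have hc1 : Tendsto (fun n : ℕ => (n:ℝ) + 1) atTop atTop := tendsto_atTop_add_const_right _ _ hc
  filter_upwards [hc.eventually h1, hc1.eventually h2, eventually_ge_atTop 10] with n hn1 hn2 hn3
  have hn : (10:ℝ) ≤ n := by exact_mod_cast hn3
  have hlog : 0 < Real.log n := Real.log_pos (by linarith)
  have hl2 := Real.log_two_lt_d9
  have hl2' := Real.log_two_gt_d9
  constructor
  · have h3 := Chebyshev.pi_le_log4_mul_div (x := (n:ℝ)) (by linarith)
    rw [Nat.floor_natCast, ← Nat.primesLE_card_eq_primeCounting] at h3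
    refine h3.trans ?_
    rw [Real.log_sqrt (by linarith), show (4:ℝ) = 2 ^ 2 by norm_num, Real.log_pow]
    have h4 : √(n:ℝ) ≤ n / Real.log n := by
      rw [le_div_iff₀ hlog]
      rw [one_mul, ← Real.sqrt_eq_rpow] at hn1
      calc √(n:ℝ) * Real.log n ≤ √(n:ℝ) * √(n:ℝ) := mul_le_mul_of_nonneg_left hn1 (Real.sqrt_nonneg _)
        _ = n := Real.mul_self_sqrt (by linarith)
    have h5 : ((2:ℕ):ℝ) * Real.log 2 * n / (Real.log n / 2) = (4 * Real.log 2) * (n / Real.log n) := by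
      push_cast
      field_simp
      ring
    rw [h5]
    have h6 : 0 ≤ n / Real.log n := by positivity
    have h7 : (2:ℝ) ^ 2 * n / Real.log n = 4 * (n / Real.log n) := by ring
    rw [h7]
    nlinarith
  · have h3 := Chebyshev.pi_ge n
    rw [← Nat.primesLE_card_eq_primeCounting] at h3
    refine le_trans ?_ h3
    rw [div_le_div_iff₀ (by positivity) hlog]
    have : n / 2 ≤ n * Real.log 2 - Real.log (n + 1) := by nlinarith
    nlinarith

lemma floor_bounds {c₁ : ℝ} (hc₁ : 0 < c₁) : ∀ᶠ z : ℝ in atTop, 1 ≤ Real.log z ∧ 1 ≤ z ∧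
    c₁ / 2 * (z * Real.log z) ≤ ⌊c₁ * (z * Real.log z)⌋₊ ∧ (⌊c₁ * (z * Real.log z)⌋₊ : ℝ) ≤ c₁ * (z * Real.log z) ∧
    Real.log z / 2 ≤ Real.log (⌊c₁ * (z * Real.log z)⌋₊ : ℝ) ∧ Real.log (⌊c₁ * (z * Real.log z)⌋₊ : ℝ) ≤ 2 * Real.log z ∧
    (⌊c₁ * (z * Real.log z)⌋₊ : ℝ) ≤ z ^ 2 := by
  have h0 := Real.tendsto_log_atTop.eventually_ge_atTop 1
  have h1 := (Real.isLittleO_log_id_atTop).bound (show (0:ℝ) < 1/(c₁+1) by positivity)
  have h2 : Tendsto (fun z : ℝ => c₁ / 2 * z) atTop atTop := tendsto_id.const_mul_atTop (by positivity)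
  filter_upwards [h0, h1, h2.eventually_ge_atTop 1, eventually_ge_atTop 1, eventually_ge_atTop (4/c₁^2)] with z hz1 hz2 hz3 hz4 hz5
  rw [Real.norm_of_nonneg (by linarith), id, Real.norm_of_nonneg (by linarith)] at hz2
  have hzl : z ≤ z * Real.log z := by nlinarith
  have hzl0 : 0 ≤ z * Real.log z := by nlinarith
  have ha : c₁ / 2 * (z * Real.log z) ≤ ⌊c₁ * (z * Real.log z)⌋₊ := by
    have h3 := Nat.lt_floor_add_one (c₁ * (z * Real.log z))
    have h4 : 1 ≤ c₁ / 2 * (z * Real.log z) := by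
      refine hz3.trans ?_
      gcongr
    linarith
  have hb : (⌊c₁ * (z * Real.log z)⌋₊ : ℝ) ≤ c₁ * (z * Real.log z) := Nat.floor_le (by positivity)
  have hsq : (⌊c₁ * (z * Real.log z)⌋₊ : ℝ) ≤ z ^ 2 := by
    refine hb.trans ?_
    have h5 : c₁ * Real.log z ≤ z := by
      have h6 : (c₁ + 1) * Real.log z ≤ z := by
        rw [one_div, inv_mul_eq_div, le_div_iff₀ (by positivity)] at hz2
        linarith
      nlinarith
    nlinarith
  have hpos : 0 < (⌊c₁ * (z * Real.log z)⌋₊ : ℝ) := by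
    refine lt_of_lt_of_le ?_ ha
    have : 0 < z * Real.log z := by nlinarith
    positivity
  refine ⟨hz1, hz4, ha, hb, ?_, ?_, hsq⟩
  · have h7 : Real.log z / 2 = Real.log (√z) := by rw [Real.log_sqrt (by linarith)]
    rw [h7]
    apply Real.log_le_log (by positivity)
    refine le_trans ?_ ha
    have h8 : √z ≤ c₁ / 2 * z := by
      rw [Real.sqrt_le_left (by positivity)]
      have : 4 ≤ c₁ ^ 2 * z := by
        rw [div_le_iff₀ (by positivity)] at hz5
        linarith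
      nlinarith
    refine h8.trans ?_
    gcongr
  · calc Real.log (⌊c₁ * (z * Real.log z)⌋₊ : ℝ) ≤ Real.log (z ^ 2) := Real.log_le_log hpos hsq
      _ = 2 * Real.log z := by rw [Real.log_pow]; norm_num

lemma exp_half_le {x : ℝ} (hx0 : 0 ≤ x) (hx1 : x ≤ 1) : Real.exp (x / 2) ≤ 1 + x := by
  have h1 := Real.abs_exp_sub_one_le (x := x/2) (by rw [abs_of_nonneg (by linarith)]; linarith)
  rw [abs_of_nonneg (by linarith : (0:ℝ) ≤ x/2)] at h1
  have := (abs_le.1 h1).2
  linarith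

lemma SQ_lower {k : ℕ} (hk : 2 ≤ k) {y : ℕ} (hy : 1 ≤ y) :
    (1 / (Real.pi * √(k:ℝ))) * Real.exp ((Nat.primesLE y).card * (y:ℝ) ^ (-(((k:ℝ) + 1) / (2 * k))) / 2) ≤ ∑ q ∈ SQ y, ak k q := by
  rw [SQ_ak]
  apply mul_le_mul_of_nonneg_left _ (by positivity)
  have hk' : (2:ℝ) ≤ k := by exact_mod_cast hk
  have h1 : Real.exp ((Nat.primesLE y).card * (y:ℝ) ^ (-(((k:ℝ) + 1) / (2 * k))) / 2) =
      ∏ _p ∈ Nat.primesLE y, Real.exp ((y:ℝ) ^ (-(((k:ℝ) + 1) / (2 * k))) / 2) := by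
    rw [Finset.prod_const, ← Real.exp_nat_mul]
    congr 1; ring
  rw [h1]
  apply Finset.prod_le_prod (fun _ _ => (Real.exp_pos _).le)
  intro p hp
  have hp1 : (1:ℝ) ≤ p := by exact_mod_cast (Nat.prime_of_mem_primesLE hp).one_le
  have hpy : (p:ℝ) ≤ y := by exact_mod_cast Nat.le_of_mem_primesLE hp
  have he : -(((k:ℝ) + 1) / (2 * k)) ≤ 0 := by
    rw [neg_nonpos]; positivity
  have h2 : (y:ℝ) ^ (-(((k:ℝ) + 1) / (2 * k))) ≤ (p:ℝ) ^ (-(((k:ℝ) + 1) / (2 * k))) :=
    Real.rpow_le_rpow_of_nonpos (by linarith) hpy he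
  have h3 : (p:ℝ) ^ (-(((k:ℝ) + 1) / (2 * k))) ≤ 1 := Real.rpow_le_one_of_one_le_of_nonpos hp1 he
  have h4 : 0 ≤ (y:ℝ) ^ (-(((k:ℝ) + 1) / (2 * k))) := by positivity
  refine (exp_half_le h4 (h2.trans h3)).trans ?_
  nlinarith

/-- **extreme values of both signs in every window** -/
theorem extremes {k : ℕ} (hk : 2 ≤ k) {P : Polynomial ℝ} (hP : Vor k P) : ∃ c H₀ : ℝ, 0 < c ∧ 0 < H₀ ∧ ∀ R H : ℝ, H₀ ≤ H → H ≤ R →
    ∀ s : ℝ, |s| = 1 → ∃ r : ℝ, R ≤ r ∧ r ≤ R + H ∧
      Real.exp (c * (Real.log (Real.log H)) ^ (((k:ℝ) - 1) / (2 * k)) * (Real.log (Real.log (Real.log H))) ^ (-(((k:ℝ) + 1) / (2 * k))))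
        ≤ s * Fk k P r := by
  obtain ⟨C₁, hC₁, hW⟩ := window hk hP
  have hk' : (2:ℝ) ≤ k := by exact_mod_cast hk
  have hlk : 0 < Real.log k := Real.log_pos (by linarith)
  set s₀ : ℝ := ((k:ℝ) + 1) / (2 * k) with hs₀
  set a₀ : ℝ := ((k:ℝ) - 1) / (2 * k) with ha₀
  have hs₀0 : 0 < s₀ := by rw [hs₀]; positivity
  have ha₀0 : 0 < a₀ := by rw [ha₀]; apply div_pos <;> linarith
  have has : a₀ + s₀ = 1 := by rw [hs₀, ha₀]; field_simp; ring
  set c₁ : ℝ := 1 / (32 * Real.log k) with hc₁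
  have hc₁0 : 0 < c₁ := by positivity
  set c₂ : ℝ := (c₁ / 2) ^ a₀ / 8 with hc₂
  have hc₂0 : 0 < c₂ := by positivity
  set A : ℝ := 8 * (Real.pi * √(k:ℝ)) with hA
  have hA1 : 1 ≤ A := by
    have h1 : 1 ≤ √(k:ℝ) := Real.one_le_sqrt.2 (by linarith)
    have h2 := Real.pi_gt_three
    rw [hA]
    nlinarith
  -- eventual facts
  have hfl : Tendsto (fun z : ℝ => ⌊c₁ * (z * Real.log z)⌋₊) atTop atTop := by
    apply tendsto_nat_floor_atTop.comp
    apply Tendsto.const_mul_atTop hc₁0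
    exact tendsto_id.atTop_mul_atTop₀ Real.tendsto_log_atTop
  have e1 := floor_bounds hc₁0
  have e2 := hfl.eventually pi_bounds
  have e3 : ∀ᶠ z : ℝ in atTop, Real.log C₁ + 8 * (k:ℝ) * Real.exp (z/4) * (3 + 3 * z ^ 2) ≤ Real.exp z := by
    have h1 : ∀ᶠ z : ℝ in atTop, Real.log C₁ ≤ Real.exp z / 2 := by
      have : Tendsto (fun z : ℝ => Real.exp z / 2) atTop atTop := Real.tendsto_exp_atTop.atTop_div_const (by norm_num)
      exact this.eventually_ge_atTop _
    have h2 : ∀ᶠ z : ℝ in atTop, z ^ 2 ≤ (1 / (48 * k)) * Real.exp ((1/2) * z) := by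
      have := (isLittleO_pow_exp_pos_mul_atTop 2 (by norm_num : (0:ℝ) < 1/2)).bound (show (0:ℝ) < 1 / (96 * k) by positivity)
      filter_upwards [this] with z hz
      rw [Real.norm_of_nonneg (by positivity), Real.norm_of_nonneg (Real.exp_pos _).le] at hz
      refine hz.trans ?_
      gcongr
      norm_num
    filter_upwards [h1, h2, eventually_ge_atTop 4] with z hz1 hz2 hz3
    have h3 : 3 + 3 * z ^ 2 ≤ (1 / (8 * k)) * Real.exp (1 / 2 * z) := by
      have h4 : 1 ≤ z ^ 2 := by nlinarith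
      have h5 : 3 + 3 * z ^ 2 ≤ 6 * z ^ 2 := by linarith
      have h6 : 6 * z ^ 2 ≤ 6 * ((1 / (48 * k)) * Real.exp ((1/2) * z)) := by linarith
      have h7 : 6 * ((1 / (48 * (k:ℝ))) * Real.exp ((1/2) * z)) = (1 / (8 * k)) * Real.exp (1 / 2 * z) := by
        field_simp; norm_num
      linarith
    have h8 : 2 * Real.exp (3/4 * z) ≤ Real.exp z := by
      have h9 : Real.exp z = Real.exp (1/4 * z) * Real.exp (3/4 * z) := by rw [← Real.exp_add]; congr 1; ring
      rw [h9]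
      apply mul_le_mul_of_nonneg_right _ (Real.exp_pos _).le
      have := Real.add_one_le_exp (1/4 * z)
      linarith
    have h10 : 8 * (k:ℝ) * Real.exp (z/4) * (3 + 3 * z ^ 2) ≤ Real.exp (3/4 * z) := by
      calc 8 * (k:ℝ) * Real.exp (z/4) * (3 + 3 * z ^ 2) ≤ 8 * (k:ℝ) * Real.exp (z/4) * ((1 / (8 * k)) * Real.exp (1 / 2 * z)) := by gcongr
        _ = Real.exp (z/4) * Real.exp (1 / 2 * z) := by field_simp
        _ = Real.exp (3/4 * z) := by rw [← Real.exp_add]; congr 1; ring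
    linarith
  have e4 : ∀ᶠ z : ℝ in atTop, 2 * (A + 1) / c₂ ≤ z ^ a₀ * (Real.log z) ^ (-s₀) := by
    have h1 := (isLittleO_log_rpow_rpow_atTop s₀ ha₀0).bound (show (0:ℝ) < (2 * (A + 1) / c₂)⁻¹ by positivity)
    filter_upwards [h1, eventually_ge_atTop 1, Real.tendsto_log_atTop.eventually_ge_atTop 1] with z hz hz1 hz2
    rw [Real.norm_of_nonneg (by positivity), Real.norm_of_nonneg (by positivity), inv_mul_eq_div, le_div_iff₀ (by positivity)] at hz
    rw [Real.rpow_neg (by linarith), ← div_eq_mul_inv, le_div_iff₀ (by positivity)]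
    linarith
  obtain ⟨z₀, hz₀⟩ := eventually_atTop.1 (e1.and (e2.and (e3.and e4)))
  refine ⟨c₂ / 2, Real.exp (Real.exp (max z₀ 4)), by positivity, Real.exp_pos _, ?_⟩
  intro R H hH hHR s hs
  have hH0 : 0 < H := lt_of_lt_of_le (Real.exp_pos _) hH
  have hL : Real.exp (max z₀ 4) ≤ Real.log H := by
    rw [Real.le_log_iff_exp_le hH0]; exact hH
  have hL0 : 0 < Real.log H := lt_of_lt_of_le (Real.exp_pos _) hL
  set z := Real.log (Real.log H) with hz
  have hzz : max z₀ 4 ≤ z := by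
    rw [hz, Real.le_log_iff_exp_le hL0]; exact hL
  have hexpz : Real.exp z = Real.log H := Real.exp_log hL0
  obtain ⟨⟨f1, f2, f3, f4, f5, f6, f7⟩, ⟨f8, f9⟩, f10, f11⟩ := hz₀ z ((le_max_left _ _).trans hzz)
  have hz4 : 4 ≤ z := (le_max_right _ _).trans hzz
  set y := ⌊c₁ * (z * Real.log z)⌋₊ with hy
  have hlogy : 0 < Real.log y := by linarith
  have hy1 : 1 < (y:ℝ) := by
    by_contra hcon
    rw [not_lt] at hcon
    have := Real.log_nonpos (Nat.cast_nonneg y) hcon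
    linarith
  have hy1' : 1 ≤ y := by
    have : (1:ℝ) < (y:ℝ) := hy1
    exact_mod_cast this.le
  set N := (Nat.primesLE y).card with hN
  -- the number of primes
  have hNz : N * Real.log k ≤ z / 4 := by
    have h1 : (N:ℝ) ≤ 8 * (c₁ * z) := by
      refine f8.trans ?_
      rw [div_le_iff₀ hlogy]
      have h2 : 0 ≤ c₁ * z := by positivity
      nlinarith
    calc N * Real.log k ≤ 8 * (c₁ * z) * Real.log k := mul_le_mul_of_nonneg_right h1 hlk.le
      _ = z / 4 := by rw [hc₁]; field_simp; norm_num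
  have hkN : (k:ℝ) ^ N ≤ Real.exp (z / 4) := by
    rw [← Real.exp_log (show (0:ℝ) < (k:ℝ) ^ N by positivity), Real.log_pow]
    exact Real.exp_le_exp.2 hNz
  -- the size of the window
  have hH1 : C₁ * (2 * (3 * 8 ^ y)) ^ (8 * k ^ ((Nat.primesLE y).card + 1)) ≤ H := by
    rw [← Real.log_le_log_iff (by positivity) hH0, Real.log_mul (by positivity) (by positivity), Real.log_pow,
      Real.log_mul (by norm_num) (by positivity), Real.log_mul (by norm_num) (by positivity), Real.log_pow, ← hexpz]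
    refine le_trans ?_ f10
    have hl2 : Real.log 2 ≤ 1 := by have := Real.log_two_lt_d9; linarith
    have hl3 : Real.log 3 ≤ 2 := by
      have := Real.log_le_sub_one_of_pos (show (0:ℝ) < 3 by norm_num)
      linarith
    have hl8 : Real.log 8 ≤ 3 := by
      rw [show (8:ℝ) = 2 ^ 3 by norm_num, Real.log_pow]
      push_cast
      linarith
    have h1 : Real.log 2 + (Real.log 3 + y * Real.log 8) ≤ 3 + 3 * z ^ 2 := by
      have : (y:ℝ) * Real.log 8 ≤ z ^ 2 * 3 := by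
        apply mul_le_mul f7 hl8 (Real.log_nonneg (by norm_num)) (by positivity)
      linarith
    have h2 : ((8 * k ^ ((Nat.primesLE y).card + 1) : ℕ) : ℝ) = 8 * k * (k:ℝ) ^ N := by
      push_cast; rw [← hN, pow_succ]; ring
    rw [h2]
    have h3 : 8 * k * (k:ℝ) ^ N * (Real.log 2 + (Real.log 3 + y * Real.log 8)) ≤ 8 * k * Real.exp (z/4) * (3 + 3 * z ^ 2) := by
      apply mul_le_mul _ h1 _ (by positivity)
      · exact mul_le_mul_of_nonneg_left hkN (by positivity)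
      · have := Real.log_nonneg (show (1:ℝ) ≤ 2 by norm_num)
        have := Real.log_nonneg (show (1:ℝ) ≤ 3 by norm_num)
        have := Real.log_nonneg (show (1:ℝ) ≤ 8 by norm_num)
        positivity
    linarith
  -- the size of the sum
  set W := z ^ a₀ * (Real.log z) ^ (-s₀) with hW'
  have hsum : (1 / (Real.pi * √(k:ℝ))) * Real.exp (c₂ * W) ≤ ∑ q ∈ SQ y, ak k q := by
    refine le_trans ?_ (SQ_lower hk hy1')
    apply mul_le_mul_of_nonneg_left _ (by positivity)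
    apply Real.exp_le_exp.2
    rw [← hN, ← hs₀]
    have h1 : c₂ * W ≤ (y:ℝ) / (2 * Real.log y) * (y:ℝ) ^ (-s₀) / 2 := by
      have h2 : (y:ℝ) / (2 * Real.log y) * (y:ℝ) ^ (-s₀) / 2 = (y:ℝ) ^ a₀ / (4 * Real.log y) := by
        have : (y:ℝ) ^ a₀ = y * (y:ℝ) ^ (-s₀) := by
          rw [show a₀ = 1 + (-s₀) by linarith, Real.rpow_add (by linarith), Real.rpow_one]
        rw [this]; field_simp; norm_num
      rw [h2]
      have h3 : (c₁ / 2 * (z * Real.log z)) ^ a₀ ≤ (y:ℝ) ^ a₀ := by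
        apply Real.rpow_le_rpow (by positivity) f3 ha₀0.le
      have h4 : (c₁ / 2 * (z * Real.log z)) ^ a₀ = 8 * (c₂ * W) * Real.log z := by
        rw [Real.mul_rpow (by positivity) (by positivity), Real.mul_rpow (by positivity) (by positivity), hc₂, hW']
        have : (Real.log z) ^ a₀ = (Real.log z) ^ (-s₀) * Real.log z := by
          rw [show a₀ = (-s₀) + 1 by linarith, Real.rpow_add (by linarith), Real.rpow_one]
        rw [this]; ring
      rw [h4] at h3
      have h5 : 0 ≤ c₂ * W := by positivity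
      rw [le_div_iff₀ (by positivity)]
      nlinarith
    refine h1.trans ?_
    have : 0 ≤ (y:ℝ) ^ (-s₀) := by positivity
    nlinarith
  have hX : A + 1 ≤ Real.exp (c₂ / 2 * W) := by
    have h1 : A + 1 ≤ c₂ / 2 * W := by
      rw [div_le_iff₀ hc₂0] at f11
      linarith
    have := Real.add_one_le_exp (c₂ / 2 * W)
    linarith
  set X := Real.exp (c₂ / 2 * W) with hXd
  have hXX : Real.exp (c₂ * W) = X * X := by rw [hXd, ← Real.exp_add]; congr 1; ring
  have hfin : X ≤ (∑ q ∈ SQ y, ak k q) / 8 - 1 := by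
    rw [hXX] at hsum
    have h1 : (1 / (Real.pi * √(k:ℝ))) * (X * X) = 8 * (X * X / A) := by
      rw [hA]; field_simp
    rw [h1] at hsum
    have h2 : X + 1 ≤ X * X / A := by
      rw [le_div_iff₀ (by linarith)]
      nlinarith
    linarith
  have hX0 : 0 < X := Real.exp_pos _
  obtain ⟨r, hr1, hr2, hr3⟩ := hW (Nat.primesLE y) (SQ y) (3 * 8 ^ y) (fun q hq => ⟨SQ_KF hk hq, SQ_FG k hq⟩)
    (by have : (1:ℝ) ≤ 8 ^ y := one_le_pow₀ (by norm_num)
        linarith) (SQ_sum hk y)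
    ((SQ_card y).trans ((Nat.pow_le_pow_left hk _).trans (Nat.pow_le_pow_right (by omega) (by omega))))
    (by linarith) R H hH1 hHR s hs
  refine ⟨r, hr1, hr2, ?_⟩
  refine le_trans ?_ hr3
  refine le_trans (le_of_eq ?_) hfin
  rw [hXd, hW']
  congr 1
  ring

end Pool.Agent.H592.PD
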