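import Pool.Agent.H592.PD.C7
import Pool.Agent.H592.PD.B6

/-!
# Extreme values in every window: final form
-/

open MeasureTheory Filter Topology Finset

namespace Pool.Agent.H592.PD

open Pool.Agent.H383.PZ Pool.Agent.H592.Piltz

theorem extremes_all {k : ℕ} (hk : 2 ≤ k) {P : Polynomial ℝ} (hP : IsMain k P) : ∃ c H₀ : ℝ, 0 < c ∧ 0 < H₀ ∧ ∀ R H : ℝ, 0 ≤ R → H₀ ≤ H →
    ∀ s : ℝ, |s| = 1 → ∃ r : ℝ, r ∈ Set.Icc R (R + H) ∧
      Real.exp (c * (Real.log (Real.log H)) ^ (((k:ℝ) - 1) / (2 * k)) / (Real.log (Real.log (Real.log H))) ^ (((k:ℝ) + 1) / (2 * k)))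
        ≤ s * E k P r := by
  obtain ⟨c, H₀, hc, hH₀, h⟩ := extremes hk (vor_of_main hk ((isMain_iff k P).1 hP))
  have hk' : (2:ℝ) ≤ k := by exact_mod_cast hk
  set a₀ : ℝ := ((k:ℝ) - 1) / (2 * k) with ha₀
  set s₀ : ℝ := ((k:ℝ) + 1) / (2 * k) with hs₀
  have ha₀0 : 0 ≤ a₀ := by rw [ha₀]; apply div_nonneg <;> linarith
  have hs₀0 : 0 ≤ s₀ := by rw [hs₀]; positivity
  refine ⟨c * (1/2) ^ a₀, max (2 * H₀) (Real.exp (Real.exp 6)), by positivity, by positivity, ?_⟩
  intro R H hR hH s hs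
  have hH1 : 2 * H₀ ≤ H := (le_max_left _ _).trans hH
  have hH2 : Real.exp (Real.exp 6) ≤ H := (le_max_right _ _).trans hH
  have hH0 : 0 < H := lt_of_lt_of_le (Real.exp_pos _) hH2
  obtain ⟨r, hr1, hr2, hr3⟩ := h (R + H / 2) (H / 2) (by linarith) (by linarith) s hs
  refine ⟨r, ⟨by linarith, by linarith⟩, ?_⟩
  rw [E_eq k P (show (0:ℝ) ≤ r by linarith)]
  refine le_trans ?_ hr3
  apply Real.exp_le_exp.2
  -- comparison of the iterated logarithms
  have hL : Real.exp 6 ≤ Real.log H := by rw [Real.le_log_iff_exp_le hH0]; exact hH2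
  have he6 : (7:ℝ) ≤ Real.exp 6 := by have := Real.add_one_le_exp (6:ℝ); linarith
  have hL0 : 0 < Real.log H := by linarith
  have hz : 6 ≤ Real.log (Real.log H) := by rw [Real.le_log_iff_exp_le hL0]; exact hL
  have hl2 : Real.log 2 ≤ 1 := by have := Real.log_two_lt_d9; linarith
  have hl2' : 0 ≤ Real.log 2 := Real.log_nonneg (by norm_num)
  have h1 : Real.log (H / 2) = Real.log H - Real.log 2 := Real.log_div (by positivity) (by norm_num)
  have h2 : Real.log H / 2 ≤ Real.log (H / 2) := by rw [h1]; linarith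
  have h3 : Real.log (H / 2) ≤ Real.log H := by rw [h1]; linarith
  have h4 : Real.log (Real.log H) - Real.log 2 ≤ Real.log (Real.log (H / 2)) := by
    rw [← Real.log_div (by positivity) (by norm_num)]
    exact Real.log_le_log (by positivity) h2
  have h5 : 1/2 * Real.log (Real.log H) ≤ Real.log (Real.log (H / 2)) := by linarith
  have h6 : Real.log (Real.log (H / 2)) ≤ Real.log (Real.log H) := Real.log_le_log (by linarith) h3
  set z := Real.log (Real.log H) with hzd
  set z' := Real.log (Real.log (H / 2)) with hzd'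
  have hz' : 3 ≤ z' := by linarith
  have hlz' : 0 < Real.log z' := Real.log_pos (by linarith)
  have hlz : Real.log z' ≤ Real.log z := Real.log_le_log (by linarith) h6
  rw [Real.rpow_neg (by linarith), ← div_eq_mul_inv]
  have h7 : c * (1/2) ^ a₀ * z ^ a₀ ≤ c * z' ^ a₀ := by
    rw [mul_assoc, ← Real.mul_rpow (by norm_num) (by linarith)]
    apply mul_le_mul_of_nonneg_left _ hc.le
    exact Real.rpow_le_rpow (by linarith) h5 ha₀0
  have h8 : (Real.log z') ^ s₀ ≤ (Real.log z) ^ s₀ := Real.rpow_le_rpow hlz'.le hlz hs₀0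
  have h9 : 0 < (Real.log z') ^ s₀ := by positivity
  have h10 : 0 ≤ c * z' ^ a₀ := by have : 0 ≤ z' := by linarith
                                   positivity
  exact div_le_div₀ h10 h7 h9 h8

end Pool.Agent.H592.PD
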