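import Pool.Agent.H592.PD.A5

/-!
# Almost periodic functions with spectrum in a group; independence
-/

open MeasureTheory Filter Topology Set

namespace Pool.Agent.H592.PD

/-- trigonometric polynomials with frequencies in `Γ` -/
def TG (Γ : AddSubgroup ℝ) : Submodule ℝ (ℝ → ℝ) :=
  Submodule.span ℝ {f | ∃ θ ∈ Γ, ∃ φ : ℝ, f = fun r : ℝ => Real.cos (θ * r + φ)}

/-- almost periodic functions with frequencies in `Γ` -/
def AG (Γ : AddSubgroup ℝ) (g : ℝ → ℝ) : Prop := ∀ ε : ℝ, 0 < ε → ∃ p ∈ TG Γ, ∀ r, |g r - p r| ≤ ε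

variable {Γ Γ₁ Γ₂ : AddSubgroup ℝ}

lemma TG_le_TP : TG Γ ≤ TP := by
  apply Submodule.span_le.2
  rintro f ⟨θ, -, φ, rfl⟩
  exact cos_mem θ φ

lemma AG.ap {g : ℝ → ℝ} (h : AG Γ g) : AP g := fun ε hε => by
  obtain ⟨p, hp, h1⟩ := h ε hε
  exact ⟨p, TG_le_TP hp, h1⟩

lemma TG_mono (h : Γ₁ ≤ Γ₂) : TG Γ₁ ≤ TG Γ₂ := by
  apply Submodule.span_mono
  rintro f ⟨θ, hθ, φ, rfl⟩
  exact ⟨θ, h hθ, φ, rfl⟩

lemma AG.mono (h : Γ₁ ≤ Γ₂) {g : ℝ → ℝ} (hg : AG Γ₁ g) : AG Γ₂ g := fun ε hε => by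
  obtain ⟨p, hp, h1⟩ := hg ε hε
  exact ⟨p, TG_mono h hp, h1⟩

lemma TG_cos {θ : ℝ} (hθ : θ ∈ Γ) (φ : ℝ) : (fun r : ℝ => Real.cos (θ * r + φ)) ∈ TG Γ :=
  Submodule.subset_span ⟨θ, hθ, φ, rfl⟩

lemma TG_const (c : ℝ) : (fun _ : ℝ => c) ∈ TG Γ := by
  have h := (TG Γ).smul_mem c (TG_cos Γ.zero_mem 0)
  convert h using 1
  funext r
  simp

lemma TG_mul {f g : ℝ → ℝ} (hf : f ∈ TG Γ) (hg : g ∈ TG Γ) : f * g ∈ TG Γ := by
  induction hf, hg using Submodule.span_induction₂ with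
  | mem_mem x y hx hy =>
    obtain ⟨a, ha, b, rfl⟩ := hx
    obtain ⟨c, hc, d, rfl⟩ := hy
    have h1 := (TG Γ).add_mem ((TG Γ).smul_mem (1/2) (TG_cos (Γ.add_mem ha hc) (b + d)))
      ((TG Γ).smul_mem (1/2) (TG_cos (Γ.sub_mem ha hc) (b - d)))
    convert h1 using 1
    funext r
    simp only [Pi.mul_apply, Pi.add_apply, Pi.smul_apply, smul_eq_mul]
    have e1 : (a + c) * r + (b + d) = (a * r + b) + (c * r + d) := by ring
    have e2 : (a - c) * r + (b - d) = (a * r + b) - (c * r + d) := by ring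
    rw [e1, e2, Real.cos_add (a * r + b) (c * r + d), Real.cos_sub (a * r + b) (c * r + d)]; ring
  | zero_left y hy => simp [(TG Γ).zero_mem]
  | zero_right x hx => simp [(TG Γ).zero_mem]
  | add_left x y z hx hy hz h1 h2 => rw [add_mul]; exact (TG Γ).add_mem h1 h2
  | add_right x y z hx hy hz h1 h2 => rw [mul_add]; exact (TG Γ).add_mem h1 h2
  | smul_left r x y hx hy h => rw [smul_mul_assoc]; exact (TG Γ).smul_mem _ h
  | smul_right r x y hx hy h => rw [mul_smul_comm]; exact (TG Γ).smul_mem _ h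

lemma AG_of_TG {g : ℝ → ℝ} (hg : g ∈ TG Γ) : AG Γ g := fun ε hε => ⟨g, hg, fun r => by simpa using hε.le⟩

lemma AG_const (c : ℝ) : AG Γ (fun _ => c) := AG_of_TG (TG_const c)

lemma AG_add {f g : ℝ → ℝ} (hf : AG Γ f) (hg : AG Γ g) : AG Γ (fun r => f r + g r) := by
  intro ε hε
  obtain ⟨p, hp, h1⟩ := hf (ε/2) (by positivity)
  obtain ⟨q, hq, h2⟩ := hg (ε/2) (by positivity)
  refine ⟨p + q, (TG Γ).add_mem hp hq, fun r => ?_⟩
  have e : f r + g r - (p + q) r = (f r - p r) + (g r - q r) := by simp; ring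
  rw [e]
  exact (abs_add_le _ _).trans (by linarith [h1 r, h2 r])

lemma AG_smul {f : ℝ → ℝ} (c : ℝ) (hf : AG Γ f) : AG Γ (fun r => c * f r) := by
  intro ε hε
  obtain ⟨p, hp, h1⟩ := hf (ε/(|c|+1)) (by positivity)
  refine ⟨c • p, (TG Γ).smul_mem c hp, fun r => ?_⟩
  have e : c * f r - (c • p) r = c * (f r - p r) := by simp; ring
  rw [e, abs_mul]
  calc |c| * |f r - p r| ≤ (|c| + 1) * (ε/(|c|+1)) := by
        apply mul_le_mul _ (h1 r) (abs_nonneg _) (by positivity)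
        linarith
    _ = ε := by field_simp

lemma AG_mul {f g : ℝ → ℝ} (hf : AG Γ f) (hg : AG Γ g) : AG Γ (fun r => f r * g r) := by
  intro ε hε
  obtain ⟨B, hB, hb⟩ := AP_bdd hf.ap
  obtain ⟨q, hq, h2⟩ := hg (ε/(2*B)) (by positivity)
  obtain ⟨-, B', hB', hb'⟩ := TP_cont (TG_le_TP hq)
  obtain ⟨p, hp, h1⟩ := hf (ε/(2*(B'+1))) (by positivity)
  refine ⟨p * q, TG_mul hp hq, fun r => ?_⟩
  have e : f r * g r - (p * q) r = f r * (g r - q r) + (f r - p r) * q r := by simp; ring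
  rw [e]
  refine (abs_add_le _ _).trans ?_
  rw [abs_mul, abs_mul]
  have i1 : |f r| * |g r - q r| ≤ B * (ε/(2*B)) := mul_le_mul (hb r) (h2 r) (abs_nonneg _) hB.le
  have i2 : |f r - p r| * |q r| ≤ (ε/(2*(B'+1))) * (B'+1) :=
    mul_le_mul (h1 r) ((hb' r).trans (by linarith)) (abs_nonneg _) (by positivity)
  have e1 : B * (ε/(2*B)) = ε/2 := by field_simp
  have e2 : (ε/(2*(B'+1))) * (B'+1) = ε/2 := by field_simp
  linarith

lemma AG_lim {f : ℝ → ℝ} (h : ∀ ε : ℝ, 0 < ε → ∃ g, AG Γ g ∧ ∀ r, |f r - g r| ≤ ε) : AG Γ f := by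
  intro ε hε
  obtain ⟨g, hg, h1⟩ := h (ε/2) (by positivity)
  obtain ⟨p, hp, h2⟩ := hg (ε/2) (by positivity)
  refine ⟨p, hp, fun r => ?_⟩
  have e : f r - p r = (f r - g r) + (g r - p r) := by ring
  rw [e]
  exact (abs_add_le _ _).trans (by linarith [h1 r, h2 r])

/-- the subalgebra of the continuous functions on an interval whose composition with `u` has spectrum in `Γ` -/
def Gsub {u : ℝ → ℝ} (_hu : AG Γ u) {B : ℝ} (hB : ∀ r, u r ∈ Icc (-B) B) : Subalgebra ℝ C(Icc (-B) B, ℝ) where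
  carrier := {h | AG Γ (fun r => h ⟨u r, hB r⟩)}
  mul_mem' := fun ha hb => AG_mul ha hb
  add_mem' := fun ha hb => AG_add ha hb
  algebraMap_mem' := fun c => AG_const c

theorem AG_comp {u : ℝ → ℝ} (hu : AG Γ u) {f : ℝ → ℝ} (hf : Continuous f) : AG Γ (fun r => f (u r)) := by
  obtain ⟨B, hB0, hB'⟩ := AP_bdd hu.ap
  have hB : ∀ r, u r ∈ Icc (-B) B := fun r => abs_le.1 (hB' r)
  set A := Gsub hu hB with hA
  have hsep : A.SeparatesPoints := by
    intro x y hxy
    have hne : (x : ℝ) ≠ y := fun h => hxy (Subtype.ext h)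
    refine ⟨_, ⟨⟨fun z : Icc (-B) B => (z : ℝ), continuous_subtype_val⟩, ?_, rfl⟩, hne⟩
    change AG Γ (fun r => u r)
    exact hu
  have htop := ContinuousMap.subalgebra_topologicalClosure_eq_top_of_separatesPoints A hsep
  set g : C(Icc (-B) B, ℝ) := ⟨fun z => f z, by fun_prop⟩ with hg
  have hmem : g ∈ A.topologicalClosure := by rw [htop]; trivial
  have hmem' : g ∈ closure (A : Set C(Icc (-B) B, ℝ)) := hmem
  apply AG_lim
  intro ε hε
  obtain ⟨h, hhA, hh⟩ := Metric.mem_closure_iff.1 hmem' ε hε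
  refine ⟨fun r => h ⟨u r, hB r⟩, hhA, fun r => ?_⟩
  have h1 := ContinuousMap.dist_apply_le_dist (f := g) (g := h) ⟨u r, hB r⟩
  rw [Real.dist_eq] at h1
  exact h1.trans hh.le

lemma Mn_cos {θ : ℝ} (hθ : θ ≠ 0) (φ : ℝ) : Mn (fun r => Real.cos (θ * r + φ)) = 0 := Mn_eq (WM_cos hθ φ)

lemma Mn_close {f g : ℝ → ℝ} (hf : AP f) (hg : AP g) {ε : ℝ} (h : ∀ r, |f r - g r| ≤ ε) : |Mn f - Mn g| ≤ ε := by
  rw [abs_le]
  constructor
  · have h1 := Mn_mono hg (AP_add hf (AP_const ε)) (fun r => by have := (abs_le.1 (h r)).1; linarith)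
    rw [Mn_add hf (AP_const ε), Mn_const] at h1
    linarith
  · have h1 := Mn_mono hf (AP_add hg (AP_const ε)) (fun r => by have := (abs_le.1 (h r)).2; linarith)
    rw [Mn_add hg (AP_const ε), Mn_const] at h1
    linarith

lemma TG_indep (hΓ : Γ₁ ⊓ Γ₂ = ⊥) {f g : ℝ → ℝ} (hf : f ∈ TG Γ₁) (hg : g ∈ TG Γ₂) :
    Mn (fun r => f r * g r) = Mn f * Mn g := by
  have hAf : ∀ {f}, f ∈ TG Γ₁ → AP f := fun h => AP_of_TP (TG_le_TP h)
  have hAg : ∀ {f}, f ∈ TG Γ₂ → AP f := fun h => AP_of_TP (TG_le_TP h)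
  have hz : Mn (fun _ : ℝ => (0:ℝ)) = 0 := Mn_const 0
  induction hf, hg using Submodule.span_induction₂ with
  | mem_mem x y hx hy =>
    obtain ⟨a, ha, b, rfl⟩ := hx
    obtain ⟨c, hc, d, rfl⟩ := hy
    by_cases ha0 : a = 0
    · subst ha0
      have e1 : (fun r : ℝ => Real.cos (0 * r + b) * Real.cos (c * r + d)) = fun r => Real.cos b * Real.cos (c * r + d) := by
        funext r; simp
      have e2 : (fun r : ℝ => Real.cos (0 * r + b)) = fun _ => Real.cos b := by funext r; simp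
      rw [e1, e2, Mn_smul _ (AP_of_TP (cos_mem c d)), Mn_const]
    by_cases hc0 : c = 0
    · subst hc0
      have e1 : (fun r : ℝ => Real.cos (a * r + b) * Real.cos (0 * r + d)) = fun r => Real.cos d * Real.cos (a * r + b) := by
        funext r; simp; ring
      have e2 : (fun r : ℝ => Real.cos (0 * r + d)) = fun _ => Real.cos d := by funext r; simp
      rw [e1, e2, Mn_smul _ (AP_of_TP (cos_mem a b)), Mn_const]; ring
    have h1 : a + c ≠ 0 := by
      intro h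
      have : a ∈ Γ₁ ⊓ Γ₂ := ⟨ha, by rw [show a = -c by linarith]; exact Γ₂.neg_mem hc⟩
      rw [hΓ] at this
      exact ha0 (by simpa using this)
    have h2 : a - c ≠ 0 := by
      intro h
      have : a ∈ Γ₁ ⊓ Γ₂ := ⟨ha, by rw [show a = c by linarith]; exact hc⟩
      rw [hΓ] at this
      exact ha0 (by simpa using this)
    have e : (fun r : ℝ => Real.cos (a * r + b) * Real.cos (c * r + d)) =
        fun r => (1/2) * Real.cos ((a + c) * r + (b + d)) + (1/2) * Real.cos ((a - c) * r + (b - d)) := by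
      funext r
      have e1 : (a + c) * r + (b + d) = (a * r + b) + (c * r + d) := by ring
      have e2 : (a - c) * r + (b - d) = (a * r + b) - (c * r + d) := by ring
      rw [e1, e2, Real.cos_add (a * r + b) (c * r + d), Real.cos_sub (a * r + b) (c * r + d)]; ring
    have p1 := AP_of_TP (cos_mem (a + c) (b + d))
    have p2 := AP_of_TP (cos_mem (a - c) (b - d))
    rw [e, Mn_add (AP_smul _ p1) (AP_smul _ p2), Mn_smul _ p1, Mn_smul _ p2, Mn_cos h1, Mn_cos h2, Mn_cos ha0]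
    ring
  | zero_left y hy => simp [hz]; left; exact hz
  | zero_right x hx => simp [hz]; right; exact hz
  | add_left x y z hx hy hz h1 h2 =>
    have e1 : (fun r => (x + y) r * z r) = fun r => x r * z r + y r * z r := by funext r; simp; ring
    have e2 : Mn (x + y) = Mn x + Mn y := Mn_add (hAf hx) (hAf hy)
    rw [e1, Mn_add (AP_mul (hAf hx) (hAg hz)) (AP_mul (hAf hy) (hAg hz)), h1, h2, e2]
    ring
  | add_right x y z hx hy hz h1 h2 =>
    have e1 : (fun r => x r * (y + z) r) = fun r => x r * y r + x r * z r := by funext r; simp; ring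
    have e2 : Mn (y + z) = Mn y + Mn z := Mn_add (hAg hy) (hAg hz)
    rw [e1, Mn_add (AP_mul (hAf hx) (hAg hy)) (AP_mul (hAf hx) (hAg hz)), h1, h2, e2]
    ring
  | smul_left c x y hx hy h =>
    have e1 : (fun r => (c • x) r * y r) = fun r => c * (x r * y r) := by funext r; simp; ring
    have e2 : Mn (c • x) = c * Mn x := Mn_smul c (hAf hx)
    rw [e1, Mn_smul _ (AP_mul (hAf hx) (hAg hy)), h, e2]; ring
  | smul_right c x y hx hy h =>
    have e1 : (fun r => x r * (c • y) r) = fun r => c * (x r * y r) := by funext r; simp; ring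
    have e2 : Mn (c • y) = c * Mn y := Mn_smul c (hAg hy)
    rw [e1, Mn_smul _ (AP_mul (hAf hx) (hAg hy)), h, e2]; ring

/-- **independence** of almost periodic functions with independent spectra -/
theorem AG_indep (hΓ : Γ₁ ⊓ Γ₂ = ⊥) {f g : ℝ → ℝ} (hf : AG Γ₁ f) (hg : AG Γ₂ g) :
    Mn (fun r => f r * g r) = Mn f * Mn g := by
  obtain ⟨B, hB, hb⟩ := AP_bdd hf.ap
  obtain ⟨B', hB', hb'⟩ := AP_bdd hg.ap
  have key : ∀ ε : ℝ, 0 < ε → ε ≤ 1 → |Mn (fun r => f r * g r) - Mn f * Mn g| ≤ (2 * B + 2 * B' + 2) * ε := by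
    intro ε hε hε1
    obtain ⟨p, hp, h1⟩ := hf ε hε
    obtain ⟨q, hq, h2⟩ := hg ε hε
    have ap := AP_of_TP (TG_le_TP hp)
    have aq := AP_of_TP (TG_le_TP hq)
    have hqb : ∀ r, |q r| ≤ B' + 1 := by
      intro r
      have := abs_add_le (g r) (q r - g r)
      rw [abs_sub_comm] at this
      have e : g r + (q r - g r) = q r := by ring
      rw [e] at this
      linarith [h2 r, hb' r]
    have e1 : |Mn (fun r => f r * g r) - Mn (fun r => p r * q r)| ≤ (B + B' + 1) * ε := by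
      apply Mn_close (AP_mul hf.ap hg.ap) (AP_mul ap aq)
      intro r
      have e : f r * g r - p r * q r = f r * (g r - q r) + (f r - p r) * q r := by ring
      rw [e]
      refine (abs_add_le _ _).trans ?_
      rw [abs_mul, abs_mul]
      have i1 : |f r| * |g r - q r| ≤ B * ε := mul_le_mul (hb r) (h2 r) (abs_nonneg _) hB.le
      have i2 : |f r - p r| * |q r| ≤ ε * (B' + 1) := mul_le_mul (h1 r) (hqb r) (abs_nonneg _) hε.le
      linarith
    have e2 := Mn_close hf.ap ap h1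
    have e3 := Mn_close hg.ap aq h2
    have e4 : |Mn f| ≤ B := by
      have := Mn_close hf.ap (AP_const 0) (ε := B) (fun r => by rw [sub_zero]; exact hb r)
      rwa [Mn_const, sub_zero] at this
    have e5 : |Mn q| ≤ B' + 1 := by
      have := Mn_close aq (AP_const 0) (ε := B' + 1) (fun r => by rw [sub_zero]; exact hqb r)
      rwa [Mn_const, sub_zero] at this
    have e6 := TG_indep hΓ hp hq
    have e7 : Mn (fun r => f r * g r) - Mn f * Mn g = (Mn (fun r => f r * g r) - Mn (fun r => p r * q r)) -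
        Mn f * (Mn g - Mn q) - (Mn f - Mn p) * Mn q := by rw [e6]; ring
    rw [e7]
    have i1 : |Mn f * (Mn g - Mn q)| ≤ B * ε := by rw [abs_mul]; exact mul_le_mul e4 e3 (abs_nonneg _) hB.le
    have i2 : |(Mn f - Mn p) * Mn q| ≤ ε * (B' + 1) := by rw [abs_mul]; exact mul_le_mul e2 e5 (abs_nonneg _) hε.le
    have := abs_sub (Mn (fun r => f r * g r) - Mn (fun r => p r * q r) - Mn f * (Mn g - Mn q)) ((Mn f - Mn p) * Mn q)
    have := abs_sub (Mn (fun r => f r * g r) - Mn (fun r => p r * q r)) (Mn f * (Mn g - Mn q))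
    linarith
  by_contra hne
  have hpos : 0 < |Mn (fun r => f r * g r) - Mn f * Mn g| := abs_pos.2 (sub_ne_zero.2 hne)
  set x := |Mn (fun r => f r * g r) - Mn f * Mn g| with hx
  have hK : 0 < 2 * B + 2 * B' + 2 := by positivity
  have h1 := key (min 1 (x / (2 * (2 * B + 2 * B' + 2)))) (by positivity) (min_le_left _ _)
  have h2 : (2 * B + 2 * B' + 2) * min 1 (x / (2 * (2 * B + 2 * B' + 2))) ≤ (2 * B + 2 * B' + 2) * (x / (2 * (2 * B + 2 * B' + 2))) :=
    mul_le_mul_of_nonneg_left (min_le_right _ _) hK.le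
  have h3 : (2 * B + 2 * B' + 2) * (x / (2 * (2 * B + 2 * B' + 2))) = x / 2 := by field_simp
  linarith

end Pool.Agent.H592.PD
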