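import Pool.Agent.H592.PD.E9

/-!
# Crossings in windows
-/

open MeasureTheory Filter Topology Finset
open Pool.Agent.H383.PZ Pool.Agent.H592.Piltz

namespace Pool.Agent.H592.PD

lemma pt_ge {f : ℝ → ℝ} {δ : ℝ} (hδ : 0 < δ) {n : ℕ} (hi : Integrable f (mu δ n)) {a : ℝ} (h : a < ∫ x, f x ∂(mu δ n)) :
    ∃ x, 0 ≤ x ∧ x ≤ n * δ ∧ a ≤ f x := by
  by_contra hcon
  push Not at hcon
  have := mu_prob hδ n
  have h1 : ∫ x, f x ∂(mu δ n) ≤ ∫ _x, a ∂(mu δ n) := by
    apply integral_mono_ae hi (integrable_const _)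
    filter_upwards [mu_supp hδ n] with x hx
    exact (hcon x hx.1 hx.2).le
  rw [integral_const] at h1
  simp at h1
  linarith

lemma pt_le {f : ℝ → ℝ} {δ : ℝ} (hδ : 0 < δ) {n : ℕ} (hi : Integrable f (mu δ n)) {a : ℝ} (h : ∫ x, f x ∂(mu δ n) < a) :
    ∃ x, 0 ≤ x ∧ x ≤ n * δ ∧ f x ≤ a := by
  obtain ⟨x, h1, h2, h3⟩ := pt_ge hδ (f := fun x => -f x) hi.neg (a := -a) (by rw [integral_neg]; linarith)
  exact ⟨x, h1, h2, by simpa using h3⟩

/-- pigeonhole over a grid -/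
lemma grid {G : ℝ → ℝ} (hG : Measurable G) (h0 : ∀ r, 0 ≤ G r) (h1 : ∀ r, G r ≤ 1) {Y w : ℝ} (hw : 0 < w) {M : ℕ} {A : ℝ}
    (hint : A * w < ∫ r in Y..(Y + w * M), G r) :
    ∃ τ, 0 ≤ τ ∧ τ ≤ w ∧ A ≤ (((Finset.range M).filter (fun j : ℕ => 0 < G (Y + w * j + τ))).card : ℝ) := by
  classical
  by_contra hcon
  push Not at hcon
  have hb : ∀ s, |G s| ≤ 1 := fun s => by rw [abs_of_nonneg (h0 s)]; exact h1 s
  have e1 : ∑ j ∈ Finset.range M, ∫ r in (Y + w * j)..(Y + w * ((j+1 : ℕ) : ℝ)), G r = ∫ r in Y..(Y + w * M), G r := by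
    have := intervalIntegral.sum_integral_adjacent_intervals (f := G) (μ := volume) (a := fun j : ℕ => Y + w * (j:ℝ)) (n := M)
      (fun j _ => G_ii hG (B := 1) (by
        push_cast
        nlinarith) (fun s _ _ => hb s))
    simpa using this
  have e2 : ∀ j : ℕ, ∫ r in (Y + w * j)..(Y + w * ((j+1 : ℕ) : ℝ)), G r = ∫ τ in (0:ℝ)..w, G (Y + w * j + τ) := by
    intro j
    rw [intervalIntegral.integral_comp_add_left (fun x => G x) (Y + w * j)]
    congr 1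
    · ring
    · push_cast; ring
  have hii : ∀ j : ℕ, IntervalIntegrable (fun τ => G (Y + w * j + τ)) volume 0 w := fun j =>
    G_ii (hG.comp (by fun_prop)) (B := 1) hw.le (fun s _ _ => hb _)
  rw [← e1, Finset.sum_congr rfl (fun j _ => e2 j), ← intervalIntegral.integral_finsetSum (fun j _ => hii j)] at hint
  have h2 : ∫ τ in (0:ℝ)..w, ∑ j ∈ Finset.range M, G (Y + w * j + τ) ≤ ∫ _τ in (0:ℝ)..w, A := by
    apply intervalIntegral.integral_mono_on hw.le
    · have := IntervalIntegrable.sum (Finset.range M) (f := fun (j : ℕ) (τ : ℝ) => G (Y + w * j + τ)) (fun j _ => hii j)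
      have e : (fun τ : ℝ => ∑ j ∈ Finset.range M, G (Y + w * j + τ)) = ∑ j ∈ Finset.range M, fun τ : ℝ => G (Y + w * j + τ) := by
        funext x
        rw [Finset.sum_apply]
      rw [e]
      exact this
    · simp
    · intro τ hτ
      have h3 := hcon τ hτ.1 hτ.2
      refine le_trans ?_ h3.le
      have e3 : ∑ j ∈ Finset.range M, G (Y + w * j + τ) = ∑ j ∈ (Finset.range M).filter (fun j : ℕ => 0 < G (Y + w * j + τ)), G (Y + w * j + τ) := by
        symm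
        apply Finset.sum_filter_of_ne
        intro j _ hj
        exact lt_of_le_of_ne (h0 _) (Ne.symm hj)
      rw [e3]
      calc _ ≤ ∑ j ∈ (Finset.range M).filter (fun j : ℕ => 0 < G (Y + w * j + τ)), (1:ℝ) := Finset.sum_le_sum (fun j _ => h1 _)
        _ = _ := by simp
  rw [intervalIntegral.integral_const, smul_eq_mul, sub_zero] at h2
  linarith

/-- `N` alternations between `≥ c + η` and `≤ c - η` in `[a, b]` -/
def Alt (F : ℝ → ℝ) (c η a b : ℝ) (N : ℕ) : Prop := ∃ s t : ℕ → ℝ, ∀ i < N, a ≤ s i ∧ s i < t i ∧ t i ≤ b ∧ c + η ≤ F (s i) ∧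
  F (t i) ≤ c - η ∧ (i + 1 < N → t i < s (i + 1))

lemma Alt.mono {F : ℝ → ℝ} {c η a b : ℝ} {N : ℕ} (h : Alt F c η a b N) {c' η' a' b' : ℝ} (h1 : c' + η' ≤ c + η) (h2 : c - η ≤ c' - η')
    (ha : a' ≤ a) (hb : b ≤ b') : Alt F c' η' a' b' N := by
  obtain ⟨s, t, h⟩ := h
  refine ⟨s, t, fun i hi => ?_⟩
  obtain ⟨i1, i2, i3, i4, i5, i6⟩ := h i hi
  exact ⟨ha.trans i1, i2, i3.trans hb, h1.trans i4, i5.trans h2, i6⟩

lemma alt_of_set {F : ℝ → ℝ} {c η a b w Y : ℝ} (hw : 0 < w) (J : Finset ℕ)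
    (hJ : ∀ j ∈ J, ∃ s t : ℝ, a ≤ s ∧ Y + w * j ≤ s ∧ s < t ∧ t < Y + w * (j + 1) ∧ t ≤ b ∧ c + η ≤ F s ∧ F t ≤ c - η) :
    Alt F c η a b J.card := by
  classical
  have hJ' : ∀ j : ℕ, ∃ s t : ℝ, j ∈ J → a ≤ s ∧ Y + w * j ≤ s ∧ s < t ∧ t < Y + w * (j + 1) ∧ t ≤ b ∧ c + η ≤ F s ∧ F t ≤ c - η := by
    intro j
    by_cases hj : j ∈ J
    · obtain ⟨s, t, h⟩ := hJ j hj
      exact ⟨s, t, fun _ => h⟩
    · exact ⟨0, 0, fun h => absurd h hj⟩
  choose S T hST using hJ'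
  set e := J.orderEmbOfFin rfl with he
  refine ⟨fun i => if h : i < J.card then S (e ⟨i, h⟩) else 0, fun i => if h : i < J.card then T (e ⟨i, h⟩) else 0, fun i hi => ?_⟩
  obtain ⟨h1, h2, h3, h4, h5, h6, h7⟩ := hST (e ⟨i, hi⟩) (Finset.orderEmbOfFin_mem _ _ _)
  simp only [hi, dif_pos]
  refine ⟨h1, h3, h5, h6, h7, fun hi' => ?_⟩
  rw [dif_pos hi']
  obtain ⟨-, g2, -⟩ := hST (e ⟨i+1, hi'⟩) (Finset.orderEmbOfFin_mem _ _ _)
  have h8 : e ⟨i, hi⟩ < e ⟨i+1, hi'⟩ := e.strictMono (by rw [Fin.lt_def]; simp)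
  have h9 : ((e ⟨i, hi⟩ : ℕ) : ℝ) + 1 ≤ (e ⟨i+1, hi'⟩ : ℕ) := by exact_mod_cast h8
  calc T (e ⟨i, hi⟩) < Y + w * (((e ⟨i, hi⟩ : ℕ) : ℝ) + 1) := h4
    _ ≤ Y + w * (e ⟨i+1, hi'⟩ : ℕ) := by gcongr
    _ ≤ S (e ⟨i+1, hi'⟩) := g2

theorem windows {k : ℕ} (hk : 2 ≤ k) {P : Polynomial ℝ} (hP : Vor k P) (c : ℝ) {K : ℝ} (hK : 0 < K) :
    ∃ η Y₀ H₀ : ℝ, 0 < η ∧ 1 ≤ Y₀ ∧ 0 < H₀ ∧ ∀ Y H : ℝ, Y₀ ≤ Y → H₀ ≤ H → ∃ N : ℕ, K * H ≤ N ∧ Alt (Fk k P) c η Y (Y + H) N := by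
  classical
  obtain ⟨h, η, hh, hη, μ, hμ, hlow⟩ := superlin hk c (K := 16 * K) (by positivity)
  obtain ⟨n, R₁, δ₁, hR, hmod⟩ := the_mod (k := fun _ : Fin 2 => k) (fun _ => hk) (P := fun _ => P) (fun _ => hP)
    (α := fun _ => 1) (t := ![0, h]) (fun _ => one_pos)
  set g : (Fin 2 → ℝ) → ℝ := fun x => st (c + 3 * η / 2) (η / 2) (x 0) * (1 - st (c - 3 * η / 2) (η / 2) (x 1)) with hg
  have hst1 := st_cont (c + 3 * η / 2) (η / 2)
  have hst2 := st_cont (c - 3 * η / 2) (η / 2)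
  have hgc : Continuous g := by rw [hg]; fun_prop
  have hg0 : ∀ x, 0 ≤ g x := fun x => mul_nonneg (st_nonneg _ _ _) (by linarith [st_le_one (c - 3 * η / 2) (η / 2) (x 1)])
  have hg1 : ∀ x, g x ≤ 1 := by
    intro x
    simp only [hg]
    have := st_nonneg (c + 3 * η / 2) (η / 2) (x 0)
    have := st_le_one (c + 3 * η / 2) (η / 2) (x 0)
    have := st_nonneg (c - 3 * η / 2) (η / 2) (x 1)
    have := st_le_one (c - 3 * η / 2) (η / 2) (x 1)
    nlinarith
  obtain ⟨δ₀, hδ₀, -, hwin⟩ := hmod.low hμ hgc (C := 1) one_pos (fun x => by rw [abs_of_nonneg (hg0 x)]; exact hg1 x)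
    (η := 8 * K * h) (by positivity)
  set δ := min δ₀ (h / (n + 1) / 2) with hδ_def
  have hδ : 0 < δ := by rw [hδ_def]; positivity
  obtain ⟨Y₀, H₀, hY₀, hH₀, hwin⟩ := hwin δ hδ (min_le_left _ _)
  have hnδ : n * δ < h := by
    have h1 : δ ≤ h / (n + 1) / 2 := min_le_right _ _
    have h2 : (n:ℝ) * δ ≤ n * (h / (n + 1) / 2) := by gcongr
    have h3 : (n:ℝ) * (h / (n + 1) / 2) < h := by
      rw [mul_div_assoc', mul_div_assoc', div_div, div_lt_iff₀ (by positivity)]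
      have : (0:ℝ) ≤ n := by positivity
      nlinarith
    linarith
  refine ⟨η, max Y₀ 1, 2 * H₀ + 16 * h, hη, le_max_right _ _, by positivity, fun Y H hY hH => ?_⟩
  have hY0 : Y₀ ≤ Y := (le_max_left _ _).trans hY
  have hY1 : 1 ≤ Y := (le_max_right _ _).trans hY
  have hH0 : 0 < H := by linarith
  -- the number of cells
  obtain ⟨M, hM1, hM2⟩ : ∃ M : ℕ, 2 * h * M + 2 * h ≤ H ∧ H / 2 ≤ 2 * h * M := by
    refine ⟨⌊H / (2 * h) - 1⌋₊, ?_, ?_⟩
    · have h1 : (⌊H / (2 * h) - 1⌋₊ : ℝ) ≤ H / (2 * h) - 1 := Nat.floor_le (by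
        rw [sub_nonneg, le_div_iff₀ (by positivity)]; linarith)
      have h2 : 2 * h * (H / (2 * h) - 1) = H - 2 * h := by field_simp
      have h3 := mul_le_mul_of_nonneg_left h1 (show 0 ≤ 2 * h by positivity)
      linarith
    · have h1 : H / (2 * h) - 1 < ⌊H / (2 * h) - 1⌋₊ + 1 := Nat.lt_floor_add_one _
      have h2 : 2 * h * (H / (2 * h) - 1) = H - 2 * h := by field_simp
      have h3 := mul_lt_mul_of_pos_left h1 (show 0 < 2 * h by positivity)
      linarith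
  have hM0 : (0:ℝ) < M := by
    by_contra hcon
    push Not at hcon
    have : 2 * h * M ≤ 0 := mul_nonpos_of_nonneg_of_nonpos (by positivity) hcon
    linarith
  have h1 := hwin Y (2 * h * M) hY0 (by linarith)
  set F := FF (fun _ : Fin 2 => k) (fun _ => P) (fun _ => 1) ![0, h] with hF
  set G : ℝ → ℝ := fun r => g (sm F n δ r) with hG
  have hGm : Measurable G := hgc.measurable.comp (sm_meas hmod.meas hδ)
  have h2 : 8 * K * h * (2 * h * M) ≤ ∫ r in Y..(Y + 2 * h * M), G r := by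
    have h3 := (abs_le.1 h1).1
    have h4 : 16 * K * h * (2 * h * M) ≤ (∫ x, g x ∂(μ : Measure (Fin 2 → ℝ))) * (2 * h * M) := by gcongr
    linarith
  obtain ⟨τ, hτ0, hτ1, hcard⟩ := grid hGm (fun r => hg0 _) (fun r => hg1 _) (Y := Y) (w := 2 * h) (by positivity) (M := M)
    (A := 4 * K * h * M) (by
      refine lt_of_lt_of_le ?_ h2
      have : 0 < K * h * (h * M) := by positivity
      linarith)
  set J := (Finset.range M).filter (fun j : ℕ => 0 < G (Y + 2 * h * j + τ)) with hJ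
  refine ⟨J.card, ?_, ?_⟩
  · have h3 := mul_le_mul_of_nonneg_left hM2 hK.le
    have : K * (2 * h * M) * 2 = 4 * K * h * M := by ring
    linarith
  · apply alt_of_set (w := 2 * h) (Y := Y + τ) (by positivity)
    intro j hj
    rw [hJ, Finset.mem_filter, Finset.mem_range] at hj
    obtain ⟨hjM, hj⟩ := hj
    set r := Y + 2 * h * j + τ with hr
    have hj0 : (0:ℝ) ≤ j := by positivity
    have hjM' : (j:ℝ) + 1 ≤ M := by exact_mod_cast hjM
    have hYr : Y ≤ r := by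
      have : 0 ≤ 2 * h * j := by positivity
      linarith
    have hrR : R₁ ≤ r := by linarith
    have hsm : 0 < st (c + 3 * η / 2) (η / 2) (sm F n δ r 0) ∧ st (c - 3 * η / 2) (η / 2) (sm F n δ r 1) < 1 := by
      simp only [hG, hg] at hj
      constructor
      · by_contra hcon
        have : st (c + 3 * η / 2) (η / 2) (sm F n δ r 0) = 0 := le_antisymm (not_lt.1 hcon) (st_nonneg _ _ _)
        rw [this, zero_mul] at hj
        exact lt_irrefl _ hj
      · by_contra hcon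
        have : st (c - 3 * η / 2) (η / 2) (sm F n δ r 1) = 1 := le_antisymm (st_le_one _ _ _) (not_lt.1 hcon)
        rw [this, sub_self, mul_zero] at hj
        exact lt_irrefl _ hj
    have hη2 : 0 < η / 2 := by linarith
    have ha : c + η < sm F n δ r 0 := by
      by_contra hcon
      push Not at hcon
      have := st_zero (c := c + 3 * η / 2) hη2 (x := sm F n δ r 0) (by linarith)
      linarith [hsm.1]
    have hb : sm F n δ r 1 < c - η := by
      by_contra hcon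
      push Not at hcon
      have := st_one (c := c - 3 * η / 2) hη2 (x := sm F n δ r 1) (by linarith)
      linarith [hsm.2]
    have hi : ∀ i : Fin 2, Integrable (fun x => F i (r + x)) (mu δ n) := fun i =>
      hmod.int_mu hδ hrR (Φ := fun z => z i) (continuous_apply i)
    obtain ⟨x, hx0, hx1, hx⟩ := pt_ge hδ (hi 0) ha
    obtain ⟨y, hy0, hy1, hy⟩ := pt_le hδ (hi 1) hb
    have e0 : F 0 (r + x) = Fk k P (r + x) := by
      rw [hF]; unfold FF
      simp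
    have e1 : F 1 (r + y) = Fk k P (r + y + h) := by
      rw [hF]; unfold FF
      simp
    have e2 : Y + τ + 2 * h * j = r := by rw [hr]; ring
    have e3 : Y + τ + 2 * h * (j + 1) = r + 2 * h := by rw [hr]; ring
    have e4 : 2 * h * (j + 1) ≤ 2 * h * M := by gcongr
    rw [e2, e3]
    refine ⟨r + x, r + y + h, by linarith, by linarith, by linarith, by linarith, ?_, by rw [← e0]; exact hx, by rw [← e1]; exact hy⟩
    linarith

end Pool.Agent.H592.PD
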