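import Pool.Agent.H592.PD.E10

/-!
# Crossings: final form
-/

open MeasureTheory Filter Topology Finset
open Pool.Agent.H383.PZ Pool.Agent.H592.Piltz

namespace Pool.Agent.H592.PD

/-- a monotone function cannot pass below a continuous function without meeting it -/
lemma exact_cross {D m : ℝ → ℝ} {s t : ℝ} (hst : s < t) (hD : MonotoneOn D (Set.Icc s t)) (hm : ContinuousOn m (Set.Icc s t))
    (h1 : m s < D s) (h2 : D t < m t) : ∃ z, s < z ∧ z < t ∧ D z = m z := by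
  set S : Set ℝ := {r | r ∈ Set.Icc s t ∧ D r ≤ m r} with hS
  have htS : t ∈ S := ⟨⟨hst.le, le_rfl⟩, h2.le⟩
  have hne : S.Nonempty := ⟨t, htS⟩
  have hbd : BddBelow S := ⟨s, fun r hr => hr.1.1⟩
  set z := sInf S with hz
  have hzs : s ≤ z := le_csInf hne (fun r hr => hr.1.1)
  have hzt : z ≤ t := csInf_le hbd htS
  have hzI : z ∈ Set.Icc s t := ⟨hzs, hzt⟩
  have hcz := Metric.continuousWithinAt_iff.1 (hm z hzI)
  have hle : D z ≤ m z := by
    by_contra hcon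
    push Not at hcon
    obtain ⟨ε, hε, hc⟩ := hcz (D z - m z) (by linarith)
    obtain ⟨r, hrS, hr⟩ := exists_lt_of_csInf_lt hne (show sInf S < z + ε by linarith)
    have hzr : z ≤ r := csInf_le hbd hrS
    have h3 := hc hrS.1 (by rw [Real.dist_eq, abs_of_nonneg (by linarith)]; linarith)
    rw [Real.dist_eq] at h3
    have h4 := (abs_lt.1 h3).2
    have h5 := hD hzI hrS.1 hzr
    have h6 := hrS.2
    linarith
  have hzs' : s < z := by
    rcases eq_or_lt_of_le hzs with h | h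
    · rw [← h] at hle; linarith
    · exact h
  have hge : m z ≤ D z := by
    by_contra hcon
    push Not at hcon
    obtain ⟨ε, hε, hc⟩ := hcz (m z - D z) (by linarith)
    set r := max s (z - ε / 2) with hr
    have hrz : r < z := max_lt hzs' (by linarith)
    have hrs : s ≤ r := le_max_left _ _
    have hrI : r ∈ Set.Icc s t := ⟨hrs, by linarith⟩
    have h3 := hc hrI (by
      rw [Real.dist_eq, abs_of_nonpos (by linarith)]
      have := le_max_right s (z - ε / 2)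
      linarith)
    rw [Real.dist_eq] at h3
    have h4 := (abs_lt.1 h3).1
    have h5 := hD hrI hzI hrz.le
    have h6 : r ∈ S := ⟨hrI, by linarith⟩
    have := csInf_le hbd h6
    linarith
  have hzt' : z < t := by
    rcases eq_or_lt_of_le hzt with h | h
    · rw [h] at hge; linarith
    · exact h
  exact ⟨z, hzs', hzt', le_antisymm hle hge⟩

lemma Dsum_mono (k : ℕ) : Monotone (Dsum k) := by
  intro x y hxy
  unfold Dsum
  apply Finset.sum_le_sum_of_subset_of_nonneg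
  · exact Finset.Icc_subset_Icc_right (Nat.floor_mono hxy)
  · intro i _ _
    positivity

lemma cross_E {k : ℕ} (hk : 2 ≤ k) (P : Polynomial ℝ) {c s t : ℝ} (hs : 0 < s) (hst : s < t) (h1 : c < E k P s) (h2 : E k P t < c) :
    ∃ z, s < z ∧ z < t ∧ E k P z = c := by
  have hpos : ∀ r : ℝ, 0 < r → 0 < r ^ (((k:ℝ) - 1) / 2) := fun r hr => Real.rpow_pos_of_pos hr _
  obtain ⟨z, hz1, hz2, hz3⟩ := exact_cross (D := fun r => Dsum k (r ^ k))
    (m := fun r => r ^ k * P.eval (Real.log (r ^ k)) + c * r ^ (((k:ℝ) - 1) / 2)) hst (by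
      intro a ha b hb hab
      have ha0 : 0 ≤ a := hs.le.trans ha.1
      exact Dsum_mono k (pow_le_pow_left₀ ha0 hab k)) (by
      apply ContinuousOn.add
      · apply (continuous_pow k).continuousOn.mul
        apply P.continuous.comp_continuousOn
        apply ContinuousOn.log (continuous_pow k).continuousOn
        intro r hr
        have : 0 < r := lt_of_lt_of_le hs hr.1
        positivity
      · apply continuousOn_const.mul
        apply ContinuousOn.rpow_const continuousOn_id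
        intro r hr
        left
        exact (lt_of_lt_of_le hs hr.1).ne') (by
      unfold E Del at h1
      rw [lt_div_iff₀ (hpos s hs)] at h1
      change s ^ k * P.eval (Real.log (s ^ k)) + c * s ^ (((k:ℝ) - 1) / 2) < Dsum k (s ^ k)
      linarith) (by
      have ht : 0 < t := hs.trans hst
      unfold E Del at h2
      rw [div_lt_iff₀ (hpos t ht)] at h2
      change Dsum k (t ^ k) < t ^ k * P.eval (Real.log (t ^ k)) + c * t ^ (((k:ℝ) - 1) / 2)
      linarith)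
  refine ⟨z, hz1, hz2, ?_⟩
  have hz0 : 0 < z := hs.trans hz1
  unfold E Del
  rw [div_eq_iff (hpos z hz0).ne']
  have : Dsum k (z ^ k) = z ^ k * P.eval (Real.log (z ^ k)) + c * z ^ (((k:ℝ) - 1) / 2) := hz3
  linarith

theorem windows_unif {k : ℕ} (hk : 2 ≤ k) {P : Polynomial ℝ} (hP : Vor k P) (A : ℝ) {K : ℝ} (hK : 0 < K) :
    ∃ η Y₀ H₀ : ℝ, 0 < η ∧ 1 ≤ Y₀ ∧ 0 < H₀ ∧ ∀ c ∈ Set.Icc (-A) A, ∀ Y H : ℝ, Y₀ ≤ Y → H₀ ≤ H → ∃ N : ℕ, K * H ≤ N ∧
      Alt (Fk k P) c η Y (Y + H) N := by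
  apply (isCompact_Icc (a := -A) (b := A)).induction_on (p := fun S => ∃ η Y₀ H₀ : ℝ, 0 < η ∧ 1 ≤ Y₀ ∧ 0 < H₀ ∧ ∀ c ∈ S, ∀ Y H : ℝ,
    Y₀ ≤ Y → H₀ ≤ H → ∃ N : ℕ, K * H ≤ N ∧ Alt (Fk k P) c η Y (Y + H) N)
  · exact ⟨1, 1, 1, one_pos, le_rfl, one_pos, fun c hc => absurd hc (Set.notMem_empty c)⟩
  · rintro S T hST ⟨η, Y₀, H₀, h1, h2, h3, h⟩
    exact ⟨η, Y₀, H₀, h1, h2, h3, fun c hc => h c (hST hc)⟩
  · rintro S T ⟨η, Y₀, H₀, h1, h2, h3, h⟩ ⟨η', Y₀', H₀', h1', h2', h3', h'⟩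
    refine ⟨min η η', max Y₀ Y₀', max H₀ H₀', lt_min h1 h1', h2.trans (le_max_left _ _), lt_of_lt_of_le h3 (le_max_left _ _), ?_⟩
    rintro c (hc | hc) Y H hY hH
    · obtain ⟨N, hN, hA⟩ := h c hc Y H ((le_max_left _ _).trans hY) ((le_max_left _ _).trans hH)
      have := min_le_left η η'
      exact ⟨N, hN, hA.mono (by linarith) (by linarith) le_rfl le_rfl⟩
    · obtain ⟨N, hN, hA⟩ := h' c hc Y H ((le_max_right _ _).trans hY) ((le_max_right _ _).trans hH)
      have := min_le_right η η'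
      exact ⟨N, hN, hA.mono (by linarith) (by linarith) le_rfl le_rfl⟩
  · intro c₀ _
    obtain ⟨η, Y₀, H₀, h1, h2, h3, h⟩ := windows hk hP c₀ hK
    refine ⟨Set.Icc (c₀ - η / 2) (c₀ + η / 2), ?_, η / 2, Y₀, H₀, by positivity, h2, h3, ?_⟩
    · apply mem_nhdsWithin_of_mem_nhds
      exact Icc_mem_nhds (by linarith) (by linarith)
    · intro c hc Y H hY hH
      obtain ⟨N, hN, hA⟩ := h Y H hY hH
      exact ⟨N, hN, hA.mono (by linarith [hc.2]) (by linarith [hc.1]) le_rfl le_rfl⟩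

theorem crossings {k : ℕ} (hk : 2 ≤ k) {P : Polynomial ℝ} (hP : IsMain k P) (A K : ℝ) : ∃ η H₀ : ℝ, 0 < η ∧ 0 < H₀ ∧
    ∀ c Y H : ℝ, |c| ≤ A → 0 ≤ Y → H₀ ≤ H → ∃ N : ℕ, K * H ≤ N ∧ ∃ s z t : ℕ → ℝ, ∀ i < N,
      Y ≤ s i ∧ s i < z i ∧ z i < t i ∧ t i ≤ Y + H ∧ (i + 1 < N → t i < s (i + 1)) ∧
      c + η ≤ E k P (s i) ∧ E k P (z i) = c ∧ E k P (t i) ≤ c - η := by
  obtain ⟨η, Y₀, H₀, hη, hY₀, hH₀, h⟩ := windows_unif hk (vor_of_main hk ((isMain_iff k P).1 hP)) A (K := 2 * (|K| + 1)) (by positivity)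
  refine ⟨η, H₀ + 2 * Y₀, hη, by linarith, fun c Y H hc hY hH => ?_⟩
  have hYm : max Y Y₀ ≤ Y + Y₀ := max_le (by linarith) (by linarith)
  have hY1 : 1 ≤ max Y Y₀ := hY₀.trans (le_max_right _ _)
  obtain ⟨N, hN, s, t, hst⟩ := h c (abs_le.1 hc) (max Y Y₀) (Y + H - max Y Y₀) (le_max_right _ _) (by linarith)
  have e : max Y Y₀ + (Y + H - max Y Y₀) = Y + H := by ring
  rw [e] at hst
  have hz : ∀ i : ℕ, ∃ z : ℝ, i < N → s i < z ∧ z < t i ∧ E k P z = c := by
    intro i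
    by_cases hi : i < N
    · obtain ⟨i1, i2, -, i4, i5, -⟩ := hst i hi
      have hs0 : 0 < s i := by linarith
      rw [← E_eq k P hs0.le] at i4
      rw [← E_eq k P (hs0.trans i2).le] at i5
      obtain ⟨z, hz⟩ := cross_E hk P (c := c) hs0 i2 (by linarith) (by linarith)
      exact ⟨z, fun _ => hz⟩
    · exact ⟨0, fun h => absurd h hi⟩
  choose z hz using hz
  refine ⟨N, ?_, s, z, t, fun i hi => ?_⟩
  · refine le_trans ?_ hN
    have hK1 : K ≤ |K| := le_abs_self K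
    have hK0 : 0 ≤ |K| := abs_nonneg K
    have hH2 : H / 2 ≤ Y + H - max Y Y₀ := by linarith
    have hH0 : 0 < H := by linarith
    calc K * H ≤ (|K| + 1) * H := mul_le_mul_of_nonneg_right (by linarith) hH0.le
      _ = 2 * (|K| + 1) * (H / 2) := by ring
      _ ≤ 2 * (|K| + 1) * (Y + H - max Y Y₀) := by gcongr
  · obtain ⟨i1, i2, i3, i4, i5, i6⟩ := hst i hi
    obtain ⟨z1, z2, z3⟩ := hz i hi
    have hs0 : 0 < s i := by linarith
    rw [← E_eq k P hs0.le] at i4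
    rw [← E_eq k P (hs0.trans i2).le] at i5
    exact ⟨(le_max_left _ _).trans i1, z1, z2, i3, i6, i4, z3, i5⟩

end Pool.Agent.H592.PD
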