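import Pool.Agent.H592.PD.E1
import Pool.Agent.H592.PD.A4

/-!
# Limit laws of sequences of almost periodic functions, and independence
-/

open MeasureTheory Filter Topology Set

namespace Pool.Agent.H592.PD

/-- sequences of almost periodic functions which converge in mean square -/
def MS (A : ℕ → ℝ → ℝ) : Prop :=
  (∀ N, AP (A N)) ∧ ∀ ε : ℝ, 0 < ε → ∃ N₀ : ℕ, ∀ N M : ℕ, N₀ ≤ N → N₀ ≤ M → Mn (fun r => (A N r - A M r) ^ 2) ≤ ε

/-- the limit law -/
def Lim (A : ℕ → ℝ → ℝ) (α : ProbabilityMeasure ℝ) : Prop :=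
  ∀ f : ℝ → ℝ, Continuous f → (∃ C : ℝ, ∀ x, |f x| ≤ C) →
    Tendsto (fun N => Mn (fun r => f (A N r))) atTop (𝓝 (∫ x, f x ∂(α : Measure ℝ)))

lemma MS_one {A : ℕ → ℝ → ℝ} (h : MS A) : MSC (d := 1) (fun N _ => A N) := by
  refine ⟨fun N _ => h.1 N, fun ε hε => ?_⟩
  obtain ⟨N₀, hN⟩ := h.2 ε hε
  refine ⟨N₀, fun N M h1 h2 => ?_⟩
  have := hN N M h1 h2
  unfold qq
  simpa using this

theorem exists_Lim {A : ℕ → ℝ → ℝ} (h : MS A) : ∃ α : ProbabilityMeasure ℝ, Lim A α := by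
  obtain ⟨μ, hμ⟩ := exists_limit_law (MS_one h)
  have hm : Measurable (fun x : Fin 1 → ℝ => x 0) := measurable_pi_apply 0
  refine ⟨⟨(μ : Measure (Fin 1 → ℝ)).map (fun x => x 0), (Measure.isProbabilityMeasure_map_iff hm.aemeasurable).2 inferInstance⟩,
    fun f hf ⟨C, hC⟩ => ?_⟩
  have h1 := hμ (fun x => f (x 0)) (by fun_prop) ⟨C, fun x => hC _⟩
  have e : ∫ x, f x ∂((μ : Measure (Fin 1 → ℝ)).map (fun x => x 0)) = ∫ x, f (x 0) ∂(μ : Measure (Fin 1 → ℝ)) :=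
    integral_map hm.aemeasurable hf.aestronglyMeasurable
  change Tendsto _ atTop (𝓝 (∫ x, f x ∂((μ : Measure (Fin 1 → ℝ)).map (fun x => x 0))))
  rw [e]
  exact h1

lemma MS_two {A B : ℕ → ℝ → ℝ} (hA : MS A) (hB : MS B) : MSC (d := 2) (fun N => ![A N, B N]) := by
  refine ⟨fun N i => ?_, fun ε hε => ?_⟩
  · fin_cases i
    · exact hA.1 N
    · exact hB.1 N
  obtain ⟨N₀, hN⟩ := hA.2 (ε/2) (by positivity)
  obtain ⟨N₁, hN'⟩ := hB.2 (ε/2) (by positivity)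
  refine ⟨max N₀ N₁, fun N M h1 h2 => ?_⟩
  have i1 := hN N M ((le_max_left _ _).trans h1) ((le_max_left _ _).trans h2)
  have i2 := hN' N M ((le_max_right _ _).trans h1) ((le_max_right _ _).trans h2)
  have e : (fun r => qq (fun i => (![A N, B N] : Fin 2 → ℝ → ℝ) i r - (![A M, B M] : Fin 2 → ℝ → ℝ) i r)) =
      fun r => (A N r - A M r) ^ 2 + (B N r - B M r) ^ 2 := by
    funext r
    unfold qq
    rw [Fin.sum_univ_two]
    simp
  have a1 : AP (fun r => (A N r - A M r) ^ 2) := by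
    have := AP_mul (AP_sub (hA.1 N) (hA.1 M)) (AP_sub (hA.1 N) (hA.1 M))
    simpa [sq] using this
  have a2 : AP (fun r => (B N r - B M r) ^ 2) := by
    have := AP_mul (AP_sub (hB.1 N) (hB.1 M)) (AP_sub (hB.1 N) (hB.1 M))
    simpa [sq] using this
  rw [e, Mn_add a1 a2]
  linarith

/-- **the product law** -/
theorem prod_Lim {A B : ℕ → ℝ → ℝ} (hA : MS A) (hB : MS B) {Γ₁ Γ₂ : AddSubgroup ℝ} (hΓ : Γ₁ ⊓ Γ₂ = ⊥)
    (gA : ∀ N, AG Γ₁ (A N)) (gB : ∀ N, AG Γ₂ (B N)) {α β : ProbabilityMeasure ℝ} (hα : Lim A α) (hβ : Lim B β)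
    {G : ℝ × ℝ → ℝ} (hG : Continuous G) (hb : ∃ C : ℝ, ∀ x, |G x| ≤ C) :
    Tendsto (fun N => Mn (fun r => G (A N r, B N r))) atTop (𝓝 (∫ p, G p ∂((α : Measure ℝ).prod (β : Measure ℝ)))) := by
  obtain ⟨μ, hμ⟩ := exists_limit_law (MS_two hA hB)
  have hm : Measurable (fun x : Fin 2 → ℝ => (x 0, x 1)) := by fun_prop
  have hpr : IsProbabilityMeasure ((μ : Measure (Fin 2 → ℝ)).map (fun x => (x 0, x 1))) :=
    (Measure.isProbabilityMeasure_map_iff hm.aemeasurable).2 inferInstance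
  have key : (μ : Measure (Fin 2 → ℝ)).map (fun x => (x 0, x 1)) = (α : Measure ℝ).prod (β : Measure ℝ) := by
    apply Measure.eq_prod_of_integral_mul_boundedContinuousFunction
    intro f g
    have hfc := f.continuous
    have hgc := g.continuous
    rw [integral_map hm.aemeasurable (by fun_prop)]
    have h1 := hμ (fun x => f (x 0) * g (x 1)) (by fun_prop) ⟨‖f‖ * ‖g‖, fun x => by
      rw [abs_mul]
      exact mul_le_mul (f.norm_coe_le_norm _) (g.norm_coe_le_norm _) (abs_nonneg _) (norm_nonneg _)⟩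
    have h2 := hα f hfc ⟨‖f‖, fun x => f.norm_coe_le_norm _⟩
    have h3 := hβ g hgc ⟨‖g‖, fun x => g.norm_coe_le_norm _⟩
    have h4 := h2.mul h3
    refine tendsto_nhds_unique h1 (h4.congr fun N => ?_)
    have := AG_indep hΓ (AG_comp (gA N) hfc) (AG_comp (gB N) hgc)
    rw [← this]
    rfl
  obtain ⟨C, hC⟩ := hb
  have h5 := hμ (fun x => G (x 0, x 1)) (by fun_prop) ⟨C, fun x => hC _⟩
  rw [← key, integral_map hm.aemeasurable hG.aestronglyMeasurable]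
  exact h5

end Pool.Agent.H592.PD
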