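import Pool.Agent.H592.PD.E2
import Pool.Agent.H592.PD.C5

/-!
# Partial sums over classes
-/

open MeasureTheory Filter Topology Finset
open Pool.Agent.H383.PZ

namespace Pool.Agent.H592.PD

/-- the frequency `2 π k m^(1/k)` -/
noncomputable def lam (k m : ℕ) : ℝ := fq k 1 m

lemma lam_eq (k m : ℕ) : lam k m = 2 * Real.pi * k * rt k m := by unfold lam fq rt; ring

lemma lam_pos {k : ℕ} (hk : 2 ≤ k) {m : ℕ} (hm : 1 ≤ m) : 0 < lam k m := fq_pos hk one_pos hm

lemma lam_inj {k : ℕ} (hk : 2 ≤ k) {m m' : ℕ} (h : lam k m = lam k m') : m = m' := fq_inj hk one_pos h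

/-- the sum of the terms with `m ∈ s` -/
noncomputable def FS (k : ℕ) (s : Finset ℕ) (r : ℝ) : ℝ := ∑ m ∈ s, ak k m * Real.cos (lam k m * r + phk k)

lemma AP_cos (θ φ : ℝ) : AP (fun r => Real.cos (θ * r + φ)) := AP_of_TP (cos_mem θ φ)

lemma FS_AP (k : ℕ) (s : Finset ℕ) : AP (FS k s) := AP_sum s (fun m _ => AP_smul _ (AP_cos _ _))

lemma Mn_cc {θ θ' : ℝ} (h0 : 0 < θ) (h0' : 0 < θ') (hne : θ ≠ θ') (a b : ℝ) :
    Mn (fun r => Real.cos (θ * r + a) * Real.cos (θ' * r + b)) = 0 := by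
  have e : (fun r : ℝ => Real.cos (θ * r + a) * Real.cos (θ' * r + b)) =
      fun r => (1/2) * Real.cos ((θ + θ') * r + (a + b)) + (1/2) * Real.cos ((θ - θ') * r + (a - b)) := by
    funext r
    have e1 : (θ + θ') * r + (a + b) = (θ * r + a) + (θ' * r + b) := by ring
    have e2 : (θ - θ') * r + (a - b) = (θ * r + a) - (θ' * r + b) := by ring
    rw [e1, e2, Real.cos_add (θ * r + a) (θ' * r + b), Real.cos_sub (θ * r + a) (θ' * r + b)]; ring
  rw [e, Mn_add (AP_smul _ (AP_cos _ _)) (AP_smul _ (AP_cos _ _)), Mn_smul _ (AP_cos _ _), Mn_smul _ (AP_cos _ _),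
    Mn_cos (by linarith : θ + θ' ≠ 0), Mn_cos (sub_ne_zero.2 hne)]
  ring

lemma Mn_cc_same {θ : ℝ} (h0 : 0 < θ) (a b : ℝ) :
    Mn (fun r => Real.cos (θ * r + a) * Real.cos (θ * r + b)) = Real.cos (a - b) / 2 := by
  have e : (fun r : ℝ => Real.cos (θ * r + a) * Real.cos (θ * r + b)) =
      fun r => (1/2) * Real.cos ((2 * θ) * r + (a + b)) + Real.cos (a - b) / 2 := by
    funext r
    have e1 : (2 * θ) * r + (a + b) = (θ * r + a) + (θ * r + b) := by ring
    have e2 : a - b = (θ * r + a) - (θ * r + b) := by ring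
    rw [e1, e2, Real.cos_add (θ * r + a) (θ * r + b), Real.cos_sub (θ * r + a) (θ * r + b)]; ring
  rw [e, Mn_add (AP_smul _ (AP_cos _ _)) (AP_const _), Mn_smul _ (AP_cos _ _), Mn_const, Mn_cos (by positivity)]
  ring

lemma Mn_FS {k : ℕ} (hk : 2 ≤ k) {s : Finset ℕ} (hs : ∀ m ∈ s, 1 ≤ m) : Mn (FS k s) = 0 := by
  unfold FS
  rw [Mn_sum s (fun m _ => AP_smul _ (AP_cos _ _))]
  apply Finset.sum_eq_zero
  intro m hm
  rw [Mn_smul _ (AP_cos _ _), Mn_cos (lam_pos hk (hs m hm)).ne', mul_zero]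

lemma Mn_FS_sq {k : ℕ} (hk : 2 ≤ k) {s : Finset ℕ} (hs : ∀ m ∈ s, 1 ≤ m) :
    Mn (fun r => FS k s r ^ 2) = (∑ m ∈ s, ak k m ^ 2) / 2 := by
  have e : (fun r => FS k s r ^ 2) = fun r => ∑ m ∈ s, ∑ m' ∈ s,
      (ak k m * ak k m') * (Real.cos (lam k m * r + phk k) * Real.cos (lam k m' * r + phk k)) := by
    funext r
    unfold FS
    rw [sq, Finset.sum_mul_sum]
    apply Finset.sum_congr rfl; intro m _
    apply Finset.sum_congr rfl; intro m' _
    ring
  have hA : ∀ m m', AP (fun r => (ak k m * ak k m') * (Real.cos (lam k m * r + phk k) * Real.cos (lam k m' * r + phk k))) :=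
    fun m m' => AP_smul _ (AP_mul (AP_cos _ _) (AP_cos _ _))
  rw [e, Mn_sum _ (fun m _ => AP_sum _ (fun m' _ => hA m m')), Finset.sum_div]
  apply Finset.sum_congr rfl
  intro m hm
  rw [Mn_sum _ (fun m' _ => hA m m'), Finset.sum_eq_single m]
  · rw [Mn_smul _ (AP_mul (AP_cos _ _) (AP_cos _ _)), Mn_cc_same (lam_pos hk (hs m hm)), sub_self, Real.cos_zero]
    ring
  · intro m' hm' hne
    rw [Mn_smul _ (AP_mul (AP_cos _ _) (AP_cos _ _)), Mn_cc (lam_pos hk (hs m hm)) (lam_pos hk (hs m' hm'))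
      (fun h => hne (lam_inj hk h).symm), mul_zero]
  · intro h; exact absurd hm h

lemma FS_abs (k : ℕ) (s : Finset ℕ) (r : ℝ) : |FS k s r| ≤ ∑ m ∈ s, ak k m := by
  unfold FS
  refine (Finset.abs_sum_le_sum_abs _ _).trans (Finset.sum_le_sum (fun m _ => ?_))
  rw [abs_mul, abs_of_nonneg (ak_nonneg k m)]
  exact mul_le_of_le_one_right (ak_nonneg k m) (Real.abs_cos_le_one _)

open Classical in
/-- the partial sums over a set -/
noncomputable def TS (k : ℕ) (A : Set ℕ) (N : ℕ) : ℝ → ℝ := FS k ((Finset.Icc 1 N).filter (· ∈ A))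

lemma TS_pos {A : Set ℕ} {N : ℕ} [DecidablePred (· ∈ A)] : ∀ m ∈ (Finset.Icc 1 N).filter (· ∈ A), 1 ≤ m := by
  intro m hm
  exact (Finset.mem_Icc.1 (Finset.mem_filter.1 hm).1).1

lemma TS_AP (k : ℕ) (A : Set ℕ) (N : ℕ) : AP (TS k A N) := FS_AP _ _

lemma TS_MS {k : ℕ} (hk : 2 ≤ k) (A : Set ℕ) : MS (TS k A) := by
  classical
  refine ⟨fun N => TS_AP k A N, fun ε hε => ?_⟩
  have hsum := ak_sq_summable hk
  have htail := tendsto_sum_nat_add (fun m => ak k m ^ 2)
  obtain ⟨N₀, hN₀⟩ := (Metric.tendsto_atTop.1 htail) ε hε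
  have h0 := hN₀ N₀ le_rfl
  rw [Real.dist_eq, sub_zero, abs_of_nonneg (tsum_nonneg (fun _ => by positivity))] at h0
  have main : ∀ M N : ℕ, N₀ ≤ M → M ≤ N → Mn (fun r => (TS k A N r - TS k A M r) ^ 2) ≤ ε := by
    intro M N hM hMN
    set s := (Finset.Icc (M+1) N).filter (· ∈ A) with hs
    have e : (fun r => (TS k A N r - TS k A M r) ^ 2) = fun r => FS k s r ^ 2 := by
      funext r
      congr 1
      unfold TS FS
      have hsplit : (Finset.Icc 1 N).filter (· ∈ A) = ((Finset.Icc 1 M).filter (· ∈ A)) ∪ s := by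
        ext m
        simp only [hs, Finset.mem_union, Finset.mem_filter, Finset.mem_Icc]
        constructor
        · rintro ⟨h1, h2⟩
          by_cases h : m ≤ M
          · left; exact ⟨⟨h1.1, h⟩, h2⟩
          · right; exact ⟨⟨by omega, h1.2⟩, h2⟩
        · rintro (⟨h1, h2⟩ | ⟨h1, h2⟩)
          · exact ⟨⟨h1.1, by omega⟩, h2⟩
          · exact ⟨⟨by omega, h1.2⟩, h2⟩
      have hdisj : Disjoint ((Finset.Icc 1 M).filter (· ∈ A)) s := by
        rw [Finset.disjoint_left]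
        intro m h1 h2
        simp only [hs, Finset.mem_filter, Finset.mem_Icc] at h1 h2
        omega
      rw [hsplit, Finset.sum_union hdisj]
      ring
    rw [e, Mn_FS_sq hk (fun m hm => by
      have := Finset.mem_Icc.1 (Finset.mem_filter.1 hm).1
      omega)]
    have h1 : ∑ m ∈ s, ak k m ^ 2 ≤ ∑' m : ℕ, ak k (m + N₀) ^ 2 := by
      have h2 : ∑ m ∈ s, ak k m ^ 2 = ∑ m ∈ s.image (fun m => m - N₀), ak k (m + N₀) ^ 2 := by
        rw [Finset.sum_image]
        · apply Finset.sum_congr rfl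
          intro m hm
          have := Finset.mem_Icc.1 (Finset.mem_filter.1 hm).1
          rw [Nat.sub_add_cancel (by omega)]
        · intro a ha b hb hab
          have h3 := Finset.mem_Icc.1 (Finset.mem_filter.1 (Finset.mem_coe.1 ha)).1
          have h4 := Finset.mem_Icc.1 (Finset.mem_filter.1 (Finset.mem_coe.1 hb)).1
          simp only at hab
          omega
      rw [h2]
      exact ((summable_nat_add_iff N₀).2 hsum).sum_le_tsum _ (fun _ _ => by positivity)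
    have h3 : 0 ≤ ∑ m ∈ s, ak k m ^ 2 := Finset.sum_nonneg (fun _ _ => by positivity)
    linarith
  refine ⟨N₀, fun N M hN hM => ?_⟩
  rcases le_total M N with h | h
  · exact main M N hM h
  · have e : (fun r => (TS k A N r - TS k A M r) ^ 2) = fun r => (TS k A M r - TS k A N r) ^ 2 := by funext r; ring
    rw [e]
    exact main N M hN h

lemma TS_union (k : ℕ) {A B : Set ℕ} (hd : Disjoint A B) (N : ℕ) (r : ℝ) : TS k (A ∪ B) N r = TS k A N r + TS k B N r := by
  classical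
  unfold TS FS
  rw [← Finset.sum_union]
  · apply Finset.sum_congr _ (fun _ _ => rfl)
    ext m
    simp only [Finset.mem_filter, Finset.mem_union, Set.mem_union]
    tauto
  · rw [Finset.disjoint_left]
    intro m h1 h2
    simp only [Finset.mem_filter] at h1 h2
    exact Set.disjoint_left.1 hd h1.2 h2.2

/-- the integers of the form `q j^k`, `q ∈ 𝒬` and `k`-free -/
def US (k : ℕ) (Q : Set ℕ) : Set ℕ := {m | ∃ q, q ∈ Q ∧ KF k q ∧ ∃ j, 1 ≤ j ∧ m = q * j ^ k}

lemma US_disj {k : ℕ} {Q Q' : Set ℕ} (h : Disjoint Q Q') : Disjoint (US k Q) (US k Q') := by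
  rw [Set.disjoint_left]
  rintro m ⟨q, hq, hqf, j, hj, rfl⟩ ⟨q', hq', hqf', j', hj', he⟩
  have := KF_eq hqf hqf' hj' hj he
  subst this
  exact Set.disjoint_left.1 h hq hq'

lemma US_union (k : ℕ) (Q Q' : Set ℕ) : US k (Q ∪ Q') = US k Q ∪ US k Q' := by
  ext m
  constructor
  · rintro ⟨q, hq | hq, h⟩
    · left; exact ⟨q, hq, h⟩
    · right; exact ⟨q, hq, h⟩
  · rintro (⟨q, hq, h⟩ | ⟨q, hq, h⟩)
    · exact ⟨q, Or.inl hq, h⟩
    · exact ⟨q, Or.inr hq, h⟩

/-- the partial sums over the classes in `Q` -/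
noncomputable def XS (k : ℕ) (Q : Set ℕ) (N : ℕ) : ℝ → ℝ := TS k (US k Q) N

lemma XS_union (k : ℕ) {Q Q' : Set ℕ} (hd : Disjoint Q Q') (N : ℕ) (r : ℝ) : XS k (Q ∪ Q') N r = XS k Q N r + XS k Q' N r := by
  unfold XS
  rw [US_union, TS_union k (US_disj hd)]

lemma XS_MS {k : ℕ} (hk : 2 ≤ k) (Q : Set ℕ) : MS (XS k Q) := TS_MS hk _

/-- the frequencies as a family -/
noncomputable def fam (k : ℕ) : {q : ℕ // KF k q} → ℝ := fun q => lam k q.1

lemma fam_indep {k : ℕ} (hk : 2 ≤ k) : LinearIndependent ℤ (fam k) := by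
  classical
  rw [linearIndependent_iff']
  intro s g h i hi
  set c : ℕ → ℚ := fun q => if hq : KF k q then (g ⟨q, hq⟩ : ℚ) else 0 with hc
  have h1 : ∑ q ∈ s.image Subtype.val, (c q : ℝ) * rt k q = 0 := by
    rw [Finset.sum_image (fun a _ b _ hab => Subtype.ext hab)]
    have h2 : (2 * Real.pi * k) * ∑ q ∈ s, (c q.1 : ℝ) * rt k q.1 = 0 := by
      rw [Finset.mul_sum, ← h]
      apply Finset.sum_congr rfl
      intro q _
      have : c q.1 = g q := by simp only [hc]; rw [dif_pos q.2]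
      rw [this]
      unfold fam
      rw [lam_eq, zsmul_eq_mul]
      push_cast
      ring
    have h3 : (2 * Real.pi * k) ≠ 0 := by
      have : (0:ℝ) < k := by exact_mod_cast (by omega : 0 < k)
      have := Real.pi_pos
      positivity
    exact (mul_eq_zero.1 h2).resolve_left h3
  have h4 := roots_indep (by omega : 1 ≤ k) (s.image Subtype.val) (by
    intro q hq
    obtain ⟨q', -, rfl⟩ := Finset.mem_image.1 hq
    exact q'.2) c h1 i.1 (Finset.mem_image_of_mem _ hi)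
  have : c i.1 = g i := by simp only [hc]; rw [dif_pos i.2]
  rw [this] at h4
  exact_mod_cast h4

/-- the group generated by the frequencies of the classes in `Q` -/
noncomputable def GQ (k : ℕ) (Q : Set ℕ) : AddSubgroup ℝ := (Submodule.span ℤ (fam k '' {q | q.1 ∈ Q})).toAddSubgroup

lemma GQ_disj {k : ℕ} (hk : 2 ≤ k) {Q Q' : Set ℕ} (h : Disjoint Q Q') : GQ k Q ⊓ GQ k Q' = ⊥ := by
  have h1 : Disjoint {q : {q : ℕ // KF k q} | q.1 ∈ Q} {q | q.1 ∈ Q'} := by
    rw [Set.disjoint_left]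
    intro q hq hq'
    exact Set.disjoint_left.1 h hq hq'
  have h2 := (fam_indep hk).disjoint_span_image h1
  rw [eq_bot_iff]
  intro x hx
  have h3 : x ∈ (⊥ : Submodule ℤ ℝ) := (Submodule.disjoint_def.1 h2) x hx.1 hx.2
  simpa using h3

lemma rt_cls {k : ℕ} (hk : 1 ≤ k) (q j : ℕ) : rt k (q * j ^ k) = j * rt k q := by
  rw [rt_mul, rt_pow_self hk, mul_comm]

lemma lam_mem {k : ℕ} (hk : 2 ≤ k) {Q : Set ℕ} {m : ℕ} (hm : m ∈ US k Q) : lam k m ∈ GQ k Q := by
  obtain ⟨q, hq, hqf, j, hj, rfl⟩ := hm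
  have h1 : lam k (q * j ^ k) = (j : ℤ) • fam k ⟨q, hqf⟩ := by
    unfold fam
    rw [lam_eq, lam_eq, rt_cls (by omega), zsmul_eq_mul]
    push_cast
    ring
  rw [h1]
  apply Submodule.smul_mem
  exact Submodule.subset_span ⟨⟨q, hqf⟩, hq, rfl⟩

lemma AG_sum {Γ : AddSubgroup ℝ} {ι : Type*} (s : Finset ι) {f : ι → ℝ → ℝ} (h : ∀ i ∈ s, AG Γ (f i)) :
    AG Γ (fun r => ∑ i ∈ s, f i r) := by
  classical
  induction s using Finset.induction_on with
  | empty => simp only [Finset.sum_empty]; exact AG_const 0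
  | insert a s ha ih =>
    simp only [Finset.sum_insert ha]
    exact AG_add (h a (Finset.mem_insert_self _ _)) (ih (fun i hi => h i (Finset.mem_insert_of_mem hi)))

lemma XS_AG {k : ℕ} (hk : 2 ≤ k) (Q : Set ℕ) (N : ℕ) : AG (GQ k Q) (XS k Q N) := by
  classical
  unfold XS TS FS
  apply AG_sum
  intro m hm
  exact AG_smul _ (AG_of_TG (TG_cos (lam_mem hk (Finset.mem_filter.1 hm).2) _))

end Pool.Agent.H592.PD
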