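import Pool.Agent.H592.PD.E3

/-!
# Bessel's inequality for differences
-/

open MeasureTheory Filter Topology Finset
open Pool.Agent.H383.PZ

namespace Pool.Agent.H592.PD

lemma TP_lip {f : ℝ → ℝ} (hf : f ∈ TP) : ∃ L : ℝ, 0 ≤ L ∧ ∀ r r', |f r - f r'| ≤ L * |r - r'| := by
  induction hf using Submodule.span_induction with
  | mem x h =>
    obtain ⟨⟨a, b⟩, rfl⟩ := h
    refine ⟨|a|, abs_nonneg _, fun r r' => ?_⟩
    have h1 := Real.abs_cos_sub_cos_le (a * r + b) (a * r' + b)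
    refine h1.trans (le_of_eq ?_)
    rw [← abs_mul]; congr 1; ring
  | zero => exact ⟨0, le_rfl, by simp⟩
  | add x y hx hy h1 h2 =>
    obtain ⟨B1, hB1, b1⟩ := h1
    obtain ⟨B2, hB2, b2⟩ := h2
    refine ⟨B1 + B2, by positivity, fun r r' => ?_⟩
    have e : (x + y) r - (x + y) r' = (x r - x r') + (y r - y r') := by simp; ring
    rw [e]
    refine (abs_add_le _ _).trans ?_
    linarith [b1 r r', b2 r r']
  | smul a x hx h =>
    obtain ⟨B1, hB1, b1⟩ := h
    refine ⟨|a| * B1, by positivity, fun r r' => ?_⟩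
    have e : (a • x) r - (a • x) r' = a * (x r - x r') := by simp; ring
    rw [e, abs_mul, mul_assoc]
    exact mul_le_mul_of_nonneg_left (b1 r r') (abs_nonneg _)

lemma AP_uc {g : ℝ → ℝ} (hg : AP g) {ε : ℝ} (hε : 0 < ε) : ∃ δ : ℝ, 0 < δ ∧ ∀ r r', |r - r'| ≤ δ → |g r - g r'| ≤ ε := by
  obtain ⟨p, hp, h⟩ := hg (ε/3) (by positivity)
  obtain ⟨L, hL, hl⟩ := TP_lip hp
  refine ⟨ε/(3*(L+1)), by positivity, fun r r' hr => ?_⟩
  have h1 := hl r r'
  have h2 : L * |r - r'| ≤ ε/3 := by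
    calc L * |r - r'| ≤ (L + 1) * (ε/(3*(L+1))) := by
          apply mul_le_mul (by linarith) hr (abs_nonneg _) (by positivity)
      _ = ε/3 := by field_simp
  have h3 := h r
  have h4 := h r'
  have e : g r - g r' = (g r - p r) + (p r - p r') + (p r' - g r') := by ring
  rw [e]
  have := abs_add_le (g r - p r + (p r - p r')) (p r' - g r')
  have := abs_add_le (g r - p r) (p r - p r')
  rw [abs_sub_comm (p r') (g r')] at *
  linarith

lemma TP_shift {f : ℝ → ℝ} (hf : f ∈ TP) (h : ℝ) : (fun r => f (r + h)) ∈ TP := by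
  induction hf using Submodule.span_induction with
  | mem x hx =>
    obtain ⟨⟨a, b⟩, rfl⟩ := hx
    have := cos_mem a (a * h + b)
    convert this using 2 with r
    simp only
    congr 1; ring
  | zero => exact TP.zero_mem
  | add x y hx hy h1 h2 => exact TP.add_mem h1 h2
  | smul a x hx h => exact TP.smul_mem a h

lemma AP_shift {g : ℝ → ℝ} (hg : AP g) (h : ℝ) : AP (fun r => g (r + h)) := by
  intro ε hε
  obtain ⟨p, hp, h1⟩ := hg ε hε
  exact ⟨_, TP_shift hp h, fun r => h1 (r + h)⟩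

lemma Mn_shift {g : ℝ → ℝ} (hg : AP g) (h : ℝ) : Mn (fun r => g (r + h)) = Mn g := by
  apply Mn_eq
  intro ε hε
  obtain ⟨H₀, hH₀, h1⟩ := AP_Mn hg ε hε
  refine ⟨H₀, hH₀, fun Y H hH => ?_⟩
  have h2 := h1 (Y + h) H hH
  rw [intervalIntegral.integral_comp_add_right (fun r => g r) h]
  rw [show Y + H + h = Y + h + H by ring]
  exact h2

lemma AP_sin (θ φ : ℝ) : AP (fun r => Real.sin (θ * r + φ)) := by
  have := AP_cos θ (φ - Real.pi/2)
  convert this using 2 with r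
  rw [show θ * r + (φ - Real.pi/2) = θ * r + φ - Real.pi/2 by ring, Real.cos_sub_pi_div_two]

/-- the Fourier coefficients -/
noncomputable def Cc (g : ℝ → ℝ) (θ : ℝ) : ℝ := Mn (fun r => g r * Real.cos (θ * r))
noncomputable def Ds (g : ℝ → ℝ) (θ : ℝ) : ℝ := Mn (fun r => g r * Real.sin (θ * r))

lemma AP_cos0 (θ : ℝ) : AP (fun r => Real.cos (θ * r)) := by simpa using AP_cos θ 0
lemma AP_sin0 (θ : ℝ) : AP (fun r => Real.sin (θ * r)) := by simpa using AP_sin θ 0

lemma Mn_phase {g : ℝ → ℝ} (hg : AP g) (θ φ : ℝ) :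
    Mn (fun r => g r * Real.cos (θ * r + φ)) = Real.cos φ * Cc g θ - Real.sin φ * Ds g θ := by
  have h1 := AP_mul hg (AP_cos0 θ)
  have h2 := AP_mul hg (AP_sin0 θ)
  have e : (fun r => g r * Real.cos (θ * r + φ)) = fun r => Real.cos φ * (g r * Real.cos (θ * r)) + (-Real.sin φ) * (g r * Real.sin (θ * r)) := by
    funext r
    rw [Real.cos_add]; ring
  rw [e, Mn_add (AP_smul _ h1) (AP_smul _ h2), Mn_smul _ h1, Mn_smul _ h2]
  unfold Cc Ds
  ring

lemma Mn_phase' {g : ℝ → ℝ} (hg : AP g) (θ φ : ℝ) :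
    Mn (fun r => g r * Real.sin (θ * r + φ)) = Real.sin φ * Cc g θ + Real.cos φ * Ds g θ := by
  have h1 := AP_mul hg (AP_cos0 θ)
  have h2 := AP_mul hg (AP_sin0 θ)
  have e : (fun r => g r * Real.sin (θ * r + φ)) = fun r => Real.sin φ * (g r * Real.cos (θ * r)) + Real.cos φ * (g r * Real.sin (θ * r)) := by
    funext r
    rw [Real.sin_add]; ring
  rw [e, Mn_add (AP_smul _ h1) (AP_smul _ h2), Mn_smul _ h1, Mn_smul _ h2]
  unfold Cc Ds
  ring

lemma diff_coeff {g : ℝ → ℝ} (hg : AP g) (θ h : ℝ) :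
    Cc (fun r => g (r + h) - g r) θ ^ 2 + Ds (fun r => g (r + h) - g r) θ ^ 2 = (Cc g θ ^ 2 + Ds g θ ^ 2) * (2 - 2 * Real.cos (θ * h)) := by
  have hs := AP_shift hg h
  have e1 : Cc (fun r => g (r + h)) θ = Real.cos (-(θ*h)) * Cc g θ - Real.sin (-(θ*h)) * Ds g θ := by
    rw [← Mn_phase hg]
    have := Mn_shift (AP_mul hg (AP_cos θ (-(θ*h)))) h
    rw [← this]
    unfold Cc
    congr 1
    funext r
    congr 2; ring
  have e2 : Ds (fun r => g (r + h)) θ = Real.sin (-(θ*h)) * Cc g θ + Real.cos (-(θ*h)) * Ds g θ := by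
    rw [← Mn_phase' hg]
    have := Mn_shift (AP_mul hg (AP_sin θ (-(θ*h)))) h
    rw [← this]
    unfold Ds
    congr 1
    funext r
    congr 2; ring
  have e3 : Cc (fun r => g (r + h) - g r) θ = Cc (fun r => g (r + h)) θ - Cc g θ := by
    unfold Cc
    have : (fun r => (g (r + h) - g r) * Real.cos (θ * r)) = fun r => g (r + h) * Real.cos (θ * r) + (-1) * (g r * Real.cos (θ * r)) := by
      funext r; ring
    rw [this, Mn_add (AP_mul hs (AP_cos0 θ)) (AP_smul _ (AP_mul hg (AP_cos0 θ))), Mn_smul _ (AP_mul hg (AP_cos0 θ))]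
    ring
  have e4 : Ds (fun r => g (r + h) - g r) θ = Ds (fun r => g (r + h)) θ - Ds g θ := by
    unfold Ds
    have : (fun r => (g (r + h) - g r) * Real.sin (θ * r)) = fun r => g (r + h) * Real.sin (θ * r) + (-1) * (g r * Real.sin (θ * r)) := by
      funext r; ring
    rw [this, Mn_add (AP_mul hs (AP_sin0 θ)) (AP_smul _ (AP_mul hg (AP_sin0 θ))), Mn_smul _ (AP_mul hg (AP_sin0 θ))]
    ring
  rw [e3, e4, e1, e2, Real.cos_neg, Real.sin_neg]
  have := Real.sin_sq_add_cos_sq (θ * h)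
  linear_combination (Cc g θ ^ 2 + Ds g θ ^ 2) * this

/-- **Bessel's inequality** -/
theorem bessel {k : ℕ} (hk : 2 ≤ k) {g : ℝ → ℝ} (hg : AP g) (s : Finset ℕ) (hs : ∀ m ∈ s, 1 ≤ m) :
    2 * ∑ m ∈ s, (Cc g (lam k m) ^ 2 + Ds g (lam k m) ^ 2) ≤ Mn (fun r => g r ^ 2) := by
  set e : ℕ → ℝ → ℝ := fun m r => (2 * Cc g (lam k m)) * Real.cos (lam k m * r + 0) + (2 * Ds g (lam k m)) * Real.cos (lam k m * r + (-(Real.pi/2))) with he
  have heA : ∀ m, AP (e m) := fun m => AP_add (AP_smul _ (AP_cos _ _)) (AP_smul _ (AP_cos _ _))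
  have hge : ∀ m, Mn (fun r => g r * e m r) = 2 * (Cc g (lam k m) ^ 2 + Ds g (lam k m) ^ 2) := by
    intro m
    have h1 := AP_mul hg (AP_cos (lam k m) 0)
    have h2 := AP_mul hg (AP_cos (lam k m) (-(Real.pi/2)))
    have e1 : (fun r => g r * e m r) = fun r => (2 * Cc g (lam k m)) * (g r * Real.cos (lam k m * r + 0)) +
        (2 * Ds g (lam k m)) * (g r * Real.cos (lam k m * r + (-(Real.pi/2)))) := by
      funext r; simp only [he]; ring
    rw [e1, Mn_add (AP_smul _ h1) (AP_smul _ h2), Mn_smul _ h1, Mn_smul _ h2, Mn_phase hg, Mn_phase hg]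
    rw [Real.cos_zero, Real.sin_zero, Real.cos_neg, Real.sin_neg, Real.cos_pi_div_two, Real.sin_pi_div_two]
    ring
  have hee : ∀ m ∈ s, ∀ m' ∈ s, Mn (fun r => e m r * e m' r) = if m = m' then 2 * (Cc g (lam k m) ^ 2 + Ds g (lam k m) ^ 2) else 0 := by
    intro m hm m' hm'
    have a1 := AP_mul (AP_cos (lam k m) 0) (AP_cos (lam k m') 0)
    have a2 := AP_mul (AP_cos (lam k m) 0) (AP_cos (lam k m') (-(Real.pi/2)))
    have a3 := AP_mul (AP_cos (lam k m) (-(Real.pi/2))) (AP_cos (lam k m') 0)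
    have a4 := AP_mul (AP_cos (lam k m) (-(Real.pi/2))) (AP_cos (lam k m') (-(Real.pi/2)))
    have e1 : (fun r => e m r * e m' r) = fun r =>
        ((2 * Cc g (lam k m)) * (2 * Cc g (lam k m'))) * (Real.cos (lam k m * r + 0) * Real.cos (lam k m' * r + 0)) +
        (((2 * Cc g (lam k m)) * (2 * Ds g (lam k m'))) * (Real.cos (lam k m * r + 0) * Real.cos (lam k m' * r + (-(Real.pi/2)))) +
        (((2 * Ds g (lam k m)) * (2 * Cc g (lam k m'))) * (Real.cos (lam k m * r + (-(Real.pi/2))) * Real.cos (lam k m' * r + 0)) +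
        ((2 * Ds g (lam k m)) * (2 * Ds g (lam k m'))) * (Real.cos (lam k m * r + (-(Real.pi/2))) * Real.cos (lam k m' * r + (-(Real.pi/2)))))) := by
      funext r; simp only [he]; ring
    rw [e1, Mn_add (AP_smul _ a1) (AP_add (AP_smul _ a2) (AP_add (AP_smul _ a3) (AP_smul _ a4))),
      Mn_add (AP_smul _ a2) (AP_add (AP_smul _ a3) (AP_smul _ a4)), Mn_add (AP_smul _ a3) (AP_smul _ a4),
      Mn_smul _ a1, Mn_smul _ a2, Mn_smul _ a3, Mn_smul _ a4]
    split_ifs with h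
    · subst h
      have hp := lam_pos hk (hs m hm)
      rw [Mn_cc_same hp, Mn_cc_same hp, Mn_cc_same hp, Mn_cc_same hp]
      have c1 : Real.cos (0 - -(Real.pi/2)) = 0 := by rw [show (0:ℝ) - -(Real.pi/2) = Real.pi/2 by ring]; exact Real.cos_pi_div_two
      have c2 : Real.cos (-(Real.pi/2) - 0) = 0 := by rw [sub_zero, Real.cos_neg]; exact Real.cos_pi_div_two
      rw [c1, c2, sub_self, sub_self, Real.cos_zero]
      ring
    · have hp := lam_pos hk (hs m hm)
      have hp' := lam_pos hk (hs m' hm')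
      have hne : lam k m ≠ lam k m' := fun h' => h (lam_inj hk h')
      rw [Mn_cc hp hp' hne, Mn_cc hp hp' hne, Mn_cc hp hp' hne, Mn_cc hp hp' hne]
      ring
  have hpA : AP (fun r => ∑ m ∈ s, e m r) := AP_sum s (fun m _ => heA m)
  have hnn := Mn_nonneg (AP_mul (AP_sub hg hpA) (AP_sub hg hpA)) (fun r => mul_self_nonneg _)
  have hgg := AP_mul hg hg
  have hgp : AP (fun r => ∑ m ∈ s, g r * e m r) := AP_sum s (fun m _ => AP_mul hg (heA m))
  have hpp : AP (fun r => ∑ m ∈ s, ∑ m' ∈ s, e m r * e m' r) := AP_sum s (fun m _ => AP_sum s (fun m' _ => AP_mul (heA m) (heA m')))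
  have e5 : (fun r => (g r - ∑ m ∈ s, e m r) * (g r - ∑ m ∈ s, e m r)) = fun r => g r * g r + ((-2) * (∑ m ∈ s, g r * e m r) +
      ∑ m ∈ s, ∑ m' ∈ s, e m r * e m' r) := by
    funext r
    rw [← Finset.sum_mul_sum, ← Finset.mul_sum]; ring
  rw [e5, Mn_add hgg (AP_add (AP_smul _ hgp) hpp), Mn_add (AP_smul _ hgp) hpp, Mn_smul _ hgp,
    Mn_sum s (fun m _ => AP_mul hg (heA m)), Mn_sum s (fun m _ => AP_sum s (fun m' _ => AP_mul (heA m) (heA m')))] at hnn
  have e6 : ∑ m ∈ s, Mn (fun r => ∑ m' ∈ s, e m r * e m' r) = ∑ m ∈ s, 2 * (Cc g (lam k m) ^ 2 + Ds g (lam k m) ^ 2) := by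
    apply Finset.sum_congr rfl
    intro m hm
    rw [Mn_sum s (fun m' _ => AP_mul (heA m) (heA m')), Finset.sum_congr rfl (fun m' hm' => hee m hm m' hm'), Finset.sum_ite_eq, if_pos hm]
  rw [e6, Finset.sum_congr rfl (fun m _ => hge m), ← Finset.mul_sum] at hnn
  have e7 : (fun r => g r ^ 2) = fun r => g r * g r := by funext r; ring
  rw [e7]
  linarith

/-- the mean square of the difference -/
noncomputable def Gm (g : ℝ → ℝ) (h : ℝ) : ℝ := Mn (fun r => (g (r + h) - g r) ^ 2)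

lemma AP_sq {g : ℝ → ℝ} (hg : AP g) : AP (fun r => g r ^ 2) := by
  have := AP_mul hg hg
  simpa [sq] using this

lemma Gm_cont {g : ℝ → ℝ} (hg : AP g) : Continuous (Gm g) := by
  obtain ⟨B, hB, hb⟩ := AP_bdd hg
  rw [Metric.continuous_iff]
  intro h ε hε
  obtain ⟨δ, hδ, huc⟩ := AP_uc hg (ε := ε / (8 * B)) (by positivity)
  refine ⟨δ, hδ, fun h' hh => ?_⟩
  rw [Real.dist_eq] at hh ⊢
  unfold Gm
  have := Mn_close (AP_sq (AP_sub (AP_shift hg h') hg)) (AP_sq (AP_sub (AP_shift hg h) hg)) (ε := ε/2) (fun r => by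
    have e : (g (r + h') - g r) ^ 2 - (g (r + h) - g r) ^ 2 = (g (r + h') - g (r + h)) * (g (r + h') + g (r + h) - 2 * g r) := by ring
    rw [e, abs_mul]
    have h1 := huc (r + h') (r + h) (by rw [show r + h' - (r + h) = h' - h by ring]; exact hh.le)
    have h2 : |g (r + h') + g (r + h) - 2 * g r| ≤ 4 * B := by
      rw [abs_le]
      have a1 := abs_le.1 (hb (r + h'))
      have a2 := abs_le.1 (hb (r + h))
      have a3 := abs_le.1 (hb r)
      constructor <;> linarith [a1.1, a1.2, a2.1, a2.2, a3.1, a3.2]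
    calc _ ≤ (ε / (8 * B)) * (4 * B) := mul_le_mul h1 h2 (abs_nonneg _) (by positivity)
      _ = ε/2 := by field_simp; norm_num)
  linarith

/-- **the average of the mean squares of the differences** -/
theorem avg_bessel {k : ℕ} (hk : 2 ≤ k) {g : ℝ → ℝ} (hg : AP g) {h₀ : ℝ} (hh : 0 < h₀) (s : Finset ℕ)
    (hs : ∀ m ∈ s, 1 ≤ m ∧ 4 ≤ lam k m * h₀) :
    2 * h₀ * ∑ m ∈ s, (Cc g (lam k m) ^ 2 + Ds g (lam k m) ^ 2) ≤ ∫ h in h₀..(2*h₀), Gm g h := by
  have h1 : ∀ h, ∑ m ∈ s, 4 * (Cc g (lam k m) ^ 2 + Ds g (lam k m) ^ 2) * (1 - Real.cos (lam k m * h)) ≤ Gm g h := by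
    intro h
    have h2 := bessel hk (AP_sub (AP_shift hg h) hg) s (fun m hm => (hs m hm).1)
    unfold Gm
    refine le_trans (le_of_eq ?_) h2
    rw [Finset.mul_sum]
    apply Finset.sum_congr rfl
    intro m _
    rw [diff_coeff hg]; ring
  have hcont : Continuous (fun h => ∑ m ∈ s, 4 * (Cc g (lam k m) ^ 2 + Ds g (lam k m) ^ 2) * (1 - Real.cos (lam k m * h))) := by fun_prop
  have h3 : ∫ h in h₀..(2*h₀), ∑ m ∈ s, 4 * (Cc g (lam k m) ^ 2 + Ds g (lam k m) ^ 2) * (1 - Real.cos (lam k m * h)) ≤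
      ∫ h in h₀..(2*h₀), Gm g h := by
    apply intervalIntegral.integral_mono_on (by linarith) (hcont.intervalIntegrable _ _) ((Gm_cont hg).intervalIntegrable _ _)
    intro h _
    exact h1 h
  refine le_trans ?_ h3
  rw [intervalIntegral.integral_finsetSum (fun m _ => by
    apply Continuous.intervalIntegrable; fun_prop), Finset.mul_sum]
  apply Finset.sum_le_sum
  intro m hm
  obtain ⟨hm1, hm2⟩ := hs m hm
  have hθ := lam_pos hk hm1
  set θ := lam k m
  set w := Cc g θ ^ 2 + Ds g θ ^ 2 with hw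
  have hw0 : 0 ≤ w := by positivity
  rw [intervalIntegral.integral_const_mul]
  have h4 : h₀ / 2 ≤ ∫ h in h₀..(2*h₀), (1 - Real.cos (θ * h)) := by
    rw [intervalIntegral.integral_sub (by simp) (by apply Continuous.intervalIntegrable; fun_prop), intervalIntegral.integral_const,
      intervalIntegral.integral_comp_mul_left (fun x => Real.cos x) hθ.ne', integral_cos, smul_eq_mul, smul_eq_mul]
    have h5 : θ⁻¹ * (Real.sin (θ * (2 * h₀)) - Real.sin (θ * h₀)) ≤ h₀ / 2 := by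
      have h6 : Real.sin (θ * (2 * h₀)) - Real.sin (θ * h₀) ≤ 2 := by
        have := Real.sin_le_one (θ * (2 * h₀))
        have := Real.neg_one_le_sin (θ * h₀)
        linarith
      calc θ⁻¹ * (Real.sin (θ * (2 * h₀)) - Real.sin (θ * h₀)) ≤ θ⁻¹ * 2 := by gcongr
        _ ≤ h₀ / 2 := by
          rw [inv_mul_eq_div, div_le_iff₀ hθ]
          linarith
    linarith
  nlinarith

/-- the pairing with a partial sum -/
lemma pair_le {k : ℕ} {g : ℝ → ℝ} (hg : AP g) (s : Finset ℕ) :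
    (Mn (fun r => g r * FS k s r)) ^ 2 ≤ (∑ m ∈ s, ak k m ^ 2) * ∑ m ∈ s, (Cc g (lam k m) ^ 2 + Ds g (lam k m) ^ 2) := by
  have e : (fun r => g r * FS k s r) = fun r => ∑ m ∈ s, ak k m * (g r * Real.cos (lam k m * r + phk k)) := by
    funext r
    unfold FS
    rw [Finset.mul_sum]
    apply Finset.sum_congr rfl; intro m _; ring
  have hA : ∀ m, AP (fun r => g r * Real.cos (lam k m * r + phk k)) := fun m => AP_mul hg (AP_cos _ _)
  rw [e, Mn_sum s (fun m _ => AP_smul _ (hA m))]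
  have e2 : ∑ m ∈ s, Mn (fun r => ak k m * (g r * Real.cos (lam k m * r + phk k))) =
      ∑ m ∈ s, ak k m * (Real.cos (phk k) * Cc g (lam k m) - Real.sin (phk k) * Ds g (lam k m)) := by
    apply Finset.sum_congr rfl
    intro m _
    rw [Mn_smul _ (hA m), Mn_phase hg]
  rw [e2]
  refine (Finset.sum_mul_sq_le_sq_mul_sq s _ _).trans ?_
  apply mul_le_mul_of_nonneg_left _ (Finset.sum_nonneg (fun _ _ => sq_nonneg _))
  apply Finset.sum_le_sum
  intro m _
  have := Real.sin_sq_add_cos_sq (phk k)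
  have h2 : (Real.sin (phk k) * Cc g (lam k m) + Real.cos (phk k) * Ds g (lam k m)) ^ 2 ≥ 0 := sq_nonneg _
  nlinarith

end Pool.Agent.H592.PD
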