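import Pool.Agent.H592.PD.E5
import Pool.Agent.H592.PD.E6
import Pool.Graph.R_seed8.H383.EntDens2

/-!
# The decay of the characteristic functions and the densities of the limit laws
-/

open MeasureTheory Filter Topology Finset
open Pool.Agent.H383.PZ

namespace Pool.Agent.H592.PD

/-- the squared modulus of the mean of `exp (i f)` -/
noncomputable def N2 (f : ℝ → ℝ) : ℝ := (Mn (fun r => Real.cos (f r))) ^ 2 + (Mn (fun r => Real.sin (f r))) ^ 2

variable {Γ₁ Γ₂ : AddSubgroup ℝ}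

lemma N2_nonneg (f : ℝ → ℝ) : 0 ≤ N2 f := by unfold N2; positivity

lemma AP_comp1 {f : ℝ → ℝ} (hf : AP f) {g : ℝ → ℝ} (hg : Continuous g) : AP (fun r => g (f r)) :=
  AP_comp (d := 1) (u := fun _ => f) (fun _ => hf) (f := fun x => g (x 0)) (by fun_prop)

lemma N2_mul (hΓ : Γ₁ ⊓ Γ₂ = ⊥) {f g : ℝ → ℝ} (hf : AG Γ₁ f) (hg : AG Γ₂ g) : N2 (fun r => f r + g r) = N2 f * N2 g := by
  have c1 := AG_comp hf Real.continuous_cos
  have s1 := AG_comp hf Real.continuous_sin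
  have c2 := AG_comp hg Real.continuous_cos
  have s2 := AG_comp hg Real.continuous_sin
  have e1 : (fun r => Real.cos (f r + g r)) = fun r => Real.cos (f r) * Real.cos (g r) + (-1) * (Real.sin (f r) * Real.sin (g r)) := by
    funext r; rw [Real.cos_add]; ring
  have e2 : (fun r => Real.sin (f r + g r)) = fun r => Real.sin (f r) * Real.cos (g r) + Real.cos (f r) * Real.sin (g r) := by
    funext r; rw [Real.sin_add]
  unfold N2
  rw [e1, e2, Mn_add (AP_mul c1.ap c2.ap) (AP_smul _ (AP_mul s1.ap s2.ap)), Mn_smul _ (AP_mul s1.ap s2.ap),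
    Mn_add (AP_mul s1.ap c2.ap) (AP_mul c1.ap s2.ap), AG_indep hΓ c1 c2, AG_indep hΓ s1 s2, AG_indep hΓ s1 c2, AG_indep hΓ c1 s2]
  ring

lemma Mn_sq_le {f : ℝ → ℝ} (hf : AP f) : (Mn f) ^ 2 ≤ Mn (fun r => f r ^ 2) := by
  have h := Mn_nonneg (AP_mul (AP_sub hf (AP_const (Mn f))) (AP_sub hf (AP_const (Mn f)))) (fun r => mul_self_nonneg _)
  have e : (fun r => (f r - Mn f) * (f r - Mn f)) = fun r => f r ^ 2 + ((-2 * Mn f) * f r + (Mn f) ^ 2) := by funext r; ring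
  rw [e, Mn_add (AP_sq hf) (AP_add (AP_smul _ hf) (AP_const _)), Mn_add (AP_smul _ hf) (AP_const _), Mn_smul _ hf, Mn_const] at h
  nlinarith

lemma N2_le_one {f : ℝ → ℝ} (hf : AP f) : N2 f ≤ 1 := by
  have c := AP_comp1 hf Real.continuous_cos
  have s := AP_comp1 hf Real.continuous_sin
  have h1 := Mn_sq_le c
  have h2 := Mn_sq_le s
  have e : Mn (fun r => Real.cos (f r) ^ 2) + Mn (fun r => Real.sin (f r) ^ 2) = 1 := by
    rw [← Mn_add (AP_sq c) (AP_sq s)]
    have : (fun r => Real.cos (f r) ^ 2 + Real.sin (f r) ^ 2) = fun _ => (1:ℝ) := by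
      funext r; rw [add_comm]; exact Real.sin_sq_add_cos_sq _
    rw [this, Mn_const]
  unfold N2
  linarith

lemma N2_small {f : ℝ → ℝ} (hf : AP f) (hb : ∀ r, |f r| ≤ 1/2) (h0 : Mn f = 0) : N2 f ≤ Real.exp (-(Mn (fun r => f r ^ 2) / 2)) := by
  have c := AP_comp1 hf Real.continuous_cos
  have s := AP_comp1 hf Real.continuous_sin
  have hsq := AP_sq hf
  set v := Mn (fun r => f r ^ 2) with hv
  have hv0 : 0 ≤ v := Mn_nonneg hsq (fun r => by positivity)
  have hv1 : v ≤ 1/4 := by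
    have := Mn_mono hsq (AP_const (1/4)) (fun r => by
      have h1 := hb r
      have h2 : |f r| ^ 2 ≤ (1/2) ^ 2 := by gcongr
      rw [sq_abs] at h2
      norm_num at h2 ⊢
      exact h2)
    rwa [Mn_const] at this
  -- the cosine
  have hcos : |Mn (fun r => Real.cos (f r))| ≤ 1 - v * (46/96) := by
    have hup : Mn (fun r => Real.cos (f r)) ≤ 1 - v * (46/96) := by
      have h1 := Mn_mono c (AP_add (AP_const 1) (AP_smul (-(46/96)) hsq)) (fun r => by
        have h2 := Real.cos_bound (x := f r) ((hb r).trans (by norm_num))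
        have h3 := (abs_le.1 h2).2
        have h4 : |f r| ^ 4 ≤ (1/4) * f r ^ 2 := by
          have h5 : |f r| ^ 2 ≤ (1/2)^2 := by gcongr; exact hb r
          have h6 : |f r| ^ 4 = |f r| ^ 2 * |f r| ^ 2 := by ring
          rw [h6, sq_abs] at *
          nlinarith [sq_nonneg (f r)]
        nlinarith)
      rw [Mn_add (AP_const 1) (AP_smul _ hsq), Mn_const, Mn_smul _ hsq] at h1
      linarith
    have hlow : 0 ≤ Mn (fun r => Real.cos (f r)) := by
      apply Mn_nonneg c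
      intro r
      apply Real.cos_nonneg_of_neg_pi_div_two_le_of_le
      · have := (abs_le.1 (hb r)).1
        have := Real.pi_gt_three
        linarith
      · have := (abs_le.1 (hb r)).2
        have := Real.pi_gt_three
        linarith
    rw [abs_of_nonneg hlow]
    exact hup
  -- the sine
  have hsin : |Mn (fun r => Real.sin (f r))| ≤ v * (3/20) := by
    have key : ∀ r, |Real.sin (f r) - f r| ≤ (3/20) * f r ^ 2 := by
      intro r
      have h2 := Real.sin_bound (x := f r) ((hb r).trans (by norm_num))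
      have h3 : |f r ^ 3 / 6| ≤ (1/12) * f r ^ 2 := by
        rw [abs_div, abs_pow]
        have h6 : |f r| ^ 3 = |f r| * |f r| ^ 2 := by ring
        rw [h6, sq_abs, abs_of_pos (by norm_num : (0:ℝ) < 6)]
        have := hb r
        nlinarith [sq_nonneg (f r)]
      have h4 : |f r| ^ 5 ≤ (1/8) * f r ^ 2 := by
        have h5 : |f r| ^ 3 ≤ (1/2)^3 := by gcongr; exact hb r
        have h6 : |f r| ^ 5 = |f r| ^ 3 * |f r| ^ 2 := by ring
        rw [h6, sq_abs]
        have h7 : (1/2:ℝ)^3 = 1/8 := by norm_num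
        rw [h7] at h5
        exact mul_le_mul_of_nonneg_right h5 (sq_nonneg _)
      have e : Real.sin (f r) - f r = (Real.sin (f r) - (f r - f r ^ 3 / 6)) - f r ^ 3 / 6 := by ring
      rw [e]
      refine (abs_sub _ _).trans ?_
      nlinarith
    have h1 : Mn (fun r => Real.sin (f r)) = Mn (fun r => Real.sin (f r) - f r) := by
      have e : (fun r => Real.sin (f r) - f r) = fun r => Real.sin (f r) + (-1) * f r := by funext r; ring
      rw [e, Mn_add s (AP_smul _ hf), Mn_smul _ hf, h0]; ring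
    rw [h1, abs_le]
    constructor
    · have h2 := Mn_mono (AP_smul (-(3/20)) hsq) (AP_sub s hf) (fun r => by
        have := (abs_le.1 (key r)).1; linarith)
      rw [Mn_smul _ hsq] at h2
      linarith
    · have h2 := Mn_mono (AP_sub s hf) (AP_smul (3/20) hsq) (fun r => by
        have := (abs_le.1 (key r)).2; linarith)
      rw [Mn_smul _ hsq] at h2
      linarith
  have h1 : N2 f ≤ 1 - v / 2 := by
    unfold N2
    rw [← sq_abs (Mn (fun r => Real.cos (f r))), ← sq_abs (Mn (fun r => Real.sin (f r)))]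
    have h2 : |Mn (fun r => Real.cos (f r))| ^ 2 ≤ (1 - v * (46/96)) ^ 2 := by gcongr
    have h3 : |Mn (fun r => Real.sin (f r))| ^ 2 ≤ (v * (3/20)) ^ 2 := by gcongr
    nlinarith
  have h2 := Real.add_one_le_exp (-(v/2))
  linarith

/-- the class sums are small -/
lemma cls_bound {k : ℕ} (hk : 2 ≤ k) : ∃ C : ℝ, 0 < C ∧ ∀ q : ℕ, 1 ≤ q → ∀ N r, |XS k {q} N r| ≤ C * (q:ℝ) ^ (-kap k) := by
  classical
  obtain ⟨C, hC, h⟩ := ak_upper hk
  have hk' : (2:ℝ) ≤ k := by exact_mod_cast hk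
  have hs : Summable (fun j : ℕ => (j:ℝ) ^ (-(5/4) : ℝ)) := Real.summable_nat_rpow.2 (by norm_num)
  set S := ∑' j : ℕ, (j:ℝ) ^ (-(5/4) : ℝ) with hS
  have hS0 : 0 ≤ S := tsum_nonneg (fun _ => by positivity)
  refine ⟨C * (S + 1), by positivity, fun q hq N r => ?_⟩
  have hq0 : (0:ℝ) < q := by exact_mod_cast hq
  unfold XS TS
  refine (FS_abs k _ r).trans ?_
  have hsub : (Finset.Icc 1 N).filter (· ∈ US k {q}) ⊆ (Finset.Icc 1 N).image (fun j => q * j ^ k) := by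
    intro m hm
    obtain ⟨h1, q', hq', -, j, hj, rfl⟩ := Finset.mem_filter.1 hm
    rw [Set.mem_singleton_iff] at hq'
    subst hq'
    rw [Finset.mem_Icc] at h1
    refine Finset.mem_image.2 ⟨j, Finset.mem_Icc.2 ⟨hj, ?_⟩, rfl⟩
    have : j ≤ j ^ k := Nat.le_self_pow (by omega) j
    have : j ^ k ≤ q' * j ^ k := Nat.le_mul_of_pos_left _ hq
    omega
  have h1 : ∑ m ∈ (Finset.Icc 1 N).filter (· ∈ US k {q}), ak k m ≤ ∑ j ∈ Finset.Icc 1 N, ak k (q * j ^ k) := by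
    refine (Finset.sum_le_sum_of_subset_of_nonneg hsub (fun m _ _ => ak_nonneg k m)).trans ?_
    rw [Finset.sum_image]
    intro a ha b hb hab
    simp only at hab
    have := Nat.eq_of_mul_eq_mul_left hq hab
    exact (Nat.pow_left_injective (by omega : k ≠ 0)) this
  refine h1.trans ?_
  have h2 : ∀ j ∈ Finset.Icc 1 N, ak k (q * j ^ k) ≤ C * (q:ℝ) ^ (-kap k) * (j:ℝ) ^ (-(5/4) : ℝ) := by
    intro j hj
    rw [Finset.mem_Icc] at hj
    have hj1 : (1:ℝ) ≤ j := by exact_mod_cast hj.1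
    have hpos : 1 ≤ q * j ^ k := Nat.mul_pos hq (pow_pos hj.1 k)
    refine (h _ hpos).trans ?_
    push_cast
    rw [Real.mul_rpow hq0.le (by positivity), ← Real.rpow_natCast (j:ℝ) k, ← Real.rpow_mul (by linarith), mul_assoc]
    apply mul_le_mul_of_nonneg_left _ hC.le
    apply mul_le_mul_of_nonneg_left _ (by positivity)
    apply Real.rpow_le_rpow_of_exponent_le hj1
    have := kap_k hk
    have e : (k:ℝ) * -kap k = -((k:ℝ) * kap k) := by ring
    rw [e, this]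
    linarith
  refine (Finset.sum_le_sum h2).trans ?_
  rw [← Finset.mul_sum]
  have h3 : ∑ j ∈ Finset.Icc 1 N, (j:ℝ) ^ (-(5/4) : ℝ) ≤ S := hs.sum_le_tsum _ (fun _ _ => by positivity)
  have h4 : 0 ≤ C * (q:ℝ) ^ (-kap k) := by positivity
  nlinarith

lemma N2_prod {k : ℕ} (hk : 2 ≤ k) (t : ℝ) (N : ℕ) (s : Finset ℕ) : ∀ Q' : Set ℕ, Disjoint (s : Set ℕ) Q' →
    N2 (fun r => t * XS k (↑s ∪ Q') N r) ≤ ∏ q ∈ s, N2 (fun r => t * XS k {q} N r) := by
  classical
  induction s using Finset.induction_on with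
  | empty =>
    intro Q' _
    rw [Finset.prod_empty]
    exact N2_le_one (AP_smul _ (XS_AG hk _ _).ap)
  | insert a s ha ih =>
    intro Q' hd
    have hd1 : Disjoint (s : Set ℕ) Q' := by
      rw [Finset.coe_insert] at hd
      exact (Set.disjoint_insert_left.1 hd).2
    have haQ : a ∉ Q' := by
      rw [Finset.coe_insert] at hd
      exact (Set.disjoint_insert_left.1 hd).1
    have hd2 : Disjoint ({a} : Set ℕ) ((s : Set ℕ) ∪ Q') := by
      rw [Set.disjoint_singleton_left]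
      rintro (h | h)
      · exact ha (Finset.mem_coe.1 h)
      · exact haQ h
    have e : ((insert a s : Finset ℕ) : Set ℕ) ∪ Q' = {a} ∪ (↑s ∪ Q') := by
      rw [Finset.coe_insert, Set.insert_eq, Set.union_assoc]
    rw [e, Finset.prod_insert ha]
    have e2 : (fun r => t * XS k ({a} ∪ (↑s ∪ Q')) N r) = fun r => t * XS k {a} N r + t * XS k (↑s ∪ Q') N r := by
      funext r
      rw [XS_union k hd2]; ring
    rw [e2, N2_mul (GQ_disj hk hd2) (AG_smul t (XS_AG hk _ N)) (AG_smul t (XS_AG hk _ N))]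
    exact mul_le_mul_of_nonneg_left (ih Q' hd1) (N2_nonneg _)

lemma XS_mean {k : ℕ} (hk : 2 ≤ k) (Q : Set ℕ) (N : ℕ) : Mn (XS k Q N) = 0 := by
  classical
  exact Mn_FS hk (fun m hm => (Finset.mem_Icc.1 (Finset.mem_filter.1 hm).1).1)

lemma XS_var_ge {k : ℕ} (hk : 2 ≤ k) {q : ℕ} (hq : KF k q) {N : ℕ} (hN : q ≤ N) : ak k q ^ 2 / 2 ≤ Mn (fun r => XS k {q} N r ^ 2) := by
  classical
  unfold XS TS
  rw [Mn_FS_sq hk (fun m hm => (Finset.mem_Icc.1 (Finset.mem_filter.1 hm).1).1)]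
  apply div_le_div_of_nonneg_right _ (by norm_num)
  apply Finset.single_le_sum (f := fun m => ak k m ^ 2) (fun _ _ => by positivity)
  rw [Finset.mem_filter, Finset.mem_Icc]
  exact ⟨⟨hq.1, hN⟩, q, rfl, hq, 1, le_rfl, by simp⟩

/-- **decay** -/
theorem N2_decay {k : ℕ} (hk : 2 ≤ k) {Q : Set ℕ} (hQ : Rich k Q) : ∃ c t₀ : ℝ, 0 < c ∧ 0 < t₀ ∧ ∀ t : ℝ, t₀ ≤ |t| →
    ∃ N₀ : ℕ, ∀ N : ℕ, N₀ ≤ N → N2 (fun r => t * XS k Q N r) ≤ Real.exp (-(2 * c * |t| ^ (6/5 : ℝ))) := by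
  obtain ⟨c₀, hc₀, D₀, hrich⟩ := hQ
  obtain ⟨C₁, hC₁, hcls⟩ := cls_bound hk
  have hk' : (2:ℝ) ≤ k := by exact_mod_cast hk
  have hkap := kap_pos hk
  have hkk := kap_k hk
  have hpi := Real.pi_pos
  set a₁ : ℝ := 1 / (Real.pi * √(k:ℝ)) with ha₁
  have ha₁0 : 0 < a₁ := by positivity
  -- the constant
  set c₂ : ℝ := c₀ * a₁ ^ 2 * (2 ^ (-(((k:ℝ) + 1) / k))) / 4 with hc₂
  have hc₂0 : 0 < c₂ := by positivity
  set c : ℝ := c₂ * (2 ^ (-(1 / (k:ℝ)))) * ((2 * C₁) ^ (-(4/5) : ℝ)) / 2 with hc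
  refine ⟨c, max (1 / (2 * C₁)) ((((D₀:ℝ) + 1) ^ kap k) / (2 * C₁)), by positivity, by positivity, fun t ht => ?_⟩
  have ht1 : 1 ≤ 2 * C₁ * |t| := by
    have := (le_max_left _ _).trans ht
    rw [div_le_iff₀ (by positivity)] at this
    linarith
  have ht2 : ((D₀:ℝ) + 1) ^ kap k ≤ 2 * C₁ * |t| := by
    have := (le_max_right _ _).trans ht
    rw [div_le_iff₀ (by positivity)] at this
    linarith
  set X := 2 * C₁ * |t| with hX
  have hX0 : 0 < X := by linarith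
  have ht0 : 0 < |t| := by
    by_contra hcon
    have : |t| = 0 := le_antisymm (not_lt.1 hcon) (abs_nonneg t)
    rw [hX, this] at hX0
    simp at hX0
  set y := X ^ (1 / kap k) with hy
  have hy1 : 1 ≤ y := Real.one_le_rpow ht1 (by positivity)
  set D := ⌈y⌉₊ with hD
  have hDy : y ≤ D := Nat.le_ceil y
  have hDy2 : (D:ℝ) ≤ 2 * y := by
    have := Nat.ceil_lt_add_one (by linarith : 0 ≤ y)
    linarith
  have hD0 : D₀ ≤ D := by
    have h1 : ((D₀:ℝ) + 1) ≤ y := by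
      rw [hy]
      have : ((D₀:ℝ) + 1) = (((D₀:ℝ) + 1) ^ kap k) ^ (1 / kap k) := by
        rw [← Real.rpow_mul (by positivity), mul_one_div_cancel hkap.ne', Real.rpow_one]
      rw [this]
      exact Real.rpow_le_rpow (by positivity) ht2 (by positivity)
    have h2 : (D₀:ℝ) ≤ D := by linarith
    exact_mod_cast h2
  obtain ⟨s, hs1, hs2, hs3⟩ := hrich D hD0
  refine ⟨2 * D, fun N hN => ?_⟩
  -- split
  have hsQ : Q = ↑s ∪ (Q \ ↑s) := by
    rw [Set.union_sdiff_cancel]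
    intro q hq
    exact (hs2 q hq).1
  have h1 := N2_prod hk t N s (Q \ ↑s) Set.disjoint_sdiff_right
  rw [← hsQ] at h1
  refine h1.trans ?_
  have hDpos : (0:ℝ) < D := by linarith
  have h2 : ∀ q ∈ s, N2 (fun r => t * XS k {q} N r) ≤ Real.exp (-(t ^ 2 * (a₁ ^ 2 * (2 * (D:ℝ)) ^ (-(((k:ℝ) + 1) / k))) / 4)) := by
    intro q hq
    have hqD := Finset.mem_Ioc.1 (hs1 hq)
    have hqf := (hs2 q hq).2
    have hq1 := hqf.1
    have hq0 : (0:ℝ) < q := by exact_mod_cast hq1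
    have hAP := (XS_AG hk {q} N).ap
    have hb : ∀ r, |t * XS k {q} N r| ≤ 1/2 := by
      intro r
      rw [abs_mul]
      have h3 := hcls q hq1 N r
      have h4 : (q:ℝ) ^ (-kap k) ≤ X⁻¹ := by
        have h5 : y ≤ q := by
          have : (D:ℝ) ≤ q := by exact_mod_cast hqD.1.le
          linarith
        calc (q:ℝ) ^ (-kap k) ≤ y ^ (-kap k) := Real.rpow_le_rpow_of_nonpos (by linarith) h5 (by linarith)
          _ = X⁻¹ := by
            rw [hy, ← Real.rpow_mul hX0.le]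
            have : 1 / kap k * -kap k = -1 := by field_simp
            rw [this, Real.rpow_neg_one]
      calc |t| * |XS k {q} N r| ≤ |t| * (C₁ * X⁻¹) := by
            apply mul_le_mul_of_nonneg_left _ (abs_nonneg t)
            exact h3.trans (mul_le_mul_of_nonneg_left h4 hC₁.le)
        _ = 1/2 := by rw [hX]; field_simp
    have hm0 : Mn (fun r => t * XS k {q} N r) = 0 := by
      rw [Mn_smul _ hAP]
      have := XS_mean hk {q} N
      rw [this, mul_zero]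
    refine (N2_small (AP_smul t hAP) hb hm0).trans ?_
    apply Real.exp_le_exp.2
    have e : (fun r => (t * XS k {q} N r) ^ 2) = fun r => t ^ 2 * XS k {q} N r ^ 2 := by funext r; ring
    rw [e, Mn_smul _ (AP_sq hAP)]
    have h3 := XS_var_ge hk hqf (hqD.2.trans hN)
    have h4 : a₁ ^ 2 * (2 * (D:ℝ)) ^ (-(((k:ℝ) + 1) / k)) ≤ ak k q ^ 2 := by
      have h5 := ak_lower hk hq1
      have h6 : (2 * (D:ℝ)) ^ (-(((k:ℝ) + 1) / k)) ≤ ((q:ℝ) ^ (-(((k:ℝ) + 1) / (2 * k)))) ^ 2 := by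
        rw [← Real.rpow_natCast ((q:ℝ) ^ (-(((k:ℝ) + 1) / (2 * k)))) 2, ← Real.rpow_mul hq0.le]
        have e : -(((k:ℝ) + 1) / (2 * k)) * ((2:ℕ):ℝ) = -(((k:ℝ) + 1) / k) := by push_cast; field_simp
        rw [e]
        apply Real.rpow_le_rpow_of_nonpos hq0
        · exact_mod_cast hqD.2
        · rw [neg_nonpos]; positivity
      calc a₁ ^ 2 * (2 * (D:ℝ)) ^ (-(((k:ℝ) + 1) / k)) ≤ a₁ ^ 2 * ((q:ℝ) ^ (-(((k:ℝ) + 1) / (2 * k)))) ^ 2 := by gcongr
        _ = (a₁ * (q:ℝ) ^ (-(((k:ℝ) + 1) / (2 * k)))) ^ 2 := by ring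
        _ ≤ ak k q ^ 2 := by gcongr
    have h5 : t ^ 2 * (a₁ ^ 2 * (2 * (D:ℝ)) ^ (-(((k:ℝ) + 1) / k))) ≤ t ^ 2 * ak k q ^ 2 := mul_le_mul_of_nonneg_left h4 (sq_nonneg t)
    have h6 : t ^ 2 * (ak k q ^ 2 / 2) ≤ t ^ 2 * Mn (fun r => XS k {q} N r ^ 2) := mul_le_mul_of_nonneg_left h3 (sq_nonneg t)
    linarith
  refine (Finset.prod_le_prod (fun _ _ => N2_nonneg _) h2).trans ?_
  rw [Finset.prod_const, ← Real.exp_nat_mul]
  apply Real.exp_le_exp.2
  have h3 : c₀ * D * (t ^ 2 * (a₁ ^ 2 * (2 * (D:ℝ)) ^ (-(((k:ℝ) + 1) / k))) / 4) ≤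
      s.card * (t ^ 2 * (a₁ ^ 2 * (2 * (D:ℝ)) ^ (-(((k:ℝ) + 1) / k))) / 4) := by
    apply mul_le_mul_of_nonneg_right hs3 (by positivity)
  have h4 : 2 * c * |t| ^ (6/5 : ℝ) ≤ c₀ * D * (t ^ 2 * (a₁ ^ 2 * (2 * (D:ℝ)) ^ (-(((k:ℝ) + 1) / k))) / 4) := by
    have e1 : c₀ * D * (t ^ 2 * (a₁ ^ 2 * (2 * (D:ℝ)) ^ (-(((k:ℝ) + 1) / k))) / 4) = c₂ * t ^ 2 * (D:ℝ) ^ (-(1 / (k:ℝ))) := by
      rw [Real.mul_rpow (by norm_num) hDpos.le, hc₂]
      have : (D:ℝ) ^ (-(1 / (k:ℝ))) = D * (D:ℝ) ^ (-(((k:ℝ) + 1) / k)) := by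
        nth_rewrite 2 [← Real.rpow_one (D:ℝ)]
        rw [← Real.rpow_add hDpos]
        congr 1; field_simp; ring
      rw [this]; ring
    rw [e1]
    have h5 : (2:ℝ) ^ (-(1 / (k:ℝ))) * X ^ (-(4/5) : ℝ) ≤ (D:ℝ) ^ (-(1 / (k:ℝ))) := by
      have h6 : (2 * y) ^ (-(1 / (k:ℝ))) ≤ (D:ℝ) ^ (-(1 / (k:ℝ))) := by
        apply Real.rpow_le_rpow_of_nonpos hDpos hDy2
        rw [neg_nonpos]; positivity
      refine le_trans ?_ h6
      rw [Real.mul_rpow (show (0:ℝ) ≤ 2 by norm_num) (show 0 ≤ y by linarith)]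
      apply mul_le_mul_of_nonneg_left _ (by positivity)
      rw [hy, ← Real.rpow_mul hX0.le]
      apply Real.rpow_le_rpow_of_exponent_le ht1
      have : 1 / kap k * -(1 / (k:ℝ)) = -(1 / ((k:ℝ) * kap k)) := by field_simp
      rw [this, hkk]
      apply neg_le_neg
      rw [one_div_div, div_le_div_iff₀ (by positivity) (by norm_num)]
      linarith
    have h7 : X ^ (-(4/5) : ℝ) = (2 * C₁) ^ (-(4/5) : ℝ) * |t| ^ (-(4/5) : ℝ) := by
      rw [hX, Real.mul_rpow (by positivity) (abs_nonneg t)]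
    have h8 : t ^ 2 * |t| ^ (-(4/5) : ℝ) = |t| ^ (6/5 : ℝ) := by
      rw [← sq_abs, ← Real.rpow_two, ← Real.rpow_add ht0]; norm_num
    calc 2 * c * |t| ^ (6/5 : ℝ) = c₂ * t ^ 2 * ((2:ℝ) ^ (-(1 / (k:ℝ))) * X ^ (-(4/5) : ℝ)) := by
          rw [h7, ← h8, hc]; ring
      _ ≤ _ := mul_le_mul_of_nonneg_left h5 (by positivity)
  linarith

/-- **the density** -/
theorem density {k : ℕ} (hk : 2 ≤ k) {Q : Set ℕ} (hQ : Rich k Q) {α : ProbabilityMeasure ℝ} (hα : Lim (XS k Q) α) :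
    ∃ f : ℝ → ℝ, Continuous f ∧ (∀ x, 0 ≤ f x) ∧ (α : Measure ℝ) = volume.withDensity (fun x => ENNReal.ofReal (f x)) ∧
      ∀ u v : ℝ, u < v → 0 < (α : Measure ℝ) (Set.Ioo u v) := by
  obtain ⟨c, t₀, hc, ht₀, hdec⟩ := N2_decay hk hQ
  have h1 : ∀ t : ℝ, ‖charFun (α : Measure ℝ) t‖ ≤ Real.exp (c * t₀ ^ (6/5 : ℝ)) * Real.exp (-(c * |t| ^ (6/5 : ℝ))) := by
    intro t
    rw [← Real.exp_add]
    rcases lt_or_ge |t| t₀ with ht | ht
    · refine (norm_charFun_le_one _).trans ?_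
      rw [← Real.exp_zero]
      apply Real.exp_le_exp.2
      have : |t| ^ (6/5 : ℝ) ≤ t₀ ^ (6/5 : ℝ) := Real.rpow_le_rpow (abs_nonneg t) ht.le (by norm_num)
      nlinarith
    · obtain ⟨N₀, hN₀⟩ := hdec t ht
      have hc1 := hα (fun x => Real.cos (t * x)) (by fun_prop) ⟨1, fun x => Real.abs_cos_le_one _⟩
      have hs1 := hα (fun x => Real.sin (t * x)) (by fun_prop) ⟨1, fun x => Real.abs_sin_le_one _⟩
      have hlim := (hc1.pow 2).add (hs1.pow 2)
      have hle : (∫ x, Real.cos (t * x) ∂(α : Measure ℝ)) ^ 2 + (∫ x, Real.sin (t * x) ∂(α : Measure ℝ)) ^ 2 ≤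
          Real.exp (-(2 * c * |t| ^ (6/5 : ℝ))) := by
        apply le_of_tendsto hlim
        filter_upwards [eventually_ge_atTop N₀] with N hN
        exact hN₀ N hN
      have hcf : charFun (α : Measure ℝ) t = ((∫ x, Real.cos (t * x) ∂(α : Measure ℝ) : ℝ) : ℂ) + ((∫ x, Real.sin (t * x) ∂(α : Measure ℝ) : ℝ) : ℂ) * Complex.I := by
        rw [charFun_apply_real]
        have e : ∀ x : ℝ, Complex.exp ((t:ℂ) * x * Complex.I) = ((Real.cos (t * x) : ℝ) : ℂ) + ((Real.sin (t * x) : ℝ) : ℂ) * Complex.I := by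
          intro x
          rw [← Complex.ofReal_mul, Complex.exp_mul_I, ← Complex.ofReal_cos, ← Complex.ofReal_sin]
        simp_rw [e]
        have i1 : Integrable (fun x : ℝ => ((Real.cos (t * x) : ℝ) : ℂ)) (α : Measure ℝ) :=
          Integrable.of_bound (by fun_prop) 1 (Eventually.of_forall fun x => by
            rw [Complex.norm_real]; exact Real.abs_cos_le_one _)
        have i2 : Integrable (fun x : ℝ => ((Real.sin (t * x) : ℝ) : ℂ) * Complex.I) (α : Measure ℝ) :=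
          Integrable.of_bound (by fun_prop) 1 (Eventually.of_forall fun x => by
            rw [norm_mul, Complex.norm_I, mul_one, Complex.norm_real]; exact Real.abs_sin_le_one _)
        rw [integral_add i1 i2, integral_mul_const, integral_complex_ofReal, integral_complex_ofReal]
      have hn : ‖charFun (α : Measure ℝ) t‖ ^ 2 ≤ Real.exp (-(2 * c * |t| ^ (6/5 : ℝ))) := by
        rw [hcf, Complex.sq_norm, Complex.normSq_add_mul_I]
        exact hle
      have hn2 : ‖charFun (α : Measure ℝ) t‖ ≤ Real.exp (-(c * |t| ^ (6/5 : ℝ))) := by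
        apply abs_le_of_sq_le_sq' _ (Real.exp_pos _).le |>.2
        rw [← Real.exp_nat_mul]
        refine hn.trans (le_of_eq ?_)
        congr 1; push_cast; ring
      refine hn2.trans ?_
      apply Real.exp_le_exp.2
      have : 0 ≤ c * t₀ ^ (6/5 : ℝ) := by positivity
      linarith
  obtain ⟨g, hg1, hg2, hg3, hg4⟩ := Pool.Agent.H383.ED.entire_density (α : Measure ℝ) hc (by norm_num : (1:ℝ) < 6/5) (Real.exp_pos _).le h1
  refine ⟨fun x => (g x).re, ?_, fun x => (hg2 x).1, hg3, hg4⟩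
  exact Complex.continuous_re.comp (hg1.continuous.comp Complex.continuous_ofReal)

end Pool.Agent.H592.PD
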