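import Pool.Agent.H592.PD.E3
import Pool.Graph.R_pool_sql_team_seeded_f0cf7b00.H814R2.PZA4

/-!
# Arithmetic: bounds for the coefficients and many squarefree numbers
-/

open MeasureTheory Filter Topology Finset
open Pool.Agent.H383.PZ

namespace Pool.Agent.H592.PD

/-- `d_k(m) = O(m^(1/8))` -/
lemma dk_eps (k : ℕ) : ∃ C : ℝ, 0 < C ∧ ∀ m : ℕ, 1 ≤ m → dk k m ≤ C * (m:ℝ) ^ (1/8 : ℝ) := by
  set K := ((k * k) * (k * k)) * ((k * k) * (k * k)) with hK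
  have hs := Pool.Agent.H452R2.PO.dk_sq_summable K (σ := 2) (by norm_num)
  set S := ∑' m : ℕ, dk K m ^ 2 * (m:ℝ) ^ (-(2:ℝ)) with hS
  have hS0 : 0 ≤ S := tsum_nonneg (fun m => by positivity)
  refine ⟨(S + 1) ^ (1/8 : ℝ), by positivity, fun m hm => ?_⟩
  have hm0 : (0:ℝ) < m := by exact_mod_cast hm
  have h1 : dk K m ^ 2 * (m:ℝ) ^ (-(2:ℝ)) ≤ S := hs.le_tsum m (fun _ _ => by positivity)
  have h2 : dk K m ^ 2 ≤ S * (m:ℝ) ^ 2 := by
    rw [Real.rpow_neg hm0.le, ← div_eq_mul_inv, div_le_iff₀ (by positivity)] at h1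
    rwa [Real.rpow_two] at h1
  have h3 : dk K m ≤ (S + 1) * m := by
    apply abs_le_of_sq_le_sq' _ (by positivity) |>.2
    calc dk K m ^ 2 ≤ S * (m:ℝ) ^ 2 := h2
      _ ≤ (S + 1) ^ 2 * (m:ℝ) ^ 2 := by gcongr; nlinarith
      _ = ((S + 1) * m) ^ 2 := by ring
  have h0 := Pool.Agent.H383.PZ.dk_nonneg k m
  have d1 := Pool.Agent.H452R2.PO.dk_sq_le k m
  have d2 := Pool.Agent.H452R2.PO.dk_sq_le (k * k) m
  have d3 := Pool.Agent.H452R2.PO.dk_sq_le ((k * k) * (k * k)) m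
  have h4 : dk k m ^ 8 ≤ (S + 1) * m := by
    calc dk k m ^ 8 = ((dk k m ^ 2) ^ 2) ^ 2 := by ring
      _ ≤ ((dk (k * k) m) ^ 2) ^ 2 := by gcongr
      _ ≤ (dk ((k * k) * (k * k)) m) ^ 2 := by gcongr
      _ ≤ dk K m := d3
      _ ≤ _ := h3
  calc dk k m = (dk k m ^ 8) ^ (1/8 : ℝ) := by
        rw [← Real.rpow_natCast, ← Real.rpow_mul h0]; norm_num
    _ ≤ ((S + 1) * m) ^ (1/8 : ℝ) := Real.rpow_le_rpow (by positivity) h4 (by norm_num)
    _ = (S + 1) ^ (1/8 : ℝ) * (m:ℝ) ^ (1/8 : ℝ) := Real.mul_rpow (by positivity) hm0.le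

/-- the exponent `(k+3)/(4k)` -/
noncomputable def kap (k : ℕ) : ℝ := ((k:ℝ) + 3) / (4 * k)

lemma kap_pos {k : ℕ} (hk : 2 ≤ k) : 0 < kap k := by
  have : (2:ℝ) ≤ k := by exact_mod_cast hk
  unfold kap; positivity

lemma kap_k {k : ℕ} (hk : 2 ≤ k) : (k:ℝ) * kap k = ((k:ℝ) + 3) / 4 := by
  have : (2:ℝ) ≤ k := by exact_mod_cast hk
  unfold kap; field_simp

lemma ak_upper {k : ℕ} (hk : 2 ≤ k) : ∃ C : ℝ, 0 < C ∧ ∀ m : ℕ, 1 ≤ m → ak k m ≤ C * (m:ℝ) ^ (-kap k) := by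
  have hk' : (2:ℝ) ≤ k := by exact_mod_cast hk
  obtain ⟨C, hC, h⟩ := dk_eps k
  refine ⟨C, hC, fun m hm => ?_⟩
  have hm1 : (1:ℝ) ≤ m := by exact_mod_cast hm
  have hm0 : (0:ℝ) < m := by linarith
  refine (ak_le hk m).trans ?_
  calc dk k m * (m : ℝ) ^ (-(((k:ℝ) + 1) / (2 * k)) : ℝ) ≤ (C * (m:ℝ) ^ (1/8 : ℝ)) * (m : ℝ) ^ (-(((k:ℝ) + 1) / (2 * k)) : ℝ) :=
        mul_le_mul_of_nonneg_right (h m hm) (by positivity)
    _ = C * (m:ℝ) ^ (1/8 + -(((k:ℝ) + 1) / (2 * k)) : ℝ) := by rw [Real.rpow_add hm0]; ring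
    _ ≤ C * (m:ℝ) ^ (-kap k) := by
      apply mul_le_mul_of_nonneg_left _ hC.le
      apply Real.rpow_le_rpow_of_exponent_le hm1
      unfold kap
      have h1 : (1:ℝ)/8 ≤ ((k:ℝ) - 1) / (4 * k) := by
        rw [div_le_div_iff₀ (by norm_num) (by positivity)]; linarith
      have h2 : ((k:ℝ) + 1) / (2 * k) = ((k:ℝ) + 3) / (4 * k) + ((k:ℝ) - 1) / (4 * k) := by field_simp; ring
      linarith

lemma dk_one_le {k : ℕ} (hk : 1 ≤ k) {m : ℕ} (hm : 1 ≤ m) : 1 ≤ dk k m := by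
  induction k, hk using Nat.le_induction with
  | base =>
    rw [Pool.Agent.H814R2.PZA4.dk_succ 0]
    have : ∑ d ∈ m.divisors, dk 0 d ≥ dk 0 1 := Finset.single_le_sum (f := fun d => dk 0 d) (fun d _ => Pool.Agent.H383.PZ.dk_nonneg 0 d) (Nat.one_mem_divisors.2 (by omega))
    have h1 : dk 0 1 = 1 := by simp [dk]
    linarith
  | succ k hk ih =>
    rw [Pool.Agent.H814R2.PZA4.dk_succ k]
    have : ∑ d ∈ m.divisors, dk k d ≥ dk k m := Finset.single_le_sum (f := fun d => dk k d) (fun d _ => Pool.Agent.H383.PZ.dk_nonneg k d) (Nat.mem_divisors_self m (by omega))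
    linarith

lemma dk_ge_divisors {k : ℕ} (hk : 2 ≤ k) {m : ℕ} (hm : 1 ≤ m) : (m.divisors.card : ℝ) ≤ dk k m := by
  obtain ⟨j, rfl⟩ : ∃ j, k = j + 1 := ⟨k - 1, by omega⟩
  rw [Pool.Agent.H814R2.PZA4.dk_succ j]
  have h1 : ∑ _d ∈ m.divisors, (1:ℝ) ≤ ∑ d ∈ m.divisors, dk j d := by
    apply Finset.sum_le_sum
    intro d hd
    exact dk_one_le (by omega) (Nat.pos_of_mem_divisors hd)
  simpa using h1

lemma ak_lower {k : ℕ} (hk : 2 ≤ k) {m : ℕ} (hm : 1 ≤ m) :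
    (1 / (Real.pi * √(k:ℝ))) * (m:ℝ) ^ (-(((k:ℝ) + 1) / (2 * k))) ≤ ak k m := by
  unfold ak
  have h1 := dk_one_le (by omega : 1 ≤ k) hm
  have h2 : (0:ℝ) ≤ (m:ℝ) ^ (-(((k:ℝ) + 1) / (2 * k))) := by positivity
  have h3 : (0:ℝ) ≤ 1 / (Real.pi * √(k:ℝ)) := by positivity
  calc (1 / (Real.pi * √(k:ℝ))) * (m:ℝ) ^ (-(((k:ℝ) + 1) / (2 * k))) = 1 * (m:ℝ) ^ (-(((k:ℝ) + 1) / (2 * k))) * (1 / (Real.pi * √(k:ℝ))) := by ring
    _ ≤ _ := by gcongr

lemma sqfree_KF {k q : ℕ} (hk : 2 ≤ k) (hq : Squarefree q) : KF k q := by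
  refine ⟨Nat.pos_of_ne_zero hq.ne_zero, fun p hp hdvd => ?_⟩
  have h2 : p * p ∣ q := by
    rw [← pow_two]
    exact (pow_dvd_pow p hk).trans hdvd
  exact hp.not_isUnit (hq p h2)

/-- the odd squarefree numbers in `(a, b]` which are not divisible by `p` -/
def OS (a b p : ℕ) : Finset ℕ := (Finset.Ioc a b).filter (fun e => ¬ 2 ∣ e ∧ ¬ p ∣ e ∧ Squarefree e)

lemma mult_card (a b d : ℕ) (hd : 1 ≤ d) (hab : a ≤ b) : (((Finset.Ioc a b).filter (fun e => d ∣ e)).card : ℝ) ≤ ((b:ℝ) - a) / d + 1 := by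
  have h := Nat.Ioc_filter_dvd_card_eq_div
  have h1 : ((Finset.Ioc a b).filter (fun e => d ∣ e)).card = b / d - a / d := by
    have e : (Finset.Ioc 0 b).filter (fun e => d ∣ e) = ((Finset.Ioc 0 a).filter (fun e => d ∣ e)) ∪ ((Finset.Ioc a b).filter (fun e => d ∣ e)) := by
      ext m
      simp only [Finset.mem_union, Finset.mem_filter, Finset.mem_Ioc]
      constructor
      · rintro ⟨⟨h1, h2⟩, h3⟩
        by_cases hm : m ≤ a
        · left; exact ⟨⟨h1, hm⟩, h3⟩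
        · right; exact ⟨⟨by omega, h2⟩, h3⟩
      · rintro (⟨⟨h1, h2⟩, h3⟩ | ⟨⟨h1, h2⟩, h3⟩)
        · exact ⟨⟨h1, by omega⟩, h3⟩
        · exact ⟨⟨by omega, h2⟩, h3⟩
    have hd' : Disjoint ((Finset.Ioc 0 a).filter (fun e => d ∣ e)) ((Finset.Ioc a b).filter (fun e => d ∣ e)) := by
      rw [Finset.disjoint_left]
      intro m h1 h2
      simp only [Finset.mem_filter, Finset.mem_Ioc] at h1 h2
      omega
    have h2 := congrArg Finset.card e
    rw [Finset.card_union_of_disjoint hd', h b d, h a d] at h2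
    omega
  rw [h1]
  have hd0 : (0:ℝ) < d := by exact_mod_cast hd
  have h2 : ((b / d : ℕ) : ℝ) ≤ (b:ℝ) / d := Nat.cast_div_le
  have h3 : (a:ℝ) / d < ((a / d : ℕ) : ℝ) + 1 := by
    rw [div_lt_iff₀ hd0]
    have := Nat.lt_div_mul_add (a := a) (b := d) (by omega)
    have h4 : (a:ℝ) < ((a / d : ℕ) : ℝ) * d + d := by exact_mod_cast this
    linarith
  rw [Nat.cast_sub (Nat.div_le_div_right hab), sub_div]
  linarith

lemma OS_card {a b p : ℕ} (hab : a ≤ b) (hp : 5 ≤ p) : ((b:ℝ) - a) / 20 - (2 + Nat.sqrt b) ≤ ((OS a b p).card : ℝ) := by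
  classical
  set I := Nat.sqrt b with hI
  have hcover : Finset.Ioc a b ⊆ OS a b p ∪ ((Finset.Ioc a b).filter (fun e => 2 ∣ e) ∪ ((Finset.Ioc a b).filter (fun e => p ∣ e) ∪
      (Finset.range I).biUnion (fun i => (Finset.Ioc a b).filter (fun e => (2*i+3)^2 ∣ e)))) := by
    intro e he
    simp only [Finset.mem_union, Finset.mem_biUnion, Finset.mem_filter, Finset.mem_range, OS]
    by_cases h2 : 2 ∣ e
    · right; left; exact ⟨he, h2⟩
    by_cases h3 : p ∣ e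
    · right; right; left; exact ⟨he, h3⟩
    by_cases h4 : Squarefree e
    · left; exact ⟨he, h2, h3, h4⟩
    right; right; right
    rw [Finset.mem_Ioc] at he
    rw [Nat.squarefree_iff_prime_squarefree] at h4
    push Not at h4
    obtain ⟨r, hr, hdvd⟩ := h4
    have hr2 : r ≠ 2 := by
      intro h
      subst h
      exact h2 ((dvd_mul_right 2 2).trans hdvd)
    have hrodd : ¬ 2 ∣ r := fun h => hr2 ((Nat.prime_dvd_prime_iff_eq Nat.prime_two hr).1 h).symm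
    have hr3 : 3 ≤ r := by
      have := hr.two_le
      omega
    obtain ⟨i, hi⟩ : ∃ i, r = 2 * i + 3 := ⟨(r - 3) / 2, by omega⟩
    refine ⟨i, ?_, Finset.mem_Ioc.2 he, ?_⟩
    · have h5 : r * r ≤ b := (Nat.le_of_dvd (by omega) hdvd).trans he.2
      have h6 : r ≤ I := by rw [hI]; exact Nat.le_sqrt.2 h5
      omega
    · rw [← hi, pow_two]; exact hdvd
  have hcard := (Finset.card_le_card hcover).trans (Finset.card_union_le _ _)
  have hc2 := Finset.card_union_le ((Finset.Ioc a b).filter (fun e => 2 ∣ e)) ((Finset.Ioc a b).filter (fun e => p ∣ e) ∪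
      (Finset.range I).biUnion (fun i => (Finset.Ioc a b).filter (fun e => (2*i+3)^2 ∣ e)))
  have hc3 := Finset.card_union_le ((Finset.Ioc a b).filter (fun e => p ∣ e))
      ((Finset.range I).biUnion (fun i => (Finset.Ioc a b).filter (fun e => (2*i+3)^2 ∣ e)))
  have hc4 : ((Finset.range I).biUnion (fun i => (Finset.Ioc a b).filter (fun e => (2*i+3)^2 ∣ e))).card ≤
      ∑ i ∈ Finset.range I, ((Finset.Ioc a b).filter (fun e => (2*i+3)^2 ∣ e)).card := Finset.card_biUnion_le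
  rw [Nat.card_Ioc] at hcard
  have hall : b - a ≤ (OS a b p).card + (((Finset.Ioc a b).filter (fun e => 2 ∣ e)).card + (((Finset.Ioc a b).filter (fun e => p ∣ e)).card +
      ∑ i ∈ Finset.range I, ((Finset.Ioc a b).filter (fun e => (2*i+3)^2 ∣ e)).card)) := by omega
  have hall' : (b:ℝ) - a ≤ (OS a b p).card + ((((Finset.Ioc a b).filter (fun e => 2 ∣ e)).card : ℝ) + ((((Finset.Ioc a b).filter (fun e => p ∣ e)).card : ℝ) +
      ∑ i ∈ Finset.range I, (((Finset.Ioc a b).filter (fun e => (2*i+3)^2 ∣ e)).card : ℝ))) := by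
    rw [← Nat.cast_sub hab]
    exact_mod_cast hall
  have hba : (0:ℝ) ≤ (b:ℝ) - a := by
    have : (a:ℝ) ≤ b := by exact_mod_cast hab
    linarith
  have m2 := mult_card a b 2 (by norm_num) hab
  have mp := mult_card a b p (by omega) hab
  have mp' : ((b:ℝ) - a) / p ≤ ((b:ℝ) - a) / 5 := by
    apply div_le_div_of_nonneg_left hba (by norm_num)
    exact_mod_cast hp
  have ms : ∑ i ∈ Finset.range I, (((Finset.Ioc a b).filter (fun e => (2*i+3)^2 ∣ e)).card : ℝ) ≤ ((b:ℝ) - a) / 4 + I := by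
    have t1 : ∀ i : ℕ, (((Finset.Ioc a b).filter (fun e => (2*i+3)^2 ∣ e)).card : ℝ) ≤ ((b:ℝ) - a) * ((1/4) * (1 / ((i:ℝ)+1) - 1 / ((i:ℝ)+1+1))) + 1 := by
      intro i
      refine (mult_card a b ((2*i+3)^2) (Nat.one_le_pow _ _ (by omega)) hab).trans ?_
      have t2 : (1:ℝ) / (((2*i+3)^2 : ℕ) : ℝ) ≤ (1/4) * (1 / ((i:ℝ)+1) - 1 / ((i:ℝ)+1+1)) := by
        have : (1/4) * (1 / ((i:ℝ)+1) - 1 / ((i:ℝ)+1+1)) = 1 / (4 * (((i:ℝ)+1) * ((i:ℝ)+1+1))) := by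
          field_simp
          ring
        rw [this]
        apply one_div_le_one_div_of_le (by positivity)
        push_cast
        nlinarith
      rw [div_eq_mul_one_div]
      have := mul_le_mul_of_nonneg_left t2 hba
      linarith
    refine (Finset.sum_le_sum (fun i _ => t1 i)).trans ?_
    rw [Finset.sum_add_distrib, ← Finset.mul_sum, ← Finset.mul_sum]
    have t3 := Finset.sum_range_sub' (fun i : ℕ => 1 / ((i:ℝ)+1)) I
    have t4 : ∑ i ∈ Finset.range I, (1 / ((i:ℝ)+1) - 1 / ((i:ℝ)+1+1)) ≤ 1 := by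
      have e : ∑ i ∈ Finset.range I, (1 / ((i:ℝ)+1) - 1 / ((i:ℝ)+1+1)) = 1 / (((0:ℕ):ℝ)+1) - 1 / ((I:ℝ)+1) := by
        rw [← t3]
        apply Finset.sum_congr rfl
        intro i _
        push_cast
        rfl
      rw [e]
      have : 0 ≤ 1 / ((I:ℝ)+1) := by positivity
      simp only [Nat.cast_zero, zero_add, div_one]
      linarith
    simp only [Finset.sum_const, Finset.card_range, nsmul_eq_mul, mul_one]
    nlinarith
  push_cast at m2
  linarith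

lemma sqrt_small : ∀ η : ℝ, 0 < η → ∃ D₀ : ℕ, ∀ D : ℕ, D₀ ≤ D → 2 + (Nat.sqrt D : ℝ) ≤ η * D := by
  intro η hη
  have h1 : Tendsto (fun D : ℕ => (D:ℝ)) atTop atTop := tendsto_natCast_atTop_atTop
  obtain ⟨D₁, hD₁⟩ := eventually_atTop.1 (h1.eventually_ge_atTop (max (4/η) ((2/η)^2)))
  refine ⟨D₁, fun D hD => ?_⟩
  have h2 := hD₁ D hD
  have h3 : 4/η ≤ (D:ℝ) := (le_max_left _ _).trans h2
  have h4 : (2/η)^2 ≤ (D:ℝ) := (le_max_right _ _).trans h2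
  have h5 : (Nat.sqrt D : ℝ) ≤ √(D:ℝ) := Real.nat_sqrt_le_real_sqrt
  have h6 : 2/η ≤ √(D:ℝ) := Real.le_sqrt_of_sq_le h4
  have h7 : √(D:ℝ) * √(D:ℝ) = D := Real.mul_self_sqrt (Nat.cast_nonneg D)
  rw [div_le_iff₀ hη] at h3 h6
  have h8 : 2 * √(D:ℝ) ≤ η * D := by
    have := mul_le_mul_of_nonneg_right h6 (Real.sqrt_nonneg (D:ℝ))
    nlinarith
  nlinarith

/-- a set with many `k`-free numbers in each dyadic interval -/
def Rich (k : ℕ) (Q : Set ℕ) : Prop := ∃ c : ℝ, 0 < c ∧ ∃ D₀ : ℕ, ∀ D : ℕ, D₀ ≤ D → ∃ s : Finset ℕ, s ⊆ Finset.Ioc D (2 * D) ∧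
  (∀ q ∈ s, q ∈ Q ∧ KF k q) ∧ c * D ≤ s.card

lemma Rich.mono {k : ℕ} {Q Q' : Set ℕ} (h : Rich k Q) (hQ : Q ⊆ Q') : Rich k Q' := by
  obtain ⟨c, hc, D₀, h1⟩ := h
  refine ⟨c, hc, D₀, fun D hD => ?_⟩
  obtain ⟨s, h2, h3, h4⟩ := h1 D hD
  exact ⟨s, h2, fun q hq => ⟨hQ (h3 q hq).1, (h3 q hq).2⟩, h4⟩

lemma rich_odd {k : ℕ} (hk : 2 ≤ k) : Rich k {q | ¬ 2 ∣ q} := by
  obtain ⟨D₀, hD₀⟩ := sqrt_small (1/80) (by norm_num)
  refine ⟨1/40, by norm_num, D₀, fun D hD => ⟨OS D (2 * D) 5, Finset.filter_subset _ _, fun q hq => ?_, ?_⟩⟩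
  · have := (Finset.mem_filter.1 hq).2
    exact ⟨this.1, sqfree_KF hk this.2.2⟩
  · have h1 := OS_card (a := D) (b := 2 * D) (p := 5) (by omega) le_rfl
    have h2 := hD₀ (2 * D) (by omega)
    push_cast at h1 h2
    linarith

lemma rich_even {k : ℕ} (hk : 2 ≤ k) : Rich k {q | 2 ∣ q} := by
  obtain ⟨D₀, hD₀⟩ := sqrt_small (1/80) (by norm_num)
  refine ⟨1/80, by norm_num, D₀, fun D hD => ⟨(OS (D/2) D 5).image (fun e => 2 * e), ?_, fun q hq => ?_, ?_⟩⟩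
  · intro q hq
    obtain ⟨e, he, rfl⟩ := Finset.mem_image.1 hq
    have := Finset.mem_Ioc.1 (Finset.mem_filter.1 he).1
    rw [Finset.mem_Ioc]
    omega
  · obtain ⟨e, he, rfl⟩ := Finset.mem_image.1 hq
    have h1 := (Finset.mem_filter.1 he).2
    refine ⟨dvd_mul_right 2 e, sqfree_KF hk ?_⟩
    rw [Nat.squarefree_mul (by
      rw [Nat.coprime_two_left, ← Nat.not_even_iff_odd, even_iff_two_dvd]; exact h1.1)]
    exact ⟨Nat.prime_two.squarefree, h1.2.2⟩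
  · rw [Finset.card_image_of_injective _ (fun a b h => by simpa using h)]
    have h1 := OS_card (a := D/2) (b := D) (p := 5) (by omega) le_rfl
    have h2 := hD₀ D hD
    have h3 : ((D/2 : ℕ) : ℝ) ≤ (D:ℝ) / 2 := Nat.cast_div_le
    linarith

/-- the odd squarefree numbers in `(D, 2D]` -/
def OQ (D : ℕ) : Finset ℕ := (Finset.Ioc D (2 * D)).filter (fun e => ¬ 2 ∣ e ∧ Squarefree e)

lemma OQ_mult {D p : ℕ} (hp : p.Prime) (hp5 : 5 ≤ p) :
    ((D:ℝ) / p - 1) / 20 - (2 + Nat.sqrt (2 * D)) ≤ (((OQ D).filter (fun q => p ∣ q)).card : ℝ) := by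
  have hp0 : (0:ℝ) < p := by exact_mod_cast hp.pos
  have h1 := OS_card (a := D / p) (b := 2 * D / p) (p := p) (Nat.div_le_div_right (by omega)) hp5
  have h2 : (OS (D / p) (2 * D / p) p).card ≤ ((OQ D).filter (fun q => p ∣ q)).card := by
    rw [← Finset.card_image_of_injective (OS (D / p) (2 * D / p) p) (f := fun e => p * e) (fun a b h => by
      simpa [hp.ne_zero] using h)]
    apply Finset.card_le_card
    intro q hq
    obtain ⟨e, he, rfl⟩ := Finset.mem_image.1 hq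
    obtain ⟨h3, h4, h5, h6⟩ := Finset.mem_filter.1 he
    rw [Finset.mem_Ioc] at h3
    simp only [OQ, Finset.mem_filter, Finset.mem_Ioc]
    refine ⟨⟨⟨?_, ?_⟩, ?_, ?_⟩, dvd_mul_right p e⟩
    · have := (Nat.div_lt_iff_lt_mul hp.pos).1 h3.1
      rwa [mul_comm] at this
    · have := (Nat.le_div_iff_mul_le hp.pos).1 h3.2
      rwa [mul_comm] at this
    · intro h7
      rcases (Nat.prime_two.dvd_mul).1 h7 with h8 | h8
      · have := (Nat.prime_dvd_prime_iff_eq Nat.prime_two hp).1 h8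
        omega
      · exact h4 h8
    · rw [Nat.squarefree_mul ((Nat.Prime.coprime_iff_not_dvd hp).2 h5)]
      exact ⟨hp.squarefree, h6⟩
  have h3 : ((OS (D / p) (2 * D / p) p).card : ℝ) ≤ (((OQ D).filter (fun q => p ∣ q)).card : ℝ) := by exact_mod_cast h2
  refine le_trans ?_ (h1.trans h3)
  have h4 : (2 * D : ℝ) / p < ((2 * D / p : ℕ) : ℝ) + 1 := by
    rw [div_lt_iff₀ hp0]
    have := Nat.lt_div_mul_add (a := 2 * D) (b := p) hp.pos
    have h5 : ((2 * D : ℕ) : ℝ) < ((2 * D / p : ℕ) : ℝ) * p + p := by exact_mod_cast this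
    push_cast at h5
    linarith
  have h5 : ((D / p : ℕ) : ℝ) ≤ (D:ℝ) / p := Nat.cast_div_le
  have h6 : (Nat.sqrt (2 * D / p) : ℝ) ≤ Nat.sqrt (2 * D) := by
    exact_mod_cast Nat.sqrt_le_sqrt (Nat.div_le_self _ _)
  have h7 : (2 * D : ℝ) / p = 2 * ((D:ℝ) / p) := by ring
  rw [h7] at h4
  linarith

lemma sum_primes (K : ℝ) : ∃ B : ℕ, K ≤ ∑ p ∈ (Finset.range B).filter (fun p => p.Prime ∧ 5 ≤ p), (1:ℝ) / p := by
  have h := (not_summable_iff_tendsto_nat_atTop_of_nonneg (f := Set.indicator {p | Nat.Prime p} (fun n : ℕ => (1 : ℝ) / n))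
    (fun n => Set.indicator_nonneg (fun p _ => by positivity) n)).1 not_summable_one_div_on_primes
  obtain ⟨B, hB⟩ := (h.eventually_ge_atTop (K + 5)).exists
  refine ⟨B, ?_⟩
  have e : ∑ i ∈ Finset.range B, Set.indicator {p | Nat.Prime p} (fun n : ℕ => (1 : ℝ) / n) i ≤
      ∑ p ∈ (Finset.range B).filter (fun p => p.Prime ∧ 5 ≤ p), (1:ℝ) / p + ∑ p ∈ Finset.range 5, (1:ℝ) := by
    rw [Finset.sum_filter]
    have h1 : ∀ i ∈ Finset.range B, Set.indicator {p | Nat.Prime p} (fun n : ℕ => (1 : ℝ) / n) i ≤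
        (if i.Prime ∧ 5 ≤ i then (1:ℝ) / i else 0) + if i < 5 then 1 else 0 := by
      intro i _
      by_cases hi : i.Prime
      · rw [Set.indicator_of_mem (by exact hi)]
        by_cases h5 : 5 ≤ i
        · rw [if_pos ⟨hi, h5⟩, if_neg (by omega)]; linarith
        · rw [if_neg (by tauto), if_pos (by omega), zero_add]
          rw [div_le_one (by exact_mod_cast hi.pos)]
          exact_mod_cast hi.one_le
      · rw [Set.indicator_of_notMem (by exact hi), if_neg (by tauto)]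
        split_ifs <;> norm_num
    refine (Finset.sum_le_sum h1).trans ?_
    rw [Finset.sum_add_distrib]
    apply add_le_add_right
    rw [← Finset.sum_filter]
    apply Finset.sum_le_sum_of_subset_of_nonneg
    · intro i hi
      rw [Finset.mem_filter] at hi
      exact Finset.mem_range.2 hi.2
    · intro _ _ _; norm_num
  simp only [Finset.sum_const, Finset.card_range, nsmul_eq_mul, mul_one] at e
  push_cast at e
  linarith

/-- the divisor functions are large on average over odd squarefree numbers -/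
lemma big_dk {k : ℕ} (hk : 2 ≤ k) (K : ℝ) : ∃ D₀ : ℕ, ∀ D : ℕ, D₀ ≤ D → K * D ≤ ∑ q ∈ OQ D, dk k q ^ 2 := by
  obtain ⟨B, hB⟩ := sum_primes (40 * |K|)
  set PP := (Finset.range B).filter (fun p => p.Prime ∧ 5 ≤ p) with hPP
  obtain ⟨D₁, hD₁⟩ := sqrt_small (1/(160 * (B + 1))) (by positivity)
  refine ⟨max D₁ (160 * (B + 1)), fun D hD => ?_⟩
  have hDB : (160 * ((B:ℝ) + 1)) ≤ D := by exact_mod_cast (le_max_right _ _).trans hD
  have hs := hD₁ (2 * D) (by have := (le_max_left D₁ (160 * (B + 1))).trans hD; omega)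
  have h1 : ∀ p ∈ PP, (D:ℝ) / (40 * p) ≤ (((OQ D).filter (fun q => p ∣ q)).card : ℝ) := by
    intro p hp
    rw [hPP, Finset.mem_filter, Finset.mem_range] at hp
    obtain ⟨hpB, hpp, hp5⟩ := hp
    refine le_trans ?_ (OQ_mult hpp hp5)
    have hp0 : (0:ℝ) < p := by exact_mod_cast hpp.pos
    have hpB' : (p:ℝ) ≤ B + 1 := by
      have : (p:ℝ) < B := by exact_mod_cast hpB
      linarith
    have h2 : (1/(160 * ((B:ℝ) + 1))) * ((2 * D : ℕ) : ℝ) = (D:ℝ) / (80 * (B + 1)) := by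
      push_cast; field_simp; ring
    rw [h2] at hs
    have h3 : (D:ℝ) / (80 * (B + 1)) ≤ (D:ℝ) / (80 * p) := by
      apply div_le_div_of_nonneg_left (Nat.cast_nonneg D) (by positivity)
      linarith
    have h4 : 2 ≤ (D:ℝ) / (80 * (B + 1)) := by
      rw [le_div_iff₀ (by positivity)]; linarith
    have h5 : ((D:ℝ) / p - 1) / 20 = 2 * ((D:ℝ) / (40 * p)) - 1/20 := by field_simp; ring
    have h6 : (D:ℝ) / (40 * p) = 2 * ((D:ℝ) / (80 * p)) := by field_simp; ring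
    rw [h5, h6]
    linarith
  have h2 : ∑ p ∈ PP, (D:ℝ) / (40 * p) ≤ ∑ p ∈ PP, (((OQ D).filter (fun q => p ∣ q)).card : ℝ) := Finset.sum_le_sum h1
  have h3 : ∑ p ∈ PP, (((OQ D).filter (fun q => p ∣ q)).card : ℝ) = ∑ q ∈ OQ D, ((PP.filter (fun p => p ∣ q)).card : ℝ) := by
    have : ∀ p ∈ PP, (((OQ D).filter (fun q => p ∣ q)).card : ℝ) = ∑ q ∈ OQ D, if p ∣ q then (1:ℝ) else 0 := by
      intro p _
      rw [Finset.sum_ite, Finset.sum_const_zero, add_zero, Finset.sum_const, nsmul_eq_mul, mul_one]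
    rw [Finset.sum_congr rfl this, Finset.sum_comm]
    apply Finset.sum_congr rfl
    intro q _
    rw [Finset.sum_ite, Finset.sum_const_zero, add_zero, Finset.sum_const, nsmul_eq_mul, mul_one]
  have h4 : ∑ q ∈ OQ D, ((PP.filter (fun p => p ∣ q)).card : ℝ) ≤ ∑ q ∈ OQ D, dk k q ^ 2 := by
    apply Finset.sum_le_sum
    intro q hq
    have hq1 := (Finset.mem_Ioc.1 (Finset.mem_filter.1 hq).1)
    have hq0 : 1 ≤ q := by omega
    have h5 : (PP.filter (fun p => p ∣ q)).card ≤ q.divisors.card := by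
      apply Finset.card_le_card
      intro p hp
      rw [Nat.mem_divisors]
      exact ⟨(Finset.mem_filter.1 hp).2, by omega⟩
    have h6 : ((PP.filter (fun p => p ∣ q)).card : ℝ) ≤ dk k q := by
      have h7 : ((PP.filter (fun p => p ∣ q)).card : ℝ) ≤ (q.divisors.card : ℝ) := by exact_mod_cast h5
      exact h7.trans (dk_ge_divisors hk hq0)
    have h8 := dk_one_le (by omega : 1 ≤ k) hq0
    nlinarith
  have h5 : ∑ p ∈ PP, (D:ℝ) / (40 * p) = (D:ℝ) / 40 * ∑ p ∈ PP, (1:ℝ) / p := by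
    rw [Finset.mul_sum]
    apply Finset.sum_congr rfl
    intro p _
    rw [div_mul_div_comm, mul_one]
  have h6 : K * D ≤ (D:ℝ) / 40 * ∑ p ∈ PP, (1:ℝ) / p := by
    have h7 : (0:ℝ) ≤ (D:ℝ) / 40 := by positivity
    have h8 := mul_le_mul_of_nonneg_left hB h7
    have h9 : K * D ≤ |K| * D := mul_le_mul_of_nonneg_right (le_abs_self K) (Nat.cast_nonneg D)
    linarith
  linarith

/-- the variance of the odd squarefree classes in `(D, 2D]` is not `O(D^(-1/k))` -/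
lemma big_var {k : ℕ} (hk : 2 ≤ k) (K : ℝ) : ∃ D₀ : ℕ, ∀ D : ℕ, D₀ ≤ D → K ≤ (D:ℝ) ^ (1 / (k:ℝ)) * ∑ q ∈ OQ D, ak k q ^ 2 := by
  have hk' : (2:ℝ) ≤ k := by exact_mod_cast hk
  set cc : ℝ := 2 ^ (-(((k:ℝ) + 1) / k)) * (1 / (Real.pi * √(k:ℝ))) ^ 2 with hcc
  have hcc0 : 0 < cc := by
    have := Real.pi_pos
    positivity
  obtain ⟨D₀, hD₀⟩ := big_dk hk (|K| / cc)
  refine ⟨max D₀ 1, fun D hD => ?_⟩
  have hD1 : (1:ℝ) ≤ D := by exact_mod_cast (le_max_right _ _).trans hD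
  have hD0 : (0:ℝ) < D := by linarith
  have h1 := hD₀ D ((le_max_left _ _).trans hD)
  have h2 : ∀ q ∈ OQ D, dk k q ^ 2 * (2 * (D:ℝ)) ^ (-(((k:ℝ) + 1) / k)) * (1 / (Real.pi * √(k:ℝ))) ^ 2 ≤ ak k q ^ 2 := by
    intro q hq
    have hq1 := (Finset.mem_Ioc.1 (Finset.mem_filter.1 hq).1)
    have hq0 : (0:ℝ) < q := by exact_mod_cast (by omega : 0 < q)
    unfold ak
    rw [mul_pow, mul_pow, ← Real.rpow_natCast ((q:ℝ) ^ (-(((k:ℝ) + 1) / (2 * k)))) 2, ← Real.rpow_mul hq0.le]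
    have e : -(((k:ℝ) + 1) / (2 * k)) * ((2:ℕ):ℝ) = -(((k:ℝ) + 1) / k) := by push_cast; field_simp
    rw [e]
    have h3 : (2 * (D:ℝ)) ^ (-(((k:ℝ) + 1) / k)) ≤ (q:ℝ) ^ (-(((k:ℝ) + 1) / k)) := by
      apply Real.rpow_le_rpow_of_nonpos hq0
      · exact_mod_cast hq1.2
      · rw [neg_nonpos]; positivity
    gcongr
  have h3 := Finset.sum_le_sum h2
  rw [← Finset.sum_mul, ← Finset.sum_mul] at h3
  have h4 : (D:ℝ) ^ (1 / (k:ℝ)) * ((|K| / cc * D) * (2 * (D:ℝ)) ^ (-(((k:ℝ) + 1) / k)) * (1 / (Real.pi * √(k:ℝ))) ^ 2) = |K| := by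
    rw [Real.mul_rpow (by norm_num) hD0.le]
    have e1 : (D:ℝ) ^ (1 / (k:ℝ)) * D * (D:ℝ) ^ (-(((k:ℝ) + 1) / k)) = 1 := by
      have : (D:ℝ) = (D:ℝ) ^ (1:ℝ) := (Real.rpow_one _).symm
      nth_rewrite 2 [this]
      rw [← Real.rpow_add hD0, ← Real.rpow_add hD0]
      have e2 : 1 / (k:ℝ) + 1 + -(((k:ℝ) + 1) / k) = 0 := by field_simp; ring
      rw [e2, Real.rpow_zero]
    have e3 : (D:ℝ) ^ (1 / (k:ℝ)) * ((|K| / cc * D) * (2 ^ (-(((k:ℝ) + 1) / k)) * (D:ℝ) ^ (-(((k:ℝ) + 1) / k))) * (1 / (Real.pi * √(k:ℝ))) ^ 2) =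
        (|K| / cc) * cc * ((D:ℝ) ^ (1 / (k:ℝ)) * D * (D:ℝ) ^ (-(((k:ℝ) + 1) / k))) := by rw [hcc]; ring
    rw [e3, e1, mul_one]
    field_simp
  have h5 : |K| ≤ (D:ℝ) ^ (1 / (k:ℝ)) * ∑ q ∈ OQ D, ak k q ^ 2 := by
    rw [← h4]
    apply mul_le_mul_of_nonneg_left _ (by positivity)
    refine le_trans ?_ h3
    gcongr
  exact (le_abs_self K).trans h5

lemma OQ_prop {k : ℕ} (hk : 2 ≤ k) {D q : ℕ} (hq : q ∈ OQ D) : D < q ∧ q ≤ 2 * D ∧ ¬ 2 ∣ q ∧ KF k q := by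
  obtain ⟨h1, h2, h3⟩ := Finset.mem_filter.1 hq
  rw [Finset.mem_Ioc] at h1
  exact ⟨h1.1, h1.2, h2, sqfree_KF hk h3⟩

end Pool.Agent.H592.PD
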