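import Pool.Agent.H592.PD.E4

/-!
# The pairing of a step function of the sum with a class
-/

open MeasureTheory Filter Topology Finset
open Pool.Agent.H383.PZ

namespace Pool.Agent.H592.PD

/-- a continuous step -/
noncomputable def st (c η x : ℝ) : ℝ := max 0 (min 1 ((x - c + η) / (2 * η)))

lemma st_cont (c η : ℝ) : Continuous (st c η) := by unfold st; fun_prop

lemma st_nonneg (c η x : ℝ) : 0 ≤ st c η x := le_max_left _ _

lemma st_le_one (c η x : ℝ) : st c η x ≤ 1 := max_le zero_le_one (min_le_left _ _)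

lemma st_abs (c η x : ℝ) : |st c η x| ≤ 1 := by rw [abs_of_nonneg (st_nonneg c η x)]; exact st_le_one c η x

lemma st_mono {c η : ℝ} (hη : 0 < η) {x y : ℝ} (h : x ≤ y) : st c η x ≤ st c η y := by
  unfold st
  apply max_le_max le_rfl
  apply min_le_min le_rfl
  apply div_le_div_of_nonneg_right _ (by positivity)
  linarith

lemma st_zero {c η x : ℝ} (hη : 0 < η) (h : x ≤ c - η) : st c η x = 0 := by
  unfold st
  apply max_eq_left
  refine (min_le_right _ _).trans ?_
  apply div_nonpos_of_nonpos_of_nonneg <;> linarith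

lemma st_one {c η x : ℝ} (hη : 0 < η) (h : c + η ≤ x) : st c η x = 1 := by
  unfold st
  rw [min_eq_left, max_eq_right zero_le_one]
  rw [le_div_iff₀ (by positivity)]
  linarith

/-- integrals with respect to a measure with a continuous density -/
lemma wd_int {α : ProbabilityMeasure ℝ} {f : ℝ → ℝ} (hf : Continuous f) (hf0 : ∀ x, 0 ≤ f x)
    (hα : (α : Measure ℝ) = volume.withDensity (fun x => ENNReal.ofReal (f x))) {g : ℝ → ℝ} (hg : Continuous g) (hb : ∀ x, |g x| ≤ 1) :
    Integrable (fun x => g x * f x) ∧ ∫ x, g x ∂(α : Measure ℝ) = ∫ x, g x * f x := by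
  have hfi : Integrable f := by
    refine ⟨hf.aestronglyMeasurable, ?_⟩
    rw [hasFiniteIntegral_iff_ofReal (Eventually.of_forall hf0)]
    have h1 : (α : Measure ℝ) Set.univ = ∫⁻ x, ENNReal.ofReal (f x) := by
      rw [hα, withDensity_apply _ MeasurableSet.univ, Measure.restrict_univ]
    rw [← h1, measure_univ]
    exact ENNReal.one_lt_top
  constructor
  · exact hfi.bdd_mul hg.aestronglyMeasurable (Eventually.of_forall fun x => by rw [Real.norm_eq_abs]; exact hb x)
  · rw [hα, integral_withDensity_eq_integral_toReal_smul hf.measurable.ennreal_ofReal (Eventually.of_forall fun x => ENNReal.ofReal_lt_top)]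
    congr 1
    funext x
    rw [ENNReal.toReal_ofReal (hf0 x), smul_eq_mul, mul_comm]

/-- a point where the density is bounded below -/
lemma good_point {α : ProbabilityMeasure ℝ} {f : ℝ → ℝ} (hf : Continuous f) (hf0 : ∀ x, 0 ≤ f x)
    (hα : (α : Measure ℝ) = volume.withDensity (fun x => ENNReal.ofReal (f x))) :
    ∃ z₀ ρ g₀ : ℝ, 0 < ρ ∧ 0 < g₀ ∧ ∀ z, |z - z₀| ≤ 3 * ρ → g₀ ≤ f z := by
  obtain ⟨z₀, hz₀⟩ : ∃ z₀, 0 < f z₀ := by
    by_contra hcon
    push Not at hcon
    have : (α : Measure ℝ) = 0 := by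
      rw [hα]
      have : (fun x => ENNReal.ofReal (f x)) = fun _ => 0 := by
        funext x
        rw [ENNReal.ofReal_eq_zero]; exact hcon x
      rw [this]
      exact withDensity_zero
    exact IsProbabilityMeasure.ne_zero (α : Measure ℝ) this
  obtain ⟨δ, hδ, h⟩ := Metric.continuousAt_iff.1 (hf.continuousAt (x := z₀)) (f z₀ / 2) (by positivity)
  refine ⟨z₀, δ/4, f z₀ / 2, by positivity, by positivity, fun z hz => ?_⟩
  have h1 := h (show dist z z₀ < δ by rw [Real.dist_eq]; linarith)
  rw [Real.dist_eq] at h1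
  have := (abs_lt.1 h1).1
  linarith

/-- the increments of the smoothed step -/
lemma psi_incr {α : ProbabilityMeasure ℝ} {f : ℝ → ℝ} (hf : Continuous f) (hf0 : ∀ x, 0 ≤ f x)
    (hα : (α : Measure ℝ) = volume.withDensity (fun x => ENNReal.ofReal (f x))) {z₀ ρ g₀ : ℝ} (hρ : 0 < ρ) (hg₀ : 0 < g₀)
    (hg : ∀ z, |z - z₀| ≤ 3 * ρ → g₀ ≤ f z) {c η : ℝ} (hη : 0 < η) (hηρ : η ≤ ρ) {s s' : ℝ} (hss : s ≤ s')
    (hs : |s - (c - z₀)| ≤ 2 * ρ) (hs' : |s' - (c - z₀)| ≤ 2 * ρ) :
    g₀ * (s' - s) ≤ (∫ z, st c η (z + s') ∂(α : Measure ℝ)) - ∫ z, st c η (z + s) ∂(α : Measure ℝ) := by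
  have hc := st_cont c η
  obtain ⟨i1, e1⟩ := wd_int hf hf0 hα (g := fun z => st c η (z + s')) (by fun_prop) (fun x => st_abs _ _ _)
  obtain ⟨i2, e2⟩ := wd_int hf hf0 hα (g := fun z => st c η (z + s)) (by fun_prop) (fun x => st_abs _ _ _)
  rw [e1, e2, ← integral_sub i1 i2]
  have h1 : ∫ z in (z₀ - 3 * ρ)..(z₀ + 3 * ρ), g₀ * (st c η (z + s') - st c η (z + s)) ≤
      ∫ z, (st c η (z + s') * f z - st c η (z + s) * f z) := by
    rw [intervalIntegral.integral_of_le (by linarith)]
    have h2 : ∫ z in Set.Ioc (z₀ - 3 * ρ) (z₀ + 3 * ρ), g₀ * (st c η (z + s') - st c η (z + s)) ≤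
        ∫ z in Set.Ioc (z₀ - 3 * ρ) (z₀ + 3 * ρ), (st c η (z + s') * f z - st c η (z + s) * f z) := by
      apply setIntegral_mono_on
      · apply Continuous.integrableOn_Ioc; fun_prop
      · exact (i1.sub i2).integrableOn
      · exact measurableSet_Ioc
      · intro z hz
        have h3 : |z - z₀| ≤ 3 * ρ := by
          rw [abs_le]; constructor <;> linarith [hz.1, hz.2]
        have h4 := hg z h3
        have h5 := st_mono (c := c) hη (show z + s ≤ z + s' by linarith)
        have h6 : st c η (z + s') * f z - st c η (z + s) * f z = f z * (st c η (z + s') - st c η (z + s)) := by ring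
        rw [h6]
        exact mul_le_mul_of_nonneg_right h4 (by linarith)
    refine h2.trans ?_
    apply setIntegral_le_integral (i1.sub i2)
    refine Eventually.of_forall (fun z => ?_)
    have h5 := st_mono (c := c) hη (show z + s ≤ z + s' by linarith)
    have h6 : st c η (z + s') * f z - st c η (z + s) * f z = f z * (st c η (z + s') - st c η (z + s)) := by ring
    change 0 ≤ st c η (z + s') * f z - st c η (z + s) * f z
    rw [h6]
    exact mul_nonneg (hf0 z) (sub_nonneg.2 h5)
  refine le_trans (le_of_eq ?_) h1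
  rw [intervalIntegral.integral_const_mul]
  congr 1
  have hii : ∀ a b x : ℝ, IntervalIntegrable (fun z => st c η (z + x)) volume a b := fun a b x =>
    (by fun_prop : Continuous (fun z => st c η (z + x))).intervalIntegrable _ _
  have hii0 : ∀ a b : ℝ, IntervalIntegrable (st c η) volume a b := fun a b => hc.intervalIntegrable _ _
  rw [intervalIntegral.integral_sub (hii _ _ _) (hii _ _ _), intervalIntegral.integral_comp_add_right (fun z => st c η z) s',
    intervalIntegral.integral_comp_add_right (fun z => st c η z) s]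
  rw [abs_le] at hs hs'
  have h7 : ∫ z in (z₀ - 3 * ρ + s)..(z₀ - 3 * ρ + s'), st c η z = 0 := by
    rw [intervalIntegral.integral_congr (g := fun _ => (0:ℝ))]
    · simp
    · intro z hz
      rw [Set.uIcc_of_le (by linarith)] at hz
      exact st_zero hη (by linarith [hz.2, hs'.2])
  have h8 : ∫ z in (z₀ + 3 * ρ + s)..(z₀ + 3 * ρ + s'), st c η z = s' - s := by
    rw [intervalIntegral.integral_congr (g := fun _ => (1:ℝ))]
    · simp
    · intro z hz
      rw [Set.uIcc_of_le (by linarith)] at hz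
      exact st_one hη (by linarith [hz.1, hs.1])
  have h9 := intervalIntegral.integral_add_adjacent_intervals (hii0 (z₀ - 3 * ρ + s) (z₀ - 3 * ρ + s')) (hii0 (z₀ - 3 * ρ + s') (z₀ + 3 * ρ + s'))
  have h10 := intervalIntegral.integral_add_adjacent_intervals (hii0 (z₀ - 3 * ρ + s) (z₀ + 3 * ρ + s)) (hii0 (z₀ + 3 * ρ + s) (z₀ + 3 * ρ + s'))
  rw [h7] at h9
  rw [h8] at h10
  linarith

end Pool.Agent.H592.PD
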