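import Pool.Agent.H592.PD.E7

/-!
# The lower bound for the pairing
-/

open MeasureTheory Filter Topology Finset
open Pool.Agent.H383.PZ

namespace Pool.Agent.H592.PD

/-- the truncation -/
noncomputable def cl (B y : ℝ) : ℝ := max (-B) (min B y)

lemma cl_cont (B : ℝ) : Continuous (cl B) := by unfold cl; fun_prop

lemma cl_of {B y : ℝ} (h : |y| ≤ B) : cl B y = y := by
  unfold cl
  rw [abs_le] at h
  rw [min_eq_right h.2, max_eq_right h.1]

lemma cl_abs {B : ℝ} (hB : 0 ≤ B) (y : ℝ) : |cl B y| ≤ B := by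
  unfold cl
  rw [abs_le]
  exact ⟨le_max_left _ _, max_le (by linarith) (min_le_left _ _)⟩

/-- the tent -/
noncomputable def tent (w ρ x : ℝ) : ℝ := max 0 (1 - |x - w| / ρ)

lemma tent_cont (w ρ : ℝ) : Continuous (tent w ρ) := by unfold tent; fun_prop

lemma tent_nonneg (w ρ x : ℝ) : 0 ≤ tent w ρ x := le_max_left _ _

lemma tent_le_one {w ρ : ℝ} (hρ : 0 < ρ) (x : ℝ) : tent w ρ x ≤ 1 := by
  unfold tent
  apply max_le zero_le_one
  have : 0 ≤ |x - w| / ρ := by positivity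
  linarith

lemma tent_supp {w ρ x : ℝ} (hρ : 0 < ρ) (h : tent w ρ x ≠ 0) : |x - w| ≤ ρ := by
  by_contra hcon
  rw [not_le] at hcon
  apply h
  unfold tent
  apply max_eq_left
  have : 1 ≤ |x - w| / ρ := by rw [le_div_iff₀ hρ]; linarith
  linarith

lemma tent_lip {w ρ : ℝ} (hρ : 0 < ρ) (x y : ℝ) : tent w ρ x - |x - y| / ρ ≤ tent w ρ y := by
  have h1 : |y - w| ≤ |x - w| + |x - y| := by
    have := abs_sub_le y x w
    rw [abs_sub_comm y x] at this
    linarith
  have h2 : |y - w| / ρ ≤ |x - w| / ρ + |x - y| / ρ := by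
    rw [← add_div]
    exact div_le_div_of_nonneg_right h1 hρ.le
  have h3 : 0 ≤ |x - y| / ρ := by positivity
  unfold tent
  rcases le_total 0 (1 - |x - w| / ρ) with h | h
  · rw [max_eq_right h]
    refine le_trans ?_ (le_max_right _ _)
    linarith
  · rw [max_eq_left h]
    refine le_trans ?_ (le_max_left _ _)
    linarith

lemma XS_split {k : ℕ} {Q : Set ℕ} {q : ℕ} (hq : q ∈ Q) (N : ℕ) (r : ℝ) :
    XS k Q N r = XS k (Q \ {q}) N r + XS k {q} N r := by
  have h : Q = (Q \ {q}) ∪ {q} := by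
    rw [Set.sdiff_union_self]
    exact (Set.union_eq_self_of_subset_right (Set.singleton_subset_iff.2 hq)).symm
  conv_lhs => rw [h]
  exact XS_union k Set.disjoint_sdiff_left N r

theorem pairing_lower {k : ℕ} (hk : 2 ≤ k) (c : ℝ) : ∃ f₀ ρ : ℝ, 0 < f₀ ∧ 0 < ρ ∧ ∃ D₁ : ℕ, ∀ q : ℕ, KF k q → ¬ 2 ∣ q → D₁ ≤ q →
    ∀ η : ℝ, 0 < η → η ≤ ρ → ∀ ε : ℝ, 0 < ε → ∃ N₀ : ℕ, ∀ N : ℕ, N₀ ≤ N →
      f₀ * Mn (fun r => XS k {q} N r ^ 2) ≤ Mn (fun r => st c η (XS k Set.univ N r) * XS k {q} N r) + ε := by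
  obtain ⟨ζ, hζ⟩ := exists_Lim (XS_MS hk {q | 2 ∣ q})
  obtain ⟨f, hf, hf0, hfd, -⟩ := density hk (rich_even hk) hζ
  obtain ⟨ω, hω⟩ := exists_Lim (XS_MS hk {q | ¬ 2 ∣ q})
  obtain ⟨-, -, -, -, hpos⟩ := density hk (rich_odd hk) hω
  obtain ⟨z₀, ρ, g₀, hρ, hg₀, hg⟩ := good_point hf hf0 hfd
  set w₀ := c - z₀ with hw₀
  have htc := tent_cont w₀ ρ
  have htb : ∀ x, |tent w₀ ρ x| ≤ 1 := fun x => by
    rw [abs_of_nonneg (tent_nonneg _ _ _)]; exact tent_le_one hρ x
  set b₀ := ∫ x, tent w₀ ρ x ∂(ω : Measure ℝ) with hb₀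
  have hb₀0 : 0 < b₀ := by
    have h1 := hpos (w₀ - ρ/2) (w₀ + ρ/2) (by linarith)
    have hi : Integrable (tent w₀ ρ) (ω : Measure ℝ) :=
      Integrable.of_bound htc.aestronglyMeasurable 1 (Eventually.of_forall fun x => by rw [Real.norm_eq_abs]; exact htb x)
    have h2 : (1/2) * (ω : Measure ℝ).real (Set.Ioo (w₀ - ρ/2) (w₀ + ρ/2)) ≤ b₀ := by
      have h3 : ∫ _x in Set.Ioo (w₀ - ρ/2) (w₀ + ρ/2), (1/2 : ℝ) ∂(ω : Measure ℝ) ≤
          ∫ x in Set.Ioo (w₀ - ρ/2) (w₀ + ρ/2), tent w₀ ρ x ∂(ω : Measure ℝ) := by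
        apply setIntegral_mono_on (integrable_const _).integrableOn hi.integrableOn measurableSet_Ioo
        intro x hx
        refine le_trans ?_ (le_max_right _ _)
        have h4 : |x - w₀| ≤ ρ/2 := by rw [abs_le]; constructor <;> linarith [hx.1, hx.2]
        have h5 : |x - w₀| / ρ ≤ 1/2 := by rw [div_le_iff₀ hρ]; linarith
        linarith
      rw [setIntegral_const, smul_eq_mul, mul_comm] at h3
      exact h3.trans (setIntegral_le_integral hi (Eventually.of_forall (fun x => tent_nonneg _ _ _)))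
    have h3 : 0 < (ω : Measure ℝ).real (Set.Ioo (w₀ - ρ/2) (w₀ + ρ/2)) := by
      rw [Measure.real]
      exact ENNReal.toReal_pos h1.ne' (measure_ne_top _ _)
    linarith
  obtain ⟨C, hC, hcls⟩ := cls_bound hk
  have hkap := kap_pos hk
  -- the large classes
  obtain ⟨D₁, hD₁⟩ : ∃ D₁ : ℕ, ∀ q : ℕ, D₁ ≤ q → C * (q:ℝ) ^ (-kap k) ≤ min ρ (ρ * b₀ / 2) := by
    have h1 : Tendsto (fun q : ℕ => C * (q:ℝ) ^ (-kap k)) atTop (𝓝 (C * 0)) :=
      ((tendsto_rpow_neg_atTop hkap).comp tendsto_natCast_atTop_atTop).const_mul C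
    rw [mul_zero] at h1
    obtain ⟨D₁, hD₁⟩ := eventually_atTop.1 (h1.eventually (ge_mem_nhds (show 0 < min ρ (ρ * b₀ / 2) by positivity)))
    exact ⟨D₁, hD₁⟩
  set f₁ := g₀ * (b₀ / 2) with hf₁
  have hf₁0 : 0 < f₁ := by positivity
  refine ⟨f₁, ρ, by positivity, hρ, D₁, ?_⟩
  intro q hq hq2 hqD η hη hηρ ε hε
  set B := C * (q:ℝ) ^ (-kap k) with hB
  have hB0 : 0 ≤ B := by positivity
  have hBm := hD₁ q hqD
  have hBρ : B ≤ ρ := hBm.trans (min_le_left _ _)
  have hBb : B ≤ ρ * b₀ / 2 := hBm.trans (min_le_right _ _)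
  have hXB : ∀ N r, |XS k {q} N r| ≤ B := fun N r => hcls q hq.1 N r
  obtain ⟨τ, hτ⟩ := exists_Lim (XS_MS hk (Set.univ \ {q}))
  obtain ⟨ω', hω'⟩ := exists_Lim (XS_MS hk ({q | ¬ 2 ∣ q} \ {q}))
  obtain ⟨ϱ, hϱ⟩ := exists_Lim (XS_MS hk {q})
  have hstc := st_cont c η
  set F : ℝ → ℝ := fun y => ∫ x, st c η (x + y) ∂(τ : Measure ℝ) with hF
  have hsti : ∀ (ν : ProbabilityMeasure ℝ) (y : ℝ), Integrable (fun x => st c η (x + y)) (ν : Measure ℝ) := fun ν y =>
    Integrable.of_bound (by fun_prop) 1 (Eventually.of_forall fun x => by rw [Real.norm_eq_abs]; exact st_abs _ _ _)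
  have hFm : Monotone F := fun y y' hyy => integral_mono (hsti τ y) (hsti τ y') (fun x => st_mono hη (by linarith))
  -- the splitting into even and odd classes
  have hdisj1 : Disjoint ({q | 2 ∣ q} : Set ℕ) ({q | ¬ 2 ∣ q} \ {q}) := by
    rw [Set.disjoint_left]
    intro x hx hx'
    exact hx'.1 hx
  have hsplit : ∀ N r, XS k (Set.univ \ {q}) N r = XS k {q | 2 ∣ q} N r + XS k ({q | ¬ 2 ∣ q} \ {q}) N r := by
    intro N r
    rw [← XS_union k hdisj1]
    congr 1
    ext x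
    simp only [Set.mem_sdiff, Set.mem_univ, true_and, Set.mem_singleton_iff, Set.mem_union, Set.mem_ofPred_eq]
    constructor
    · intro h
      by_cases h2 : 2 ∣ x
      · left; exact h2
      · right; exact ⟨h2, h⟩
    · rintro (h | h)
      · rintro rfl; exact hq2 h
      · exact h.2
  have hFe : ∀ y, F y = ∫ p, st c η (p.1 + p.2 + y) ∂((ζ : Measure ℝ).prod (ω' : Measure ℝ)) := by
    intro y
    have h1 := hτ (fun x => st c η (x + y)) (by fun_prop) ⟨1, fun x => st_abs _ _ _⟩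
    have h2 := prod_Lim (XS_MS hk {q | 2 ∣ q}) (XS_MS hk ({q | ¬ 2 ∣ q} \ {q})) (GQ_disj hk hdisj1) (XS_AG hk _) (XS_AG hk _) hζ hω'
      (G := fun p => st c η (p.1 + p.2 + y)) (by fun_prop) ⟨1, fun x => st_abs _ _ _⟩
    refine tendsto_nhds_unique h1 (h2.congr fun N => ?_)
    congr 1
    funext r
    rw [hsplit]
  -- the mass of the odd part
  have hmass : b₀ / 2 ≤ ∫ x, tent w₀ ρ x ∂(ω' : Measure ℝ) := by
    have h1 := hω' (tent w₀ ρ) htc ⟨1, htb⟩
    have h2 := hω (tent w₀ ρ) htc ⟨1, htb⟩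
    have h3 : Tendsto (fun N => Mn (fun r => tent w₀ ρ (XS k {q | ¬ 2 ∣ q} N r)) + (-(B / ρ))) atTop (𝓝 (b₀ + (-(B / ρ)))) := h2.add_const _
    have h4 : b₀ + (-(B / ρ)) ≤ ∫ x, tent w₀ ρ x ∂(ω' : Measure ℝ) := by
      apply le_of_tendsto_of_tendsto' h3 h1
      intro N
      have a1 := AP_comp1 (XS_AG hk {q | ¬ 2 ∣ q} N).ap htc
      have a2 := AP_comp1 (XS_AG hk ({q | ¬ 2 ∣ q} \ {q}) N).ap htc
      have h5 := Mn_mono (AP_add a1 (AP_const (-(B/ρ)))) a2 (fun r => by
        have h6 := tent_lip (w := w₀) hρ (XS k {q | ¬ 2 ∣ q} N r) (XS k ({q | ¬ 2 ∣ q} \ {q}) N r)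
        have h7 : |XS k {q | ¬ 2 ∣ q} N r - XS k ({q | ¬ 2 ∣ q} \ {q}) N r| / ρ ≤ B / ρ := by
          apply div_le_div_of_nonneg_right _ hρ.le
          rw [XS_split (show q ∈ {q | ¬ 2 ∣ q} from hq2), add_sub_cancel_left]
          exact hXB N r
        linarith)
      rwa [Mn_add a1 (AP_const _), Mn_const] at h5
    have h5 : B / ρ ≤ b₀ / 2 := by
      rw [div_le_iff₀ hρ]; linarith
    linarith
  -- the increments of `F`
  have hinc : ∀ y y', -ρ ≤ y → y ≤ y' → y' ≤ ρ → f₁ * (y' - y) ≤ F y' - F y := by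
    intro y y' hy hyy hy'
    have hGi : ∀ y : ℝ, Integrable (fun p : ℝ × ℝ => st c η (p.1 + p.2 + y)) ((ζ : Measure ℝ).prod (ω' : Measure ℝ)) := fun y =>
      Integrable.of_bound (by fun_prop) 1 (Eventually.of_forall fun x => by rw [Real.norm_eq_abs]; exact st_abs _ _ _)
    rw [hFe, hFe, integral_prod_symm _ (hGi y'), integral_prod_symm _ (hGi y)]
    have i1 := (hGi y').integral_prod_right
    have i2 := (hGi y).integral_prod_right
    rw [← integral_sub i1 i2]
    have hti : Integrable (tent w₀ ρ) (ω' : Measure ℝ) :=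
      Integrable.of_bound htc.aestronglyMeasurable 1 (Eventually.of_forall fun x => by rw [Real.norm_eq_abs]; exact htb x)
    have h1 : ∫ w, g₀ * (y' - y) * tent w₀ ρ w ∂(ω' : Measure ℝ) ≤
        ∫ w, ((∫ z, st c η (z + w + y') ∂(ζ : Measure ℝ)) - ∫ z, st c η (z + w + y) ∂(ζ : Measure ℝ)) ∂(ω' : Measure ℝ) := by
      apply integral_mono (hti.const_mul _) (i1.sub i2)
      intro w
      simp only
      have hmn : (∫ z, st c η (z + w + y) ∂(ζ : Measure ℝ)) ≤ ∫ z, st c η (z + w + y') ∂(ζ : Measure ℝ) := by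
        have e1 : ∀ y, (fun z => st c η (z + w + y)) = fun z => st c η (z + (w + y)) := fun y => by funext z; congr 1; ring
        rw [e1, e1]
        exact integral_mono (hsti ζ _) (hsti ζ _) (fun x => st_mono hη (by linarith))
      by_cases hw : tent w₀ ρ w = 0
      · rw [hw, mul_zero]; exact sub_nonneg.2 hmn
      · have h2 := tent_supp hρ hw
        have h3 : |w + y - (c - z₀)| ≤ 2 * ρ := by
          rw [abs_le] at h2 ⊢; constructor <;> linarith [h2.1, h2.2]
        have h4 : |w + y' - (c - z₀)| ≤ 2 * ρ := by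
          rw [abs_le] at h2 ⊢; constructor <;> linarith [h2.1, h2.2]
        have h5 := psi_incr hf hf0 hfd hρ hg₀ hg hη hηρ (show w + y ≤ w + y' by linarith) h3 h4
        have e1 : ∀ y, (fun z => st c η (z + (w + y))) = fun z => st c η (z + w + y) := fun y => by funext z; congr 1; ring
        rw [e1, e1] at h5
        refine le_trans ?_ h5
        have h6 := tent_le_one (w := w₀) hρ w
        have h7 : 0 ≤ g₀ * (y' - y) := mul_nonneg hg₀.le (by linarith)
        have h8 : w + y' - (w + y) = y' - y := by ring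
        rw [h8]
        nlinarith
    refine le_trans ?_ h1
    rw [integral_const_mul, hf₁]
    have h9 : 0 ≤ g₀ * (y' - y) := mul_nonneg hg₀.le (by linarith)
    nlinarith
  -- the limit of the pairing
  have hdisj2 : Disjoint (Set.univ \ {q} : Set ℕ) {q} := Set.disjoint_sdiff_left
  have hclc := cl_cont B
  have hclb : ∀ y, |cl B y| ≤ B := cl_abs hB0
  have hlim : Tendsto (fun N => Mn (fun r => st c η (XS k Set.univ N r) * XS k {q} N r)) atTop
      (𝓝 (∫ p, st c η (p.1 + p.2) * cl B p.2 ∂((τ : Measure ℝ).prod (ϱ : Measure ℝ)))) := by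
    have h2 := prod_Lim (XS_MS hk (Set.univ \ {q})) (XS_MS hk {q}) (GQ_disj hk hdisj2) (XS_AG hk _) (XS_AG hk _) hτ hϱ
      (G := fun p => st c η (p.1 + p.2) * cl B p.2) (by fun_prop) ⟨1 * B, fun x => by
        rw [abs_mul]
        exact mul_le_mul (st_abs _ _ _) (hclb _) (abs_nonneg _) zero_le_one⟩
    refine h2.congr fun N => ?_
    congr 1
    funext r
    rw [XS_split (Set.mem_univ q), cl_of (hXB N r)]
  have hmean : ∫ y, cl B y ∂(ϱ : Measure ℝ) = 0 := by
    have h1 := hϱ (cl B) hclc ⟨B, hclb⟩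
    refine tendsto_nhds_unique h1 (tendsto_const_nhds.congr fun N => ?_)
    have e : (fun r => cl B (XS k {q} N r)) = XS k {q} N := by funext r; exact cl_of (hXB N r)
    rw [e, XS_mean hk]
  have hvar : Tendsto (fun N => Mn (fun r => XS k {q} N r ^ 2)) atTop (𝓝 (∫ y, cl B y ^ 2 ∂(ϱ : Measure ℝ))) := by
    have h1 := hϱ (fun y => cl B y ^ 2) (by fun_prop) ⟨B ^ 2, fun y => by
      rw [abs_pow]
      have := hclb y
      gcongr⟩
    refine h1.congr fun N => ?_
    congr 1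
    funext r
    rw [cl_of (hXB N r)]
  have hGi : Integrable (fun p : ℝ × ℝ => st c η (p.1 + p.2) * cl B p.2) ((τ : Measure ℝ).prod (ϱ : Measure ℝ)) :=
    Integrable.of_bound (by fun_prop) (1 * B) (Eventually.of_forall fun x => by
      rw [Real.norm_eq_abs, abs_mul]
      exact mul_le_mul (st_abs _ _ _) (hclb _) (abs_nonneg _) zero_le_one)
  have hval : f₁ * (∫ y, cl B y ^ 2 ∂(ϱ : Measure ℝ)) ≤ ∫ p, st c η (p.1 + p.2) * cl B p.2 ∂((τ : Measure ℝ).prod (ϱ : Measure ℝ)) := by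
    rw [integral_prod_symm _ hGi]
    have hclm : Measurable (cl B) := hclc.measurable
    have hFb : ∀ y, |F y| ≤ 1 := by
      intro y
      have h0 : 0 ≤ F y := integral_nonneg (fun x => st_nonneg _ _ _)
      rw [abs_of_nonneg h0]
      have h1 : F y ≤ ∫ _x, (1:ℝ) ∂(τ : Measure ℝ) := integral_mono (hsti τ y) (integrable_const _) (fun x => st_le_one _ _ _)
      simpa using h1
    have iF : Integrable (fun y => F y * cl B y) (ϱ : Measure ℝ) :=
      Integrable.of_bound (hFm.measurable.mul hclm).aestronglyMeasurable (1 * B) (Eventually.of_forall fun y => by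
        rw [Real.norm_eq_abs, abs_mul]
        exact mul_le_mul (hFb y) (hclb y) (abs_nonneg _) zero_le_one)
    have icl : Integrable (cl B) (ϱ : Measure ℝ) :=
      Integrable.of_bound hclm.aestronglyMeasurable B (Eventually.of_forall fun y => by rw [Real.norm_eq_abs]; exact hclb y)
    have icl2 : Integrable (fun y => cl B y ^ 2) (ϱ : Measure ℝ) :=
      Integrable.of_bound (hclm.pow_const 2).aestronglyMeasurable (B ^ 2) (Eventually.of_forall fun y => by
        rw [Real.norm_eq_abs, abs_pow]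
        have := hclb y
        gcongr)
    have e1 : ∫ y, (∫ x, st c η (x + y) * cl B y ∂(τ : Measure ℝ)) ∂(ϱ : Measure ℝ) = ∫ y, F y * cl B y ∂(ϱ : Measure ℝ) := by
      congr 1
      funext y
      rw [integral_mul_const]
    have e2 : ∫ y, F y * cl B y ∂(ϱ : Measure ℝ) = ∫ y, (F y * cl B y - F 0 * cl B y) ∂(ϱ : Measure ℝ) := by
      rw [integral_sub iF (icl.const_mul _), integral_const_mul, hmean]; ring
    change _ ≤ ∫ y, (∫ x, st c η (x + y) * cl B y ∂(τ : Measure ℝ)) ∂(ϱ : Measure ℝ)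
    rw [e1, e2]
    rw [← integral_const_mul]
    apply integral_mono (icl2.const_mul _) (iF.sub (icl.const_mul _))
    intro y
    change f₁ * cl B y ^ 2 ≤ F y * cl B y - F 0 * cl B y
    have e3 : F y * cl B y - F 0 * cl B y = (F y - F 0) * cl B y := by ring
    rw [e3, sq, ← mul_assoc]
    rcases le_total 0 y with hy | hy
    · have hu0 : 0 ≤ cl B y := by
        unfold cl
        exact le_max_of_le_right (le_min hB0 hy)
      have huy : cl B y ≤ y := by
        unfold cl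
        apply max_le (by linarith) (min_le_right _ _)
      have huB : cl B y ≤ ρ := ((abs_le.1 (hclb y)).2).trans hBρ
      have h1 := hinc 0 (cl B y) (by linarith) hu0 huB
      have h2 := hFm huy
      have h3 : f₁ * cl B y ≤ F y - F 0 := by linarith
      exact mul_le_mul_of_nonneg_right h3 hu0
    · have hu0 : cl B y ≤ 0 := by
        unfold cl
        apply max_le (by linarith) ((min_le_right _ _).trans hy)
      have huy : y ≤ cl B y := by
        unfold cl
        exact le_max_of_le_right (le_min (by linarith) le_rfl)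
      have huB : -ρ ≤ cl B y := by
        have := (abs_le.1 (hclb y)).1
        linarith
      have h1 := hinc (cl B y) 0 huB hu0 hρ.le
      have h2 := hFm huy
      have h3 : F y - F 0 ≤ f₁ * cl B y := by linarith
      exact mul_le_mul_of_nonpos_right h3 hu0
  have hlim2 := (hlim.sub (hvar.const_mul f₁)).add_const ε
  have hev := hlim2.eventually (lt_mem_nhds (show (0:ℝ) < (∫ p, st c η (p.1 + p.2) * cl B p.2 ∂((τ : Measure ℝ).prod (ϱ : Measure ℝ))) -
    f₁ * (∫ y, cl B y ^ 2 ∂(ϱ : Measure ℝ)) + ε by linarith))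
  obtain ⟨N₀, hN₀⟩ := eventually_atTop.1 hev
  refine ⟨N₀, fun N hN => ?_⟩
  have := hN₀ N hN
  linarith

end Pool.Agent.H592.PD
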