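import Pool.Agent.H592.PD.E8
import Pool.Agent.H592.PD.B6

/-!
# Superlinear mass of the crossings
-/

open MeasureTheory Filter Topology Finset
open Pool.Agent.H383.PZ Pool.Agent.H592.Piltz

namespace Pool.Agent.H592.PD

lemma US_univ {k : ℕ} (hk : 2 ≤ k) {m : ℕ} (hm : 1 ≤ m) : m ∈ US k Set.univ := by
  obtain ⟨r, q, hr, hq, he⟩ := exists_kf hk m hm
  exact ⟨q, Set.mem_univ _, hq, r, hr, by rw [he, mul_comm]⟩

lemma XS_univ {k : ℕ} (hk : 2 ≤ k) (N : ℕ) (r : ℝ) : XS k Set.univ N r = VorSum k N r := by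
  classical
  unfold XS TS FS VorSum
  have e : (Finset.Icc 1 N).filter (· ∈ US k Set.univ) = Finset.Icc 1 N := by
    apply Finset.filter_true_of_mem
    intro m hm
    exact US_univ hk (Finset.mem_Icc.1 hm).1
  rw [e]
  apply Finset.sum_congr rfl
  intro m _
  unfold ak lam fq phk
  rw [dv_cast]
  have e2 : 2 * Real.pi * (k * (m:ℝ) ^ (1 / (k:ℝ))) * 1 * r + ((k:ℝ) - 3) * Real.pi / 4 =
    2 * Real.pi * k * (m:ℝ) ^ (1 / (k:ℝ)) * r + ((k:ℝ) - 3) * Real.pi / 4 := by ring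
  rw [e2]
  ring

lemma VV_XS {k : ℕ} (hk : 2 ≤ k) (h : ℝ) (N : ℕ) (i : Fin 2) (r : ℝ) :
    VV (fun _ : Fin 2 => k) (fun _ => 1) ![0, h] N i r = XS k Set.univ N (r + (![0, h] : Fin 2 → ℝ) i) := by
  rw [VV_part, XS_univ hk, ← VorSum_eq, one_mul]

lemma lam_mono {k : ℕ} (hk : 2 ≤ k) {m m' : ℕ} (h : m ≤ m') : lam k m ≤ lam k m' := by
  rw [lam_eq, lam_eq]
  unfold rt
  have : (0:ℝ) < k := by exact_mod_cast (by omega : 0 < k)
  have := Real.pi_pos
  gcongr

/-- the averaged mean square of the increments of the steps -/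
theorem avg_gm {k : ℕ} (hk : 2 ≤ k) (c : ℝ) {K : ℝ} (hK : 0 < K) : ∃ h₀ ρ : ℝ, 0 < h₀ ∧ 0 < ρ ∧ ∀ η : ℝ, 0 < η → η ≤ ρ →
    ∃ N₀ : ℕ, ∀ N : ℕ, N₀ ≤ N → 16 * K * h₀ ^ 2 ≤ ∫ h in h₀..(2*h₀), Gm (fun r => st c η (XS k Set.univ N r)) h := by
  classical
  obtain ⟨f₀, ρ, hf₀, hρ, D₁, hpair⟩ := pairing_lower hk c
  have hk0 : (0:ℝ) < k := by exact_mod_cast (by omega : 0 < k)
  have hpi := Real.pi_pos
  obtain ⟨D₀, hD₀⟩ := big_var hk (256 * K / (f₀ ^ 2 * Real.pi * k))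
  set D := max (max D₀ D₁) 1 with hD
  have hD0 : D₀ ≤ D := (le_max_left _ _).trans (le_max_left _ _)
  have hD1 : D₁ ≤ D := (le_max_right _ _).trans (le_max_left _ _)
  have hD2 : 1 ≤ D := le_max_right _ _
  have hlD := lam_pos hk hD2
  set h₀ := 4 / lam k D with hh₀
  have hh₀0 : 0 < h₀ := by positivity
  have hvar := hD₀ D hD0
  have hrt : (D:ℝ) ^ (1 / (k:ℝ)) = 2 / (Real.pi * k * h₀) := by
    have e1 : lam k D = 2 * Real.pi * k * (D:ℝ) ^ (1 / (k:ℝ)) := by rw [lam_eq]; rfl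
    have e2 : h₀ * lam k D = 4 := by rw [hh₀]; field_simp
    rw [e1] at e2
    rw [eq_div_iff (by positivity)]
    linarith
  rw [hrt] at hvar
  set S := ∑ q ∈ OQ D, ak k q ^ 2 with hS
  have hSlow : 128 * K * h₀ ≤ f₀ ^ 2 * S := by
    rw [div_le_iff₀ (by positivity)] at hvar
    have e3 : 2 / (Real.pi * k * h₀) * S * (f₀ ^ 2 * Real.pi * k) = 2 * (f₀ ^ 2 * S) / h₀ := by
      field_simp
    rw [e3, le_div_iff₀ hh₀0] at hvar
    linarith
  refine ⟨h₀, ρ, hh₀0, hρ, fun η hη hηρ => ?_⟩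
  have hOQ : ∀ q ∈ OQ D, D < q ∧ q ≤ 2 * D ∧ ¬ 2 ∣ q ∧ KF k q := fun q hq => OQ_prop hk hq
  have hakpos : ∀ q ∈ OQ D, 0 < ak k q := by
    intro q hq
    obtain ⟨h1, -, -, -⟩ := hOQ q hq
    unfold ak
    have h2 : 1 ≤ dk k q := dk_one_le (by omega) (by omega)
    have h3 : (0:ℝ) < q := by exact_mod_cast (by omega : 0 < q)
    positivity
  have hchoose : ∀ q : ℕ, ∃ N₀ : ℕ, q ∈ OQ D → ∀ N : ℕ, N₀ ≤ N →
      f₀ * Mn (fun r => XS k {q} N r ^ 2) ≤ Mn (fun r => st c η (XS k Set.univ N r) * XS k {q} N r) + f₀ * ak k q ^ 2 / 4 := by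
    intro q
    by_cases hq : q ∈ OQ D
    · obtain ⟨h1, h2, h3, h4⟩ := hOQ q hq
      have := hakpos q hq
      obtain ⟨N₀, hN₀⟩ := hpair q h4 h3 (by omega) η hη hηρ (f₀ * ak k q ^ 2 / 4) (by positivity)
      exact ⟨N₀, fun _ => hN₀⟩
    · exact ⟨0, fun h => absurd h hq⟩
  choose M hM using hchoose
  refine ⟨2 * D + ∑ q ∈ OQ D, M q, fun N hN => ?_⟩
  set g : ℝ → ℝ := fun r => st c η (XS k Set.univ N r) with hg
  have hgAP : AP g := AP_comp1 (TS_AP k _ N) (st_cont c η)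
  set cls : ℕ → Finset ℕ := fun q => (Finset.Icc 1 N).filter (· ∈ US k {q}) with hcls
  have hXF : ∀ q r, XS k {q} N r = FS k (cls q) r := by
    intro q r
    rfl
  have hW : ∀ q ∈ OQ D, f₀ ^ 2 * ak k q ^ 2 / 16 ≤ ∑ m ∈ cls q, (Cc g (lam k m) ^ 2 + Ds g (lam k m) ^ 2) := by
    intro q hq
    obtain ⟨h1, h2, h3, h4⟩ := hOQ q hq
    have hMq : M q ≤ ∑ q ∈ OQ D, M q := Finset.single_le_sum (f := M) (fun _ _ => Nat.zero_le _) hq
    have h5 := hM q hq N (by omega)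
    have h6 := XS_var_ge hk h4 (N := N) (by omega)
    have h7 := pair_le (k := k) hgAP (cls q)
    have h8 : Mn (fun r => XS k {q} N r ^ 2) = (∑ m ∈ cls q, ak k m ^ 2) / 2 := by
      rw [← Mn_FS_sq hk (s := cls q) (fun m hm => (Finset.mem_Icc.1 (Finset.mem_filter.1 hm).1).1)]
      congr 1
    have h9 : (fun r => g r * FS k (cls q) r) = fun r => st c η (XS k Set.univ N r) * XS k {q} N r := by
      funext r
      rw [hXF]
    rw [h9] at h7
    rw [h8] at h5 h6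
    set P := Mn (fun r => st c η (XS k Set.univ N r) * XS k {q} N r) with hP
    set A := ∑ m ∈ cls q, ak k m ^ 2 with hA
    set W := ∑ m ∈ cls q, (Cc g (lam k m) ^ 2 + Ds g (lam k m) ^ 2) with hW
    have ha := hakpos q hq
    have hA0 : 0 < A := by
      have : 0 < ak k q ^ 2 := by positivity
      linarith
    have h10 : f₀ * A / 4 ≤ P := by
      have : f₀ * ak k q ^ 2 ≤ f₀ * A := mul_le_mul_of_nonneg_left (by linarith) hf₀.le
      linarith
    have h11 : (f₀ * A / 4) ^ 2 ≤ A * W := (pow_le_pow_left₀ (by positivity) h10 2).trans h7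
    have h12 : f₀ ^ 2 * A / 16 ≤ W := by
      have e : (f₀ * A / 4) ^ 2 = A * (f₀ ^ 2 * A / 16) := by ring
      rw [e] at h11
      exact le_of_mul_le_mul_left h11 hA0
    have h13 : f₀ ^ 2 * ak k q ^ 2 ≤ f₀ ^ 2 * A := mul_le_mul_of_nonneg_left (by linarith) (by positivity)
    linarith
  have hdisj : Set.PairwiseDisjoint (OQ D : Set ℕ) cls := by
    intro q hq q' hq' hne
    rw [Function.onFun, Finset.disjoint_left]
    intro m h1 h2
    simp only [hcls, Finset.mem_filter] at h1 h2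
    exact Set.disjoint_left.1 (US_disj (k := k) (Q := {q}) (Q' := {q'}) (by
      rw [Set.disjoint_singleton]; exact hne)) h1.2 h2.2
  have hbes := avg_bessel hk hgAP hh₀0 ((OQ D).biUnion cls) (fun m hm => by
    obtain ⟨q, hq, hmq⟩ := Finset.mem_biUnion.1 hm
    simp only [hcls, Finset.mem_filter, Finset.mem_Icc] at hmq
    refine ⟨hmq.1.1, ?_⟩
    obtain ⟨q', hq', -, j, hj, he⟩ := hmq.2
    rw [Set.mem_singleton_iff] at hq'
    subst hq'
    have h1 : q' ≤ m := by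
      rw [he]; exact Nat.le_mul_of_pos_right _ (by positivity)
    have h2 : lam k D ≤ lam k m := lam_mono hk (by have := (hOQ q' hq).1; omega)
    calc (4:ℝ) = lam k D * h₀ := by rw [hh₀]; field_simp
      _ ≤ lam k m * h₀ := by gcongr)
  rw [Finset.sum_biUnion hdisj] at hbes
  refine le_trans ?_ hbes
  have h1 : f₀ ^ 2 * S / 16 ≤ ∑ q ∈ OQ D, ∑ m ∈ cls q, (Cc g (lam k m) ^ 2 + Ds g (lam k m) ^ 2) := by
    rw [hS, Finset.mul_sum, Finset.sum_div]
    exact Finset.sum_le_sum hW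
  have h2 : 8 * K * h₀ ≤ ∑ q ∈ OQ D, ∑ m ∈ cls q, (Cc g (lam k m) ^ 2 + Ds g (lam k m) ^ 2) := by linarith
  calc 16 * K * h₀ ^ 2 = 2 * h₀ * (8 * K * h₀) := by ring
    _ ≤ _ := by gcongr

/-- the bump -/
noncomputable def bm (c η x : ℝ) : ℝ := max 0 (min 1 (3 - |x - c| / η))

lemma bm_cont (c η : ℝ) : Continuous (bm c η) := by unfold bm; fun_prop

lemma bm_nonneg (c η x : ℝ) : 0 ≤ bm c η x := le_max_left _ _

lemma bm_le_one (c η x : ℝ) : bm c η x ≤ 1 := max_le zero_le_one (min_le_left _ _)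

lemma bm_abs (c η x : ℝ) : |bm c η x| ≤ 1 := by rw [abs_of_nonneg (bm_nonneg c η x)]; exact bm_le_one c η x

lemma bm_one {c η x : ℝ} (hη : 0 < η) (h : |x - c| ≤ 2 * η) : bm c η x = 1 := by
  unfold bm
  rw [min_eq_left, max_eq_right zero_le_one]
  have : |x - c| / η ≤ 2 := by rw [div_le_iff₀ hη]; linarith
  linarith

lemma bm_zero {c η x : ℝ} (hη : 0 < η) (h : 3 * η ≤ |x - c|) : bm c η x = 0 := by
  unfold bm
  apply max_eq_left
  refine (min_le_right _ _).trans ?_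
  have : 3 ≤ |x - c| / η := by rw [le_div_iff₀ hη]; linarith
  linarith

/-- the mass near a level is small -/
lemma bm_small {k : ℕ} (hk : 2 ≤ k) (c : ℝ) {ν : ProbabilityMeasure ℝ} (hν : Lim (XS k Set.univ) ν) {ε : ℝ} (hε : 0 < ε) :
    ∃ η₀ : ℝ, 0 < η₀ ∧ ∀ η : ℝ, 0 < η → η ≤ η₀ → ∫ x, bm c η x ∂(ν : Measure ℝ) ≤ ε := by
  obtain ⟨f, hf, hf0, hfd, -⟩ := density hk ((rich_odd hk).mono (Set.subset_univ _)) hν
  obtain ⟨M, hM⟩ := (isCompact_Icc (a := c - 3) (b := c + 3)).exists_bound_of_continuousOn hf.continuousOn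
  set M' := max M 1 with hM'
  have hM'0 : 0 < M' := lt_of_lt_of_le one_pos (le_max_right _ _)
  have hfM : ∀ x, |x - c| ≤ 3 → f x ≤ M' := by
    intro x hx
    rw [abs_le] at hx
    have := hM x ⟨by linarith [hx.1], by linarith [hx.2]⟩
    rw [Real.norm_eq_abs] at this
    exact (le_abs_self _).trans (this.trans (le_max_left _ _))
  refine ⟨min 1 (ε / (6 * M')), by positivity, fun η hη hηη => ?_⟩
  have hη1 : η ≤ 1 := hηη.trans (min_le_left _ _)
  have hη2 : η ≤ ε / (6 * M') := hηη.trans (min_le_right _ _)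
  obtain ⟨hi, he⟩ := wd_int hf hf0 hfd (bm_cont c η) (bm_abs c η)
  rw [he]
  have h1 : ∫ x, bm c η x * f x ≤ ∫ x, (Set.Icc (c - 3 * η) (c + 3 * η)).indicator (fun _ => M') x := by
    apply integral_mono hi
    · rw [integrable_indicator_iff measurableSet_Icc]
      exact integrableOn_const (by rw [Real.volume_Icc]; exact ENNReal.ofReal_ne_top)
    · intro x
      change bm c η x * f x ≤ _
      by_cases hx : x ∈ Set.Icc (c - 3 * η) (c + 3 * η)
      · rw [Set.indicator_of_mem hx]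
        have h2 : f x ≤ M' := hfM x (by rw [abs_le]; constructor <;> linarith [hx.1, hx.2])
        calc bm c η x * f x ≤ 1 * M' := mul_le_mul (bm_le_one _ _ _) h2 (hf0 x) zero_le_one
          _ = M' := one_mul _
      · rw [Set.indicator_of_notMem hx, bm_zero hη, zero_mul]
        by_contra hcon
        push Not at hcon
        rw [abs_lt] at hcon
        exact hx ⟨by linarith [hcon.1], by linarith [hcon.2]⟩
  refine h1.trans ?_
  rw [integral_indicator measurableSet_Icc, setIntegral_const, Measure.real, Real.volume_Icc,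
    ENNReal.toReal_ofReal (by linarith), smul_eq_mul]
  have h3 : η * (6 * M') ≤ ε := by rwa [le_div_iff₀ (by positivity)] at hη2
  linarith

/-- the pointwise inequality -/
lemma st_split {c η : ℝ} (hη : 0 < η) (a b : ℝ) :
    st c η a * (1 - st c η b) ≤ st (c + 3 * η / 2) (η / 2) a * (1 - st (c - 3 * η / 2) (η / 2) b) + bm c η a + bm c η b := by
  have hη2 : 0 < η / 2 := by linarith
  have n1 := bm_nonneg c η a
  have n2 := bm_nonneg c η b
  have n3 : 0 ≤ st (c + 3 * η / 2) (η / 2) a * (1 - st (c - 3 * η / 2) (η / 2) b) :=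
    mul_nonneg (st_nonneg _ _ _) (by linarith [st_le_one (c - 3 * η / 2) (η / 2) b])
  have n4 : st c η a * (1 - st c η b) ≤ 1 := by
    have := st_nonneg c η a
    have := st_le_one c η a
    have := st_nonneg c η b
    have := st_le_one c η b
    nlinarith
  by_cases ha : |a - c| ≤ 2 * η
  · rw [bm_one hη ha]; linarith
  by_cases hb : |b - c| ≤ 2 * η
  · rw [bm_one hη hb]; linarith
  push Not at ha hb
  rcases lt_abs.1 ha with ha1 | ha1
  · rcases lt_abs.1 hb with hb1 | hb1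
    · rw [st_one (x := b) hη (by linarith)]
      linarith
    · have e1 : st (c + 3 * η / 2) (η / 2) a = 1 := st_one hη2 (by linarith)
      have e2 : st (c - 3 * η / 2) (η / 2) b = 0 := st_zero hη2 (by linarith)
      rw [e1, e2] at n3 ⊢
      linarith
  · rw [st_zero (x := a) hη (by linarith)]
    linarith

/-- **superlinear mass of the crossings** -/
theorem superlin {k : ℕ} (hk : 2 ≤ k) (c : ℝ) {K : ℝ} (hK : 0 < K) : ∃ h η : ℝ, 0 < h ∧ 0 < η ∧
    ∃ μ : ProbabilityMeasure (Fin 2 → ℝ), IsLim (VV (fun _ : Fin 2 => k) (fun _ => 1) ![0, h]) μ ∧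
    K * h ≤ ∫ x, st (c + 3 * η / 2) (η / 2) (x 0) * (1 - st (c - 3 * η / 2) (η / 2) (x 1)) ∂(μ : Measure (Fin 2 → ℝ)) := by
  obtain ⟨h₀, ρ, hh₀, hρ, hav⟩ := avg_gm hk c hK
  obtain ⟨ν, hν⟩ := exists_Lim (XS_MS hk Set.univ)
  obtain ⟨η₀, hη₀, hbm⟩ := bm_small hk c hν (ε := K * h₀ / 4) (by positivity)
  set η := min ρ η₀ with hη_def
  have hη : 0 < η := lt_min hρ hη₀
  obtain ⟨N₀, hN₀⟩ := hav η hη (min_le_left _ _)
  have hbm' := hbm η hη (min_le_right _ _)
  have hex : ∀ h : ℝ, ∃ μ : ProbabilityMeasure (Fin 2 → ℝ), IsLim (VV (fun _ : Fin 2 => k) (fun _ => 1) ![0, h]) μ :=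
    fun h => exists_limit_law (VV_MSC (fun _ => hk) (fun _ => one_pos))
  choose μ hμ using hex
  have hst := st_cont c η
  set G : ℝ → ℝ := fun h => ∫ x, (st c η (x 1) - st c η (x 0)) ^ 2 ∂(μ h : Measure (Fin 2 → ℝ)) with hG
  have hV0 : ∀ (h : ℝ) (N : ℕ) (r : ℝ), VV (fun _ : Fin 2 => k) (fun _ => 1) ![0, h] N 0 r = XS k Set.univ N r := by
    intro h N r
    rw [VV_XS hk]
    simp
  have hV1 : ∀ (h : ℝ) (N : ℕ) (r : ℝ), VV (fun _ : Fin 2 => k) (fun _ => 1) ![0, h] N 1 r = XS k Set.univ N (r + h) := by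
    intro h N r
    rw [VV_XS hk]
    simp
  have hgAP : ∀ N, AP (fun r => st c η (XS k Set.univ N r)) := fun N => AP_comp1 (TS_AP k _ N) hst
  have hlim : ∀ h, Tendsto (fun N => Gm (fun r => st c η (XS k Set.univ N r)) h) atTop (𝓝 (G h)) := by
    intro h
    have h1 := hμ h (fun x => (st c η (x 1) - st c η (x 0)) ^ 2) (by fun_prop) ⟨1, fun x => by
      rw [abs_of_nonneg (sq_nonneg _)]
      have := st_nonneg c η (x 0)
      have := st_le_one c η (x 0)
      have := st_nonneg c η (x 1)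
      have := st_le_one c η (x 1)
      nlinarith⟩
    refine h1.congr (fun N => ?_)
    unfold Gm
    congr 1
    funext r
    dsimp only
    rw [hV0, hV1]
  have hGm1 : ∀ N h, |Gm (fun r => st c η (XS k Set.univ N r)) h| ≤ 1 := by
    intro N h
    unfold Gm
    have hA := AP_sq (AP_sub (AP_shift (hgAP N) h) (hgAP N))
    rw [abs_of_nonneg (Mn_nonneg hA (fun r => sq_nonneg _))]
    have h1 := Mn_mono hA (AP_const 1) (fun r => by
      have := st_nonneg c η (XS k Set.univ N r)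
      have := st_le_one c η (XS k Set.univ N r)
      have := st_nonneg c η (XS k Set.univ N (r + h))
      have := st_le_one c η (XS k Set.univ N (r + h))
      nlinarith)
    rwa [Mn_const] at h1
  -- a good value of `h`
  obtain ⟨h, hh1, hh2, hGh⟩ : ∃ h, h₀ ≤ h ∧ h ≤ 2 * h₀ ∧ 15 * K * h₀ ≤ G h := by
    by_contra hcon
    push Not at hcon
    have h1 : Tendsto (fun N => ∫ h in h₀..(2*h₀), Gm (fun r => st c η (XS k Set.univ N r)) h) atTop (𝓝 (∫ h in h₀..(2*h₀), G h)) := by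
      apply intervalIntegral.tendsto_integral_filter_of_dominated_convergence (fun _ => (1:ℝ))
      · exact Eventually.of_forall fun N => (Gm_cont (hgAP N)).aestronglyMeasurable
      · exact Eventually.of_forall fun N => Eventually.of_forall fun h _ => by rw [Real.norm_eq_abs]; exact hGm1 N h
      · simp
      · exact Eventually.of_forall fun h _ => hlim h
    have h2 : 16 * K * h₀ ^ 2 ≤ ∫ h in h₀..(2*h₀), G h := by
      apply ge_of_tendsto h1
      filter_upwards [eventually_ge_atTop N₀] with N hN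
      exact hN₀ N hN
    have h3 : ‖∫ h in h₀..(2*h₀), G h‖ ≤ 15 * K * h₀ * |2 * h₀ - h₀| := by
      apply intervalIntegral.norm_integral_le_of_norm_le_const
      intro h hh
      rw [Set.uIoc_of_le (by linarith)] at hh
      have h4 := hcon h hh.1.le hh.2
      rw [Real.norm_eq_abs, abs_of_nonneg (by rw [hG]; exact integral_nonneg (fun _ => sq_nonneg _))]
      exact h4.le
    rw [show 2 * h₀ - h₀ = h₀ by ring, abs_of_pos hh₀, Real.norm_eq_abs] at h3
    have h4 := le_abs_self (∫ h in h₀..(2*h₀), G h)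
    have h5 : 0 < K * h₀ ^ 2 := by positivity
    nlinarith
  have hh : 0 < h := by linarith
  refine ⟨h, η, hh, hη, μ h, hμ h, ?_⟩
  -- marginals
  have hmarg : ∀ f : ℝ → ℝ, Continuous f → (∀ x, |f x| ≤ 1) → (∫ x, f (x 0) ∂(μ h : Measure (Fin 2 → ℝ)) = ∫ x, f x ∂(ν : Measure ℝ)) ∧
      (∫ x, f (x 1) ∂(μ h : Measure (Fin 2 → ℝ)) = ∫ x, f x ∂(ν : Measure ℝ)) := by
    intro f hf hb
    have h1 := hν f hf ⟨1, hb⟩
    have h2 := hμ h (fun x => f (x 0)) (by fun_prop) ⟨1, fun x => hb _⟩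
    have h3 := hμ h (fun x => f (x 1)) (by fun_prop) ⟨1, fun x => hb _⟩
    constructor
    · refine tendsto_nhds_unique h2 (h1.congr fun N => ?_)
      congr 1
      funext r
      dsimp only
      rw [hV0]
    · refine tendsto_nhds_unique h3 (h1.congr fun N => ?_)
      have h4 := Mn_shift (AP_comp1 (show AP (XS k Set.univ N) from TS_AP k _ N) hf) h
      rw [← h4]
      congr 1
      funext r
      dsimp only
      rw [hV1]
  have hI : ∀ f : (Fin 2 → ℝ) → ℝ, Continuous f → (∀ x, |f x| ≤ 1) → Integrable f (μ h : Measure (Fin 2 → ℝ)) := fun f hf hb =>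
    Integrable.of_bound hf.aestronglyMeasurable 1 (Eventually.of_forall fun x => by rw [Real.norm_eq_abs]; exact hb x)
  obtain ⟨ma0, ma1⟩ := hmarg (st c η) hst (st_abs c η)
  obtain ⟨mb0, mb1⟩ := hmarg (bm c η) (bm_cont c η) (bm_abs c η)
  have hprod : ∀ s t : ℝ, 0 ≤ s → s ≤ 1 → 0 ≤ t → t ≤ 1 → |s * (1 - t)| ≤ 1 := by
    intro s t h1 h2 h3 h4
    rw [abs_of_nonneg (mul_nonneg h1 (by linarith))]
    nlinarith
  have i1 : Integrable (fun x : Fin 2 → ℝ => st c η (x 0) * (1 - st c η (x 1))) (μ h : Measure (Fin 2 → ℝ)) :=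
    hI _ (by fun_prop) (fun x => hprod _ _ (st_nonneg _ _ _) (st_le_one _ _ _) (st_nonneg _ _ _) (st_le_one _ _ _))
  have hst1 := st_cont (c + 3 * η / 2) (η / 2)
  have hst2 := st_cont (c - 3 * η / 2) (η / 2)
  have i2 : Integrable (fun x : Fin 2 → ℝ => st (c + 3 * η / 2) (η / 2) (x 0) * (1 - st (c - 3 * η / 2) (η / 2) (x 1))) (μ h : Measure (Fin 2 → ℝ)) :=
    hI _ (by fun_prop) (fun x => hprod _ _ (st_nonneg _ _ _) (st_le_one _ _ _) (st_nonneg _ _ _) (st_le_one _ _ _))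
  have i3 : Integrable (fun x : Fin 2 → ℝ => st c η (x 0)) (μ h : Measure (Fin 2 → ℝ)) := hI _ (by fun_prop) (fun x => st_abs _ _ _)
  have i4 : Integrable (fun x : Fin 2 → ℝ => st c η (x 1)) (μ h : Measure (Fin 2 → ℝ)) := hI _ (by fun_prop) (fun x => st_abs _ _ _)
  have hbmc := bm_cont c η
  have i5 : Integrable (fun x : Fin 2 → ℝ => bm c η (x 0)) (μ h : Measure (Fin 2 → ℝ)) := hI _ (by fun_prop) (fun x => bm_abs _ _ _)
  have i6 : Integrable (fun x : Fin 2 → ℝ => bm c η (x 1)) (μ h : Measure (Fin 2 → ℝ)) := hI _ (by fun_prop) (fun x => bm_abs _ _ _)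
  have h1 : G h ≤ 2 * ∫ x, st c η (x 0) * (1 - st c η (x 1)) ∂(μ h : Measure (Fin 2 → ℝ)) := by
    have h2 : G h ≤ ∫ x, (2 * (st c η (x 0) * (1 - st c η (x 1))) + (st c η (x 1) - st c η (x 0))) ∂(μ h : Measure (Fin 2 → ℝ)) := by
      apply integral_mono
      · apply hI _ (by fun_prop)
        intro x
        rw [abs_of_nonneg (sq_nonneg _)]
        have := st_nonneg c η (x 0)
        have := st_le_one c η (x 0)
        have := st_nonneg c η (x 1)
        have := st_le_one c η (x 1)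
        nlinarith
      · exact (i1.const_mul 2).add (i4.sub i3)
      · intro x
        have := st_nonneg c η (x 0)
        have := st_le_one c η (x 0)
        have := st_nonneg c η (x 1)
        have := st_le_one c η (x 1)
        change (st c η (x 1) - st c η (x 0)) ^ 2 ≤ 2 * (st c η (x 0) * (1 - st c η (x 1))) + (st c η (x 1) - st c η (x 0))
        nlinarith
    have h3 : ∫ x, (2 * (st c η (x 0) * (1 - st c η (x 1))) + (st c η (x 1) - st c η (x 0))) ∂(μ h : Measure (Fin 2 → ℝ)) =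
        (∫ x, 2 * (st c η (x 0) * (1 - st c η (x 1))) ∂(μ h : Measure (Fin 2 → ℝ))) +
        ∫ x, (st c η (x 1) - st c η (x 0)) ∂(μ h : Measure (Fin 2 → ℝ)) := integral_add (i1.const_mul 2) (i4.sub i3)
    rw [h3, integral_sub i4 i3, integral_const_mul, ma0, ma1] at h2
    linarith
  have h2 : ∫ x, st c η (x 0) * (1 - st c η (x 1)) ∂(μ h : Measure (Fin 2 → ℝ)) ≤
      (∫ x, st (c + 3 * η / 2) (η / 2) (x 0) * (1 - st (c - 3 * η / 2) (η / 2) (x 1)) ∂(μ h : Measure (Fin 2 → ℝ))) +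
      (∫ x, bm c η x ∂(ν : Measure ℝ)) + ∫ x, bm c η x ∂(ν : Measure ℝ) := by
    have h3 : ∫ x, (st (c + 3 * η / 2) (η / 2) (x 0) * (1 - st (c - 3 * η / 2) (η / 2) (x 1)) + bm c η (x 0) + bm c η (x 1)) ∂(μ h : Measure (Fin 2 → ℝ)) =
        (∫ x, (st (c + 3 * η / 2) (η / 2) (x 0) * (1 - st (c - 3 * η / 2) (η / 2) (x 1)) + bm c η (x 0)) ∂(μ h : Measure (Fin 2 → ℝ))) +
        ∫ x, bm c η (x 1) ∂(μ h : Measure (Fin 2 → ℝ)) := integral_add (i2.add i5) i6
    have h4 : ∫ x, (st (c + 3 * η / 2) (η / 2) (x 0) * (1 - st (c - 3 * η / 2) (η / 2) (x 1)) + bm c η (x 0)) ∂(μ h : Measure (Fin 2 → ℝ)) =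
        (∫ x, (st (c + 3 * η / 2) (η / 2) (x 0) * (1 - st (c - 3 * η / 2) (η / 2) (x 1))) ∂(μ h : Measure (Fin 2 → ℝ))) +
        ∫ x, bm c η (x 0) ∂(μ h : Measure (Fin 2 → ℝ)) := integral_add i2 i5
    rw [mb0] at h4
    rw [mb1, h4] at h3
    rw [← h3]
    apply integral_mono i1 ((i2.add i5).add i6)
    intro x
    exact st_split hη (x 0) (x 1)
  have h3 : K * h ≤ K * (2 * h₀) := by gcongr
  have h4 : 0 < K * h₀ := by positivity
  linarith

end Pool.Agent.H592.PD
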